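import Pool.Agent.Lib.MP_5c685b_co.LogFinal

set_option autoImplicit false

/-!
# MP_5c685b_co, section 9: reduction to `r ^ 20` vertices

`FinThm`: the finite theorem on vertex sets with exactly `r ^ 20` elements, in the form of a law on
cliques with one error function on triples. `core_of_fin : FinThm → Core`: average over the random
`r ^ 20`-subsets of the vertex set.
-/

namespace Pool.Agent.Lib.MP_5c685b_co

open Finset

set_option linter.unusedSectionVars false
set_option linter.unusedVariables false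

/-- A law on the cliques with at least `4 r` vertices, and an error function. -/
def CritData (r : ℕ) (lam c : ℝ) {V : Type} [Fintype V] [DecidableEq V] (G : Finset (Finset V)) :
    Prop :=
  ∃ (P : Finset V → ℝ) (η : Finset V → ℝ), (∀ J, 0 ≤ P J) ∧
    (∀ J, P J ≠ 0 → MP5c68.Cl G J ∧ 4 * r ≤ J.card ∧ ∑ e ∈ J.powersetCard 3, η e ^ 2 ≤ c ^ 2) ∧
    ∀ e ∈ G, (∑ J ∈ univ.filter (fun J => e ⊆ J), P J) * (1 - η e) = lam

/-- The finite theorem. -/
def FinThm : Prop :=
  ∃ c : ℝ, 0 < c ∧ ∃ r₀ : ℕ, ∀ r : ℕ, r₀ ≤ r → ∃ lam : ℝ, 0 < lam ∧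
    ∀ (V : Type) [Fintype V] [DecidableEq V], Fintype.card V = r ^ 20 →
    ∀ G : Finset (Finset V), (∀ e ∈ G, e.card = 3) →
      (∀ a b : V, a ≠ b →
        ((univ.filter (fun v => v ≠ a ∧ v ≠ b ∧ ({a, b, v} : Finset V) ∉ G)).card : ℝ)
          ≤ c * Real.log r / (r : ℝ) ^ 2 * (r : ℝ) ^ 20) →
      CritData r lam (1 / 100) G

/-! ## Transport from a subset -/

variable {V : Type} [Fintype V] [DecidableEq V]

/-- the 3-graph induced on `S` -/
def GS (G : Finset (Finset V)) (S : Finset V) : Finset (Finset {x // x ∈ S}) :=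
  univ.filter (fun e => e.map (Function.Embedding.subtype _) ∈ G)

private theorem s9_sub_map (S : Finset V) (t : Finset {x // x ∈ S}) :
    (t.map (Function.Embedding.subtype _)).subtype (fun x => x ∈ S) = t := by
  ext ⟨x, hx⟩
  simp [hx]

private theorem s9_map_sub (S : Finset V) {t : Finset V} (h : t ⊆ S) :
    (t.subtype (fun x => x ∈ S)).map (Function.Embedding.subtype _) = t := by
  ext x
  simp only [mem_map, mem_subtype, Function.Embedding.subtype_apply, Subtype.exists,
    exists_and_right, exists_eq_right]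
  exact ⟨fun ⟨_, h⟩ => h, fun hx => ⟨h hx, hx⟩⟩

theorem rel_of_sub {r : ℕ} {lam c : ℝ} {S : Finset V} {G : Finset (Finset V)}
    (h : CritData r lam c (GS G S)) :
    ∃ (P : Finset V → ℝ) (η : Finset V → ℝ), (∀ J, 0 ≤ P J) ∧
      (∀ J, P J ≠ 0 → J ⊆ S ∧ MP5c68.Cl G J ∧ 4 * r ≤ J.card ∧
        ∑ e ∈ J.powersetCard 3, η e ^ 2 ≤ c ^ 2) ∧
      ∀ e ∈ G, e ⊆ S → (∑ J ∈ univ.filter (fun J => e ⊆ J), P J) * (1 - η e) = lam := by
  obtain ⟨P', η', h0, h1, h2⟩ := h
  refine ⟨fun J => if J ⊆ S then P' (J.subtype (fun x => x ∈ S)) else 0,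
    fun e => η' (e.subtype (fun x => x ∈ S)), fun J => ?_, fun J hJ => ?_, fun e he heS => ?_⟩
  · simp only
    split_ifs
    · exact h0 _
    · exact le_refl _
  · simp only [ne_eq, ite_eq_right_iff, Classical.not_imp] at hJ
    obtain ⟨hJS, hP⟩ := hJ
    obtain ⟨hcl, hcard, hsum⟩ := h1 _ hP
    set J' : Finset {x // x ∈ S} := J.subtype (fun x => x ∈ S) with hJ'
    have hJeq : J'.map (Function.Embedding.subtype _) = J := s9_map_sub S hJS
    refine ⟨hJS, ?_, ?_, ?_⟩
    · intro e he hc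
      have heS : e ⊆ S := he.trans hJS
      have h3 := hcl (e.subtype (fun x => x ∈ S)) (by
        intro x hx
        rw [mem_subtype] at hx
        rw [hJ', mem_subtype]
        exact he hx) (by
        rw [← card_map (Function.Embedding.subtype _), s9_map_sub S heS]
        exact hc)
      rw [GS, mem_filter, s9_map_sub S heS] at h3
      exact h3.2
    · rw [← hJeq, card_map]
      exact hcard
    · refine le_trans (le_of_eq ?_) hsum
      refine sum_nbij' (fun e => e.subtype (fun x => x ∈ S))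
        (fun e => e.map (Function.Embedding.subtype _)) ?_ ?_ ?_ ?_ ?_
      · intro e he
        rw [mem_powersetCard] at he ⊢
        refine ⟨?_, ?_⟩
        · intro x hx
          rw [mem_subtype] at hx
          rw [hJ', mem_subtype]
          exact he.1 hx
        · rw [← card_map (Function.Embedding.subtype _), s9_map_sub S (he.1.trans hJS)]
          exact he.2
      · intro e he
        rw [mem_powersetCard] at he ⊢
        refine ⟨?_, ?_⟩
        · rw [← hJeq]
          exact map_subset_map.2 he.1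
        · rw [card_map]
          exact he.2
      · intro e he
        exact s9_map_sub S ((mem_powersetCard.1 he).1.trans hJS)
      · intro e _
        exact s9_sub_map S e
      · intro e _
        rfl
  · have h3 := h2 (e.subtype (fun x => x ∈ S)) (by
      rw [GS, mem_filter, s9_map_sub S heS]
      exact ⟨mem_univ _, he⟩)
    rw [← h3]
    congr 1
    rw [← sum_filter]
    symm
    refine sum_nbij' (fun J => J.map (Function.Embedding.subtype _))
      (fun J => J.subtype (fun x => x ∈ S)) ?_ ?_ ?_ ?_ ?_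
    · intro J hJ
      rw [mem_filter] at hJ
      rw [mem_filter, mem_filter]
      refine ⟨⟨mem_univ _, ?_⟩, ?_⟩
      · have := map_subset_map (f := Function.Embedding.subtype _).2 hJ.2
        rwa [s9_map_sub S heS] at this
      · intro x hx
        rw [mem_map] at hx
        obtain ⟨y, _, rfl⟩ := hx
        exact y.2
    · intro J hJ
      rw [mem_filter, mem_filter] at hJ
      rw [mem_filter]
      refine ⟨mem_univ _, ?_⟩
      intro x hx
      rw [mem_subtype] at hx ⊢
      exact hJ.1.2 hx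
    · intro J _
      exact s9_sub_map S J
    · intro J hJ
      rw [mem_filter] at hJ
      exact s9_map_sub S hJ.2
    · intro J _
      rw [s9_sub_map]

/-! ## Counting -/

private theorem s9_ratio (j : ℕ) : ∀ N M : ℕ, j ≤ M → M ≤ N →
    (((N - j).choose (M - j) : ℕ) : ℝ) ≤ (N.choose M : ℝ) * ((M : ℝ) / N) ^ j := by
  induction j with
  | zero => intro N M _ _; simp
  | succ j ih =>
    intro N M hj hM
    obtain ⟨M', rfl⟩ : ∃ M', M = M' + 1 := ⟨M - 1, by omega⟩
    obtain ⟨N', rfl⟩ : ∃ N', N = N' + 1 := ⟨N - 1, by omega⟩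
    have h1 := ih N' M' (by omega) (by omega)
    have e1 : N' + 1 - (j + 1) = N' - j := by omega
    have e2 : M' + 1 - (j + 1) = M' - j := by omega
    rw [e1, e2]
    have hN0 : (0 : ℝ) < ((N' + 1 : ℕ) : ℝ) := by positivity
    have h2 : (N'.choose M' : ℝ) = ((N' + 1).choose (M' + 1) : ℝ) * (((M' + 1 : ℕ) : ℝ) / ((N' + 1 : ℕ) : ℝ)) := by
      have h3 := Nat.add_one_mul_choose_eq N' M'
      have h4 : (((N' + 1 : ℕ) : ℝ)) * (N'.choose M' : ℝ) = ((N' + 1).choose (M' + 1) : ℝ) * ((M' + 1 : ℕ) : ℝ) := by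
        exact_mod_cast h3
      field_simp
      linarith
    have h5 : ((M' : ℝ) / N') ≤ (((M' + 1 : ℕ) : ℝ) / ((N' + 1 : ℕ) : ℝ)) := by
      rcases Nat.eq_zero_or_pos N' with h0 | h0
      · subst h0
        simp only [Nat.cast_zero, div_zero]
        positivity
      · have h0' : (0 : ℝ) < (N' : ℝ) := by exact_mod_cast h0
        rw [div_le_div_iff₀ h0' hN0]
        have : (M' : ℝ) ≤ N' := by exact_mod_cast (by omega : M' ≤ N')
        push_cast
        nlinarith
    calc (((N' - j).choose (M' - j) : ℕ) : ℝ) ≤ (N'.choose M' : ℝ) * ((M' : ℝ) / N') ^ j := h1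
      _ ≤ (((N' + 1).choose (M' + 1) : ℝ) * (((M' + 1 : ℕ) : ℝ) / ((N' + 1 : ℕ) : ℝ))) *
            (((M' + 1 : ℕ) : ℝ) / ((N' + 1 : ℕ) : ℝ)) ^ j := by
          rw [← h2]
          gcongr
      _ = ((N' + 1).choose (M' + 1) : ℝ) * (((M' + 1 : ℕ) : ℝ) / ((N' + 1 : ℕ) : ℝ)) ^ (j + 1) := by
          rw [pow_succ]
          ring

/-- number of the `m`-sets that contain `U` -/
private theorem s9_count {m : ℕ} (hm : 3 ≤ m) (hmn : m ≤ Fintype.card V) {U : Finset V} {j : ℕ}
    (hU : U.card = 3 + j) :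
    (((univ.powersetCard m).filter (fun S : Finset V => U ⊆ S)).card : ℝ) ≤
      ((Fintype.card V - 3).choose (m - 3) : ℝ) *
        (((m - 3 : ℕ) : ℝ) / ((Fintype.card V - 3 : ℕ) : ℝ)) ^ j := by
  rcases le_or_gt (3 + j) m with h | h
  · have h1 : ((univ.powersetCard m).filter (fun S : Finset V => U ⊆ S)).card =
        (Fintype.card V - (3 + j)).choose (m - (3 + j)) := by
      have := FC1_count (V := V) h (subset_univ U) hU
      rw [card_univ] at this
      convert this
    rw [h1]
    have h2 := s9_ratio j (Fintype.card V - 3) (m - 3) (by omega) (by omega)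
    have e1 : Fintype.card V - 3 - j = Fintype.card V - (3 + j) := by omega
    have e2 : m - 3 - j = m - (3 + j) := by omega
    rw [e1, e2] at h2
    exact h2
  · have h1 : (univ.powersetCard m).filter (fun S : Finset V => U ⊆ S) = ∅ := by
      rw [filter_eq_empty_iff]
      intro S hS hUS
      have := card_le_card hUS
      rw [(mem_powersetCard.1 hS).2] at this
      omega
    rw [h1, card_empty, Nat.cast_zero]
    positivity

/-- bad partners -/
def Nb (G : Finset (Finset V)) (a b : V) : Finset V :=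
  univ.filter (fun v => v ≠ a ∧ v ≠ b ∧ ({a, b, v} : Finset V) ∉ G)

private theorem s9_sum_q {m : ℕ} (hm : 3 ≤ m) (hmn : m ≤ Fintype.card V) (hn : 3 < Fintype.card V)
    {e : Finset V} (he : e.card = 3) :
    ∑ a : V, (((m - 3 : ℕ) : ℝ) / ((Fintype.card V - 3 : ℕ) : ℝ)) ^ (if a ∈ e then 0 else 1) = m := by
  set ρ : ℝ := ((m - 3 : ℕ) : ℝ) / ((Fintype.card V - 3 : ℕ) : ℝ) with hρ
  have h1 : ∀ a : V, ρ ^ (if a ∈ e then 0 else 1) = if a ∈ e then 1 else ρ := by
    intro a
    split_ifs
    · exact pow_zero _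
    · exact pow_one _
  rw [sum_congr rfl fun a _ => h1 a, sum_ite, sum_const, sum_const]
  have h2 : (univ.filter (fun a : V => a ∈ e)).card = 3 := by
    rw [← he]
    congr 1
    ext a
    simp
  have h3 : (univ.filter (fun a : V => ¬ a ∈ e)).card = Fintype.card V - 3 := by
    have h4 : univ.filter (fun a : V => ¬ a ∈ e) = univ \ e := by
      ext a
      simp
    rw [h4, card_sdiff_of_subset (subset_univ e), card_univ, he]
  rw [h2, h3]
  have h5 : (0 : ℝ) < ((Fintype.card V - 3 : ℕ) : ℝ) := by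
    exact_mod_cast (by omega : 0 < Fintype.card V - 3)
  simp only [nsmul_eq_mul]
  rw [hρ, mul_div_cancel₀ _ h5.ne']
  rw [Nat.cast_sub hm]
  norm_num

/-- the number of the `m`-sets that contain `e` and are bad is small -/
theorem bad_count {m k : ℕ} (hm : 3 ≤ m) (hmn : m ≤ Fintype.card V) (hn : 3 < Fintype.card V)
    {G : Finset (Finset V)} {ε : ℝ} (hε : 0 ≤ ε)
    (hN : ∀ a b : V, a ≠ b → ((Nb G a b).card : ℝ) ≤ ε * Fintype.card V)
    {e : Finset V} (he : e.card = 3) (good : Finset V → Prop) [DecidablePred good]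
    (hgood : ∀ S : Finset V, ¬ good S → ∃ a ∈ S, ∃ b ∈ S, a ≠ b ∧ k + 3 ≤ (S ∩ Nb G a b).card) :
    (((univ.powersetCard m).filter (fun S : Finset V => e ⊆ S ∧ ¬ good S)).card : ℝ) ≤
      ((Fintype.card V - 3).choose (m - 3) : ℝ) * ((m : ℝ) ^ 2 * ((ε * m) ^ k / (k.factorial : ℝ))) := by
  set n := Fintype.card V with hnn
  set ρ : ℝ := ((m - 3 : ℕ) : ℝ) / ((n - 3 : ℕ) : ℝ) with hρ
  have hρ0 : 0 ≤ ρ := by positivity
  set C : ℝ := ((n - 3).choose (m - 3) : ℝ) with hC
  have hC0 : 0 ≤ C := Nat.cast_nonneg _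
  set q : V → ℕ := fun a => if a ∈ e then 0 else 1 with hq
  -- the union
  have hsub : (univ.powersetCard m).filter (fun S : Finset V => e ⊆ S ∧ ¬ good S) ⊆
      (univ : Finset V).biUnion fun a => (univ.filter (fun b => a ≠ b)).biUnion fun b =>
        ((Nb G a b \ e).powersetCard k).biUnion fun T =>
          (univ.powersetCard m).filter (fun S : Finset V => e ∪ ({a, b} ∪ T) ⊆ S) := by
    intro S hS
    rw [mem_filter] at hS
    obtain ⟨hSm, heS, hbad⟩ := hS
    obtain ⟨a, ha, b, hb, hab, hcard⟩ := hgood S hbad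
    have h1 : k ≤ ((S ∩ Nb G a b) \ e).card := by
      have := le_card_sdiff e (S ∩ Nb G a b)
      omega
    obtain ⟨T, hT, hTk⟩ := exists_subset_card_eq h1
    simp only [mem_biUnion, mem_filter, mem_univ, true_and]
    refine ⟨a, b, hab, T, ?_, hSm, ?_⟩
    · rw [mem_powersetCard]
      refine ⟨fun x hx => ?_, hTk⟩
      have := hT hx
      rw [mem_sdiff, mem_inter] at this
      exact mem_sdiff.2 ⟨this.1.2, this.2⟩
    · refine union_subset heS (union_subset ?_ fun x hx => ?_)
      · intro x hx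
        rw [mem_insert, mem_singleton] at hx
        rcases hx with rfl | rfl
        · exact ha
        · exact hb
      · have := hT hx
        rw [mem_sdiff, mem_inter] at this
        exact this.1.1
  have hbd : ∀ a b : V, a ≠ b → ∀ T ∈ (Nb G a b \ e).powersetCard k,
      (((univ.powersetCard m).filter (fun S : Finset V => e ∪ ({a, b} ∪ T) ⊆ S)).card : ℝ)
        ≤ C * (ρ ^ (q a) * ρ ^ (q b) * ρ ^ k) := by
    intro a b hab T hT
    rw [mem_powersetCard] at hT
    have hTe : Disjoint e T := by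
      rw [Finset.disjoint_left]
      intro x hx hxT
      exact (mem_sdiff.1 (hT.1 hxT)).2 hx
    have hTab : ∀ x ∈ T, x ≠ a ∧ x ≠ b := by
      intro x hx
      have := (mem_sdiff.1 (hT.1 hx)).1
      rw [Nb, mem_filter] at this
      exact ⟨this.2.1, this.2.2.1⟩
    have hcard : (e ∪ ({a, b} ∪ T)).card = 3 + (q a + q b + k) := by
      have h1 : e ∪ ({a, b} ∪ T) = (e ∪ {a, b}) ∪ T := by rw [union_assoc]
      have h2 : Disjoint (e ∪ {a, b}) T := by
        rw [disjoint_union_left]
        refine ⟨hTe, ?_⟩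
        rw [Finset.disjoint_left]
        intro x hx hxT
        rw [mem_insert, mem_singleton] at hx
        rcases hx with rfl | rfl
        · exact (hTab x hxT).1 rfl
        · exact (hTab x hxT).2 rfl
      rw [h1, card_union_of_disjoint h2, hT.2]
      have h3 : (e ∪ {a, b}).card = 3 + (q a + q b) := by
        have h4 : e ∪ {a, b} = insert a (insert b e) := by
          ext x
          simp only [mem_union, mem_insert, mem_singleton]
          tauto
        rw [h4]
        by_cases hae : a ∈ e <;> by_cases hbe : b ∈ e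
        · rw [insert_eq_of_mem hbe, insert_eq_of_mem hae, he]
          simp [hq, hae, hbe]
        · rw [insert_eq_of_mem (mem_insert_of_mem hae), card_insert_of_notMem hbe, he]
          simp [hq, hae, hbe]
        · rw [insert_eq_of_mem hbe, card_insert_of_notMem hae, he]
          simp [hq, hae, hbe]
        · rw [card_insert_of_notMem, card_insert_of_notMem hbe, he]
          · simp [hq, hae, hbe]
          · rw [mem_insert]
            push Not
            exact ⟨hab, hae⟩
      omega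
    have := s9_count hm hmn hcard
    rw [pow_add, pow_add] at this
    exact this
  have hfac : (0 : ℝ) < (k.factorial : ℝ) := by exact_mod_cast Nat.factorial_pos k
  have hnρ : (n : ℝ) * ρ ≤ m := by
    rw [hρ]
    have h5 : (0 : ℝ) < ((n - 3 : ℕ) : ℝ) := by exact_mod_cast (by omega : 0 < n - 3)
    rw [mul_div_assoc', div_le_iff₀ h5, Nat.cast_sub hm, Nat.cast_sub (by omega : 3 ≤ n)]
    have : (m : ℝ) ≤ n := by exact_mod_cast hmn
    push_cast
    nlinarith
  have hT : ∀ a b : V, a ≠ b → (((Nb G a b \ e).powersetCard k).card : ℝ) * ρ ^ k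
      ≤ (ε * m) ^ k / (k.factorial : ℝ) := by
    intro a b hab
    rw [card_powersetCard]
    have h1 : (((Nb G a b \ e).card.choose k : ℕ) : ℝ) ≤ ((Nb G a b \ e).card : ℝ) ^ k / (k.factorial : ℝ) :=
      Nat.choose_le_pow_div k _
    have h2 : ((Nb G a b \ e).card : ℝ) ≤ ε * n :=
      (by exact_mod_cast card_le_card sdiff_subset : ((Nb G a b \ e).card : ℝ) ≤ (Nb G a b).card).trans
        (hN a b hab)
    calc (((Nb G a b \ e).card.choose k : ℕ) : ℝ) * ρ ^ k
        ≤ (((Nb G a b \ e).card : ℝ) ^ k / (k.factorial : ℝ)) * ρ ^ k := by gcongr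
      _ = (((Nb G a b \ e).card : ℝ) * ρ) ^ k / (k.factorial : ℝ) := by rw [mul_pow]; ring
      _ ≤ (ε * m) ^ k / (k.factorial : ℝ) := by
        have key : ((Nb G a b \ e).card : ℝ) * ρ ≤ ε * m := by
          calc ((Nb G a b \ e).card : ℝ) * ρ ≤ (ε * n) * ρ := mul_le_mul_of_nonneg_right h2 hρ0
            _ = ε * (n * ρ) := by ring
            _ ≤ ε * m := mul_le_mul_of_nonneg_left hnρ hε
        exact div_le_div_of_nonneg_right
          (pow_le_pow_left₀ (mul_nonneg (Nat.cast_nonneg _) hρ0) key k) hfac.le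
  set B : ℝ := (ε * m) ^ k / (k.factorial : ℝ) with hB
  calc (((univ.powersetCard m).filter (fun S : Finset V => e ⊆ S ∧ ¬ good S)).card : ℝ)
      ≤ ∑ a : V, ∑ b ∈ univ.filter (fun b => a ≠ b), ∑ T ∈ (Nb G a b \ e).powersetCard k,
        (((univ.powersetCard m).filter (fun S : Finset V => e ∪ ({a, b} ∪ T) ⊆ S)).card : ℝ) := by
        have h1 := card_le_card hsub
        have h2 := card_biUnion_le (s := (univ : Finset V)) (t := fun a =>
          (univ.filter (fun b => a ≠ b)).biUnion fun b =>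
          ((Nb G a b \ e).powersetCard k).biUnion fun T =>
          (univ.powersetCard m).filter (fun S : Finset V => e ∪ ({a, b} ∪ T) ⊆ S))
        have h3 : ∀ a : V, ((univ.filter (fun b => a ≠ b)).biUnion fun b =>
            ((Nb G a b \ e).powersetCard k).biUnion fun T =>
            (univ.powersetCard m).filter (fun S : Finset V => e ∪ ({a, b} ∪ T) ⊆ S)).card ≤
            ∑ b ∈ univ.filter (fun b => a ≠ b), ∑ T ∈ (Nb G a b \ e).powersetCard k,
              ((univ.powersetCard m).filter (fun S : Finset V => e ∪ ({a, b} ∪ T) ⊆ S)).card :=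
          fun a => card_biUnion_le.trans (sum_le_sum fun b _ => card_biUnion_le)
        have h4 := h1.trans (h2.trans (sum_le_sum fun a _ => h3 a))
        exact_mod_cast h4
    _ ≤ ∑ a : V, ∑ b ∈ univ.filter (fun b => a ≠ b), C * (ρ ^ (q a) * ρ ^ (q b) * B) := by
        refine sum_le_sum fun a _ => sum_le_sum fun b hb => ?_
        have hab : a ≠ b := (mem_filter.1 hb).2
        calc ∑ T ∈ (Nb G a b \ e).powersetCard k,
            (((univ.powersetCard m).filter (fun S : Finset V => e ∪ ({a, b} ∪ T) ⊆ S)).card : ℝ)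
            ≤ ∑ T ∈ (Nb G a b \ e).powersetCard k, C * (ρ ^ (q a) * ρ ^ (q b) * ρ ^ k) :=
              sum_le_sum (hbd a b hab)
          _ = C * (ρ ^ (q a) * ρ ^ (q b) * ((((Nb G a b \ e).powersetCard k).card : ℝ) * ρ ^ k)) := by
              rw [sum_const, nsmul_eq_mul]
              ring
          _ ≤ C * (ρ ^ (q a) * ρ ^ (q b) * B) := by
              have := hT a b hab
              gcongr
    _ ≤ ∑ a : V, ∑ b : V, C * (ρ ^ (q a) * ρ ^ (q b) * B) := by
        refine sum_le_sum fun a _ => sum_le_sum_of_subset_of_nonneg (filter_subset _ _) fun b _ _ => ?_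
        positivity
    _ = C * ((∑ a : V, ρ ^ (q a)) * (∑ b : V, ρ ^ (q b)) * B) := by
        rw [sum_mul_sum, sum_mul, mul_sum]
        refine sum_congr rfl fun a _ => ?_
        rw [sum_mul, mul_sum]
    _ = C * ((m : ℝ) ^ 2 * B) := by
        rw [s9_sum_q hm hmn hn he]
        ring

/-! ## Assembly -/

/-- The averaging argument with explicit smallness assumptions. -/
theorem dual_of_sub {r m : ℕ} (hr : 18 ≤ r) {lam δ : ℝ} (hlam : 0 < lam) (hδ0 : 0 ≤ δ)
    (hδ : δ * (m : ℝ) ^ 3 ≤ 1 / 1000) (hm : 3 ≤ m) (hmn : m ≤ Fintype.card V)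
    {G : Finset (Finset V)} (hG : ∀ e ∈ G, e.card = 3)
    (good : Finset V → Prop) [DecidablePred good]
    (hbad : ∀ e ∈ G,
      (((univ.powersetCard m).filter (fun S : Finset V => e ⊆ S ∧ ¬ good S)).card : ℝ) ≤
        ((Fintype.card V - 3).choose (m - 3) : ℝ) * δ)
    (hdata : ∀ S ∈ (univ : Finset V).powersetCard m, good S → CritData r lam (1 / 100) (GS G S))
    (y : Finset V → ℝ)
    (hy : ∀ K : Finset V, K.card = r → MP5c68.Cl G K → 0 ≤ MP5c68.tot y K) :
    0 ≤ ∑ e ∈ G, y e := by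
  classical
  set N0 : ℝ := ((Fintype.card V - 3).choose (m - 3) : ℝ) with hN0
  have hN0pos : 0 < N0 := by
    rw [hN0]
    exact_mod_cast Nat.choose_pos (by omega)
  have hδ1 : δ ≤ 1 / 1000 := by
    have hm1 : (1 : ℝ) ≤ (m : ℝ) ^ 3 := one_le_pow₀ (by exact_mod_cast (by omega : 1 ≤ m))
    nlinarith
  -- the good sets
  set GD : Finset (Finset V) := ((univ : Finset V).powersetCard m).filter good with hGD
  have hrel : ∀ S ∈ GD, ∃ (P : Finset V → ℝ) (η : Finset V → ℝ), (∀ J, 0 ≤ P J) ∧
      (∀ J, P J ≠ 0 → J ⊆ S ∧ MP5c68.Cl G J ∧ 4 * r ≤ J.card ∧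
        ∑ e ∈ J.powersetCard 3, η e ^ 2 ≤ (1 / 100) ^ 2) ∧
      ∀ e ∈ G, e ⊆ S → (∑ J ∈ univ.filter (fun J => e ⊆ J), P J) * (1 - η e) = lam := by
    intro S hS
    rw [hGD, mem_filter] at hS
    exact rel_of_sub (hdata S hS.1 hS.2)
  choose! P η hP0 hP1 hP2 using hrel
  -- the number of good sets containing e
  set Ne : Finset V → ℝ := fun e => ((GD.filter (fun S => e ⊆ S)).card : ℝ) with hNe
  have hNesum : ∀ e ∈ G, Ne e + (((univ.powersetCard m).filter
      (fun S : Finset V => e ⊆ S ∧ ¬ good S)).card : ℝ) = N0 := by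
    intro e he
    have h1 : ((univ.powersetCard m).filter (fun S : Finset V => e ⊆ S)).card =
        (Fintype.card V - 3).choose (m - 3) := by
      have := FC1_count (V := V) hm (subset_univ e) (hG e he)
      rw [card_univ] at this
      convert this
    have h2 : (GD.filter (fun S => e ⊆ S)).card + ((univ.powersetCard m).filter
        (fun S : Finset V => e ⊆ S ∧ ¬ good S)).card =
        ((univ.powersetCard m).filter (fun S : Finset V => e ⊆ S)).card := by
      have e1 : GD.filter (fun S => e ⊆ S) =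
          ((univ.powersetCard m).filter (fun S : Finset V => e ⊆ S)).filter good := by
        ext S
        simp only [hGD, mem_filter]
        tauto
      have e2 : (univ.powersetCard m).filter (fun S : Finset V => e ⊆ S ∧ ¬ good S) =
          ((univ.powersetCard m).filter (fun S : Finset V => e ⊆ S)).filter (fun S => ¬ good S) := by
        ext S
        simp only [mem_filter]
        tauto
      rw [e1, e2]
      exact card_filter_add_card_filter_not _
    rw [hNe, hN0, ← h1, ← h2]
    push_cast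
    rfl
  have hNelow : ∀ e ∈ G, N0 * (1 - δ) ≤ Ne e := by
    intro e he
    have h1 := hNesum e he
    have h2 := hbad e he
    linarith
  have hNepos : ∀ e ∈ G, 0 < Ne e := fun e he =>
    lt_of_lt_of_le (mul_pos hN0pos (by linarith)) (hNelow e he)
  set sc : Finset V → ℝ := fun e => N0 / Ne e with hsc
  have hsc1 : ∀ e ∈ G, 1 ≤ sc e := by
    intro e he
    rw [hsc, le_div_iff₀ (hNepos e he), one_mul]
    have h1 := hNesum e he
    have h2 : (0 : ℝ) ≤ (((univ.powersetCard m).filter
      (fun S : Finset V => e ⊆ S ∧ ¬ good S)).card : ℝ) := Nat.cast_nonneg _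
    linarith
  have hsc2 : ∀ e ∈ G, sc e ≤ 1 + 2 * δ := by
    intro e he
    rw [hsc, div_le_iff₀ (hNepos e he)]
    have h1 := hNelow e he
    have h3 : 0 ≤ N0 * (δ * (1 - 2 * δ)) :=
      mul_nonneg hN0pos.le (mul_nonneg hδ0 (by linarith))
    calc N0 ≤ (1 + 2 * δ) * (N0 * (1 - δ)) := by
          have h4 : (1 + 2 * δ) * (N0 * (1 - δ)) = N0 + N0 * (δ * (1 - 2 * δ)) := by ring
          linarith
      _ ≤ (1 + 2 * δ) * Ne e := by gcongr
  -- the error vectors
  set et : Finset V × Finset V → Finset V → ℝ := fun ω U =>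
    if U.card = 3 then 1 - (1 - η ω.1 U) * sc U else 0 with het
  refine MP5c68.crit_y (GD ×ˢ (univ : Finset (Finset V))) hG y r hr hy
    (fun ω => P ω.1 ω.2) (fun ω hω => hP0 ω.1 (mem_product.1 hω).1 ω.2) (fun ω => ω.2)
    (fun ω hω hne => ?_) et (fun ω hω hne => ?_) (mul_pos hN0pos hlam) (fun e he => Or.inr (Or.inr ?_))
  · obtain ⟨_, h2, h3, _⟩ := hP1 ω.1 (mem_product.1 hω).1 ω.2 hne
    exact ⟨h2, h3⟩
  · -- the norm of the error vector
    obtain ⟨hJS, hcl, hcard, hsum⟩ := hP1 ω.1 (mem_product.1 hω).1 ω.2 hne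
    have hSm : ω.1.card = m := (mem_powersetCard.1 (mem_filter.1 (mem_product.1 hω).1).1).2
    have h1 : ∑ U ∈ ω.2.powerset.filter (fun U => U.card ≤ 3), et ω U ^ 2 =
        ∑ U ∈ ω.2.powersetCard 3, (1 - (1 - η ω.1 U) * sc U) ^ 2 := by
      have e1 : ∀ U ∈ ω.2.powerset.filter (fun U => U.card ≤ 3), et ω U ^ 2 =
          if U.card = 3 then (1 - (1 - η ω.1 U) * sc U) ^ 2 else 0 := by
        intro U _
        simp only [het]
        split_ifs
        · rfl
        · norm_num
      rw [sum_congr rfl e1, ← sum_filter]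
      refine sum_congr ?_ fun _ _ => rfl
      ext U
      simp only [mem_filter, mem_powerset, mem_powersetCard]
      constructor
      · rintro ⟨⟨h, _⟩, h'⟩
        exact ⟨h, h'⟩
      · rintro ⟨h, h'⟩
        exact ⟨⟨h, by omega⟩, h'⟩
    rw [h1]
    have h2 : ∀ U ∈ ω.2.powersetCard 3, (1 - (1 - η ω.1 U) * sc U) ^ 2 ≤
        2 * (1 + 2 * δ) ^ 2 * η ω.1 U ^ 2 + 8 * δ ^ 2 := by
      intro U hU
      rw [mem_powersetCard] at hU
      have hUG : U ∈ G := hcl U hU.1 hU.2
      have s1 := hsc1 U hUG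
      have s2 := hsc2 U hUG
      have e1 : 1 - (1 - η ω.1 U) * sc U = η ω.1 U * sc U - (sc U - 1) := by ring
      rw [e1]
      have e2 : (η ω.1 U * sc U - (sc U - 1)) ^ 2 ≤ 2 * (η ω.1 U * sc U) ^ 2 + 2 * (sc U - 1) ^ 2 := by
        nlinarith [sq_nonneg (η ω.1 U * sc U + (sc U - 1))]
      have e3 : (η ω.1 U * sc U) ^ 2 ≤ (1 + 2 * δ) ^ 2 * η ω.1 U ^ 2 := by
        rw [mul_pow, mul_comm]
        gcongr
      have e4 : (sc U - 1) ^ 2 ≤ (2 * δ) ^ 2 := by
        have : 0 ≤ sc U - 1 := by linarith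
        gcongr
        linarith
      nlinarith
    have h3 : ((ω.2.powersetCard 3).card : ℝ) ≤ (m : ℝ) ^ 3 := by
      rw [card_powersetCard]
      have h4 : ω.2.card ≤ m := by
        rw [← hSm]
        exact card_le_card hJS
      have h5 : ω.2.card.choose 3 ≤ m ^ 3 :=
        (Nat.choose_le_pow _ _).trans (Nat.pow_le_pow_left h4 3)
      exact_mod_cast h5
    calc ∑ U ∈ ω.2.powersetCard 3, (1 - (1 - η ω.1 U) * sc U) ^ 2
        ≤ ∑ U ∈ ω.2.powersetCard 3, (2 * (1 + 2 * δ) ^ 2 * η ω.1 U ^ 2 + 8 * δ ^ 2) :=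
          sum_le_sum h2
      _ = 2 * (1 + 2 * δ) ^ 2 * ∑ U ∈ ω.2.powersetCard 3, η ω.1 U ^ 2 +
            ((ω.2.powersetCard 3).card : ℝ) * (8 * δ ^ 2) := by
          rw [sum_add_distrib, ← mul_sum, sum_const, nsmul_eq_mul]
      _ ≤ 2 * (1 + 2 * (1 / 1000)) ^ 2 * (1 / 100) ^ 2 + (m : ℝ) ^ 3 * (8 * δ ^ 2) := by
          gcongr
      _ ≤ (1 / 54) ^ 2 := by
          have h6 : (m : ℝ) ^ 3 * (8 * δ ^ 2) = 8 * δ * (δ * (m : ℝ) ^ 3) := by ring
          have h7 : 8 * δ * (δ * (m : ℝ) ^ 3) ≤ 8 * (1 / 1000) * (1 / 1000) := by gcongr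
          rw [h6]
          norm_num at h7 ⊢
          linarith
  · -- the main identity
    have hone : ∀ ω : Finset V × Finset V, ∑ U ∈ e.powerset, et ω U =
        1 - (1 - η ω.1 e) * sc e := by
      intro ω
      have h1 : ∀ U ∈ e.powerset, et ω U = if U = e then 1 - (1 - η ω.1 e) * sc e else 0 := by
        intro U hU
        rw [mem_powerset] at hU
        simp only [het]
        by_cases hUe : U = e
        · subst hUe
          simp [hG U he]
        · have : U.card ≠ 3 := by
            intro h3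
            exact hUe (eq_of_subset_of_card_le hU (by rw [hG e he, h3]))
          simp [this, hUe]
      rw [sum_congr rfl h1, sum_ite_eq' e.powerset e]
      simp
    have h1 : ∑ ω ∈ (GD ×ˢ (univ : Finset (Finset V))).filter (fun ω => e ⊆ ω.2),
        P ω.1 ω.2 * (1 - ∑ U ∈ e.powerset, et ω U) =
        ∑ S ∈ GD, (∑ J ∈ univ.filter (fun J => e ⊆ J), P S J) * (1 - η S e) * sc e := by
      rw [sum_filter, sum_product]
      refine sum_congr rfl fun S _ => ?_
      rw [mul_assoc, sum_mul, sum_filter]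
      refine sum_congr rfl fun J _ => ?_
      split_ifs
      · rw [hone]
        ring
      · rfl
    rw [h1]
    have h2 : ∀ S ∈ GD, (∑ J ∈ univ.filter (fun J => e ⊆ J), P S J) * (1 - η S e) * sc e =
        if e ⊆ S then lam * sc e else 0 := by
      intro S hS
      split_ifs with heS
      · rw [hP2 S hS e he heS]
      · have h3 : ∑ J ∈ univ.filter (fun J => e ⊆ J), P S J = 0 := by
          refine sum_eq_zero fun J hJ => ?_
          by_contra hne
          exact heS ((mem_filter.1 hJ).2.trans (hP1 S hS J hne).1)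
        rw [h3, zero_mul, zero_mul]
    rw [sum_congr rfl h2, ← sum_filter, sum_const, nsmul_eq_mul]
    have h4 : ((GD.filter (fun S => e ⊆ S)).card : ℝ) = Ne e := rfl
    have h5 : Ne e ≠ 0 := (hNepos e he).ne'
    rw [h4]
    simp only [hsc]
    field_simp

/-- `FinThm → Core`. -/
theorem core_of_fin (h : FinThm) : Core := by
  obtain ⟨c, hc, r₀, h⟩ := h
  refine ⟨c / 8, by positivity, max r₀ (max 100 (⌈(200 : ℝ) / (c / 8)⌉₊)), fun r hr => ?_⟩
  have hr0 : r₀ ≤ r := (le_max_left _ _).trans hr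
  have hr100 : 100 ≤ r := (le_max_left _ _).trans ((le_max_right _ _).trans hr)
  have hrc : (200 : ℝ) / (c / 8) ≤ r :=
    (Nat.le_ceil _).trans (by exact_mod_cast (le_max_right _ _).trans ((le_max_right _ _).trans hr))
  obtain ⟨lam, hlam, hfin⟩ := h r hr0
  set m : ℕ := r ^ 20 with hm
  refine ⟨m, fun n hn G hG hcod y hy => ?_⟩
  set cc : ℝ := c / 8 with hcc
  have hcc0 : 0 < cc := by positivity
  have hrR : (100 : ℝ) ≤ r := by exact_mod_cast hr100
  have hr0' : (0 : ℝ) < r := by linarith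
  set Lr : ℝ := Real.log r with hLr
  have hL1 : 1 ≤ Lr := by
    rw [hLr, Real.le_log_iff_exp_le hr0']
    have := Real.exp_one_lt_d9
    linarith
  set ε : ℝ := cc * Lr / (r : ℝ) ^ 2 with hε
  have hε0 : 0 < ε := by positivity
  have hmR : (m : ℝ) = (r : ℝ) ^ 20 := by rw [hm]; push_cast; rfl
  -- ε m is large
  have hεm : ε * m = cc * Lr * (r : ℝ) ^ 18 := by
    rw [hε, hmR]
    field_simp
  have hccr : 200 ≤ cc * r := by
    rw [div_le_iff₀ hcc0] at hrc
    linarith
  have hεm1 : 200 * Lr ≤ ε * m := by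
    rw [hεm]
    have h1 : (r : ℝ) ≤ (r : ℝ) ^ 18 := le_self_pow₀ (by linarith) (by norm_num)
    calc 200 * Lr ≤ (cc * r) * Lr := by gcongr
      _ ≤ (cc * (r : ℝ) ^ 18) * Lr := by gcongr
      _ = cc * Lr * (r : ℝ) ^ 18 := by ring
  -- the parameter k
  set k : ℕ := ⌊8 * (ε * m)⌋₊ - 2 with hk
  have hfl : (⌊8 * (ε * m)⌋₊ : ℝ) ≤ 8 * (ε * m) := Nat.floor_le (by positivity)
  have hfl2 : 8 * (ε * m) < (⌊8 * (ε * m)⌋₊ : ℝ) + 1 := Nat.lt_floor_add_one _
  have hfl3 : 2 ≤ ⌊8 * (ε * m)⌋₊ := by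
    apply Nat.le_floor
    push_cast
    nlinarith
  have hkR : (k : ℝ) = (⌊8 * (ε * m)⌋₊ : ℝ) - 2 := by
    rw [hk, Nat.cast_sub hfl3]
    norm_num
  have hk6 : 6 * (ε * m) ≤ k := by
    rw [hkR]
    nlinarith
  have hm3 : 3 ≤ m := by
    rw [hm]
    calc 3 ≤ 100 := by norm_num
      _ ≤ r := hr100
      _ ≤ r ^ 20 := Nat.le_self_pow (by norm_num) r
  have hmn : m ≤ Fintype.card (Fin n) := by rw [Fintype.card_fin]; exact hn
  have hm4 : 100 ≤ m := by
    rw [hm]
    exact hr100.trans (Nat.le_self_pow (by norm_num) r)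
  have hn4 : 3 < Fintype.card (Fin n) := by omega
  -- codegrees
  have hNb : ∀ a b : Fin n, a ≠ b → ((Nb G a b).card : ℝ) ≤ ε * Fintype.card (Fin n) := by
    intro a b hab
    have hAc : ({a, b} : Finset (Fin n)).card = 2 := card_pair hab
    have h1 := hcod {a, b} hAc
    have h2 : (G.filter (fun e => {a, b} ⊆ e)).card + (Nb G a b).card ≤ n := by
      have h3 : (G.filter (fun e => ({a, b} : Finset (Fin n)) ⊆ e)) ⊆
          (univ.filter (fun v : Fin n => ({a, b, v} : Finset (Fin n)) ∈ G ∧ v ≠ a ∧ v ≠ b)).image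
            (fun v => {a, b, v}) := by
        intro e he
        rw [mem_filter] at he
        obtain ⟨heG, hab'⟩ := he
        have hec := hG e heG
        obtain ⟨v, hve, hvab⟩ := exists_mem_notMem_of_card_lt_card
          (s := ({a, b} : Finset (Fin n))) (t := e) (by rw [hAc, hec]; norm_num)
        have hva : v ≠ a := fun h => hvab (by simp [h])
        have hvb : v ≠ b := fun h => hvab (by simp [h])
        have h4 : ({a, b, v} : Finset (Fin n)) = e := by
          apply eq_of_subset_of_card_le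
          · intro x hx
            simp only [mem_insert, mem_singleton] at hx
            rcases hx with rfl | rfl | rfl
            · exact hab' (by simp)
            · exact hab' (by simp)
            · exact hve
          · rw [hec, card_eq_three.2 ⟨a, b, v, hab, hva.symm, hvb.symm, rfl⟩]
        rw [mem_image]
        exact ⟨v, by rw [mem_filter, h4]; exact ⟨mem_univ _, heG, hva, hvb⟩, h4⟩
      have h5 := (card_le_card h3).trans card_image_le
      have h6 : Disjoint (univ.filter (fun v : Fin n => ({a, b, v} : Finset (Fin n)) ∈ G ∧ v ≠ a ∧ v ≠ b))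
          (Nb G a b) := by
        rw [Nb, disjoint_filter]
        rintro v _ ⟨h7, _, _⟩ ⟨_, _, h8⟩
        exact h8 h7
      have h7 := card_union_of_disjoint h6
      have h8 := card_le_univ (univ.filter (fun v : Fin n =>
        ({a, b, v} : Finset (Fin n)) ∈ G ∧ v ≠ a ∧ v ≠ b) ∪ Nb G a b)
      rw [Fintype.card_fin] at h8
      omega
    have h3 : ((G.filter (fun e => ({a, b} : Finset (Fin n)) ⊆ e)).card : ℝ) + ((Nb G a b).card : ℝ) ≤ n := by
      exact_mod_cast h2
    rw [Fintype.card_fin]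
    have h4 : (1 - c / 8 * Real.log r / (r : ℝ) ^ 2) * (n : ℝ) = n - ε * n := by
      rw [hε, hcc, hLr]
      ring
    rw [h4] at h1
    linarith
  -- the good sets
  set good : Finset (Fin n) → Prop := fun S => ∀ a ∈ S, ∀ b ∈ S, a ≠ b →
    ((S ∩ Nb G a b).card : ℝ) ≤ 8 * (ε * m) with hgood
  have : DecidablePred good := Classical.decPred _
  have hgood' : ∀ S : Finset (Fin n), ¬ good S → ∃ a ∈ S, ∃ b ∈ S, a ≠ b ∧ k + 3 ≤ (S ∩ Nb G a b).card := by
    intro S hS
    rw [hgood] at hS
    push Not at hS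
    obtain ⟨a, ha, b, hb, hab, hlt⟩ := hS
    refine ⟨a, ha, b, hb, hab, ?_⟩
    have h1 : ⌊8 * (ε * m)⌋₊ < (S ∩ Nb G a b).card := by
      rw [Nat.floor_lt (by positivity)]
      exact hlt
    omega
  -- the tail bound
  set δ : ℝ := (m : ℝ) ^ 2 * ((ε * m) ^ k / (k.factorial : ℝ)) with hδdef
  have hδ0 : 0 ≤ δ := by positivity
  have htail : (ε * m) ^ k / (k.factorial : ℝ) ≤ Real.exp (-(k / 2 : ℝ)) := by
    have h1 := Real.pow_div_factorial_le_exp (6 * (ε * m)) (by positivity) k
    have h2 : (6 * (ε * m)) ^ k / (k.factorial : ℝ) = 6 ^ k * ((ε * m) ^ k / (k.factorial : ℝ)) := by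
      rw [mul_pow]
      ring
    rw [h2] at h1
    have h3 : Real.exp (6 * (ε * m)) ≤ Real.exp k := Real.exp_le_exp.2 hk6
    have h4 : Real.exp ((3 / 2 : ℝ) * k) ≤ 6 ^ k := by
      have h5 : Real.exp (3 / 2 : ℝ) ≤ 6 := by
        have h6 : Real.exp 1 ≤ 2.7182818286 := Real.exp_one_lt_d9.le
        have h7 : Real.exp (3 / 2 : ℝ) ^ 2 ≤ 6 ^ 2 := by
          rw [← Real.exp_nat_mul]
          have : ((2 : ℕ) : ℝ) * (3 / 2) = 1 + 1 + 1 := by norm_num
          rw [this, Real.exp_add, Real.exp_add]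
          have h0 : 0 < Real.exp 1 := Real.exp_pos 1
          calc Real.exp 1 * Real.exp 1 * Real.exp 1
              ≤ 2.7182818286 * 2.7182818286 * 2.7182818286 := by gcongr
            _ ≤ 6 ^ 2 := by norm_num
        exact (pow_le_pow_iff_left₀ (Real.exp_pos _).le (by norm_num) (by norm_num)).1 h7
      calc Real.exp ((3 / 2 : ℝ) * k) = Real.exp (3 / 2 : ℝ) ^ k := by
            rw [← Real.exp_nat_mul]
            ring_nf
        _ ≤ 6 ^ k := by gcongr
    have h5 : (0 : ℝ) < 6 ^ k := by positivity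
    have h6 : (ε * m) ^ k / (k.factorial : ℝ) ≤ Real.exp k / 6 ^ k := by
      rw [le_div_iff₀ h5]
      linarith
    refine h6.trans ?_
    calc Real.exp k / 6 ^ k ≤ Real.exp k / Real.exp ((3 / 2 : ℝ) * k) := by
          gcongr
      _ = Real.exp (-(k / 2 : ℝ)) := by
          rw [← Real.exp_sub]
          ring_nf
  have hδm : δ * (m : ℝ) ^ 3 ≤ 1 / 1000 := by
    have h1 : Real.exp (-(k / 2 : ℝ)) ≤ (r : ℝ) ^ (-600 : ℤ) := by
      have h2 : (r : ℝ) ^ (-600 : ℤ) = Real.exp (-(600 * Lr)) := by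
        rw [zpow_neg, Real.exp_neg, hLr]
        congr 1
        rw [mul_comm, ← Real.rpow_def_of_pos hr0']
        rw [show (600 : ℤ) = ((600 : ℕ) : ℤ) by norm_num, zpow_natCast]
        rw [show (600 : ℝ) = ((600 : ℕ) : ℝ) by norm_num, Real.rpow_natCast]
      rw [h2]
      apply Real.exp_le_exp.2
      nlinarith
    have h3 : δ ≤ (m : ℝ) ^ 2 * (r : ℝ) ^ (-600 : ℤ) := by
      rw [hδdef]
      exact mul_le_mul_of_nonneg_left (htail.trans h1) (by positivity)
    have h4 : (m : ℝ) ^ 2 * (r : ℝ) ^ (-600 : ℤ) * (m : ℝ) ^ 3 = (r : ℝ) ^ (-500 : ℤ) := by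
      rw [hmR, ← pow_mul, ← pow_mul]
      have e1 : (r : ℝ) ^ (20 * 2) = (r : ℝ) ^ (40 : ℤ) := by norm_cast
      have e2 : (r : ℝ) ^ (20 * 3) = (r : ℝ) ^ (60 : ℤ) := by norm_cast
      rw [e1, e2, ← zpow_add₀ hr0'.ne', ← zpow_add₀ hr0'.ne']
      norm_num
    have h5 : (r : ℝ) ^ (-500 : ℤ) ≤ 1 / 1000 := by
      rw [zpow_neg, show (500 : ℤ) = ((500 : ℕ) : ℤ) by norm_num, zpow_natCast, one_div]
      apply inv_anti₀ (by norm_num)
      calc (1000 : ℝ) ≤ 100 ^ 2 := by norm_num
        _ ≤ (r : ℝ) ^ 2 := by gcongr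
        _ ≤ (r : ℝ) ^ 500 := pow_le_pow_right₀ (by linarith) (by norm_num)
    calc δ * (m : ℝ) ^ 3 ≤ (m : ℝ) ^ 2 * (r : ℝ) ^ (-600 : ℤ) * (m : ℝ) ^ 3 := by gcongr
      _ = (r : ℝ) ^ (-500 : ℤ) := h4
      _ ≤ 1 / 1000 := h5
  refine dual_of_sub (V := Fin n) (by omega : 18 ≤ r) hlam hδ0 hδm hm3 hmn hG good ?_ ?_ y hy
  · intro e he
    have := bad_count (V := Fin n) (k := k) hm3 hmn hn4 hε0.le hNb (hG e he) good hgood'
    rw [← hδdef] at this
    exact this
  · intro S hS hgS
    have hScard : S.card = m := (mem_powersetCard.1 hS).2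
    refine hfin {x // x ∈ S} (by rw [Fintype.card_coe, hScard]) (GS G S) ?_ ?_
    · intro e he
      rw [GS, mem_filter] at he
      have := hG _ he.2
      rwa [card_map] at this
    · intro a b hab
      have h1 := hgS a.1 a.2 b.1 b.2 (fun h => hab (Subtype.ext h))
      have h2 : (univ.filter (fun v : {x // x ∈ S} => v ≠ a ∧ v ≠ b ∧
          ({a, b, v} : Finset {x // x ∈ S}) ∉ GS G S)).card ≤ (S ∩ Nb G a.1 b.1).card := by
        rw [← card_map (Function.Embedding.subtype _)]
        apply card_le_card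
        intro x hx
        rw [mem_map] at hx
        obtain ⟨v, hv, rfl⟩ := hx
        rw [mem_filter] at hv
        obtain ⟨_, hva, hvb, hvG⟩ := hv
        rw [mem_inter, Nb, mem_filter]
        refine ⟨v.2, mem_univ _, fun h => hva (Subtype.ext h), fun h => hvb (Subtype.ext h), fun h => hvG ?_⟩
        rw [GS, mem_filter]
        refine ⟨mem_univ _, ?_⟩
        rw [map_insert, map_insert, map_singleton]
        exact h
      have h3 : c * Real.log r / (r : ℝ) ^ 2 * (r : ℝ) ^ 20 = 8 * (ε * m) := by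
        rw [hε, hcc, hmR, hLr]
        ring
      rw [h3]
      refine le_trans ?_ h1
      exact_mod_cast h2

end Pool.Agent.Lib.MP_5c685b_co
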