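import Mathlib

set_option autoImplicit false

namespace Pool.Agent.Lib.MP_5c685b_co

open Finset

/-- `G` has a decomposition into complete `k`-graphs on `r` vertices. -/
def HasDec (k r : ℕ) {V : Type} [DecidableEq V] (G : Finset (Finset V)) : Prop :=
  ∃ 𝒮 : Finset (Finset V),
    (∀ S ∈ 𝒮, S.card = r ∧ ∀ e : Finset V, e ⊆ S → e.card = k → e ∈ G) ∧
    ∀ e ∈ G, ∃! S : Finset V, S ∈ 𝒮 ∧ e ⊆ S

/-- The divisibility conditions. -/
def Divis (k r : ℕ) {V : Type} [DecidableEq V] (G : Finset (Finset V)) : Prop :=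
  ∀ A : Finset V, A.card < k →
    Nat.choose (r - A.card) (k - A.card) ∣ (G.filter (fun e => A ⊆ e)).card

/-- The vertex type of the construction. -/
abbrev Vtx (N m k : ℕ) : Type := (Fin N × Fin m) ⊕ Fin (k - 1)

variable {N m k : ℕ}

/-- The transversal of a set `h` of parts given by the choice function `a`. -/
def mk (k : ℕ) (h : Finset (Fin N)) (a : h → Fin m) : Finset (Vtx N m k) :=
  Finset.univ.map ⟨fun j : h => (Sum.inl ((j : Fin N), a j) : Vtx N m k), by
    intro i j hij
    simp only [Sum.inl.injEq, Prod.mk.injEq] at hij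
    exact Subtype.ext hij.1⟩

theorem card_mk (h : Finset (Fin N)) (a : h → Fin m) : (mk k h a).card = h.card := by
  simp [mk]

theorem inl_mem_mk (h : Finset (Fin N)) (a : h → Fin m) (j : Fin N) (b : Fin m) :
    (Sum.inl (j, b) : Vtx N m k) ∈ mk k h a ↔ ∃ hj : j ∈ h, a ⟨j, hj⟩ = b := by
  unfold mk
  simp only [Finset.mem_map, Finset.mem_univ, true_and, Subtype.exists]
  constructor
  · rintro ⟨i, hi, hij⟩
    have h1 : (Sum.inl (i, a ⟨i, hi⟩) : Vtx N m k) = Sum.inl (j, b) := hij
    simp only [Sum.inl.injEq, Prod.mk.injEq] at h1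
    obtain ⟨rfl, rfl⟩ := h1
    exact ⟨hi, rfl⟩
  · rintro ⟨hj, rfl⟩
    exact ⟨j, hj, rfl⟩

theorem inr_not_mem_mk (h : Finset (Fin N)) (a : h → Fin m) (j : Fin (k-1)) :
    (Sum.inr j : Vtx N m k) ∉ mk k h a := by
  unfold mk
  simp

/-- The set of parts met by `A`. -/
def parts (A : Finset (Vtx N m k)) : Finset (Fin N) :=
  Finset.univ.filter (fun j => ∃ b : Fin m, (Sum.inl (j, b) : Vtx N m k) ∈ A)

theorem mem_parts (A : Finset (Vtx N m k)) (j : Fin N) :
    j ∈ parts A ↔ ∃ b : Fin m, (Sum.inl (j, b) : Vtx N m k) ∈ A := by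
  simp [parts]

theorem card_parts_le (A : Finset (Vtx N m k)) : (parts A).card ≤ A.card := by
  let g : Vtx N m k → Option (Fin N) := Sum.elim (fun p => some p.1) (fun _ => none)
  have h1 : (parts A).map Function.Embedding.some ⊆ A.image g := by
    intro o ho
    rw [Finset.mem_map] at ho
    obtain ⟨j, hj, rfl⟩ := ho
    rw [mem_parts] at hj
    obtain ⟨b, hb⟩ := hj
    rw [Finset.mem_image]
    exact ⟨_, hb, rfl⟩
  have h2 := Finset.card_le_card h1
  rw [Finset.card_map] at h2
  exact h2.trans Finset.card_image_le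

theorem parts_mk (h : Finset (Fin N)) (a : h → Fin m) : parts (mk k h a) = h := by
  ext j
  rw [mem_parts]
  constructor
  · rintro ⟨b, hb⟩
    exact ((inl_mem_mk h a j b).1 hb).1
  · intro hj
    exact ⟨a ⟨j, hj⟩, (inl_mem_mk h a j _).2 ⟨hj, rfl⟩⟩

theorem mk_injective (h : Finset (Fin N)) :
    Function.Injective (fun a : h → Fin m => mk k h a) := by
  intro a b hab
  funext ⟨j, hj⟩
  have h1 : (Sum.inl (j, a ⟨j, hj⟩) : Vtx N m k) ∈ mk k h a := (inl_mem_mk h a j _).2 ⟨hj, rfl⟩
  have hab' : mk k h a = mk k h b := hab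
  rw [hab'] at h1
  obtain ⟨_, h2⟩ := (inl_mem_mk h b j _).1 h1
  exact h2.symm

/-- The transversal removed edges. -/
def Htr (m k : ℕ) (H₀ : Finset (Finset (Fin N))) : Finset (Finset (Vtx N m k)) :=
  H₀.biUnion (fun h => Finset.univ.image (fun a : h → Fin m => mk k h a))

theorem mem_Htr (H₀ : Finset (Finset (Fin N))) (f : Finset (Vtx N m k)) :
    f ∈ Htr m k H₀ ↔ ∃ h ∈ H₀, ∃ a : h → Fin m, mk k h a = f := by
  simp [Htr]

/-- The divisibility of the degrees of the transversal part. -/
theorem dvd_Htr (H₀ : Finset (Finset (Fin N))) (hH : ∀ h ∈ H₀, h.card = k)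
    (A : Finset (Vtx N m k)) (hA : A.card < k) :
    m ∣ ((Htr m k H₀).filter (fun e => A ⊆ e)).card := by
  unfold Htr
  rw [Finset.filter_biUnion]
  rw [Finset.card_biUnion]
  · apply Finset.dvd_sum
    intro h hh
    rw [Finset.filter_image, Finset.card_image_of_injective _ (mk_injective h)]
    by_cases hin : ∀ v ∈ A, ∃ j ∈ h, ∃ b : Fin m, v = Sum.inl (j, b)
    · have hset : (Finset.univ.filter (fun a : h → Fin m => A ⊆ mk k h a)) =
          Fintype.piFinset (fun j : h => Finset.univ.filter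
            (fun b : Fin m => ∀ b' : Fin m, (Sum.inl ((j : Fin N), b') : Vtx N m k) ∈ A → b' = b)) := by
        ext a
        simp only [Finset.mem_filter, Finset.mem_univ, true_and, Fintype.mem_piFinset]
        constructor
        · intro hs j b' hb'
          obtain ⟨_, h2⟩ := (inl_mem_mk h a j b').1 (hs hb')
          exact h2.symm
        · intro hs v hv
          obtain ⟨j, hj, b, rfl⟩ := hin v hv
          exact (inl_mem_mk h a j b).2 ⟨hj, (hs ⟨j, hj⟩ b hv).symm⟩
      rw [hset, Fintype.card_piFinset]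
      have hex : ∃ j ∈ h, j ∉ parts A := by
        by_contra hcon
        push Not at hcon
        have h1 : h ⊆ parts A := hcon
        have h2 : h.card ≤ (parts A).card := Finset.card_le_card h1
        have h3 : (parts A).card ≤ A.card := card_parts_le A
        have h4 := hH h hh
        omega
      obtain ⟨j, hj, hjA⟩ := hex
      have hfull : (Finset.univ.filter
            (fun b : Fin m => ∀ b' : Fin m, (Sum.inl (((⟨j, hj⟩ : h) : Fin N), b') : Vtx N m k) ∈ A → b' = b)).card = m := by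
        rw [Finset.filter_true_of_mem]
        · simp
        · intro b _ b' hb'
          exact absurd ((mem_parts A j).2 ⟨b', hb'⟩) hjA
      have := Finset.dvd_prod_of_mem (fun j : h => (Finset.univ.filter
            (fun b : Fin m => ∀ b' : Fin m, (Sum.inl ((j : Fin N), b') : Vtx N m k) ∈ A → b' = b)).card)
            (Finset.mem_univ (⟨j, hj⟩ : h))
      rw [hfull] at this
      exact this
    · have hempty : (Finset.univ.filter (fun a : h → Fin m => A ⊆ mk k h a)) = ∅ := by
        rw [Finset.filter_eq_empty_iff]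
        intro a _ hs
        apply hin
        intro v hv
        rcases v with ⟨j, b⟩ | j
        · obtain ⟨hj, _⟩ := (inl_mem_mk h a j b).1 (hs hv)
          exact ⟨j, hj, b, rfl⟩
        · exact absurd (hs hv) (inr_not_mem_mk h a j)
      rw [hempty]
      simp
  · intro h1 hh1 h2 hh2 hne
    rw [Function.onFun, Finset.disjoint_left]
    intro f hf1 hf2
    simp only [Finset.mem_filter, Finset.mem_image, Finset.mem_univ, true_and] at hf1 hf2
    obtain ⟨⟨a, ha⟩, _⟩ := hf1
    obtain ⟨⟨b, hb⟩, _⟩ := hf2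
    apply hne
    rw [← parts_mk (k := k) h1 a, ha, ← hb, parts_mk]

/-- The distinguished subset of part `j`. -/
def X (m k x : ℕ) (j : Fin N) : Finset (Vtx N m k) :=
  (Finset.univ.filter (fun b : Fin m => b.val < x)).map
    ⟨fun b => (Sum.inl (j, b) : Vtx N m k), by
      intro b b' hb
      simpa using hb⟩

theorem card_X (x : ℕ) (hx : x ≤ m) (j : Fin N) : (X m k x j).card = x := by
  unfold X
  rw [Finset.card_map, Fin.card_filter_val_lt]
  omega

theorem inl_mem_X (x : ℕ) (j i : Fin N) (b : Fin m) :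
    (Sum.inl (i, b) : Vtx N m k) ∈ X m k x j ↔ i = j ∧ b.val < x := by
  unfold X
  simp only [Finset.mem_map, Finset.mem_filter, Finset.mem_univ, true_and]
  constructor
  · rintro ⟨b', hb', h⟩
    have h1 : (Sum.inl (j, b') : Vtx N m k) = Sum.inl (i, b) := h
    simp only [Sum.inl.injEq, Prod.mk.injEq] at h1
    obtain ⟨rfl, rfl⟩ := h1
    exact ⟨rfl, hb'⟩
  · rintro ⟨rfl, hb⟩
    exact ⟨b, hb, rfl⟩

theorem inr_not_mem_X (x : ℕ) (j : Fin N) (i : Fin (k-1)) :
    (Sum.inr i : Vtx N m k) ∉ X m k x j := by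
  unfold X
  simp

/-- The in-part removed edges. -/
def Hin (N m k x : ℕ) : Finset (Finset (Vtx N m k)) :=
  Finset.univ.biUnion (fun j : Fin N => (X m k x j).powersetCard k)

theorem mem_Hin (x : ℕ) (f : Finset (Vtx N m k)) :
    f ∈ Hin N m k x ↔ ∃ j : Fin N, f ⊆ X m k x j ∧ f.card = k := by
  simp [Hin]

theorem dvd_Hin (x : ℕ) (hx : x ≤ m) (hk : 1 ≤ k) (D : ℕ)
    (A : Finset (Vtx N m k)) (hA : A.card < k)
    (hD : D ∣ Nat.choose (x - A.card) (k - A.card)) :
    D ∣ ((Hin N m k x).filter (fun e => A ⊆ e)).card := by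
  unfold Hin
  rw [Finset.filter_biUnion, Finset.card_biUnion]
  · apply Finset.dvd_sum
    intro j _
    by_cases hAX : A ⊆ X m k x j
    · rw [Finset.card_filter_powersetCard_subset _ _ _ hAX hA.le, card_X x hx]
      exact hD
    · rw [Finset.filter_false_of_mem]
      · simp
      · intro e he hAe
        exact hAX (hAe.trans (Finset.mem_powersetCard.1 he).1)
  · intro i _ j _ hne
    rw [Function.onFun, Finset.disjoint_left]
    intro f hf1 hf2
    rw [Finset.mem_filter, Finset.mem_powersetCard] at hf1 hf2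
    obtain ⟨⟨h1, h3⟩, _⟩ := hf1
    obtain ⟨⟨h2, _⟩, _⟩ := hf2
    have hpos : 0 < f.card := by omega
    obtain ⟨v, hv⟩ := Finset.card_pos.1 hpos
    have hv1 := h1 hv
    have hv2 := h2 hv
    rcases v with ⟨a, b⟩ | a
    · rw [inl_mem_X] at hv1 hv2
      exact hne (hv1.1.symm.trans hv2.1)
    · exact inr_not_mem_X x i a hv1

theorem disjoint_Hin_Htr (x : ℕ) (hk : 2 ≤ k) (H₀ : Finset (Finset (Fin N)))
    (hH : ∀ h ∈ H₀, h.card = k) : Disjoint (Hin N m k x) (Htr m k H₀) := by
  rw [Finset.disjoint_left]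
  intro f hf1 hf2
  rw [mem_Hin] at hf1
  rw [mem_Htr] at hf2
  obtain ⟨j, hj, _⟩ := hf1
  obtain ⟨h, hh, a, rfl⟩ := hf2
  have h1 : h ⊆ {j} := by
    intro i hi
    have h2 : (Sum.inl (i, a ⟨i, hi⟩) : Vtx N m k) ∈ mk k h a := (inl_mem_mk h a i _).2 ⟨hi, rfl⟩
    have h3 := hj h2
    rw [inl_mem_X] at h3
    rw [Finset.mem_singleton]
    exact h3.1
  have h2 := Finset.card_le_card h1
  rw [hH h hh, Finset.card_singleton] at h2
  omega

/-- The graph of the construction. -/
def Gr (m k x : ℕ) (H₀ : Finset (Finset (Fin N))) : Finset (Finset (Vtx N m k)) :=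
  (Finset.univ.powersetCard k) \ (Hin N m k x ∪ Htr m k H₀)

theorem mem_Gr (x : ℕ) (H₀ : Finset (Finset (Fin N))) (f : Finset (Vtx N m k)) :
    f ∈ Gr m k x H₀ ↔ f.card = k ∧ f ∉ Hin N m k x ∧ f ∉ Htr m k H₀ := by
  simp [Gr, Finset.mem_sdiff, Finset.mem_powersetCard, not_or]

theorem deg_identity (x : ℕ) (hk : 2 ≤ k) (H₀ : Finset (Finset (Fin N)))
    (hH : ∀ h ∈ H₀, h.card = k) (A : Finset (Vtx N m k)) (hA : A.card < k) :
    ((Gr m k x H₀).filter (fun e => A ⊆ e)).card + (((Hin N m k x).filter (fun e => A ⊆ e)).card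
      + ((Htr m k H₀).filter (fun e => A ⊆ e)).card) =
    Nat.choose (N * m + (k-1) - A.card) (k - A.card) := by
  have h1 : ((Hin N m k x).filter (fun e => A ⊆ e)).card
      + ((Htr m k H₀).filter (fun e => A ⊆ e)).card =
      ((Hin N m k x ∪ Htr m k H₀).filter (fun e => A ⊆ e)).card := by
    rw [Finset.filter_union, Finset.card_union_of_disjoint]
    exact Finset.disjoint_filter_filter (disjoint_Hin_Htr x hk H₀ hH)
  rw [h1]
  have h2 : (Hin N m k x ∪ Htr m k H₀) ⊆ (Finset.univ : Finset (Vtx N m k)).powersetCard k := by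
    intro f hf
    rw [Finset.mem_powersetCard]
    refine ⟨Finset.subset_univ _, ?_⟩
    rw [Finset.mem_union] at hf
    rcases hf with hf | hf
    · rw [mem_Hin] at hf
      obtain ⟨_, _, h⟩ := hf
      exact h
    · rw [mem_Htr] at hf
      obtain ⟨h, hh, a, rfl⟩ := hf
      rw [card_mk, hH h hh]
  have h3 := Finset.card_filter_powersetCard_subset A (Finset.univ : Finset (Vtx N m k)) k
    (Finset.subset_univ _) hA.le
  have h4 : (Finset.univ : Finset (Vtx N m k)).card = N * m + (k-1) := by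
    simp
  rw [h4] at h3
  rw [← h3]
  unfold Gr
  rw [← Finset.card_union_of_disjoint]
  · congr 1
    rw [← Finset.filter_union, Finset.sdiff_union_of_subset h2]
  · apply Finset.disjoint_filter_filter
    exact Finset.sdiff_disjoint

theorem dvd_choose_aux (r k y i : ℕ) (hi : i < k)
    (hy : k.factorial * ∏ j ∈ Finset.range k, Nat.choose (r - j) (k - j) ∣ y) :
    Nat.choose (r - i) (k - i) ∣ Nat.choose (y + (k - 1) - i) (k - i) := by
  obtain ⟨s, hs⟩ : ∃ s, k - i = s + 1 := ⟨k - i - 1, by omega⟩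
  have h1 : (y + (k-1) - i).descFactorial (k - i) = y * (y + (k-1) - i).descFactorial s := by
    rw [hs, Nat.descFactorial_succ]
    congr 1
    omega
  have h2 : (y + (k-1) - i).descFactorial (k - i) =
      (k-i).factorial * Nat.choose (y + (k - 1) - i) (k - i) :=
    Nat.descFactorial_eq_factorial_mul_choose _ _
  have h3 : (k-i).factorial * Nat.choose (r - i) (k - i) ∣ y := by
    refine dvd_trans ?_ hy
    exact mul_dvd_mul (Nat.factorial_dvd_factorial (by omega))
      (Finset.dvd_prod_of_mem (fun j => Nat.choose (r - j) (k - j)) (Finset.mem_range.2 hi))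
  have h4 : (k-i).factorial * Nat.choose (r - i) (k - i) ∣
      (k-i).factorial * Nat.choose (y + (k - 1) - i) (k - i) := by
    rw [← h2, h1]
    exact dvd_mul_of_dvd_left h3 _
  exact Nat.dvd_of_mul_dvd_mul_left (Nat.factorial_pos _) h4

/-- The big modulus. -/
def Mod (k r : ℕ) : ℕ := k.factorial * ∏ j ∈ Finset.range k, Nat.choose (r - j) (k - j)

theorem divis_Gr (r t : ℕ) (hk : 2 ≤ k) (H₀ : Finset (Finset (Fin N)))
    (hH : ∀ h ∈ H₀, h.card = k) (hm : m = (t + 1) * Mod k r) (hM : k - 1 ≤ Mod k r) :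
    Divis k r (Gr m k (t * Mod k r + (k-1)) H₀) := by
  intro A hA
  have hx : t * Mod k r + (k-1) ≤ m := by
    rw [hm, add_mul, one_mul]
    omega
  have h1 := deg_identity (m := m) (t * Mod k r + (k-1)) hk H₀ hH A hA
  have h2 : Nat.choose (r - A.card) (k - A.card) ∣
      Nat.choose (N * m + (k-1) - A.card) (k - A.card) := by
    apply dvd_choose_aux r k (N * m) _ hA
    rw [hm]
    exact ⟨N * (t+1), by unfold Mod; ring⟩
  have h3 : Nat.choose (r - A.card) (k - A.card) ∣
      ((Hin N m k (t * Mod k r + (k-1))).filter (fun e => A ⊆ e)).card := by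
    apply dvd_Hin _ hx (by omega) _ A hA
    apply dvd_choose_aux r k (t * Mod k r) _ hA
    exact ⟨t, by unfold Mod; ring⟩
  have h4 : Nat.choose (r - A.card) (k - A.card) ∣
      ((Htr m k H₀).filter (fun e => A ⊆ e)).card := by
    refine dvd_trans ?_ (dvd_Htr H₀ hH A hA)
    have h5 : Mod k r ∣ m := ⟨t + 1, by rw [hm, mul_comm]⟩
    refine dvd_trans ?_ h5
    unfold Mod
    apply dvd_mul_of_dvd_right
    exact Finset.dvd_prod_of_mem (fun j => Nat.choose (r - j) (k - j)) (Finset.mem_range.2 hA)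
  rw [← h1] at h2
  exact (Nat.dvd_add_left (dvd_add h3 h4)).1 h2

/-- Codegrees of the construction. -/
theorem codeg_Gr (x E : ℕ) (hk : 2 ≤ k) (H₀ : Finset (Finset (Fin N)))
    (hH : ∀ h ∈ H₀, h.card = k) (hE0 : 1 ≤ E)
    (hE : ∀ B : Finset (Fin N), B.card = k - 1 →
      ((Finset.univ \ B).filter (fun j => insert j B ∈ H₀)).card < E)
    (A : Finset (Vtx N m k)) (hA : A.card = k - 1) :
    N * m ≤ ((Gr m k x H₀).filter (fun e => A ⊆ e)).card + E * m := by
  classical
  -- the bad parts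
  let J1 : Finset (Fin N) := Finset.univ.filter (fun j => A ⊆ X m k x j)
  let J2 : Finset (Fin N) := (Finset.univ \ parts A).filter (fun j => insert j (parts A) ∈ H₀)
  have hJ1 : J1.card ≤ 1 := by
    rw [Finset.card_le_one]
    intro i hi j hj
    rw [Finset.mem_filter] at hi hj
    have hpos : 0 < A.card := by omega
    obtain ⟨v, hv⟩ := Finset.card_pos.1 hpos
    have hv1 := hi.2 hv
    have hv2 := hj.2 hv
    rcases v with ⟨a, b⟩ | a
    · rw [inl_mem_X] at hv1 hv2
      exact hv1.1.symm.trans hv2.1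
    · exact absurd hv1 (inr_not_mem_X x i a)
  have hJ2 : J2.card < E := by
    by_cases hc : (parts A).card = k - 1
    · exact hE _ hc
    · have h0 : J2 = ∅ := by
        rw [Finset.filter_eq_empty_iff]
        intro j hj hmem
        have h1 := hH _ hmem
        rw [Finset.card_insert_of_notMem (Finset.mem_sdiff.1 hj).2] at h1
        omega
      rw [h0, Finset.card_empty]
      omega
  have hJ : (J1 ∪ J2).card ≤ E := by
    have := Finset.card_union_le J1 J2
    omega
  let Q : Finset (Vtx N m k) := ((J1 ∪ J2) ×ˢ (Finset.univ : Finset (Fin m))).map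
    ⟨fun p => Sum.inl p, Sum.inl_injective⟩
  have hQ : Q.card ≤ E * m := by
    rw [Finset.card_map, Finset.card_product, Finset.card_univ, Fintype.card_fin]
    exact Nat.mul_le_mul_right m hJ
  have hmemQ : ∀ (j : Fin N) (b : Fin m), j ∈ J1 ∪ J2 → (Sum.inl (j, b) : Vtx N m k) ∈ Q := by
    intro j b hj
    rw [Finset.mem_map]
    exact ⟨(j, b), Finset.mem_product.2 ⟨hj, Finset.mem_univ _⟩, rfl⟩
  have hcard : N * m ≤ (Finset.univ \ (A ∪ Q)).card + E * m := by
    rw [Finset.card_sdiff_of_subset (Finset.subset_univ _)]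
    have h1 := Finset.card_union_le A Q
    have h4 : (Finset.univ : Finset (Vtx N m k)).card = N * m + (k-1) := by
      simp
    omega
  refine hcard.trans (Nat.add_le_add_right ?_ _)
  apply Finset.card_le_card_of_injOn (fun v => insert v A)
  · intro v hv
    have hv' : v ∉ A ∧ v ∉ Q := by
      have := (Finset.mem_sdiff.1 (Finset.mem_coe.1 hv)).2
      rw [Finset.mem_union, not_or] at this
      exact this
    obtain ⟨hvA, hvQ⟩ := hv'
    rw [Finset.mem_coe, Finset.mem_filter]
    refine ⟨?_, Finset.subset_insert _ _⟩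
    rw [mem_Gr]
    refine ⟨by rw [Finset.card_insert_of_notMem hvA]; omega, ?_, ?_⟩
    · intro hin
      rw [mem_Hin] at hin
      obtain ⟨j, hj, _⟩ := hin
      have hj1 : j ∈ J1 := by
        rw [Finset.mem_filter]
        exact ⟨Finset.mem_univ _, (Finset.subset_insert _ _).trans hj⟩
      have hvX := hj (Finset.mem_insert_self v A)
      rcases v with ⟨i, b⟩ | i
      · rw [inl_mem_X] at hvX
        obtain ⟨rfl, _⟩ := hvX
        exact hvQ (hmemQ i b (Finset.mem_union_left _ hj1))
      · exact inr_not_mem_X x j i hvX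
    · intro htr
      rw [mem_Htr] at htr
      obtain ⟨h, hh, a, ha⟩ := htr
      have hv1 : v ∈ mk k h a := by
        rw [ha]
        exact Finset.mem_insert_self v A
      rcases v with ⟨j, b⟩ | j
      · obtain ⟨hj, hjb⟩ := (inl_mem_mk h a j b).1 hv1
        have hjA : j ∉ parts A := by
          intro hj'
          rw [mem_parts] at hj'
          obtain ⟨b', hb'⟩ := hj'
          have h5 : (Sum.inl (j, b') : Vtx N m k) ∈ mk k h a := by
            rw [ha]
            exact Finset.mem_insert_of_mem hb'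
          obtain ⟨_, h6⟩ := (inl_mem_mk h a j b').1 h5
          rw [← hjb, h6] at hvA
          exact hvA hb'
        have hins : insert j (parts A) = h := by
          ext i
          rw [Finset.mem_insert]
          constructor
          · rintro (rfl | hi)
            · exact hj
            · rw [mem_parts] at hi
              obtain ⟨b', hb'⟩ := hi
              have h5 : (Sum.inl (i, b') : Vtx N m k) ∈ mk k h a := by
                rw [ha]
                exact Finset.mem_insert_of_mem hb'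
              exact ((inl_mem_mk h a i b').1 h5).1
          · intro hi
            have h5 : (Sum.inl (i, a ⟨i, hi⟩) : Vtx N m k) ∈ mk k h a :=
              (inl_mem_mk h a i _).2 ⟨hi, rfl⟩
            rw [ha, Finset.mem_insert] at h5
            rcases h5 with h5 | h5
            · simp only [Sum.inl.injEq, Prod.mk.injEq] at h5
              exact Or.inl h5.1
            · exact Or.inr ((mem_parts A i).2 ⟨_, h5⟩)
        have hj2 : j ∈ J2 := by
          rw [Finset.mem_filter, Finset.mem_sdiff]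
          exact ⟨⟨Finset.mem_univ _, hjA⟩, by rw [hins]; exact hh⟩
        exact hvQ (hmemQ j b (Finset.mem_union_right _ hj2))
      · exact inr_not_mem_mk h a j hv1
  · intro v hv w hw hvw
    have hv' : v ∉ A := by
      have := (Finset.mem_sdiff.1 (Finset.mem_coe.1 hv)).2
      rw [Finset.mem_union, not_or] at this
      exact this.1
    have h1 : v ∈ insert w A := by
      have h2 : insert v A = insert w A := hvw
      rw [← h2]
      exact Finset.mem_insert_self v A
    rw [Finset.mem_insert] at h1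
    rcases h1 with h1 | h1
    · exact h1
    · exact absurd h1 hv'

/-- The number of vertices outside the distinguished subsets. -/
theorem card_outside (x : ℕ) (hx : x ≤ m) :
    (Finset.univ \ (Finset.univ.biUnion (fun j : Fin N => X m k x j))).card =
      N * (m - x) + (k - 1) := by
  rw [Finset.card_sdiff_of_subset (Finset.subset_univ _), Finset.card_biUnion]
  · simp only [card_X x hx, Finset.sum_const, Finset.card_univ, Fintype.card_fin, smul_eq_mul,
      Fintype.card_sum, Fintype.card_prod]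
    obtain ⟨d, rfl⟩ := Nat.exists_eq_add_of_le hx
    rw [Nat.add_sub_cancel_left, mul_add]
    omega
  · intro i _ j _ hne
    rw [Function.onFun, Finset.disjoint_left]
    intro v hv1 hv2
    rcases v with ⟨a, b⟩ | a
    · rw [inl_mem_X] at hv1 hv2
      exact hne (hv1.1.symm.trans hv2.1)
    · exact inr_not_mem_X x i a hv1

/-- Every clique meets the outside. -/
theorem clique_meets (x r : ℕ) (hk : 2 ≤ k) (H₀ : Finset (Finset (Fin N)))
    (hH : ∀ h ∈ H₀, h.card = k)
    (hind : ∀ B : Finset (Fin N), r ≤ (k - 1) * B.card → ∃ h ∈ H₀, h ⊆ B)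
    (S : Finset (Vtx N m k)) (hS : S.card = r)
    (hSG : ∀ e : Finset (Vtx N m k), e ⊆ S → e.card = k → e ∈ Gr m k x H₀) :
    ∃ w ∈ S, w ∉ Finset.univ.biUnion (fun j : Fin N => X m k x j) := by
  classical
  by_contra hcon
  push Not at hcon
  have hsub : ∀ w ∈ S, ∃ j : Fin N, w ∈ X m k x j := by
    intro w hw
    have := hcon w hw
    rw [Finset.mem_biUnion] at this
    obtain ⟨j, _, hj⟩ := this
    exact ⟨j, hj⟩
  -- each part contains at most k-1 vertices of S
  have hsmall : ∀ j : Fin N, (S ∩ X m k x j).card ≤ k - 1 := by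
    intro j
    by_contra hbig
    push Not at hbig
    obtain ⟨e, he, hec⟩ := Finset.exists_subset_card_eq (s := S ∩ X m k x j) (n := k) (by omega)
    have h1 := hSG e (he.trans Finset.inter_subset_left) hec
    rw [mem_Gr] at h1
    exact h1.2.1 ((mem_Hin x e).2 ⟨j, he.trans Finset.inter_subset_right, hec⟩)
  have hcount : S.card ≤ (k - 1) * (parts S).card := by
    have h1 : S ⊆ (parts S).biUnion (fun j => S ∩ X m k x j) := by
      intro w hw
      obtain ⟨j, hj⟩ := hsub w hw
      rw [Finset.mem_biUnion]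
      refine ⟨j, ?_, Finset.mem_inter.2 ⟨hw, hj⟩⟩
      rcases w with ⟨i, b⟩ | i
      · rw [inl_mem_X] at hj
        rw [← hj.1]
        exact (mem_parts S i).2 ⟨b, hw⟩
      · exact absurd hj (inr_not_mem_X x j i)
    calc S.card ≤ ((parts S).biUnion (fun j => S ∩ X m k x j)).card := Finset.card_le_card h1
      _ ≤ ∑ j ∈ parts S, (S ∩ X m k x j).card := Finset.card_biUnion_le
      _ ≤ ∑ j ∈ parts S, (k - 1) := Finset.sum_le_sum (fun j _ => hsmall j)
      _ = (k - 1) * (parts S).card := by rw [Finset.sum_const, smul_eq_mul, mul_comm]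
  obtain ⟨h, hh, hsubh⟩ := hind (parts S) (by rw [← hS]; exact hcount)
  have hchoice : ∀ j : h, ∃ b : Fin m, (Sum.inl ((j : Fin N), b) : Vtx N m k) ∈ S :=
    fun j => (mem_parts S j).1 (hsubh j.2)
  choose a ha using hchoice
  have hmk : mk k h a ⊆ S := by
    intro v hv
    rcases v with ⟨j, b⟩ | j
    · obtain ⟨hj, rfl⟩ := (inl_mem_mk h a j b).1 hv
      exact ha ⟨j, hj⟩
    · exact absurd hv (inr_not_mem_mk h a j)
  have h1 := hSG (mk k h a) hmk (by rw [card_mk, hH h hh])
  rw [mem_Gr] at h1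
  exact h1.2.2 ((mem_Htr H₀ _).2 ⟨h, hh, a, rfl⟩)

/-- There is no decomposition. -/
theorem no_dec (x r E : ℕ) (hk : 2 ≤ k) (hx : x ≤ m) (hxk : k - 1 ≤ x)
    (H₀ : Finset (Finset (Fin N)))
    (hH : ∀ h ∈ H₀, h.card = k) (hE0 : 1 ≤ E) (hEN : E < N)
    (hE : ∀ B : Finset (Fin N), B.card = k - 1 →
      ((Finset.univ \ B).filter (fun j => insert j B ∈ H₀)).card < E)
    (hind : ∀ B : Finset (Fin N), r ≤ (k - 1) * B.card → ∃ h ∈ H₀, h ⊆ B)
    (hbig : r * (N * (m - x) + (k - 1)) < m) :
    ¬ HasDec k r (Gr m k x H₀) := by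
  classical
  rintro ⟨𝒮, hS1, hS2⟩
  -- a (k-1)-set in the first part
  have hN : 0 < N := by omega
  obtain ⟨A, hAX, hA⟩ := Finset.exists_subset_card_eq (s := X m k x (⟨0, hN⟩ : Fin N)) (n := k - 1)
    (by rw [card_X x hx]; exact hxk)
  have hdeg := codeg_Gr (m := m) x E hk H₀ hH hE0 hE A hA
  set W : Finset (Vtx N m k) :=
    Finset.univ \ (Finset.univ.biUnion (fun j : Fin N => X m k x j)) with hW
  have hWc : W.card = N * (m - x) + (k - 1) := card_outside x hx
  have hAW : ∀ w ∈ W, w ∉ A := by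
    intro w hw hwA
    rw [hW, Finset.mem_sdiff] at hw
    exact hw.2 (Finset.mem_biUnion.2 ⟨_, Finset.mem_univ _, hAX hwA⟩)
  let 𝒮₀ := 𝒮.filter (fun S => A ⊆ S)
  have hmeet : ∀ S ∈ 𝒮₀, ∃ w ∈ S, w ∈ W := by
    intro S hS
    rw [Finset.mem_filter] at hS
    obtain ⟨w, hw, hw'⟩ := clique_meets x r hk H₀ hH hind S (hS1 S hS.1).1 (hS1 S hS.1).2
    exact ⟨w, hw, by rw [hW, Finset.mem_sdiff]; exact ⟨Finset.mem_univ _, hw'⟩⟩
  have hcard0 : 𝒮₀.card ≤ W.card := by
    have : Nonempty (Vtx N m k) := ⟨Sum.inl (⟨0, hN⟩, ⟨0, by omega⟩)⟩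
    choose! g hg1 hg2 using hmeet
    apply Finset.card_le_card_of_injOn g
    · intro S hS
      exact hg2 S hS
    · intro S hS S' hS' hgg
      have hS'' : S ∈ 𝒮₀ := hS
      have hS''' : S' ∈ 𝒮₀ := hS'
      have h1 : insert (g S) A ⊆ S :=
        Finset.insert_subset (hg1 S hS'') (Finset.mem_filter.1 hS'').2
      have h2 : insert (g S) A ⊆ S' := by
        rw [hgg]
        exact Finset.insert_subset (hg1 S' hS''') (Finset.mem_filter.1 hS''').2
      have h3 : (insert (g S) A).card = k := by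
        rw [Finset.card_insert_of_notMem (hAW _ (hg2 S hS''))]
        omega
      have h4 : insert (g S) A ∈ Gr m k x H₀ :=
        (hS1 S (Finset.mem_filter.1 hS'').1).2 _ h1 h3
      obtain ⟨T, _, hT⟩ := hS2 _ h4
      rw [hT S ⟨(Finset.mem_filter.1 hS'').1, h1⟩, hT S' ⟨(Finset.mem_filter.1 hS''').1, h2⟩]
  -- the edges containing A inject into the union of the cliques
  have hcov : ((Gr m k x H₀).filter (fun e => A ⊆ e)).card ≤ 𝒮₀.card * r := by
    have h1 : ((Gr m k x H₀).filter (fun e => A ⊆ e)).card ≤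
        (𝒮₀.biUnion (fun S => (S \ A))).card := by
      apply Finset.card_le_card_of_surjOn (fun v => insert v A)
      intro e he
      rw [Finset.mem_coe, Finset.mem_filter] at he
      obtain ⟨heG, hAe⟩ := he
      have hec : e.card = k := ((mem_Gr x H₀ e).1 heG).1
      have h2 : (e \ A).card = 1 := by
        rw [Finset.card_sdiff_of_subset hAe]
        omega
      obtain ⟨v, hv⟩ := Finset.card_eq_one.1 h2
      obtain ⟨S, hS, _⟩ := hS2 e heG
      have hve : v ∈ e \ A := by rw [hv]; exact Finset.mem_singleton_self v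
      rw [Finset.mem_sdiff] at hve
      refine ⟨v, ?_, ?_⟩
      · rw [Finset.mem_coe, Finset.mem_biUnion]
        exact ⟨S, Finset.mem_filter.2 ⟨hS.1, hAe.trans hS.2⟩,
          Finset.mem_sdiff.2 ⟨hS.2 hve.1, hve.2⟩⟩
      · have : insert v A = e := by
          rw [Finset.insert_eq, ← hv, Finset.sdiff_union_of_subset hAe]
        exact this
    refine h1.trans (Finset.card_biUnion_le_card_mul _ _ _ ?_)
    intro S hS
    have := (hS1 S (Finset.mem_filter.1 hS).1).1
    calc (S \ A).card ≤ S.card := Finset.card_le_card Finset.sdiff_subset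
      _ ≤ r := this.le
  -- contradiction
  have h5 : ((Gr m k x H₀).filter (fun e => A ⊆ e)).card ≤ r * (N * (m - x) + (k - 1)) := by
    refine hcov.trans ?_
    rw [mul_comm, ← hWc]
    exact Nat.mul_le_mul_left _ hcard0
  have h6 : (E + 1) * m ≤ N * m := Nat.mul_le_mul_right _ hEN
  rw [add_mul, one_mul] at h6
  omega

/-- Transfer of the decomposition property along an equivalence. -/
theorem transfer {V W : Type} [DecidableEq V] [DecidableEq W] (φ : V ≃ W) (k r D : ℕ)
    (G : Finset (Finset V)) (hG : ∀ e ∈ G, e.card = k) (hdiv : Divis k r G)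
    (hdeg : ∀ A : Finset V, A.card = k - 1 → D ≤ (G.filter (fun e => A ⊆ e)).card)
    (hno : ¬ HasDec k r G) :
    ∃ G' : Finset (Finset W), (∀ e ∈ G', e.card = k) ∧ Divis k r G' ∧
      (∀ A : Finset W, A.card = k - 1 → D ≤ (G'.filter (fun e => A ⊆ e)).card) ∧
      ¬ HasDec k r G' := by
  classical
  let ψ : Finset V ≃ Finset W := Equiv.finsetCongr φ
  have hcard : ∀ A : Finset V, (ψ A).card = A.card := by
    intro A
    simp [ψ]
  have hcard' : ∀ A : Finset W, (ψ.symm A).card = A.card := by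
    intro A
    have := hcard (ψ.symm A)
    rw [Equiv.apply_symm_apply] at this
    exact this.symm
  have hsub : ∀ A B : Finset V, ψ A ⊆ ψ B ↔ A ⊆ B := by
    intro A B
    simp [ψ]
  have hsub' : ∀ (A : Finset W) (B : Finset V), A ⊆ ψ B ↔ ψ.symm A ⊆ B := by
    intro A B
    rw [← hsub, Equiv.apply_symm_apply]
  have hfilt : ∀ A : Finset W, ((G.map ψ.toEmbedding).filter (fun e => A ⊆ e)).card =
      (G.filter (fun e => ψ.symm A ⊆ e)).card := by
    intro A
    rw [Finset.filter_map, Finset.card_map]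
    congr 1
    ext e
    simp only [Finset.mem_filter, Function.comp_apply, Equiv.coe_toEmbedding]
    rw [hsub']
  refine ⟨G.map ψ.toEmbedding, ?_, ?_, ?_, ?_⟩
  · intro e he
    rw [Finset.mem_map] at he
    obtain ⟨f, hf, rfl⟩ := he
    rw [Equiv.coe_toEmbedding, hcard]
    exact hG f hf
  · intro A hA
    rw [hfilt]
    have := hdiv (ψ.symm A) (by rw [hcard']; exact hA)
    rw [hcard'] at this
    exact this
  · intro A hA
    rw [hfilt]
    exact hdeg _ (by rw [hcard']; exact hA)
  · rintro ⟨𝒮, h1, h2⟩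
    apply hno
    refine ⟨𝒮.map ψ.symm.toEmbedding, ?_, ?_⟩
    · intro S hS
      rw [Finset.mem_map] at hS
      obtain ⟨T, hT, rfl⟩ := hS
      obtain ⟨h3, h4⟩ := h1 T hT
      rw [Equiv.coe_toEmbedding]
      refine ⟨by rw [hcard']; exact h3, ?_⟩
      intro e he hec
      have h5 : ψ e ⊆ T := by
        rw [← hsub, Equiv.apply_symm_apply] at he
        exact he
      have h6 := h4 (ψ e) h5 (by rw [hcard]; exact hec)
      rw [Finset.mem_map] at h6
      obtain ⟨f, hf, hfe⟩ := h6
      rw [Equiv.coe_toEmbedding] at hfe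
      rw [← ψ.injective hfe]
      exact hf
    · intro e he
      obtain ⟨T, ⟨hT1, hT2⟩, hT3⟩ := h2 (ψ e) (Finset.mem_map_of_mem _ he)
      refine ⟨ψ.symm T, ⟨?_, ?_⟩, ?_⟩
      · rw [Finset.mem_map]
        exact ⟨T, hT1, rfl⟩
      · rw [← hsub, Equiv.apply_symm_apply]
        exact hT2
      · rintro S ⟨hS1, hS2⟩
        rw [Finset.mem_map] at hS1
        obtain ⟨U, hU, rfl⟩ := hS1
        rw [Equiv.coe_toEmbedding] at hS2 ⊢
        congr 1
        apply hT3
        refine ⟨hU, ?_⟩
        rw [← hsub, Equiv.apply_symm_apply] at hS2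
        exact hS2

/-- The set of admissible `δ`. -/
def Adm (k r : ℕ) : Set ℝ :=
  {δ : ℝ | 0 ≤ δ ∧ δ ≤ 1 ∧ ∃ n0 : ℕ, ∀ n : ℕ, n0 ≤ n →
      ∀ G : Finset (Finset (Fin n)),
        (∀ e ∈ G, e.card = k) →
        (∀ A : Finset (Fin n), A.card < k →
          Nat.choose (r - A.card) (k - A.card) ∣ (G.filter (fun e => A ⊆ e)).card) →
        (∀ A : Finset (Fin n), A.card = k - 1 →
          δ * (n : ℝ) ≤ ((G.filter (fun e => A ⊆ e)).card : ℝ)) →
        ∃ 𝒮 : Finset (Finset (Fin n)),
          (∀ S ∈ 𝒮, S.card = r ∧ ∀ e : Finset (Fin n), e ⊆ S → e.card = k → e ∈ G) ∧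
          ∀ e ∈ G, ∃! S : Finset (Fin n), S ∈ 𝒮 ∧ e ⊆ S}

theorem Mod_pos (k r : ℕ) (hkr : k < r) : 0 < Mod k r := by
  unfold Mod
  apply Nat.mul_pos (Nat.factorial_pos _)
  apply Finset.prod_pos
  intro j hj
  rw [Finset.mem_range] at hj
  exact Nat.choose_pos (by omega)

theorem le_Mod (k r : ℕ) (hkr : k < r) : k - 1 ≤ Mod k r := by
  have h1 : k ≤ k.factorial := Nat.self_le_factorial k
  have h2 : k.factorial ≤ Mod k r := by
    unfold Mod
    apply Nat.le_mul_of_pos_right
    apply Finset.prod_pos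
    intro j hj
    rw [Finset.mem_range] at hj
    exact Nat.choose_pos (by omega)
  omega

/-- The lower bound on admissible `δ` from a good system of parts. -/
theorem lower_of_system (k r N E : ℕ) (hk : 2 ≤ k) (hkr : k < r)
    (H₀ : Finset (Finset (Fin N)))
    (hH : ∀ h ∈ H₀, h.card = k) (hE0 : 1 ≤ E) (hEN : E < N)
    (hE : ∀ B : Finset (Fin N), B.card = k - 1 →
      ((Finset.univ \ B).filter (fun j => insert j B ∈ H₀)).card < E)
    (hind : ∀ B : Finset (Fin N), r ≤ (k - 1) * B.card → ∃ h ∈ H₀, h ⊆ B)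
    (δ : ℝ) (hδ : δ ∈ Adm k r) : 1 - (E : ℝ) / N ≤ δ := by
  by_contra hcon
  push Not at hcon
  obtain ⟨h0, h1, n0, hn0⟩ := hδ
  have hNpos : (0 : ℝ) < N := by exact_mod_cast (by omega : 0 < N)
  -- slack
  have hslack : 0 < (N : ℝ) - E - δ * N := by
    have h2 : δ * N < (1 - (E : ℝ) / N) * N := mul_lt_mul_of_pos_right hcon hNpos
    have h3 : (1 - (E : ℝ) / N) * N = N - E := by
      field_simp
    rw [h3] at h2
    linarith
  have hMpos : 0 < Mod k r := Mod_pos k r hkr
  -- choose t large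
  obtain ⟨t1, ht1⟩ := exists_nat_gt (δ * ((k - 1 : ℕ) : ℝ) / ((N : ℝ) - E - δ * N))
  set t : ℕ := n0 + t1 + r * (N * Mod k r + (k - 1)) with ht
  set m : ℕ := (t + 1) * Mod k r with hm
  set x : ℕ := t * Mod k r + (k - 1) with hxdef
  have htm : t + 1 ≤ m := by
    rw [hm]
    exact Nat.le_mul_of_pos_right _ hMpos
  have hleM := le_Mod k r hkr
  have hmeq : m = t * Mod k r + Mod k r := by
    rw [hm]
    ring
  have hxm : x ≤ m := by
    omega
  have hmx : m - x ≤ Mod k r := by
    omega
  have hbig : r * (N * (m - x) + (k - 1)) < m := by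
    have h3 : r * (N * (m - x) + (k - 1)) ≤ r * (N * Mod k r + (k - 1)) :=
      Nat.mul_le_mul_left _ (Nat.add_le_add_right (Nat.mul_le_mul_left _ hmx) _)
    omega
  have hno := no_dec (m := m) x r E hk hxm (by omega) H₀ hH hE0 hEN hE hind hbig
  have hdiv := divis_Gr (m := m) r t hk H₀ hH rfl hleM
  have hEm : E * m ≤ N * m := Nat.mul_le_mul_right _ (by omega)
  have hn : Fintype.card (Vtx N m k) = N * m + (k - 1) := by simp
  obtain ⟨G', hG1, hG2, hG3, hG4⟩ := transfer (Fintype.equivFinOfCardEq hn) k r (N * m - E * m)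
    (Gr m k x H₀) (fun e he => ((mem_Gr x H₀ e).1 he).1) hdiv
    (fun A hA => by
      have := codeg_Gr (m := m) x E hk H₀ hH hE0 hE A hA
      omega) hno
  apply hG4
  apply hn0 (N * m + (k - 1)) _ G' hG1 hG2 _
  · have : m ≤ N * m := Nat.le_mul_of_pos_left _ (by omega)
    omega
  · intro A hA
    have h3 : ((N * m - E * m : ℕ) : ℝ) ≤ ((G'.filter (fun e => A ⊆ e)).card : ℝ) := by
      exact_mod_cast hG3 A hA
    refine le_trans ?_ h3
    rw [Nat.cast_sub hEm]
    push_cast
    have h4 : δ * ((k - 1 : ℕ) : ℝ) < t1 * ((N : ℝ) - E - δ * N) := by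
      rwa [div_lt_iff₀ hslack] at ht1
    have h5 : (t1 : ℝ) ≤ m := by
      exact_mod_cast (by omega : t1 ≤ m)
    have h6 : (t1 : ℝ) * ((N : ℝ) - E - δ * N) ≤ m * ((N : ℝ) - E - δ * N) :=
      mul_le_mul_of_nonneg_right h5 hslack.le
    nlinarith

end Pool.Agent.Lib.MP_5c685b_co
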