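import Mathlib

/-!
Row FC2: duality (paper section 4).
-/

namespace Pool.Agent.Lib.MP_5c685b_co

open Finset Classical

private theorem FC2_expand {ι : Type} [Fintype ι] [DecidableEq ι] (f : (ι → ℝ) →L[ℝ] ℝ) (v : ι → ℝ) :
    f v = ∑ i, v i * f (Pi.single i 1) := by
  have h : v = ∑ i, v i • (Pi.single i (1 : ℝ) : ι → ℝ) := by
    funext j
    rw [Finset.sum_apply]
    simp only [Pi.smul_apply, smul_eq_mul, Pi.single_apply]
    simp
  conv_lhs => rw [h]
  rw [map_sum]
  refine Finset.sum_congr rfl (fun i _ => ?_)
  rw [map_smul, smul_eq_mul]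

/-- Duality. `E` = edges, `K` = cliques, every clique contains exactly `N > 0` edges. If every `y` with
nonnegative sums over the cliques has a nonnegative sum over `E`, then there are weights `w ≥ 0` with
total weight 1 on every edge. Proof: otherwise `E` is nonempty and the vector `1` is not in the convex
hull of the finite set of the vectors `(card E / N) * indicator` of the cliques (which is closed:
`Set.Finite.isCompact_convexHull`); `geometric_hahn_banach_point_closed` (or a variant) gives `y` and
`s` with `∑ y e < s ≤ (card E / N) * ∑_{e in clique} y e`; then `y' = y - s / card E` is a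
contradiction. If there are no cliques, `y = -1`. -/
theorem duality {α β : Type} (E : Finset α) (K : Finset β) (inc : α → β → Prop) (N : ℕ)
    (hN : 0 < N) (hinc : ∀ b ∈ K, (E.filter fun e => inc e b).card = N)
    (h : ∀ y : α → ℝ, (∀ b ∈ K, 0 ≤ ∑ e ∈ E.filter (fun e => inc e b), y e) →
      0 ≤ ∑ e ∈ E, y e) :
    ∃ w : β → ℝ, (∀ b, 0 ≤ w b) ∧ ∀ e ∈ E, ∑ b ∈ K.filter (fun b => inc e b), w b = 1 := by
  rcases E.eq_empty_or_nonempty with hE | hE
  · subst hE
    exact ⟨fun _ => 0, fun _ => le_refl _, fun e he => absurd he (Finset.notMem_empty e)⟩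
  have hMpos : (0 : ℝ) < (E.card : ℝ) := by exact_mod_cast Finset.card_pos.mpr hE
  have hNpos : (0 : ℝ) < (N : ℝ) := by exact_mod_cast hN
  -- the cone map
  let vec : K → E → ℝ := fun b e => if inc e.1 b.1 then (E.card : ℝ) / N else 0
  let L : (K → ℝ) → (E → ℝ) := fun w e => ∑ b : K, w b * vec b e
  have hL : IsLinearMap ℝ L := by
    constructor
    · intro x y
      funext e
      simp only [L, Pi.add_apply, add_mul, Finset.sum_add_distrib]
    · intro c x
      funext e
      simp only [L, Pi.smul_apply, smul_eq_mul, Finset.mul_sum, mul_assoc]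
  have hLc : Continuous L := by
    refine continuous_pi (fun e => ?_)
    exact continuous_finsetSum _ (fun b _ => (continuous_apply b).mul continuous_const)
  by_cases hmem : (fun _ => 1 : E → ℝ) ∈ L '' stdSimplex ℝ K
  · obtain ⟨w, hw, hw1⟩ := hmem
    refine ⟨fun b => if hb : b ∈ K then w ⟨b, hb⟩ * ((E.card : ℝ) / N) else 0, ?_, ?_⟩
    · intro b
      by_cases hb : b ∈ K
      · simp only [hb, dif_pos]
        exact mul_nonneg (hw.1 _) (div_nonneg hMpos.le hNpos.le)
      · simp only [hb, dif_neg, not_false_eq_true]
        exact le_refl _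
    · intro e he
      have h1 := congrFun hw1 ⟨e, he⟩
      simp only [L, vec] at h1
      rw [← h1, Finset.sum_filter, ← Finset.sum_coe_sort K]
      refine Finset.sum_congr rfl (fun b _ => ?_)
      by_cases hi : inc e b.1
      · rw [if_pos hi, if_pos hi, dif_pos b.2]
      · rw [if_neg hi, if_neg hi, mul_zero]
  · exfalso
    have hconv : Convex ℝ (L '' stdSimplex ℝ K) := (convex_stdSimplex ℝ K).is_linear_image hL
    have hclosed : IsClosed (L '' stdSimplex ℝ K) := ((isCompact_stdSimplex ℝ K).image hLc).isClosed
    obtain ⟨f, u, hf1, hf2⟩ := geometric_hahn_banach_point_closed hconv hclosed hmem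
    have hvec : ∀ b : K, u < f (vec b) := by
      intro b
      refine hf2 (vec b) ⟨Pi.single b 1, single_mem_stdSimplex ℝ b, ?_⟩
      funext e
      simp only [L, Pi.single_apply]
      simp
    let y : α → ℝ := fun e => if he : e ∈ E then f (Pi.single ⟨e, he⟩ 1) - u / E.card else 0
    have hyE : ∀ e : E, y e.1 = f (Pi.single e 1) - u / E.card := by
      intro e
      simp only [y, dif_pos e.2]
    have hy1 : ∀ b ∈ K, 0 ≤ ∑ e ∈ E.filter (fun e => inc e b), y e := by
      intro b hb
      have hfv := hvec ⟨b, hb⟩
      rw [FC2_expand] at hfv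
      have e1 : ∑ e ∈ E.filter (fun e => inc e b), y e =
          ((N : ℝ) / E.card) * (∑ i : E, vec ⟨b, hb⟩ i * f (Pi.single i 1)) - N * (u / E.card) := by
        have e2 : (N : ℝ) * (u / E.card) = ∑ e ∈ E.filter (fun e => inc e b), (u / E.card) := by
          rw [Finset.sum_const, hinc b hb, nsmul_eq_mul]
        rw [e2, Finset.sum_filter, Finset.sum_filter, ← Finset.sum_coe_sort E,
          ← Finset.sum_coe_sort E (f := fun a => if inc a b then u / (E.card : ℝ) else 0),
          Finset.mul_sum, ← Finset.sum_sub_distrib]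
        refine Finset.sum_congr rfl (fun e _ => ?_)
        by_cases hi : inc e.1 b
        · have hv : vec ⟨b, hb⟩ e = (E.card : ℝ) / N := by simp only [vec, if_pos hi]
          rw [if_pos hi, if_pos hi, hyE, hv]
          field_simp
        · have hv : vec ⟨b, hb⟩ e = 0 := by simp only [vec, if_neg hi]
          rw [if_neg hi, if_neg hi, hv]
          ring
      rw [e1]
      have hq : 0 < (N : ℝ) / E.card := div_pos hNpos hMpos
      have h3 := mul_lt_mul_of_pos_left hfv hq
      have h4 : (N : ℝ) * (u / E.card) = (N : ℝ) / E.card * u := by ring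
      rw [h4]
      linarith
    have h5 := h y hy1
    have h6 : ∑ e ∈ E, y e = f (fun _ => 1) - u := by
      rw [FC2_expand, ← Finset.sum_coe_sort E]
      have : u = ∑ e : E, u / (E.card : ℝ) := by
        rw [Finset.sum_const, Finset.card_univ, Fintype.card_coe, nsmul_eq_mul]
        field_simp
      conv_rhs => rw [this]
      rw [← Finset.sum_sub_distrib]
      refine Finset.sum_congr rfl (fun e _ => ?_)
      rw [hyE]
      ring
    rw [h6] at h5
    linarith

end Pool.Agent.Lib.MP_5c685b_co
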