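import Mathlib

/-!
Row FC3: the choice of the number of slots.
-/

namespace Pool.Agent.Lib.MP_5c685b_co

/-- `C(M, j) ≤ (1+t)^M / t^j` with `t = 1/128`. -/
private theorem FC3_choose_le (M j : ℕ) :
    ((M.choose j : ℕ) : ℝ) ≤ (129 / 128 : ℝ) ^ M * 128 ^ j := by
  rcases Nat.lt_or_ge M j with h | h
  · rw [Nat.choose_eq_zero_of_lt h]
    simp only [Nat.cast_zero]
    positivity
  · have h1 : (1 / 128 + 1 : ℝ) ^ M = ∑ m ∈ Finset.range (M + 1),
        (1 / 128 : ℝ) ^ m * 1 ^ (M - m) * (M.choose m : ℝ) := add_pow _ _ _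
    have h2 : (1 / 128 : ℝ) ^ j * 1 ^ (M - j) * (M.choose j : ℝ) ≤ (1 / 128 + 1 : ℝ) ^ M := by
      rw [h1]
      refine Finset.single_le_sum (f := fun m => (1 / 128 : ℝ) ^ m * 1 ^ (M - m) * (M.choose m : ℝ))
        (fun m _ => by positivity) (Finset.mem_range.mpr (by omega))
    have h3 : (1 / 128 : ℝ) ^ j * 128 ^ j = 1 := by
      rw [← mul_pow]; norm_num
    calc ((M.choose j : ℕ) : ℝ) = ((1 / 128 : ℝ) ^ j * 1 ^ (M - j) * (M.choose j : ℝ)) * 128 ^ j := by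
          rw [one_pow, mul_one, mul_right_comm, h3, one_mul]
      _ ≤ (1 / 128 + 1 : ℝ) ^ M * 128 ^ j := by gcongr
      _ = (129 / 128 : ℝ) ^ M * 128 ^ j := by norm_num

/-- `C(M, j) ≤ (1+t)^M / t^j` (binomial theorem). With `t = 1/128` for both binomial coefficients
`(1 + 1/128)^2 * (31/32) < 1`, so `L` exists: everything is at most
`(c * B)^r * θ^(L r)` with constants depending on `k` only. -/
theorem exists_L (k : ℕ) (c : ℝ) (hc : 0 ≤ c) : ∃ L : ℕ, 1 ≤ L ∧ ∀ r : ℕ, k < r →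
    r + k ≤ L * r ∧
    2 * c * ((L * r).choose k) * ((L * r - k).choose (r - k)) *
      (2 ^ r * (31 / 32 : ℝ) ^ (L * r - k)) ≤ 1 ∧
    2 ^ (r + k) * (31 / 32 : ℝ) ^ (L * r - k) ≤ 1 / 2 := by
  obtain ⟨L0, hL0⟩ := exists_pow_lt_of_lt_one
    (show (0 : ℝ) < 1 / ((2 * c + 1) * 40000) by positivity)
    (show (515871 / 524288 : ℝ) < 1 by norm_num)
  refine ⟨max L0 2, le_trans (by norm_num) (le_max_right _ _), fun r hr => ?_⟩
  set L := max L0 2 with hLdef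
  have hL2 : 2 ≤ L := le_max_right _ _
  have hθ : (515871 / 524288 : ℝ) ^ L ≤ 1 / ((2 * c + 1) * 40000) :=
    le_trans (pow_le_pow_of_le_one (by norm_num) (by norm_num) (le_max_left _ _)) hL0.le
  have hrL : 2 * r ≤ L * r := Nat.mul_le_mul_right r hL2
  have hkL : k ≤ L * r := by omega
  have hr0 : r ≠ 0 := by omega
  -- `(31/32)^(Lr - k) = (31/32)^(Lr) * (32/31)^k`
  have hpow : (31 / 32 : ℝ) ^ (L * r - k) = (31 / 32 : ℝ) ^ (L * r) * (32 / 31) ^ k := by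
    have h1 : (31 / 32 : ℝ) ^ (L * r) = (31 / 32 : ℝ) ^ (L * r - k) * (31 / 32) ^ k := by
      rw [← pow_add]; congr 1; omega
    rw [h1, mul_assoc, ← mul_pow]
    norm_num
  have hk1 : (32 / 31 : ℝ) ^ k ≤ (32 / 31 : ℝ) ^ r := pow_le_pow_right₀ (by norm_num) hr.le
  have hc1 : (2 * c : ℝ) ≤ (2 * c + 1) ^ r := by
    have h1 : (1 : ℝ) ≤ 2 * c + 1 := by linarith
    calc (2 * c : ℝ) ≤ (2 * c + 1) ^ 1 := by rw [pow_one]; linarith
      _ ≤ (2 * c + 1) ^ r := pow_le_pow_right₀ h1 (by omega)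
  refine ⟨by omega, ?_, ?_⟩
  · have e1 : (((L * r).choose k : ℕ) : ℝ) ≤ (129 / 128 : ℝ) ^ (L * r) * 128 ^ k :=
      FC3_choose_le _ _
    have e2 : (((L * r - k).choose (r - k) : ℕ) : ℝ) ≤ (129 / 128 : ℝ) ^ (L * r) * 128 ^ (r - k) := by
      refine le_trans (FC3_choose_le _ _) ?_
      have : (129 / 128 : ℝ) ^ (L * r - k) ≤ (129 / 128 : ℝ) ^ (L * r) :=
        pow_le_pow_right₀ (by norm_num) (Nat.sub_le _ _)
      gcongr
    have e3 : (128 : ℝ) ^ k * 128 ^ (r - k) = 128 ^ r := by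
      rw [← pow_add]; congr 1; omega
    have hθ' : (2 * c + 1) * (128 * 2 * (32 / 31)) * (515871 / 524288 : ℝ) ^ L ≤ 1 := by
      have hpos : (0 : ℝ) < (2 * c + 1) := by linarith
      calc (2 * c + 1) * (128 * 2 * (32 / 31)) * (515871 / 524288 : ℝ) ^ L
          ≤ (2 * c + 1) * 40000 * (1 / ((2 * c + 1) * 40000)) := by
            gcongr
            norm_num
        _ = 1 := by field_simp
    calc 2 * c * (((L * r).choose k : ℕ) : ℝ) * (((L * r - k).choose (r - k) : ℕ) : ℝ) *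
        (2 ^ r * (31 / 32 : ℝ) ^ (L * r - k))
        ≤ (2 * c + 1) ^ r * ((129 / 128 : ℝ) ^ (L * r) * 128 ^ k) *
          ((129 / 128 : ℝ) ^ (L * r) * 128 ^ (r - k)) *
          (2 ^ r * ((31 / 32 : ℝ) ^ (L * r) * (32 / 31) ^ r)) := by
          rw [hpow]
          gcongr
      _ = (2 * c + 1) ^ r * (128 ^ k * 128 ^ (r - k)) * 2 ^ r * (32 / 31) ^ r *
          ((129 / 128 : ℝ) * (129 / 128) * (31 / 32)) ^ (L * r) := by
          rw [mul_pow, mul_pow]; ring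
      _ = ((2 * c + 1) * (128 * 2 * (32 / 31)) * (515871 / 524288 : ℝ) ^ L) ^ r := by
          have e4 : ((129 / 128 : ℝ) * (129 / 128) * (31 / 32)) = 515871 / 524288 := by norm_num
          have e5 : ((2 * c + 1) * (128 * 2 * (32 / 31)) * (515871 / 524288 : ℝ) ^ L) ^ r =
              (2 * c + 1) ^ r * (128 ^ r * 2 ^ r * (32 / 31) ^ r) *
                (515871 / 524288 : ℝ) ^ (L * r) := by
            rw [mul_pow, mul_pow, mul_pow, mul_pow, ← pow_mul]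
          rw [e3, e4, e5]
          ring
      _ ≤ 1 := pow_le_one₀ (by positivity) hθ'
  · have h31 : (31 / 32 : ℝ) ^ L ≤ 1 / 40000 := by
      calc (31 / 32 : ℝ) ^ L ≤ (515871 / 524288 : ℝ) ^ L :=
            pow_le_pow_left₀ (by norm_num) (by norm_num) _
        _ ≤ 1 / ((2 * c + 1) * 40000) := hθ
        _ ≤ 1 / 40000 := by
            apply one_div_le_one_div_of_le (by norm_num)
            nlinarith
    have h2k : (2 : ℝ) ^ (r + k) ≤ 4 ^ r := by
      calc (2 : ℝ) ^ (r + k) ≤ 2 ^ (2 * r) := pow_le_pow_right₀ (by norm_num) (by omega)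
        _ = 4 ^ r := by rw [pow_mul]; norm_num
    calc 2 ^ (r + k) * (31 / 32 : ℝ) ^ (L * r - k)
        ≤ 4 ^ r * ((31 / 32 : ℝ) ^ (L * r) * (32 / 31) ^ r) := by
          rw [hpow]
          gcongr
      _ = (4 * (32 / 31) * (31 / 32 : ℝ) ^ L) ^ r := by
          rw [mul_pow, mul_pow, ← pow_mul]; ring
      _ ≤ (1 / 2 : ℝ) ^ r := by
          apply pow_le_pow_left₀ (by positivity)
          calc (4 * (32 / 31) * (31 / 32 : ℝ) ^ L) ≤ 4 * (32 / 31) * (1 / 40000) := by gcongr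
            _ ≤ 1 / 2 := by norm_num
      _ ≤ (1 / 2 : ℝ) ^ 1 := pow_le_pow_of_le_one (by norm_num) (by norm_num) (by omega)
      _ = 1 / 2 := by norm_num

end Pool.Agent.Lib.MP_5c685b_co
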