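import Pool.Agent.Lib.MP_5c685b_co.FD2
import Pool.Agent.Lib.MP_5c685b_co.FC2
import Pool.Agent.Lib.MP_5c685b_co.FC3

/-!
Row FE1: fractional decompositions of dense `k`-graphs.
-/

namespace Pool.Agent.Lib.MP_5c685b_co

open Finset Classical

variable {V : Type} [Fintype V]

private theorem FE1_Ck (k : ℕ) : 0 ≤ Ck k := by
  induction k with
  | zero => simp [Ck]
  | succ k ih =>
    rw [Ck]
    positivity

private theorem FE1_mem {A : Finset ℕ} {F : Finset (ℕ × V) → Prop} {σ : Finset (ℕ × V)} :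
    σ ∈ (conf A).filter (Free F) ↔ (Inj σ ∧ slots σ ⊆ A) ∧ Free F σ := by
  rw [Finset.mem_filter, mem_conf]

/-- The positivity statement: `abstract_ineq` with `P = (conf A).filter (Free (F0 G k))`,
`w = wt (F0 G k) z A`, `a ρ = y (vals ρ)`, `A = range (L * r)`, `z = 1 / (4 n)`, `c = Ck k`,
`η = 2 ^ r * (31 / 32) ^ (L r - k)`; `marginal`, `tail`, `local_bound'`, `ys_vals`,
`free_F0_iff`, `sum_edges`. -/
theorem pos_of_cliques {k r L D : ℕ} (hk : 2 ≤ k) (hkr : k < r)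
    (hL : r + k ≤ L * r ∧
      2 * Ck k * ((L * r).choose k) * ((L * r - k).choose (r - k)) *
        (2 ^ r * (31 / 32 : ℝ) ^ (L * r - k)) ≤ 1 ∧
      2 ^ (r + k) * (31 / 32 : ℝ) ^ (L * r - k) ≤ 1 / 2)
    {G : Finset (Finset V)} (hG : ∀ e ∈ G, e.card = k)
    (hD : ∀ S : Finset V, S.card = k - 1 →
      (univ.filter fun x : V => x ∉ S ∧ insert x S ∉ G).card ≤ D)
    (hn : ((L * r : ℕ) : ℝ) + ((L * r).choose (k - 1) : ℝ) * D ≤ (Fintype.card V : ℝ) / 2)
    (hn' : ((k + k * D : ℕ) : ℝ) ≤ (Fintype.card V : ℝ) / 2) (hV : 0 < Fintype.card V)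
    (y : Finset V → ℝ) (hy : ∀ K : Finset V, K.card = r → (∀ e ⊆ K, e.card = k → e ∈ G) →
      0 ≤ ys k y K) : 0 ≤ ∑ e ∈ G, y e := by
  set A : Finset ℕ := range (L * r) with hA
  have hAc : A.card = L * r := by rw [hA, card_range]
  have hn0 : (0 : ℝ) < Fintype.card V := by exact_mod_cast hV
  set z : ℝ := 1 / (4 * Fintype.card V) with hz
  have hz0 : 0 < z := by rw [hz]; positivity
  have hz' : 4 * z * Fintype.card V ≤ 1 := by
    rw [hz]
    apply le_of_eq
    field_simp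
  have hnA : (A.card : ℝ) + (A.card.choose (k - 1) : ℝ) * D ≤ (Fintype.card V : ℝ) / 2 := by
    rw [hAc]; exact hn
  have hgood : Good A (F0 G k) := good_F0 hk hD hnA
  set P : Finset (Finset (ℕ × V)) := (conf A).filter (Free (F0 G k)) with hPdef
  have hmem : ∀ σ, σ ∈ P ↔ (Inj σ ∧ slots σ ⊆ A) ∧ Free (F0 G k) σ := fun σ => FE1_mem
  have hsub : ∀ σ ∈ P, ∀ τ ⊆ σ, τ ∈ P := by
    intro σ hσ τ hτ
    rw [hmem] at hσ ⊢
    refine ⟨⟨hσ.1.1.mono hτ, (Finset.image_subset_image hτ).trans hσ.1.2⟩, hσ.2.mono hτ⟩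
  have hval : ∀ σ ∈ P, (vals σ).card = σ.card ∧ ∀ e ⊆ vals σ, e.card = k → e ∈ G := by
    intro σ hσ
    rw [hmem] at hσ
    exact (free_F0_iff hk hσ.1.1).1 hσ.2
  have hpos : ∀ K : Finset V, ∀ σ ∈ P, K ⊆ vals σ → K.card = r → 0 ≤ ys k y K := by
    intro K σ hσ hK hc
    exact hy K hc fun e he hec => (hval σ hσ).2 e (he.trans hK) hec
  have hmain := abstract_ineq P (wt (F0 G k) z A) (fun ρ => y (vals ρ)) (k := k) (r := r) (M := L * r)
    (z := z) (c := Ck k) (η := 2 ^ r * (31 / 32 : ℝ) ^ (L * r - k)) hkr hz0 (FE1_Ck k) (by positivity)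
    hsub (fun σ hσ => ?_) (fun σ hσ => ?_) (fun ρ hρ _ => ?_) (fun ρ hρ hc => ?_) (fun ρ hρ hc => ?_)
    (fun κ hκ hc => ?_) (fun σ hσ hc ρ hρ hρc => ?_) hL.2.1
  · obtain ⟨N, hN, hsum⟩ := sum_edges (V := V) (A := A) (G := G) hk hG (by rw [hAc]; omega)
    have h1 := hsum y
    have h2 : P.filter (fun ρ => ρ.card = k) =
        (conf A).filter (fun ρ => ρ.card = k ∧ Free (F0 G k) ρ) := by
      rw [hPdef, Finset.filter_filter]
      ext ρ
      simp only [Finset.mem_filter]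
      tauto
    rw [h2, h1] at hmain
    have hN' : (0 : ℝ) < N := by exact_mod_cast hN
    exact (mul_nonneg_iff_of_pos_left hN').1 hmain
  · rw [hmem] at hσ
    rw [← card_slots hσ.1.1, ← hAc]
    exact Finset.card_le_card hσ.1.2
  · exact wt_nonneg hgood hz0.le hz' (Finset.mem_filter.1 hσ).1
  · have h1 := (hmem ρ).1 hρ
    rw [← marginal (z := z) h1.1.1 h1.1.2 h1.2]
    refine Finset.sum_congr ?_ fun _ _ => rfl
    rw [hPdef, Finset.filter_filter]
    ext σ
    simp only [Finset.mem_filter]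
    tauto
  · have h1 := (hmem ρ).1 hρ
    have h2 := tail hk hD hnA hn' hV hz (Finset.mem_filter.1 hρ).1 hc h1.2 r
    rw [hAc] at h2
    refine le_trans (le_of_eq ?_) h2
    refine Finset.sum_congr ?_ fun _ _ => rfl
    rw [hPdef, Finset.filter_filter]
    ext σ
    simp only [Finset.mem_filter]
    tauto
  · have h1 := (hmem ρ).1 hρ
    have h2 := tail hk hD hnA hn' hV hz (Finset.mem_filter.1 hρ).1 hc h1.2 (r + k)
    rw [hAc] at h2
    have h3 : 2 ^ (r + k) * (31 / 32 : ℝ) ^ (L * r - k) * z ^ k ≤ 1 / 2 * z ^ k :=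
      mul_le_mul_of_nonneg_right hL.2.2 (by positivity)
    refine le_trans (le_of_eq ?_) (h2.trans h3)
    refine Finset.sum_congr ?_ fun _ _ => rfl
    rw [hPdef, Finset.filter_filter]
    ext σ
    simp only [Finset.mem_filter]
    tauto
  · have h1 := hval κ hκ
    have h2 := ys_vals h1.1 k y
    rw [← h2]
    exact hpos _ κ hκ (Finset.Subset.refl _) (by rw [h1.1, hc])
  · have h1 := hval σ hσ
    have hρP := hsub σ hσ ρ hρ
    have h2 := hval ρ hρP
    have h3 := local_bound' (k := k) (r := r) hkr.le (J := vals σ) (y := y) (by rw [h1.1]; exact hc)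
      (fun K hK hKc => hpos K σ hσ hK hKc) (e := vals ρ) (Finset.image_subset_image hρ) (by rw [h2.1, hρc])
    have h4 : ∑ K ∈ (vals σ).powersetCard r, ys k y K = ∑ κ ∈ σ.powersetCard r, ys k y (vals κ) :=
      ys_vals h1.1 r (ys k y)
    have h5 : ∑ κ ∈ σ.powersetCard r, ys k y (vals κ) =
        ∑ κ ∈ σ.powersetCard r, ∑ ρ' ∈ κ.powersetCard k, y (vals ρ') := by
      refine Finset.sum_congr rfl fun κ hκ => ?_
      exact ys_vals (hval κ (hsub σ hσ κ (Finset.mem_powersetCard.1 hκ).1)).1 k y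
    rw [h4, h5] at h3
    exact h3

/-- a fractional `K_r^k`-decomposition of the `k`-graph `G` -/
def HasFrac (k r : ℕ) {V : Type} [Fintype V] (G : Finset (Finset V)) : Prop :=
  ∃ w : Finset V → ℝ, (∀ S, 0 ≤ w S) ∧
    (∀ S, w S ≠ 0 → S.card = r ∧ ∀ e ⊆ S, e.card = k → e ∈ G) ∧
    ∀ e ∈ G, ∑ S ∈ univ.filter (fun S => e ⊆ S), w S = 1

/-- `duality` with `E = G`, `K` = the `r`-cliques, `inc e b = e ⊆ b`, `N = choose r k`. -/
theorem frac_of_L {k r L D : ℕ} (hk : 2 ≤ k) (hkr : k < r)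
    (hL : r + k ≤ L * r ∧
      2 * Ck k * ((L * r).choose k) * ((L * r - k).choose (r - k)) *
        (2 ^ r * (31 / 32 : ℝ) ^ (L * r - k)) ≤ 1 ∧
      2 ^ (r + k) * (31 / 32 : ℝ) ^ (L * r - k) ≤ 1 / 2)
    {G : Finset (Finset V)} (hG : ∀ e ∈ G, e.card = k)
    (hD : ∀ S : Finset V, S.card = k - 1 →
      (univ.filter fun x : V => x ∉ S ∧ insert x S ∉ G).card ≤ D)
    (hn : ((L * r : ℕ) : ℝ) + ((L * r).choose (k - 1) : ℝ) * D ≤ (Fintype.card V : ℝ) / 2)
    (hn' : ((k + k * D : ℕ) : ℝ) ≤ (Fintype.card V : ℝ) / 2) (hV : 0 < Fintype.card V) :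
    HasFrac k r G := by
  set K : Finset (Finset V) :=
    (univ : Finset (Finset V)).filter (fun b => b.card = r ∧ ∀ e ⊆ b, e.card = k → e ∈ G) with hK
  have hmemK : ∀ b, b ∈ K ↔ b.card = r ∧ ∀ e ⊆ b, e.card = k → e ∈ G := by
    intro b
    rw [hK, Finset.mem_filter]
    simp
  have hfil : ∀ b ∈ K, G.filter (fun e => e ⊆ b) = b.powersetCard k := by
    intro b hb
    rw [hmemK] at hb
    ext e
    rw [Finset.mem_filter, Finset.mem_powersetCard]
    constructor
    · rintro ⟨h1, h2⟩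
      exact ⟨h2, hG e h1⟩
    · rintro ⟨h1, h2⟩
      exact ⟨hb.2 e h1 h2, h1⟩
  obtain ⟨w, hw0, hw1⟩ := duality G K (fun e b => e ⊆ b) (r.choose k) (Nat.choose_pos hkr.le)
    (fun b hb => by
      have h1 : (G.filter (fun e => e ⊆ b)).card = r.choose k := by
        rw [hfil b hb, Finset.card_powersetCard, ((hmemK b).1 hb).1]
      convert h1)
    (fun y hy => by
      refine pos_of_cliques hk hkr hL hG hD hn hn' hV y fun b hb hcl => ?_
      have hbK : b ∈ K := (hmemK b).2 ⟨hb, hcl⟩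
      have h1 := hy b hbK
      rw [ys, ← hfil b hbK]
      convert h1)
  refine ⟨fun S => if S ∈ K then w S else 0, fun S => ?_, fun S hS => ?_, fun e he => ?_⟩
  · by_cases h : S ∈ K
    · simp only [h, if_true]
      exact hw0 S
    · simp only [h, if_false]
      exact le_refl 0
  · by_cases h : S ∈ K
    · exact (hmemK S).1 h
    · simp only [h, if_false, ne_eq, not_true_eq_false] at hS
  · rw [← hw1 e he, ← Finset.sum_filter]
    refine Finset.sum_congr ?_ fun _ _ => rfl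
    ext S
    simp only [Finset.mem_filter, Finset.mem_univ, true_and]
    tauto

end Pool.Agent.Lib.MP_5c685b_co
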