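import Pool.Agent.Lib.MP_5c685b_co.Slack
import Pool.Agent.Lib.MP_5c685b_co.FE1

/-!
# MP_5c685b_co, row B7: the criterion

`crit_y`: if `y` is nonnegative on the `r`-cliques of the 3-graph `G`, and there is a finite weighted
family of cliques `J ω` with at least `4 r` vertices and error vectors `η ω` of Euclidean norm at most
`1/54` on `J ω` such that for every edge `e` the sum of `p ω (1 - ∑_{U ⊆ e} η ω U)` over the `ω` with
`e ⊆ J ω` is the same positive number, then the total of `y` is nonnegative.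

`hasFrac_of_dual`: linear duality.
-/

open Finset

set_option linter.unusedSectionVars false

namespace MP5c68

variable {V : Type} [Fintype V] [DecidableEq V]

/-- `K` is a clique of the 3-graph `G`. -/
def Cl (G : Finset (Finset V)) (K : Finset V) : Prop := ∀ e ⊆ K, e.card = 3 → e ∈ G

lemma Cl.mono {G : Finset (Finset V)} {K K' : Finset V} (h : Cl G K) (hK : K' ⊆ K) : Cl G K' :=
  fun e he hc => h e (he.trans hK) hc

/-- the error functional on one clique -/
lemma err_sum (y : Finset V → ℝ) (J : Finset V) (η : Finset V → ℝ) :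
    ∑ e ∈ J.powersetCard 3, (∑ U ∈ e.powerset, η U) * y e
      = ∑ U ∈ J.powerset, η U * deg3 y J U := by
  have h1 : ∀ e ∈ J.powersetCard 3, (∑ U ∈ e.powerset, η U) * y e
      = ∑ U ∈ J.powerset, if U ⊆ e then η U * y e else 0 := by
    intro e he
    rw [Finset.mem_powersetCard] at he
    rw [← Finset.sum_filter, Finset.sum_mul]
    refine Finset.sum_congr ?_ fun _ _ => rfl
    ext U
    simp only [Finset.mem_filter, Finset.mem_powerset]
    exact ⟨fun h => ⟨h.trans he.1, h⟩, fun h => h.2⟩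
  rw [Finset.sum_congr rfl h1, Finset.sum_comm]
  refine Finset.sum_congr rfl fun U _ => ?_
  rw [← Finset.sum_filter]
  unfold deg3
  rw [Finset.mul_sum]

/-- Cauchy–Schwarz against the slack. -/
lemma err_le (y : Finset V → ℝ) (J : Finset V) (r : ℕ) (hr : 18 ≤ r) (hJ : 4 * r ≤ J.card)
    (hy : ∀ K ⊆ J, K.card = r → 0 ≤ tot y K) (η : Finset V → ℝ) {c : ℝ} (hc : 0 ≤ c)
    (hη : ∑ U ∈ J.powerset.filter (fun U => U.card ≤ 3), η U ^ 2 ≤ c ^ 2) :
    |∑ e ∈ J.powersetCard 3, (∑ U ∈ e.powerset, η U) * y e| ≤ 54 * c * tot y J := by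
  rw [err_sum]
  have h0 : ∑ U ∈ J.powerset, η U * deg3 y J U
      = ∑ U ∈ J.powerset.filter (fun U => U.card ≤ 3), η U * deg3 y J U := by
    rw [Finset.sum_filter]
    refine Finset.sum_congr rfl fun U _ => ?_
    split_ifs with h
    · rfl
    · rw [deg3_eq_zero y (by omega), mul_zero]
  rw [h0]
  have hs := slack y J r hr hJ hy
  set D : ℝ := ∑ U ∈ J.powerset, deg3 y J U ^ 2 with hD
  have hD0 : 0 ≤ D := by positivity
  have hcs := Finset.sum_mul_sq_le_sq_mul_sq (J.powerset.filter (fun U => U.card ≤ 3)) η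
    (fun U => deg3 y J U)
  have hD' : ∑ U ∈ J.powerset.filter (fun U => U.card ≤ 3), deg3 y J U ^ 2 ≤ D :=
    Finset.sum_le_sum_of_subset_of_nonneg (Finset.filter_subset _ _) fun _ _ _ => by positivity
  have h1 : (∑ U ∈ J.powerset.filter (fun U => U.card ≤ 3), η U * deg3 y J U) ^ 2
      ≤ (c * Real.sqrt D) ^ 2 := by
    calc _ ≤ _ := hcs
      _ ≤ c ^ 2 * D := by gcongr
      _ = (c * Real.sqrt D) ^ 2 := by rw [mul_pow, Real.sq_sqrt hD0]
  have h2 := abs_le_of_sq_le_sq h1 (by positivity)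
  calc _ ≤ c * Real.sqrt D := h2
    _ ≤ c * (54 * tot y J) := by gcongr
    _ = 54 * c * tot y J := by ring

/-- **Criterion.** -/
theorem crit_y {Ω : Type*} (S : Finset Ω) {G : Finset (Finset V)} (hG : ∀ e ∈ G, e.card = 3)
    (y : Finset V → ℝ) (r : ℕ) (hr : 18 ≤ r)
    (hy : ∀ K : Finset V, K.card = r → Cl G K → 0 ≤ tot y K)
    (p : Ω → ℝ) (hp : ∀ ω ∈ S, 0 ≤ p ω) (J : Ω → Finset V)
    (hJ : ∀ ω ∈ S, p ω ≠ 0 → Cl G (J ω) ∧ 4 * r ≤ (J ω).card)
    (η : Ω → Finset V → ℝ)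
    (hη : ∀ ω ∈ S, p ω ≠ 0 →
      ∑ U ∈ (J ω).powerset.filter (fun U => U.card ≤ 3), η ω U ^ 2 ≤ (1 / 54) ^ 2)
    {lam : ℝ} (hlam : 0 < lam)
    (hmain : ∀ e ∈ G, ∑ ω ∈ S.filter (fun ω => e ⊆ J ω), p ω * (1 - ∑ U ∈ e.powerset, η ω U) ≤ lam
      ∧ 0 ≤ y e ∨
      lam ≤ ∑ ω ∈ S.filter (fun ω => e ⊆ J ω), p ω * (1 - ∑ U ∈ e.powerset, η ω U)
      ∧ y e ≤ 0 ∨
      ∑ ω ∈ S.filter (fun ω => e ⊆ J ω), p ω * (1 - ∑ U ∈ e.powerset, η ω U) = lam) :
    0 ≤ ∑ e ∈ G, y e := by
  have h1 : ∑ e ∈ G, (∑ ω ∈ S.filter (fun ω => e ⊆ J ω),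
      p ω * (1 - ∑ U ∈ e.powerset, η ω U)) * y e ≤ lam * ∑ e ∈ G, y e := by
    rw [Finset.mul_sum]
    refine Finset.sum_le_sum fun e he => ?_
    rcases hmain e he with ⟨h, h'⟩ | ⟨h, h'⟩ | h
    · exact mul_le_mul_of_nonneg_right h h'
    · exact mul_le_mul_of_nonpos_right h h'
    · rw [h]
  have h2 : ∑ e ∈ G, (∑ ω ∈ S.filter (fun ω => e ⊆ J ω),
      p ω * (1 - ∑ U ∈ e.powerset, η ω U)) * y e
      = ∑ ω ∈ S, p ω * (tot y (J ω)
        - ∑ e ∈ (J ω).powersetCard 3, (∑ U ∈ e.powerset, η ω U) * y e) := by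
    have e1 : ∀ e ∈ G, (∑ ω ∈ S.filter (fun ω => e ⊆ J ω),
        p ω * (1 - ∑ U ∈ e.powerset, η ω U)) * y e
        = ∑ ω ∈ S, if e ⊆ J ω then p ω * ((1 - ∑ U ∈ e.powerset, η ω U) * y e) else 0 := by
      intro e _
      rw [Finset.sum_mul, Finset.sum_filter]
      refine Finset.sum_congr rfl fun ω _ => ?_
      split_ifs
      · ring
      · rfl
    rw [Finset.sum_congr rfl e1, Finset.sum_comm]
    refine Finset.sum_congr rfl fun ω hω => ?_
    by_cases hpω : p ω = 0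
    · rw [hpω]
      simp
    · have hcl := (hJ ω hω hpω).1
      rw [← Finset.sum_filter, ← Finset.mul_sum]
      congr 1
      unfold tot
      rw [← Finset.sum_sub_distrib]
      refine Finset.sum_congr ?_ fun e _ => by ring
      ext e
      simp only [Finset.mem_filter, Finset.mem_powersetCard]
      constructor
      · rintro ⟨h, h'⟩
        exact ⟨h', hG e h⟩
      · rintro ⟨h, h'⟩
        exact ⟨hcl e h h', h⟩
  have h3 : 0 ≤ ∑ ω ∈ S, p ω * (tot y (J ω)
        - ∑ e ∈ (J ω).powersetCard 3, (∑ U ∈ e.powerset, η ω U) * y e) := by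
    refine Finset.sum_nonneg fun ω hω => ?_
    by_cases hpω : p ω = 0
    · rw [hpω, zero_mul]
    · obtain ⟨hcl, hcard⟩ := hJ ω hω hpω
      refine mul_nonneg (hp ω hω) ?_
      have h4 := err_le y (J ω) r hr hcard
        (fun K hK hc => hy K hc (hcl.mono hK)) (η ω) (by norm_num : (0 : ℝ) ≤ 1 / 54)
        (hη ω hω hpω)
      have h5 := le_of_abs_le h4
      linarith
  rw [← h2] at h3
  exact nonneg_of_mul_nonneg_right (h3.trans h1) hlam

end MP5c68

namespace Pool.Agent.Lib.MP_5c685b_co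

/-- Linear duality. -/
theorem hasFrac_of_dual {V : Type} [Fintype V] {G : Finset (Finset V)} {r : ℕ} (hr : 3 < r)
    (hG : ∀ e ∈ G, e.card = 3)
    (h : ∀ y : Finset V → ℝ,
      (∀ K : Finset V, K.card = r → MP5c68.Cl G K → 0 ≤ MP5c68.tot y K) → 0 ≤ ∑ e ∈ G, y e) :
    HasFrac 3 r G := by
  classical
  set K : Finset (Finset V) :=
    (univ : Finset (Finset V)).filter (fun b => b.card = r ∧ ∀ e ⊆ b, e.card = 3 → e ∈ G) with hK
  have hmemK : ∀ b, b ∈ K ↔ b.card = r ∧ ∀ e ⊆ b, e.card = 3 → e ∈ G := by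
    intro b
    rw [hK, Finset.mem_filter]
    simp
  have hfil : ∀ b ∈ K, G.filter (fun e => e ⊆ b) = b.powersetCard 3 := by
    intro b hb
    rw [hmemK] at hb
    ext e
    rw [Finset.mem_filter, Finset.mem_powersetCard]
    constructor
    · rintro ⟨h1, h2⟩
      exact ⟨h2, hG e h1⟩
    · rintro ⟨h1, h2⟩
      exact ⟨hb.2 e h1 h2, h1⟩
  obtain ⟨w, hw0, hw1⟩ := duality G K (fun e b => e ⊆ b) (r.choose 3) (Nat.choose_pos hr.le)
    (fun b hb => by
      have h1 : (G.filter (fun e => e ⊆ b)).card = r.choose 3 := by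
        rw [hfil b hb, Finset.card_powersetCard, ((hmemK b).1 hb).1]
      convert h1)
    (fun y hy => by
      refine h y fun b hb hcl => ?_
      have hbK : b ∈ K := (hmemK b).2 ⟨hb, hcl⟩
      have h1 := hy b hbK
      rw [MP5c68.tot, ← hfil b hbK]
      convert h1)
  refine ⟨fun S => if S ∈ K then w S else 0, fun S => ?_, fun S hS => ?_, fun e he => ?_⟩
  · by_cases h : S ∈ K
    · simp only [h, if_true]
      exact hw0 S
    · simp only [h, if_false]
      exact le_refl 0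
  · by_cases h : S ∈ K
    · exact (hmemK S).1 h
    · simp only [h, if_false, ne_eq, not_true_eq_false] at hS
  · have h2 : (∑ S ∈ K.filter (fun S => e ⊆ S), w S) = 1 := by
      rw [← hw1 e he]
      refine Finset.sum_congr ?_ fun _ _ => rfl
      ext S
      simp only [Finset.mem_filter]
    rw [← h2, ← Finset.sum_filter]
    refine Finset.sum_congr ?_ fun _ _ => rfl
    ext S
    simp only [Finset.mem_filter, Finset.mem_univ, true_and]
    tauto

end Pool.Agent.Lib.MP_5c685b_co
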