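import Pool.Agent.Lib.MP_5c685b_co.FDefs

/-!
Row FA1: configurations, the fibre lemma.
-/

namespace Pool.Agent.Lib.MP_5c685b_co

open Finset Classical

variable {V : Type} [Fintype V]

theorem mem_slots {U : Finset (ℕ × V)} {i : ℕ} : i ∈ slots U ↔ ∃ x, (i, x) ∈ U := by
  simp [slots]

theorem mem_conf {B : Finset ℕ} {U : Finset (ℕ × V)} : U ∈ conf B ↔ Inj U ∧ slots U ⊆ B := by
  rw [conf, Finset.mem_filter, Finset.mem_powerset]
  constructor
  · rintro ⟨h1, h2⟩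
    refine ⟨h2, fun i hi => ?_⟩
    obtain ⟨x, hx⟩ := mem_slots.1 hi
    exact (Finset.mem_product.1 (h1 hx)).1
  · rintro ⟨h1, h2⟩
    refine ⟨fun p hp => ?_, h1⟩
    refine Finset.mem_product.2 ⟨h2 (mem_slots.2 ⟨p.2, hp⟩), Finset.mem_univ _⟩

theorem Inj.mono {U U' : Finset (ℕ × V)} (h : Inj U) (hU : U' ⊆ U) : Inj U' :=
  fun p hp q hq hpq => h p (hU hp) q (hU hq) hpq

theorem Inj.union {U U' : Finset (ℕ × V)} (h : Inj U) (h' : Inj U')
    (hd : Disjoint (slots U) (slots U')) : Inj (U ∪ U') := by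
  intro p hp q hq hpq
  rcases Finset.mem_union.1 hp with hp | hp <;> rcases Finset.mem_union.1 hq with hq | hq
  · exact h p hp q hq hpq
  · exact absurd (mem_slots.2 ⟨q.2, hq⟩ : q.1 ∈ slots U')
      (Finset.disjoint_left.1 hd (hpq ▸ (mem_slots.2 ⟨p.2, hp⟩ : p.1 ∈ slots U)))
  · exact absurd (mem_slots.2 ⟨p.2, hp⟩ : p.1 ∈ slots U')
      (Finset.disjoint_left.1 hd (hpq.symm ▸ (mem_slots.2 ⟨q.2, hq⟩ : q.1 ∈ slots U)))
  · exact h' p hp q hq hpq

theorem slots_union {U U' : Finset (ℕ × V)} : slots (U ∪ U') = slots U ∪ slots U' :=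
  Finset.image_union U U'

theorem card_slots {U : Finset (ℕ × V)} (h : Inj U) : (slots U).card = U.card :=
  Finset.card_image_of_injOn (fun p hp q hq hpq => h p hp q hq hpq)

theorem Free.mono {F : Finset (ℕ × V) → Prop} {U U' : Finset (ℕ × V)} (h : Free F U)
    (hU : U' ⊆ U) : Free F U' := fun τ hτ => h τ (hτ.trans hU)

/-- if the slots of `τ` are disjoint from those of `ρ` -/
theorem free_union_iff {F : Finset (ℕ × V) → Prop} {ρ τ : Finset (ℕ × V)}
    (hd : Disjoint (slots ρ) (slots τ)) : Free F (ρ ∪ τ) ↔ Free (cond F ρ) τ := by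
  constructor
  · rintro h τ' hτ' ⟨_, ρ', hρ', hF⟩
    exact h (ρ' ∪ τ') (Finset.union_subset_union hρ' hτ') hF
  · intro h σ hσ hF
    refine h (σ ∩ τ) Finset.inter_subset_right ⟨fun p hp => ?_, σ ∩ ρ, Finset.inter_subset_right, ?_⟩
    · intro hps
      exact Finset.disjoint_left.1 hd hps
        (mem_slots.2 ⟨p.2, (Finset.mem_inter.1 hp).2⟩)
    · have h1 : σ ∩ ρ ∪ σ ∩ τ = σ := by
        rw [← Finset.inter_union_distrib_left]
        exact Finset.inter_eq_left.2 hσ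
      rw [h1]
      exact hF

theorem FA1_disj {ρ τ : Finset (ℕ × V)} {B : Finset ℕ} (hτ : τ ∈ conf (B \ slots ρ)) :
    Disjoint (slots ρ) (slots τ) := by
  rw [Finset.disjoint_left]
  intro i hi hi2
  exact (Finset.mem_sdiff.1 ((mem_conf.1 hτ).2 hi2)).2 hi

theorem FA1_disj' {ρ τ : Finset (ℕ × V)} (h : Disjoint (slots ρ) (slots τ)) : Disjoint ρ τ := by
  rw [Finset.disjoint_left]
  intro p hp hp2
  exact Finset.disjoint_left.1 h (mem_slots.2 ⟨p.2, hp⟩ : p.1 ∈ slots ρ) (mem_slots.2 ⟨p.2, hp2⟩)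

/-- Fibre lemma: the free configurations on `B` that contain `ρ` are the sets `ρ ∪ τ`, `τ` a
configuration on `B \ slots ρ` which is free for `cond F ρ`. -/
theorem fiber {F : Finset (ℕ × V) → Prop} {ρ : Finset (ℕ × V)} (hρ : Inj ρ) {B : Finset ℕ}
    (hB : slots ρ ⊆ B) (f : Finset (ℕ × V) → ℝ) :
    ∑ U ∈ (conf B).filter (fun U => ρ ⊆ U ∧ Free F U), f U =
      ∑ τ ∈ (conf (B \ slots ρ)).filter (Free (cond F ρ)), f (ρ ∪ τ) := by
  have hsl : ∀ U, Inj U → slots U ⊆ B → ρ ⊆ U → slots (U \ ρ) ⊆ B \ slots ρ := by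
    intro U hU hUB hρU i hi
    obtain ⟨x, hx⟩ := mem_slots.1 hi
    have hx1 := (Finset.mem_sdiff.1 hx).1
    refine Finset.mem_sdiff.2 ⟨hUB (mem_slots.2 ⟨x, hx1⟩), fun hi2 => ?_⟩
    obtain ⟨y, hy⟩ := mem_slots.1 hi2
    have h1 : (i, x) = (i, y) := hU _ hx1 _ (hρU hy) rfl
    exact (Finset.mem_sdiff.1 hx).2 (h1 ▸ hy)
  refine Finset.sum_nbij' (fun U => U \ ρ) (fun τ => ρ ∪ τ) ?_ ?_ ?_ ?_ ?_
  · intro U hU
    obtain ⟨hUc, hρU, hUF⟩ := Finset.mem_filter.1 hU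
    obtain ⟨hUi, hUB⟩ := mem_conf.1 hUc
    have hc : U \ ρ ∈ conf (B \ slots ρ) :=
      mem_conf.2 ⟨hUi.mono Finset.sdiff_subset, hsl U hUi hUB hρU⟩
    refine Finset.mem_filter.2 ⟨hc, ?_⟩
    rw [← free_union_iff (FA1_disj hc), Finset.union_sdiff_of_subset hρU]
    exact hUF
  · intro τ hτ
    obtain ⟨hτc, hτF⟩ := Finset.mem_filter.1 hτ
    have hd := FA1_disj hτc
    obtain ⟨hτi, hτB⟩ := mem_conf.1 hτc
    refine Finset.mem_filter.2 ⟨mem_conf.2 ⟨hρ.union hτi hd, ?_⟩, Finset.subset_union_left, ?_⟩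
    · rw [slots_union]
      exact Finset.union_subset hB (hτB.trans Finset.sdiff_subset)
    · exact (free_union_iff hd).2 hτF
  · intro U hU
    exact Finset.union_sdiff_of_subset (Finset.mem_filter.1 hU).2.1
  · intro τ hτ
    have hd := FA1_disj' (FA1_disj (Finset.mem_filter.1 hτ).1)
    exact Finset.union_sdiff_cancel_left hd
  · intro U hU
    rw [Finset.union_sdiff_of_subset (Finset.mem_filter.1 hU).2.1]

/-- `(ρ ∪ τ).card = ρ.card + τ.card` in the situation of the fibre lemma -/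
theorem card_union_conf {ρ τ : Finset (ℕ × V)} {B : Finset ℕ} (hτ : τ ∈ conf (B \ slots ρ)) :
    (ρ ∪ τ).card = ρ.card + τ.card :=
  Finset.card_union_of_disjoint (FA1_disj' (FA1_disj hτ))

end Pool.Agent.Lib.MP_5c685b_co
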