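import Pool.Agent.Lib.MP_5c685b_co.FA1

/-!
Row FA2: the two recursions for `Z`.
-/

namespace Pool.Agent.Lib.MP_5c685b_co

open Finset Classical

variable {V : Type} [Fintype V]

/-- `Z` depends only on the patterns inside `B`. -/
theorem Z_congr {F F' : Finset (ℕ × V) → Prop} {z : ℝ} {B : Finset ℕ}
    (h : ∀ U ∈ conf B, Free F U ↔ Free F' U) : Z F z B = Z F' z B := by
  unfold Z
  rw [Finset.filter_congr h]

theorem Z_empty {F : Finset (ℕ × V) → Prop} {z : ℝ} (h : ¬ F ∅) : Z F z ∅ = 1 := by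
  unfold Z
  have h1 : (conf (∅ : Finset ℕ) : Finset (Finset (ℕ × V))).filter (Free F) = {∅} := by
    ext U
    rw [Finset.mem_filter, mem_conf, Finset.mem_singleton]
    constructor
    · rintro ⟨⟨-, hs⟩, -⟩
      rw [Finset.eq_empty_iff_forall_notMem]
      intro p hp
      have : p.1 ∈ slots U := mem_slots.2 ⟨p.2, hp⟩
      exact absurd (hs this) (Finset.notMem_empty _)
    · rintro rfl
      refine ⟨⟨fun p hp => absurd hp (Finset.notMem_empty _), fun i hi => ?_⟩, fun τ hτ => ?_⟩
      · obtain ⟨x, hx⟩ := mem_slots.1 hi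
        exact absurd hx (Finset.notMem_empty _)
      · rw [Finset.subset_empty.1 hτ]
        exact h
  rw [h1, Finset.sum_singleton, Finset.card_empty, pow_zero]

/-- if the empty pattern is forbidden then nothing is free -/
theorem Z_zero {F : Finset (ℕ × V) → Prop} {z : ℝ} {B : Finset ℕ} (h : F ∅) : Z F z B = 0 := by
  unfold Z
  rw [Finset.filter_eq_empty_iff.2 (fun U _ hU => hU ∅ (Finset.empty_subset U) h), Finset.sum_empty]

/-- the sum over the fibre of `ρ` -/
private theorem FA2_fiber {F : Finset (ℕ × V) → Prop} {ρ : Finset (ℕ × V)} (hρ : Inj ρ) {B : Finset ℕ}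
    (hB : slots ρ ⊆ B) (z : ℝ) :
    ∑ U ∈ (conf B).filter (fun U => ρ ⊆ U ∧ Free F U), (-z) ^ U.card =
      (-z) ^ ρ.card * Z (cond F ρ) z (B \ slots ρ) := by
  rw [fiber hρ hB (fun U => (-z) ^ U.card)]
  unfold Z
  rw [Finset.mul_sum]
  refine Finset.sum_congr rfl fun τ hτ => ?_
  rw [card_union_conf (Finset.mem_filter.1 hτ).1, pow_add]

/-- Slot recursion. Split the configurations on `insert i B` according to the site at the slot `i`;
`fiber` with `ρ = {(i, x)}` (`slots {(i, x)} = {i}`, `insert i B \ {i} = B`). -/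
theorem rec_slot {F : Finset (ℕ × V) → Prop} {z : ℝ} {B : Finset ℕ} {i : ℕ} (hi : i ∉ B) :
    Z F z (insert i B) = Z F z B - z * ∑ x : V, Z (cond F {(i, x)}) z B := by
  have hslots : ∀ x : V, slots ({(i, x)} : Finset (ℕ × V)) = {i} := by
    intro x
    unfold slots
    rw [Finset.image_singleton]
  have hinj : ∀ x : V, Inj ({(i, x)} : Finset (ℕ × V)) := by
    intro x p hp q hq _
    rw [Finset.mem_singleton] at hp hq
    rw [hp, hq]
  have hB : insert i B \ {i} = B := by
    ext j
    simp only [Finset.mem_sdiff, Finset.mem_insert, Finset.mem_singleton]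
    constructor
    · rintro ⟨h1 | h1, h2⟩
      · exact absurd h1 h2
      · exact h1
    · intro hj
      exact ⟨Or.inr hj, fun h => hi (h ▸ hj)⟩
  have hfib : ∀ x : V, ∑ U ∈ (conf (insert i B)).filter
      (fun U => ({(i, x)} : Finset (ℕ × V)) ⊆ U ∧ Free F U), (-z) ^ U.card =
      -z * Z (cond F {(i, x)}) z B := by
    intro x
    rw [FA2_fiber (hinj x) (by rw [hslots]; simp) z, hslots, hB, Finset.card_singleton, pow_one]
  have hsplit : Z F z (insert i B) =
      ∑ U ∈ ((conf (insert i B)).filter (Free F)).filter (fun U => i ∈ slots U), (-z) ^ U.card +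
      ∑ U ∈ ((conf (insert i B)).filter (Free F)).filter (fun U => ¬ i ∈ slots U),
        (-z) ^ U.card := by
    unfold Z
    rw [Finset.sum_filter_add_sum_filter_not]
  have hnot : ((conf (insert i B)).filter (Free F)).filter (fun U => ¬ i ∈ slots U) =
      (conf B).filter (Free F) := by
    ext U
    simp only [Finset.mem_filter, mem_conf]
    constructor
    · rintro ⟨⟨⟨h1, h2⟩, h3⟩, h4⟩
      refine ⟨⟨h1, fun j hj => ?_⟩, h3⟩
      rcases Finset.mem_insert.1 (h2 hj) with h5 | h5
      · exact absurd (h5 ▸ hj) h4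
      · exact h5
    · rintro ⟨⟨h1, h2⟩, h3⟩
      exact ⟨⟨⟨h1, h2.trans (Finset.subset_insert _ _)⟩, h3⟩, fun h => hi (h2 h)⟩
  have hin : ((conf (insert i B)).filter (Free F)).filter (fun U => i ∈ slots U) =
      (univ : Finset V).biUnion (fun x => (conf (insert i B)).filter
        (fun U => ({(i, x)} : Finset (ℕ × V)) ⊆ U ∧ Free F U)) := by
    ext U
    simp only [Finset.mem_filter, Finset.mem_biUnion, Finset.mem_univ, true_and,
      Finset.singleton_subset_iff]
    constructor
    · rintro ⟨⟨h1, h2⟩, h3⟩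
      obtain ⟨x, hx⟩ := mem_slots.1 h3
      exact ⟨x, h1, hx, h2⟩
    · rintro ⟨x, h1, hx, h2⟩
      exact ⟨⟨h1, h2⟩, mem_slots.2 ⟨x, hx⟩⟩
  have hdisj : (↑(univ : Finset V) : Set V).PairwiseDisjoint
      (fun x => (conf (insert i B)).filter
        (fun U => ({(i, x)} : Finset (ℕ × V)) ⊆ U ∧ Free F U)) := by
    intro x _ y _ hxy
    rw [Function.onFun, Finset.disjoint_left]
    intro U hU hU'
    simp only [Finset.mem_filter, mem_conf, Finset.singleton_subset_iff] at hU hU'
    apply hxy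
    have := hU.1.1 _ hU.2.1 _ hU'.2.1 rfl
    exact congrArg Prod.snd this
  rw [hsplit, hnot, hin, Finset.sum_biUnion hdisj, Finset.sum_congr rfl (fun x _ => hfib x),
    ← Finset.mul_sum]
  unfold Z
  ring

/-- Pattern recursion: add the forbidden pattern `τ`; `fiber` with `ρ = τ`. -/
theorem rec_pat {F : Finset (ℕ × V) → Prop} {z : ℝ} {B : Finset ℕ} {τ : Finset (ℕ × V)}
    (hτ : τ ∈ conf B) :
    Z (fun U => F U ∨ U = τ) z B = Z F z B - (-z) ^ τ.card * Z (cond F τ) z (B \ slots τ) := by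
  obtain ⟨hi, hs⟩ := mem_conf.1 hτ
  rw [← FA2_fiber hi hs z]
  have h1 : (conf B).filter (Free (fun U => F U ∨ U = τ)) =
      ((conf B).filter (Free F)).filter (fun U => ¬ τ ⊆ U) := by
    ext U
    simp only [Finset.mem_filter]
    constructor
    · rintro ⟨h1, h2⟩
      exact ⟨⟨h1, fun σ hσ hF => h2 σ hσ (Or.inl hF)⟩, fun h => h2 τ h (Or.inr rfl)⟩
    · rintro ⟨⟨h1, h2⟩, h3⟩
      refine ⟨h1, fun σ hσ hF => ?_⟩
      rcases hF with hF | rfl
      · exact h2 σ hσ hF
      · exact h3 hσ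
  have h2 : (conf B).filter (fun U => τ ⊆ U ∧ Free F U) =
      ((conf B).filter (Free F)).filter (fun U => τ ⊆ U) := by
    ext U
    simp only [Finset.mem_filter]
    tauto
  unfold Z
  rw [h1, h2]
  rw [← Finset.sum_filter_add_sum_filter_not ((conf B).filter (Free F)) (fun U => τ ⊆ U)
    (fun U => (-z) ^ U.card)]
  ring

end Pool.Agent.Lib.MP_5c685b_co
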