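import Pool.Agent.Lib.MP_5c685b_co.FA1

/-!
Row FA3: the class of good systems.
-/

namespace Pool.Agent.Lib.MP_5c685b_co

open Finset Classical

variable {V : Type} [Fintype V]

/-- subsystems of good systems are good -/
theorem Good.mono {A : Finset ℕ} {F F' : Finset (ℕ × V) → Prop} (h : Good A F)
    (hF : ∀ τ, F' τ → F τ) : Good A F' := by
  intro ρ hρ hA s hs hs'
  refine le_trans (sum_le_sum_of_subset_of_nonneg ?_ fun τ _ _ => by positivity)
    (h ρ hρ hA s hs hs')
  intro τ hτ
  rw [newpat, mem_filter] at hτ ⊢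
  obtain ⟨h1, h2, h3, ρ', h4, h5⟩ := hτ
  exact ⟨h1, h2, h3, ρ', h4, hF _ h5⟩

private theorem fa3_mem {U : Finset (ℕ × V)} {p : ℕ × V} (hp : p ∈ U) : p.1 ∈ slots U :=
  mem_image_of_mem _ hp

/-- Conditioning. For `ρ`, `s` with `s.1 ∈ slots σ` there are no new patterns for `cond F σ`.
Otherwise `newpat A (cond F σ) ρ s ⊆ newpat A F ρ₁ s` with
`ρ₁ = ρ.filter (fun p => p.1 ∉ slots σ) ∪ σ`. -/
theorem Good.cond {A : Finset ℕ} {F : Finset (ℕ × V) → Prop} (h : Good A F)
    {σ : Finset (ℕ × V)} (hσ : Inj σ) (hs : slots σ ⊆ A) : Good A (cond F σ) := by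
  intro ρ hρ hA s hsA hsρ
  by_cases hsσ : s.1 ∈ slots σ
  · have : newpat A (Pool.Agent.Lib.MP_5c685b_co.cond F σ) ρ s = ∅ := by
      rw [newpat, filter_eq_empty_iff]
      rintro τ - ⟨-, -, ρ', -, h1, -⟩
      exact h1 s (by simp) hsσ
    rw [this, sum_empty]
    norm_num
  · have hsub : slots (ρ.filter (fun p => p.1 ∉ slots σ) ∪ σ) ⊆ slots ρ ∪ slots σ := by
      rw [slots_union]
      refine union_subset_union ?_ (subset_refl _)
      exact image_subset_image (filter_subset _ _)
    have hinj : Inj (ρ.filter (fun p => p.1 ∉ slots σ) ∪ σ) := by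
      refine Inj.union (hρ.mono (filter_subset _ _)) hσ ?_
      rw [Finset.disjoint_left]
      intro i hi hi'
      obtain ⟨p, hp, rfl⟩ := mem_image.1 hi
      exact (mem_filter.1 hp).2 hi'
    refine le_trans (sum_le_sum_of_subset_of_nonneg ?_ fun τ _ _ => by positivity)
      (h (ρ.filter (fun p => p.1 ∉ slots σ) ∪ σ) hinj (hsub.trans (union_subset hA hs)) s hsA ?_)
    · intro τ hτ
      rw [newpat, mem_filter] at hτ ⊢
      obtain ⟨h1, h2, h3, ρ', h4, h5, σ', h6, h7⟩ := hτ
      refine ⟨h1, h2, fun p hp => ⟨fun hp' => ?_, (h3 p hp).2⟩, σ' ∪ ρ', ?_, ?_⟩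
      · rcases mem_union.1 (hsub hp') with h8 | h8
        · exact (h3 p hp).1 h8
        · exact h5 p (mem_union_right _ (mem_insert_of_mem hp)) h8
      · intro p hp
        rcases mem_union.1 hp with h8 | h8
        · exact mem_union_right _ (h6 h8)
        · exact mem_union_left _ (mem_filter.2 ⟨h4 h8, h5 p (mem_union_left _ h8)⟩)
      · rw [union_assoc]
        exact h7
    · intro hs'
      rcases mem_union.1 (hsub hs') with h8 | h8
      · exact hsρ h8
      · exact hsσ h8

/-- conditioning in two steps -/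
theorem cond_cond {F : Finset (ℕ × V) → Prop} {ρ σ : Finset (ℕ × V)}
    (hd : Disjoint (slots ρ) (slots σ)) (τ : Finset (ℕ × V)) :
    Pool.Agent.Lib.MP_5c685b_co.cond (Pool.Agent.Lib.MP_5c685b_co.cond F ρ) σ τ ↔
      Pool.Agent.Lib.MP_5c685b_co.cond F (ρ ∪ σ) τ := by
  constructor
  · rintro ⟨h1, σ', h2, h3, ρ', h4, h5⟩
    refine ⟨fun p hp hp' => ?_, ρ' ∪ σ', union_subset_union h4 h2, ?_⟩
    · rw [slots_union] at hp'
      rcases mem_union.1 hp' with h6 | h6
      · exact h3 p (mem_union_right _ hp) h6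
      · exact h1 p hp h6
    · rw [union_assoc]
      exact h5
  · rintro ⟨h1, κ, h2, h3⟩
    refine ⟨fun p hp hp' => h1 p hp ?_, κ ∩ σ, inter_subset_right, ?_, κ ∩ ρ, inter_subset_right,
      ?_⟩
    · rw [slots_union]
      exact mem_union_right _ hp'
    · intro p hp hp'
      rcases mem_union.1 hp with h6 | h6
      · exact Finset.disjoint_left.1 hd hp' (fa3_mem (mem_inter.1 h6).2)
      · refine h1 p h6 ?_
        rw [slots_union]
        exact mem_union_left _ hp'
    · have : κ ∩ ρ ∪ κ ∩ σ = κ := by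
        rw [← inter_union_distrib_left]
        exact inter_eq_left.2 h2
      rw [← union_assoc, this]
      exact h3

end Pool.Agent.Lib.MP_5c685b_co
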