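import Pool.Agent.Lib.MP_5c685b_co.FA2
import Pool.Agent.Lib.MP_5c685b_co.FA3

/-!
Row FA4: the main lemma (paper section 1).
-/

namespace Pool.Agent.Lib.MP_5c685b_co

open Finset Classical

variable {V : Type} [Fintype V]

set_option linter.unusedSectionVars false

theorem FA4_cond_empty (F : Finset (ℕ × V) → Prop) : cond F ∅ = F := by
  funext τ
  apply propext
  constructor
  · rintro ⟨_, ρ', hρ', hF⟩
    rw [Finset.subset_empty.1 hρ', Finset.empty_union] at hF
    exact hF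
  · intro hF
    refine ⟨fun p _ hp => ?_, ∅, Finset.Subset.refl _, by rwa [Finset.empty_union]⟩
    obtain ⟨x, hx⟩ := mem_slots.1 hp
    exact absurd hx (Finset.notMem_empty _)

theorem FA4_slots_single (s : ℕ × V) : slots ({s} : Finset (ℕ × V)) = {s.1} := by
  unfold slots
  rw [Finset.image_singleton]

theorem FA4_inj_single (s : ℕ × V) : Inj ({s} : Finset (ℕ × V)) := by
  intro p hp q hq _
  rw [Finset.mem_singleton] at hp hq
  rw [hp, hq]

/-- the induction hypothesis -/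
def FA4_H (V : Type) [Fintype V] (A : Finset ℕ) (z : ℝ) (m : ℕ) : Prop :=
  ∀ B ⊆ A, B.card < m → ∀ F : Finset (ℕ × V) → Prop, Good A F →
      0 ≤ Z F z B ∧ ∀ i ∈ A, i ∉ B → Z F z B ≤ 2 * Z F z (insert i B) ∧
        ∀ x : V, Z (cond F {(i, x)}) z B ≤ 2 * Z F z B ∧
          (¬ F {(i, x)} → Z F z B ≤ 2 * Z (cond F {(i, x)}) z B)

theorem FA4_nonneg {A : Finset ℕ} {z : ℝ} {m : ℕ} (H : FA4_H V A z m) {B : Finset ℕ} (hB : B ⊆ A)
    (hm : B.card = m) {F : Finset (ℕ × V) → Prop} (hF : Good A F) : 0 ≤ Z F z B := by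
  rcases B.eq_empty_or_nonempty with rfl | ⟨j, hj⟩
  · by_cases h0 : F ∅
    · rw [Z_zero h0]
    · rw [Z_empty h0]; norm_num
  · have hsub : B.erase j ⊆ A := (Finset.erase_subset _ _).trans hB
    have hcard : (B.erase j).card < m := by
      rw [← hm]; exact Finset.card_erase_lt_of_mem hj
    obtain ⟨h1, h2⟩ := H (B.erase j) hsub hcard F hF
    have h3 := (h2 j (hB hj) (Finset.notMem_erase j B)).1
    rw [Finset.insert_erase hj] at h3
    linarith

theorem FA4_cond_le {A : Finset ℕ} {z : ℝ} {m : ℕ} (H : FA4_H V A z m) {C : Finset ℕ} (hC : C ⊆ A)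
    (hm : C.card < m) {F : Finset (ℕ × V) → Prop} (hF : Good A F) (τ : Finset (ℕ × V)) :
    Inj τ → slots τ ⊆ A → Disjoint (slots τ) C → Z (cond F τ) z C ≤ 2 ^ τ.card * Z F z C := by
  induction τ using Finset.induction_on with
  | empty =>
    intro _ _ _
    rw [FA4_cond_empty, Finset.card_empty, pow_zero, one_mul]
  | insert s ρ hs ih =>
    intro hI hA hd
    have hIρ : Inj ρ := hI.mono (Finset.subset_insert _ _)
    have hins : insert s ρ = ρ ∪ {s} := by
      rw [Finset.union_comm]; rfl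
    have hsl : slots (insert s ρ) = slots ρ ∪ {s.1} := by
      rw [hins, slots_union, FA4_slots_single]
    have hAρ : slots ρ ⊆ A := by
      refine Finset.Subset.trans ?_ hA
      rw [hsl]; exact Finset.subset_union_left
    have hsA : s.1 ∈ A := by
      apply hA
      rw [hsl]; exact Finset.mem_union_right _ (Finset.mem_singleton_self _)
    have hdρ : Disjoint (slots ρ) C := by
      refine Finset.disjoint_of_subset_left ?_ hd
      rw [hsl]; exact Finset.subset_union_left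
    have hsC : s.1 ∉ C := by
      intro hC'
      have : s.1 ∈ slots (insert s ρ) := by
        rw [hsl]; exact Finset.mem_union_right _ (Finset.mem_singleton_self _)
      exact Finset.disjoint_left.1 hd this hC'
    have hsρ : s.1 ∉ slots ρ := by
      intro hx
      obtain ⟨x, hx⟩ := mem_slots.1 hx
      have : s = (s.1, x) := hI s (Finset.mem_insert_self _ _) (s.1, x) (Finset.mem_insert_of_mem hx) rfl
      rw [← this] at hx
      exact hs hx
    have hdisj : Disjoint (slots ρ) (slots ({s} : Finset (ℕ × V))) := by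
      rw [FA4_slots_single]
      exact Finset.disjoint_singleton_right.2 hsρ
    have hcc : cond F (insert s ρ) = cond (cond F ρ) {s} := by
      funext τ'
      apply propext
      rw [hins]
      exact (cond_cond hdisj τ').symm
    have hgood : Good A (cond F ρ) := hF.cond hIρ hAρ
    have h1 := ((H C hC hm (cond F ρ) hgood).2 s.1 hsA hsC).2 s.2
    rw [hcc]
    have h2 := ih hIρ hAρ hdρ
    rw [Finset.card_insert_of_notMem hs, pow_succ]
    have h3 := h1.1
    have h4 : ((s.1, s.2) : ℕ × V) = s := rfl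
    rw [h4] at h3
    nlinarith

theorem FA4_add_le {A : Finset ℕ} {z : ℝ} {m : ℕ} (H : FA4_H V A z m) {C : Finset ℕ} (hC : C ⊆ A)
    {F : Finset (ℕ × V) → Prop} (hF : Good A F) (D : Finset ℕ) :
    D ⊆ A → Disjoint D C → (C ∪ D).card ≤ m → Z F z C ≤ 2 ^ D.card * Z F z (C ∪ D) := by
  induction D using Finset.induction_on with
  | empty =>
    intro _ _ _
    rw [Finset.union_empty, Finset.card_empty, pow_zero, one_mul]
  | insert d D hd ih =>
    intro hA hdisj hcard
    have hDA : D ⊆ A := (Finset.subset_insert _ _).trans hA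
    have hdA : d ∈ A := hA (Finset.mem_insert_self _ _)
    have hdC : d ∉ C := Finset.disjoint_left.1 hdisj (Finset.mem_insert_self _ _)
    have hDC : Disjoint D C := Finset.disjoint_of_subset_left (Finset.subset_insert _ _) hdisj
    have hdCD : d ∉ C ∪ D := by
      rw [Finset.mem_union]; tauto
    have hins : C ∪ insert d D = insert d (C ∪ D) := Finset.union_insert d C D
    rw [hins, Finset.card_insert_of_notMem hdCD] at hcard
    have h1 := ((H (C ∪ D) (Finset.union_subset hC hDA) (by omega) F hF).2 d hdA hdCD).1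
    have h2 := ih hDA hDC (by omega)
    rw [hins, Finset.card_insert_of_notMem hd, pow_succ]
    have h3 : (0:ℝ) ≤ 2 ^ D.card := by positivity
    nlinarith

theorem FA4_step {A : Finset ℕ} {z : ℝ} (hz : 0 ≤ z) {m : ℕ} (H : FA4_H V A z m) {B : Finset ℕ}
    (hB : B ⊆ A) (hm : B.card = m) {F : Finset (ℕ × V) → Prop} (hF : Good A F)
    {τ : Finset (ℕ × V)} (hτ : τ ∈ conf B) (hne : τ.Nonempty) :
    |Z (fun U => F U ∨ U = τ) z B - Z F z B| ≤ (4 * z) ^ τ.card * Z F z B := by
  rw [rec_pat hτ]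
  obtain ⟨hI, hs⟩ := mem_conf.1 hτ
  have hCA : B \ slots τ ⊆ A := Finset.sdiff_subset.trans hB
  have hlt : (B \ slots τ).card < m := by
    rw [← hm]
    apply Finset.card_lt_card
    refine ⟨Finset.sdiff_subset, fun hh => ?_⟩
    obtain ⟨p, hp⟩ := hne
    have hp1 : p.1 ∈ slots τ := mem_slots.2 ⟨p.2, hp⟩
    exact (Finset.mem_sdiff.1 (hh (hs hp1))).2 hp1
  have hsA : slots τ ⊆ A := hs.trans hB
  have hdisj : Disjoint (slots τ) (B \ slots τ) := Finset.disjoint_sdiff
  have h1 := FA4_cond_le H hCA hlt hF τ hI hsA hdisj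
  have hun : (B \ slots τ) ∪ slots τ = B := Finset.sdiff_union_of_subset hs
  have h2 := FA4_add_le H hCA hF (slots τ) hsA hdisj (by rw [hun, hm])
  rw [hun, card_slots hI] at h2
  have h0 : 0 ≤ Z (cond F τ) z (B \ slots τ) :=
    (H (B \ slots τ) hCA hlt (cond F τ) (hF.cond hI hsA)).1
  have e1 : Z F z B - (-z) ^ τ.card * Z (cond F τ) z (B \ slots τ) - Z F z B =
      -((-z) ^ τ.card * Z (cond F τ) z (B \ slots τ)) := by ring
  rw [e1, abs_neg, abs_mul, abs_pow, abs_neg, abs_of_nonneg hz, abs_of_nonneg h0]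
  have hp : (0:ℝ) ≤ 2 ^ τ.card := by positivity
  have hzp : 0 ≤ z ^ τ.card := pow_nonneg hz _
  have h3 : Z (cond F τ) z (B \ slots τ) ≤ 2 ^ τ.card * (2 ^ τ.card * Z F z B) :=
    h1.trans (mul_le_mul_of_nonneg_left h2 hp)
  have h4 : (4 * z) ^ τ.card = z ^ τ.card * (2 ^ τ.card * 2 ^ τ.card) := by
    rw [← mul_pow, ← mul_pow]; congr 1; ring
  rw [h4]
  calc z ^ τ.card * Z (cond F τ) z (B \ slots τ)
      ≤ z ^ τ.card * (2 ^ τ.card * (2 ^ τ.card * Z F z B)) := mul_le_mul_of_nonneg_left h3 hzp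
    _ = z ^ τ.card * (2 ^ τ.card * 2 ^ τ.card) * Z F z B := by ring

theorem FA4_chain {A : Finset ℕ} {z : ℝ} (hz : 0 ≤ z) {m : ℕ} (H : FA4_H V A z m) {B : Finset ℕ}
    (hB : B ⊆ A) (hm : B.card = m) {F : Finset (ℕ × V) → Prop} {N : Finset (Finset (ℕ × V))}
    (hN : ∀ τ ∈ N, τ ∈ conf B ∧ τ.Nonempty)
    (hG : ∀ N' ⊆ N, Good A (fun U => F U ∨ U ∈ N')) {w : ℕ → ℝ} (hw : ∀ k, (4 * z) ^ k ≤ w k)
    (hS : ∑ τ ∈ N, w τ.card ≤ 1) (N' : Finset (Finset (ℕ × V))) :
    N' ⊆ N →
    (1 - ∑ τ ∈ N', w τ.card) * Z (fun U => F U ∨ U ∈ N') z B ≤ Z F z B ∧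
    (1 - ∑ τ ∈ N', w τ.card) * Z F z B ≤ Z (fun U => F U ∨ U ∈ N') z B := by
  have hw0 : ∀ k, 0 ≤ w k := fun k => (pow_nonneg (by positivity) k).trans (hw k)
  have hF0 : (fun U : Finset (ℕ × V) => F U ∨ U ∈ (∅ : Finset (Finset (ℕ × V)))) = F := by
    funext U
    simp
  induction N' using Finset.induction_on with
  | empty =>
    intro _
    rw [hF0, Finset.sum_empty, sub_zero, one_mul]
    exact ⟨le_refl _, le_refl _⟩
  | insert τ N' hτ ih =>
    intro hsub
    have hsub' : N' ⊆ N := (Finset.subset_insert _ _).trans hsub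
    have hτN : τ ∈ N := hsub (Finset.mem_insert_self _ _)
    obtain ⟨h1, h2⟩ := ih hsub'
    have hfun : (fun U : Finset (ℕ × V) => F U ∨ U ∈ insert τ N') =
        (fun U => (fun U => F U ∨ U ∈ N') U ∨ U = τ) := by
      funext U
      apply propext
      simp only [Finset.mem_insert]
      tauto
    rw [hfun]
    have hgood := hG N' hsub'
    have h3 := FA4_step hz H hB hm hgood (hN τ hτN).1 (hN τ hτN).2
    have hZ1 : 0 ≤ Z (fun U => F U ∨ U ∈ N') z B := FA4_nonneg H hB hm hgood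
    have hZ0 : 0 ≤ Z F z B := by
      have := FA4_nonneg H hB hm (hG ∅ (Finset.empty_subset _))
      rwa [hF0] at this
    have h4 := h3.trans (mul_le_mul_of_nonneg_right (hw τ.card) hZ1)
    rw [abs_le] at h4
    have hS1 : ∑ x ∈ insert τ N', w x.card ≤ 1 :=
      (Finset.sum_le_sum_of_subset_of_nonneg hsub (fun x _ _ => hw0 _)).trans hS
    rw [Finset.sum_insert hτ] at hS1 ⊢
    have hSn : 0 ≤ ∑ x ∈ N', w x.card := Finset.sum_nonneg (fun x _ => hw0 _)
    set S := ∑ x ∈ N', w x.card with hSdef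
    set Z1 := Z (fun U => F U ∨ U ∈ N') z B with hZ1def
    set Z2 := Z (fun U => (fun U => F U ∨ U ∈ N') U ∨ U = τ) z B with hZ2def
    set Z0 := Z F z B with hZ0def
    have hwt := hw0 τ.card
    set v := w τ.card with hv
    constructor
    · have h5 : (1 - (v + S)) * Z2 ≤ (1 - (v + S)) * (Z1 + v * Z1) :=
        mul_le_mul_of_nonneg_left (by linarith [h4.2]) (by linarith)
      have h6 : (1 - (v + S)) * (Z1 + v * Z1) = (1 - S) * Z1 - (v * v + S * v) * Z1 := by ring
      have h7 : 0 ≤ (v * v + S * v) * Z1 := by positivity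
      linarith
    · have h5 : (1 - v) * Z1 ≤ Z2 := by linarith [h4.1]
      have h6 : (1 - v) * ((1 - S) * Z0) ≤ (1 - v) * Z1 :=
        mul_le_mul_of_nonneg_left h2 (by linarith)
      have h7 : (1 - v) * ((1 - S) * Z0) = (1 - (v + S)) * Z0 + v * S * Z0 := by ring
      have h8 : 0 ≤ v * S * Z0 := by positivity
      linarith

theorem FA4_cc {A : Finset ℕ} {z : ℝ} (hz : 0 ≤ z) (hz' : 4 * z * Fintype.card V ≤ 1) {m : ℕ}
    (H : FA4_H V A z m) {B : Finset ℕ} (hB : B ⊆ A) (hm : B.card = m)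
    {F : Finset (ℕ × V) → Prop} (hF : Good A F) {i : ℕ} (hi : i ∈ A) (hiB : i ∉ B) (x : V) :
    Z (cond F {(i, x)}) z B ≤ 2 * Z F z B ∧
      (¬ F {(i, x)} → Z F z B ≤ 2 * Z (cond F {(i, x)}) z B) := by
  have hZ0 : 0 ≤ Z F z B := FA4_nonneg H hB hm hF
  by_cases hFs : F {(i, x)}
  · have hc : cond F {(i, x)} ∅ :=
      ⟨fun p hp => absurd hp (Finset.notMem_empty _), {(i, x)}, Finset.Subset.refl _,
        by rwa [Finset.union_empty]⟩
    rw [Z_zero hc]
    exact ⟨by linarith, fun h => absurd hFs h⟩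
  by_cases hF0 : F ∅
  · have hc : cond F {(i, x)} ∅ :=
      ⟨fun p hp => absurd hp (Finset.notMem_empty _), ∅, Finset.empty_subset _,
        by rwa [Finset.union_empty]⟩
    rw [Z_zero hc, Z_zero hF0]
    norm_num
  have hcv : (0:ℝ) < Fintype.card V := by
    have : 0 < Fintype.card V := Fintype.card_pos_iff.2 ⟨x⟩
    exact_mod_cast this
  have h4z : 4 * z ≤ (Fintype.card V : ℝ)⁻¹ := by
    rw [inv_eq_one_div, le_div_iff₀ hcv]
    exact hz'
  have hw : ∀ k, (4 * z) ^ k ≤ ((Fintype.card V : ℝ)⁻¹) ^ k :=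
    fun k => pow_le_pow_left₀ (by positivity) h4z k
  let N : Finset (Finset (ℕ × V)) := (conf B).filter (fun τ => τ.Nonempty ∧ F (insert (i, x) τ))
  have hNmem : ∀ τ, τ ∈ N ↔ τ ∈ conf B ∧ τ.Nonempty ∧ F (insert (i, x) τ) := by
    intro τ
    exact Finset.mem_filter
  have hconf : ∀ τ ∈ (conf B : Finset (Finset (ℕ × V))), ∀ p ∈ τ, p.1 ≠ i := by
    intro τ hτ p hp hpi
    have h1 : p.1 ∈ slots τ := mem_slots.2 ⟨p.2, hp⟩
    have h2 := (mem_conf.1 hτ).2 h1
    rw [hpi] at h2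
    exact hiB h2
  have hsl : slots ({(i, x)} : Finset (ℕ × V)) = {i} := FA4_slots_single (i, x)
  have hsA : slots ({(i, x)} : Finset (ℕ × V)) ⊆ A := by
    rw [hsl]; exact Finset.singleton_subset_iff.2 hi
  -- the base system without the slot `i`
  let F1 : Finset (ℕ × V) → Prop := fun U => (∀ p ∈ U, p.1 ≠ i) ∧ F U
  have hcond : ∀ U, cond F {(i, x)} U ↔ (∀ p ∈ U, p.1 ≠ i) ∧ (F U ∨ F (insert (i, x) U)) := by
    intro U
    constructor
    · rintro ⟨h1, ρ', hρ', h2⟩
      refine ⟨fun p hp hpi => h1 p hp (by rw [hsl, hpi]; exact Finset.mem_singleton_self _), ?_⟩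
      rcases Finset.subset_singleton_iff.1 hρ' with rfl | rfl
      · rw [Finset.empty_union] at h2; exact Or.inl h2
      · exact Or.inr h2
    · rintro ⟨h1, h2⟩
      refine ⟨fun p hp hps => h1 p hp (by rw [hsl, Finset.mem_singleton] at hps; exact hps), ?_⟩
      rcases h2 with h2 | h2
      · exact ⟨∅, Finset.empty_subset _, by rwa [Finset.empty_union]⟩
      · exact ⟨{(i, x)}, Finset.Subset.refl _, h2⟩
  have hG : ∀ N' ⊆ N, Good A (fun U => F1 U ∨ U ∈ N') := by
    intro N' hN'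
    refine (hF.cond (FA4_inj_single (i, x)) hsA).mono ?_
    intro τ hτ
    rcases hτ with hτ | hτ
    · exact (hcond τ).2 ⟨hτ.1, Or.inl hτ.2⟩
    · obtain ⟨h1, h2, h3⟩ := (hNmem τ).1 (hN' hτ)
      exact (hcond τ).2 ⟨hconf τ h1, Or.inr h3⟩
  have hS : ∑ τ ∈ N, ((Fintype.card V : ℝ)⁻¹) ^ τ.card ≤ 1 / 2 := by
    have hg := hF ∅ (fun p hp => absurd hp (Finset.notMem_empty _))
      (by intro j hj; obtain ⟨y, hy⟩ := mem_slots.1 hj; exact absurd hy (Finset.notMem_empty _))
      (i, x) hi (by intro hj; obtain ⟨y, hy⟩ := mem_slots.1 hj; exact absurd hy (Finset.notMem_empty _))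
    refine (Finset.sum_le_sum_of_subset_of_nonneg ?_ (fun τ _ _ => by positivity)).trans hg
    intro τ hτ
    obtain ⟨h1, h2, h3⟩ := (hNmem τ).1 hτ
    refine Finset.mem_filter.2 ⟨mem_conf.2 ⟨(mem_conf.1 h1).1, (mem_conf.1 h1).2.trans hB⟩, h2, ?_, ?_⟩
    · intro p hp
      refine ⟨?_, hconf τ h1 p hp⟩
      intro hj
      obtain ⟨y, hy⟩ := mem_slots.1 hj
      exact absurd hy (Finset.notMem_empty _)
    · exact ⟨∅, Finset.Subset.refl _, by rwa [Finset.empty_union]⟩
  have hmain := FA4_chain hz H hB hm (F := F1) (N := N)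
    (fun τ hτ => ⟨((hNmem τ).1 hτ).1, ((hNmem τ).1 hτ).2.1⟩) hG hw (hS.trans (by norm_num)) N
    (Finset.Subset.refl _)
  have e1 : Z F1 z B = Z F z B := by
    apply Z_congr
    intro U hU
    constructor
    · intro h τ hτ hFτ
      refine h τ hτ ⟨fun p hp => hconf U hU p (hτ hp), hFτ⟩
    · intro h τ hτ hFτ
      exact h τ hτ hFτ.2
  have e2 : Z (fun U => F1 U ∨ U ∈ N) z B = Z (cond F {(i, x)}) z B := by
    apply Z_congr
    intro U hU
    have hsub : ∀ τ ⊆ U, τ ∈ conf B := by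
      intro τ hτ
      refine mem_conf.2 ⟨(mem_conf.1 hU).1.mono hτ, ?_⟩
      refine Finset.Subset.trans ?_ (mem_conf.1 hU).2
      exact Finset.image_subset_image hτ
    constructor
    · intro h τ hτ hc
      obtain ⟨h1, h2⟩ := (hcond τ).1 hc
      rcases h2 with h2 | h2
      · exact h τ hτ (Or.inl ⟨h1, h2⟩)
      · rcases τ.eq_empty_or_nonempty with rfl | hne
        · exact hFs h2
        · exact h τ hτ (Or.inr ((hNmem τ).2 ⟨hsub τ hτ, hne, h2⟩))
    · intro h τ hτ hc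
      rcases hc with hc | hc
      · exact h τ hτ ((hcond τ).2 ⟨hc.1, Or.inl hc.2⟩)
      · obtain ⟨h1, h2, h3⟩ := (hNmem τ).1 hc
        exact h τ hτ ((hcond τ).2 ⟨hconf τ h1, Or.inr h3⟩)
  rw [e1, e2] at hmain
  have hc0 : 0 ≤ Z (cond F {(i, x)}) z B :=
    FA4_nonneg H hB hm (hF.cond (FA4_inj_single (i, x)) hsA)
  obtain ⟨m1, m2⟩ := hmain
  have h5 : (1:ℝ) / 2 ≤ 1 - ∑ τ ∈ N, ((Fintype.card V : ℝ)⁻¹) ^ τ.card := by linarith
  constructor
  · have := mul_le_mul_of_nonneg_right h5 hc0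
    linarith
  · intro _
    have := mul_le_mul_of_nonneg_right h5 hZ0
    linarith

/-- Main lemma, by strong induction on `B.card` (for all good `F`).
`(c) for B` implies `(b) for B` by `rec_slot` (`z * card V * 2 ≤ 1 / 2`), and `0 ≤ Z F z (insert i B)`.
(c), (c'): if `F {s}` (or `F ∅`) then `cond F {s} ∅`, `Z (cond F {s}) = 0`. Otherwise let
`N = (conf B).filter (fun τ => τ.Nonempty ∧ F (insert s τ))`, a subset of `newpat A F ∅ s`, so
`∑ τ ∈ N, (card V)⁻¹ ^ τ.card ≤ 1 / 2`. For `N' ⊆ N` let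
`F_N' U := (U avoids the slot of s and F U) ∨ U ∈ N'`; it is a subsystem of `cond F {s}`, so good;
`Z F_∅ z B = Z F z B`, `Z F_N z B = Z (cond F {s}) z B` (`Z_congr`). By induction over `N'` (`rec_pat`):
`(1 - S(N')) * Z F_N' z B ≤ Z F z B` and `(1 - S(N')) * Z F z B ≤ Z F_N' z B`,
`S(N') = ∑ τ ∈ N', (card V)⁻¹ ^ τ.card`, because
`Z (cond F_N' τ) z (B \ slots τ) ≤ 2 ^ τ.card * Z F_N' z (B \ slots τ) ≤ 4 ^ τ.card * Z F_N' z B`
(`τ.card` times (c) for smaller sets, with `cond_cond`; `τ.card` times (b) for smaller sets). -/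
theorem main_lemma {A : Finset ℕ} {z : ℝ} (hz : 0 ≤ z) (hz' : 4 * z * Fintype.card V ≤ 1) (m : ℕ) :
    ∀ B ⊆ A, B.card = m → ∀ F : Finset (ℕ × V) → Prop, Good A F →
      0 ≤ Z F z B ∧ ∀ i ∈ A, i ∉ B → Z F z B ≤ 2 * Z F z (insert i B) ∧
        ∀ x : V, Z (cond F {(i, x)}) z B ≤ 2 * Z F z B ∧
          (¬ F {(i, x)} → Z F z B ≤ 2 * Z (cond F {(i, x)}) z B) := by
  induction m using Nat.strong_induction_on with
  | _ m ih =>
    have H : FA4_H V A z m := fun B hB hlt F hF => ih B.card hlt B hB rfl F hF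
    intro B hB hm F hF
    have hZ0 : 0 ≤ Z F z B := FA4_nonneg H hB hm hF
    refine ⟨hZ0, ?_⟩
    intro i hi hiB
    have hcc := fun x => FA4_cc hz hz' H hB hm hF hi hiB x
    refine ⟨?_, hcc⟩
    rw [rec_slot hiB]
    have hsum : ∑ x : V, Z (cond F {(i, x)}) z B ≤ Fintype.card V * (2 * Z F z B) := by
      have := Finset.sum_le_card_nsmul (univ : Finset V) (fun x => Z (cond F {(i, x)}) z B)
        (2 * Z F z B) (fun x _ => (hcc x).1)
      rw [nsmul_eq_mul, Finset.card_univ] at this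
      exact this
    have h1 := mul_le_mul_of_nonneg_left hsum hz
    have h2 := mul_le_mul_of_nonneg_right hz' hZ0
    nlinarith

theorem Z_nonneg {A B : Finset ℕ} {z : ℝ} (hz : 0 ≤ z) (hz' : 4 * z * Fintype.card V ≤ 1)
    (hB : B ⊆ A) {F : Finset (ℕ × V) → Prop} (hF : Good A F) : 0 ≤ Z F z B :=
  (main_lemma hz hz' B.card B hB rfl F hF).1

/-- Decay: if every slot of `C` has at least `card V / 2` allowed vertices then
`Z F z C ≤ (1 - z * card V / 4) ^ C.card`. Induction on `C` with `rec_slot` and (c'): the sum of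
`Z (cond F {(i, x)}) z C` over the allowed `x` is at least `(card V / 2) * (Z F z C / 2)`.
(`Z F z ∅ ≤ 1`.) -/
theorem Z_decay {A C : Finset ℕ} {z : ℝ} (hz : 0 ≤ z) (hz' : 4 * z * Fintype.card V ≤ 1)
    (hC : C ⊆ A) {F : Finset (ℕ × V) → Prop} (hF : Good A F)
    (hx : ∀ i ∈ C, (Fintype.card V : ℝ) / 2 ≤
      ((univ.filter fun x : V => ¬ F {(i, x)}).card : ℝ)) :
    Z F z C ≤ (1 - z * Fintype.card V / 4) ^ C.card := by
  induction C using Finset.induction_on with
  | empty =>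
    rw [Finset.card_empty, pow_zero]
    by_cases h0 : F ∅
    · rw [Z_zero h0]; norm_num
    · rw [Z_empty h0]
  | insert i C hi ih =>
    have hCA : C ⊆ A := (Finset.subset_insert _ _).trans hC
    have hiA : i ∈ A := hC (Finset.mem_insert_self _ _)
    have h1 := ih hCA (fun j hj => hx j (Finset.mem_insert_of_mem hj))
    have hm := main_lemma (V := V) hz hz' C.card C hCA rfl F hF
    have hZ0 := hm.1
    have hcc := (hm.2 i hiA hi).2
    rw [rec_slot hi, Finset.card_insert_of_notMem hi, pow_succ]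
    have hcx : ∀ x : V, 0 ≤ Z (cond F {(i, x)}) z C := by
      intro x
      refine Z_nonneg hz hz' hCA (hF.cond (FA4_inj_single (i, x)) ?_)
      rw [FA4_slots_single]; exact Finset.singleton_subset_iff.2 hiA
    have hsum : (Fintype.card V : ℝ) / 2 * (Z F z C / 2) ≤ ∑ x : V, Z (cond F {(i, x)}) z C := by
      have e1 : ∑ x ∈ univ.filter (fun x : V => ¬ F {(i, x)}), Z (cond F {(i, x)}) z C ≤
          ∑ x : V, Z (cond F {(i, x)}) z C :=
        Finset.sum_le_sum_of_subset_of_nonneg (Finset.filter_subset _ _) (fun x _ _ => hcx x)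
      have e2 := Finset.card_nsmul_le_sum (univ.filter (fun x : V => ¬ F {(i, x)}))
        (fun x => Z (cond F {(i, x)}) z C) (Z F z C / 2) (by
          intro x hx'
          have := (hcc x).2 (Finset.mem_filter.1 hx').2
          linarith)
      rw [nsmul_eq_mul] at e2
      refine (mul_le_mul_of_nonneg_right (hx i (Finset.mem_insert_self _ _)) (by linarith)).trans ?_
      exact e2.trans e1
    have h2 := mul_le_mul_of_nonneg_left hsum hz
    have hcv : (0:ℝ) ≤ Fintype.card V := Nat.cast_nonneg _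
    have hfac : 0 ≤ 1 - z * Fintype.card V / 4 := by
      have : 0 ≤ z * Fintype.card V := mul_nonneg hz hcv
      nlinarith
    have h3 := mul_le_mul_of_nonneg_right h1 hfac
    nlinarith

end Pool.Agent.Lib.MP_5c685b_co
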