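import Pool.Agent.Lib.MP_5c685b_co.FA2

/-!
Row FA5: the moment formula (paper section 2).
-/

namespace Pool.Agent.Lib.MP_5c685b_co

open Finset Classical

variable {V : Type} [Fintype V]

theorem FA5_wt {F : Finset (ℕ × V) → Prop} {z : ℝ} {A : Finset ℕ} {σ : Finset (ℕ × V)}
    (hσ : Inj σ) (hA : slots σ ⊆ A) :
    wt F z A σ = ∑ π ∈ (conf A).filter (fun π => σ ⊆ π ∧ Free F π),
      z ^ σ.card * (-z) ^ (π.card - σ.card) := by
  rw [← Finset.mul_sum, fiber hσ hA (fun π => (-z) ^ (π.card - σ.card))]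
  unfold wt Z
  congr 1
  refine Finset.sum_congr rfl fun τ hτ => ?_
  rw [card_union_conf (Finset.mem_filter.mp hτ).1, Nat.add_sub_cancel_left]

theorem FA5_inner {z t : ℝ} {ρ π : Finset (ℕ × V)} (h : ρ ⊆ π) :
    ∑ σ ∈ π.powerset.filter (fun σ => ρ ⊆ σ),
      z ^ σ.card * (-z) ^ (π.card - σ.card) * t ^ (σ.card - ρ.card) =
      z ^ ρ.card * (z * t - z) ^ (π.card - ρ.card) := by
  have h1 : ∑ σ ∈ π.powerset.filter (fun σ => ρ ⊆ σ),
      z ^ σ.card * (-z) ^ (π.card - σ.card) * t ^ (σ.card - ρ.card) =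
      ∑ υ ∈ (π \ ρ).powerset, z ^ ρ.card * ((z * t) ^ υ.card * (-z) ^ ((π \ ρ).card - υ.card)) := by
    refine Finset.sum_nbij' (fun σ => σ \ ρ) (fun υ => ρ ∪ υ) ?_ ?_ ?_ ?_ ?_
    · intro σ hσ
      rw [Finset.mem_filter, Finset.mem_powerset] at hσ
      rw [Finset.mem_powerset]
      exact Finset.sdiff_subset_sdiff hσ.1 (Finset.Subset.refl _)
    · intro υ hυ
      rw [Finset.mem_powerset] at hυ
      rw [Finset.mem_filter, Finset.mem_powerset]
      exact ⟨Finset.union_subset h (hυ.trans Finset.sdiff_subset), Finset.subset_union_left⟩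
    · intro σ hσ
      rw [Finset.mem_filter] at hσ
      exact Finset.union_sdiff_of_subset hσ.2
    · intro υ hυ
      rw [Finset.mem_powerset] at hυ
      have hd : Disjoint υ ρ := Finset.disjoint_of_subset_left hυ Finset.sdiff_disjoint
      rw [Finset.union_sdiff_left, Finset.sdiff_eq_self_of_disjoint hd]
    · intro σ hσ
      rw [Finset.mem_filter, Finset.mem_powerset] at hσ
      have c1 : (σ \ ρ).card = σ.card - ρ.card := Finset.card_sdiff_of_subset hσ.2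
      have c2 : (π \ ρ).card = π.card - ρ.card := Finset.card_sdiff_of_subset h
      have c3 : ρ.card ≤ σ.card := Finset.card_le_card hσ.2
      have c4 : σ.card ≤ π.card := Finset.card_le_card hσ.1
      rw [c1, c2]
      obtain ⟨a, ha⟩ := Nat.exists_eq_add_of_le c3
      obtain ⟨b, hb⟩ := Nat.exists_eq_add_of_le c4
      have e1 : σ.card - ρ.card = a := by omega
      have e2 : π.card - ρ.card - a = b := by omega
      have e3 : π.card - σ.card = b := by omega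
      rw [e1, e2, e3, ha, pow_add, mul_pow]
      ring
  rw [h1, ← Finset.mul_sum, Finset.sum_pow_mul_eq_add_pow, Finset.card_sdiff_of_subset h]
  congr 1

/-- Moment formula. By `fiber`, `wt F z A σ = ∑ π ∈ (conf A).filter (σ ⊆ π ∧ Free F π),
z ^ σ.card * (-z) ^ (π.card - σ.card)`. Exchange the sums; for fixed `π ⊇ ρ` the sets `σ` with
`ρ ⊆ σ ⊆ π` are `ρ ∪ υ`, `υ ⊆ π \ ρ`, and `∑ υ ∈ (π \ ρ).powerset, (z * t) ^ υ.card *
(-z) ^ ((π \ ρ).card - υ.card) = (z * t - z) ^ (π \ ρ).card` (`Finset.sum_pow_mul_eq_add_pow`).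
Then `fiber` with `ρ`. (All subsets of free configurations are free configurations.) -/
theorem moment {F : Finset (ℕ × V) → Prop} {z t : ℝ} {A : Finset ℕ} {ρ : Finset (ℕ × V)}
    (hρ : Inj ρ) (hA : slots ρ ⊆ A) :
    ∑ σ ∈ (conf A).filter (fun σ => ρ ⊆ σ ∧ Free F σ), wt F z A σ * t ^ (σ.card - ρ.card) =
      z ^ ρ.card * Z (cond F ρ) ((1 - t) * z) (A \ slots ρ) := by
  have h1 : ∑ σ ∈ (conf A).filter (fun σ => ρ ⊆ σ ∧ Free F σ),
      wt F z A σ * t ^ (σ.card - ρ.card) =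
      ∑ σ ∈ (conf A).filter (fun σ => ρ ⊆ σ ∧ Free F σ),
        ∑ π ∈ (conf A).filter (fun π => σ ⊆ π ∧ Free F π),
          z ^ σ.card * (-z) ^ (π.card - σ.card) * t ^ (σ.card - ρ.card) := by
    refine Finset.sum_congr rfl fun σ hσ => ?_
    have h2 := mem_conf.mp (Finset.mem_filter.mp hσ).1
    rw [FA5_wt h2.1 h2.2, Finset.sum_mul]
  have h2 : ∑ σ ∈ (conf A).filter (fun σ => ρ ⊆ σ ∧ Free F σ),
        ∑ π ∈ (conf A).filter (fun π => σ ⊆ π ∧ Free F π),
          z ^ σ.card * (-z) ^ (π.card - σ.card) * t ^ (σ.card - ρ.card) =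
      ∑ π ∈ (conf A).filter (fun π => ρ ⊆ π ∧ Free F π),
        ∑ σ ∈ π.powerset.filter (fun σ => ρ ⊆ σ),
          z ^ σ.card * (-z) ^ (π.card - σ.card) * t ^ (σ.card - ρ.card) := by
    refine Finset.sum_comm' fun σ π => ?_
    simp only [Finset.mem_filter, Finset.mem_powerset, mem_conf]
    constructor
    · rintro ⟨⟨_, hρσ, _⟩, ⟨hπ, hσπ, hfπ⟩⟩
      exact ⟨⟨hσπ, hρσ⟩, ⟨hπ, hρσ.trans hσπ, hfπ⟩⟩
    · rintro ⟨⟨hσπ, hρσ⟩, ⟨hπ, _, hfπ⟩⟩
      exact ⟨⟨⟨hπ.1.mono hσπ, (Finset.image_subset_image hσπ).trans hπ.2⟩, hρσ, hfπ.mono hσπ⟩,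
        ⟨hπ, hσπ, hfπ⟩⟩
  rw [h1, h2]
  have h3 : ∑ π ∈ (conf A).filter (fun π => ρ ⊆ π ∧ Free F π),
        ∑ σ ∈ π.powerset.filter (fun σ => ρ ⊆ σ),
          z ^ σ.card * (-z) ^ (π.card - σ.card) * t ^ (σ.card - ρ.card) =
      ∑ π ∈ (conf A).filter (fun π => ρ ⊆ π ∧ Free F π),
        z ^ ρ.card * (z * t - z) ^ (π.card - ρ.card) :=
    Finset.sum_congr rfl fun π hπ => FA5_inner (Finset.mem_filter.mp hπ).2.1
  rw [h3, ← Finset.mul_sum, fiber hρ hA (fun π => (z * t - z) ^ (π.card - ρ.card))]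
  unfold Z
  congr 1
  refine Finset.sum_congr rfl fun τ hτ => ?_
  rw [card_union_conf (Finset.mem_filter.mp hτ).1, Nat.add_sub_cancel_left]
  congr 1
  ring

/-- `t = 1`: `Z F 0 B = 1` if `¬ F ∅`. -/
theorem marginal {F : Finset (ℕ × V) → Prop} {z : ℝ} {A : Finset ℕ} {ρ : Finset (ℕ × V)}
    (hρ : Inj ρ) (hA : slots ρ ⊆ A) (hF : Free F ρ) :
    ∑ σ ∈ (conf A).filter (fun σ => ρ ⊆ σ ∧ Free F σ), wt F z A σ = z ^ ρ.card := by
  have h := moment (F := F) (z := z) (t := 1) (A := A) hρ hA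
  simp only [one_pow, mul_one, sub_self, zero_mul] at h
  rw [h]
  have h0 : ∅ ∈ (conf (A \ slots ρ)).filter (Free (cond F ρ)) := by
    rw [Finset.mem_filter, mem_conf]
    have hs : slots (∅ : Finset (ℕ × V)) = ∅ := by simp [slots]
    refine ⟨⟨fun p hp => absurd hp (Finset.notMem_empty _), by rw [hs]; exact Finset.empty_subset _⟩, ?_⟩
    rw [← free_union_iff (by rw [hs]; exact Finset.disjoint_empty_right _), Finset.union_empty]
    exact hF
  have h1 : Z (cond F ρ) 0 (A \ slots ρ) = 1 := by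
    unfold Z
    rw [Finset.sum_eq_single_of_mem ∅ h0]
    · simp
    · intro U _ hU
      have : U.card ≠ 0 := by rwa [Ne, Finset.card_eq_zero]
      simp [this]
  rw [h1, mul_one]

end Pool.Agent.Lib.MP_5c685b_co
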