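import Pool.Agent.Lib.MP_5c685b_co.FA1

/-!
Row FB1: the base system is good.
-/

namespace Pool.Agent.Lib.MP_5c685b_co

open Finset Classical

variable {V : Type} [Fintype V]

set_option linter.unusedSectionVars false

/-- the configuration of a function on `T` -/
private noncomputable def FB1_g {T : Finset ℕ} (f : ∀ a ∈ T, V) : Finset (ℕ × V) :=
  T.attach.image (fun i : {x // x ∈ T} => ((i : ℕ), f i.1 i.2))

private theorem FB1_mem {T : Finset ℕ} (f : ∀ a ∈ T, V) {i : ℕ} {x : V} :
    (i, x) ∈ FB1_g f ↔ ∃ h : i ∈ T, f i h = x := by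
  rw [FB1_g, Finset.mem_image]
  constructor
  · rintro ⟨j, -, hj⟩
    rw [Prod.mk.injEq] at hj
    obtain ⟨h1, h2⟩ := hj
    subst h1
    exact ⟨j.2, h2⟩
  · rintro ⟨h, rfl⟩
    exact ⟨⟨i, h⟩, Finset.mem_attach _ _, rfl⟩

/-- The number of configurations with slot set exactly `T` is `(card V) ^ T.card`. -/
theorem card_exact (T : Finset ℕ) :
    ((conf (V := V) T).filter fun τ => slots τ = T).card = Fintype.card V ^ T.card := by
  have h1 : (T.pi (fun _ => (univ : Finset V))).card = Fintype.card V ^ T.card := by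
    rw [Finset.card_pi, Finset.prod_const, Finset.card_univ]
  rw [← h1]
  symm
  refine Finset.card_bij (fun f _ => FB1_g f) ?_ ?_ ?_
  · intro f _
    have hs : slots (FB1_g f) = T := by
      ext i
      rw [mem_slots]
      constructor
      · rintro ⟨x, hx⟩
        exact ((FB1_mem f).1 hx).1
      · intro hi
        exact ⟨f i hi, (FB1_mem f).2 ⟨hi, rfl⟩⟩
    rw [Finset.mem_filter, mem_conf]
    refine ⟨⟨?_, hs.subset⟩, hs⟩
    rintro ⟨i, x⟩ hp ⟨j, y⟩ hq hij
    obtain ⟨h1, h2⟩ := (FB1_mem f).1 hp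
    obtain ⟨h3, h4⟩ := (FB1_mem f).1 hq
    have hij' : i = j := hij
    subst hij'
    rw [← h2, ← h4]
  · intro f _ g _ hfg
    funext i hi
    have h3 : (i, f i hi) ∈ FB1_g f := (FB1_mem f).2 ⟨hi, rfl⟩
    have hfg' : FB1_g f = FB1_g g := hfg
    rw [hfg'] at h3
    exact ((FB1_mem g).1 h3).2.symm
  · intro τ hτ
    rw [Finset.mem_filter, mem_conf] at hτ
    obtain ⟨⟨hI, -⟩, hT⟩ := hτ
    have hex : ∀ a ∈ T, ∃ x, (a, x) ∈ τ := fun a ha => mem_slots.1 (by rw [hT]; exact ha)
    choose f hf using hex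
    refine ⟨f, Finset.mem_pi.2 fun _ _ => Finset.mem_univ _, ?_⟩
    ext ⟨i, x⟩
    rw [FB1_mem]
    constructor
    · rintro ⟨h, rfl⟩
      exact hf i h
    · intro hx
      have hi : i ∈ T := by rw [← hT]; exact mem_slots.2 ⟨x, hx⟩
      refine ⟨hi, ?_⟩
      have := hI _ (hf i hi) _ hx rfl
      exact congrArg Prod.snd this

/-- the patterns of the second kind with slots `T` (without the slot of `s`) -/
private noncomputable def FB1_P (G : Finset (Finset V)) (k : ℕ) (ρ : Finset (ℕ × V)) (s : ℕ × V)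
    (T : Finset ℕ) : Finset (Finset (ℕ × V)) :=
  (conf (T \ slots ρ)).filter fun τ => slots τ = T \ slots ρ ∧ τ.Nonempty ∧ s.1 ∉ T ∧
    (ρ.filter (fun p => p.1 ∈ T) ∪ insert s τ).card = k ∧
    (vals (ρ.filter (fun p => p.1 ∈ T) ∪ insert s τ)).card = k ∧
    vals (ρ.filter (fun p => p.1 ∈ T) ∪ insert s τ) ∉ G

private theorem FB1_vals_insert (U : Finset (ℕ × V)) (p : ℕ × V) :
    vals (insert p U) = insert p.2 (vals U) := by
  rw [vals, vals, Finset.image_insert]

private theorem FB1_card_P {G : Finset (Finset V)} {k D : ℕ} (hk : 2 ≤ k)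
    (hD : ∀ S : Finset V, S.card = k - 1 →
      (univ.filter fun x : V => x ∉ S ∧ insert x S ∉ G).card ≤ D)
    (ρ : Finset (ℕ × V)) (s : ℕ × V) (T : Finset ℕ) {j : ℕ} (hj : j ∈ T \ slots ρ) :
    (FB1_P G k ρ s T).card ≤ D * Fintype.card V ^ ((T \ slots ρ).erase j).card := by
  rw [← card_exact (V := V) ((T \ slots ρ).erase j)]
  refine Finset.card_le_mul_card_image_of_maps_to (f := fun τ => τ.filter (fun p => p.1 ≠ j)) ?_ D ?_
  · intro τ hτ
    rw [FB1_P, Finset.mem_filter, mem_conf] at hτ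
    obtain ⟨⟨hI, -⟩, hs, -⟩ := hτ
    have hs2 : slots (τ.filter (fun p => p.1 ≠ j)) = (T \ slots ρ).erase j := by
      ext i
      rw [mem_slots, Finset.mem_erase, ← hs, mem_slots]
      constructor
      · rintro ⟨x, hx⟩
        rw [Finset.mem_filter] at hx
        exact ⟨hx.2, x, hx.1⟩
      · rintro ⟨h1, x, hx⟩
        exact ⟨x, Finset.mem_filter.2 ⟨hx, h1⟩⟩
    rw [Finset.mem_filter, mem_conf]
    exact ⟨⟨hI.mono (Finset.filter_subset _ _), hs2.subset⟩, hs2⟩
  · intro τ0 _
    -- a description of the elements of the fibre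
    have key : ∀ τ ∈ (FB1_P G k ρ s T).filter (fun τ => τ.filter (fun p => p.1 ≠ j) = τ0),
        ∃ x, τ = insert (j, x) τ0 ∧
          (vals (ρ.filter (fun p => p.1 ∈ T) ∪ insert s τ0)).card = k - 1 ∧
          x ∉ vals (ρ.filter (fun p => p.1 ∈ T) ∪ insert s τ0) ∧
          insert x (vals (ρ.filter (fun p => p.1 ∈ T) ∪ insert s τ0)) ∉ G := by
      intro τ hτ
      rw [Finset.mem_filter, FB1_P, Finset.mem_filter, mem_conf] at hτ
      obtain ⟨⟨⟨hI, -⟩, hs, -, hsT, hc1, hc2, hc3⟩, hτ0⟩ := hτ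
      obtain ⟨x, hx⟩ : ∃ x, (j, x) ∈ τ := mem_slots.1 (by rw [hs]; exact hj)
      have hτx : τ = insert (j, x) τ0 := by
        ext p
        rw [Finset.mem_insert, ← hτ0, Finset.mem_filter]
        constructor
        · intro hp
          by_cases hpj : p.1 = j
          · exact Or.inl (hI p hp (j, x) hx hpj)
          · exact Or.inr ⟨hp, hpj⟩
        · rintro (rfl | hp)
          · exact hx
          · exact hp.1
      have hU : ρ.filter (fun p => p.1 ∈ T) ∪ insert s τ =
          insert (j, x) (ρ.filter (fun p => p.1 ∈ T) ∪ insert s τ0) := by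
        rw [hτx, Finset.insert_comm, Finset.union_insert]
      have hvU : vals (ρ.filter (fun p => p.1 ∈ T) ∪ insert s τ) =
          insert x (vals (ρ.filter (fun p => p.1 ∈ T) ∪ insert s τ0)) := by
        rw [hU, FB1_vals_insert]
      rw [hvU] at hc2 hc3
      rw [hU] at hc1
      have hnot : (j, x) ∉ ρ.filter (fun p => p.1 ∈ T) ∪ insert s τ0 := by
        intro hmem
        rw [Finset.mem_union, Finset.mem_filter, Finset.mem_insert] at hmem
        rcases hmem with h | h | h
        · exact (Finset.mem_sdiff.1 hj).2 (mem_slots.2 ⟨x, h.1⟩)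
        · refine hsT ?_
          rw [← h]
          exact (Finset.mem_sdiff.1 hj).1
        · rw [← hτ0, Finset.mem_filter] at h
          exact h.2 rfl
      rw [Finset.card_insert_of_notMem hnot] at hc1
      have hle : (vals (ρ.filter (fun p => p.1 ∈ T) ∪ insert s τ0)).card ≤
          (ρ.filter (fun p => p.1 ∈ T) ∪ insert s τ0).card := Finset.card_image_le
      have hxS : x ∉ vals (ρ.filter (fun p => p.1 ∈ T) ∪ insert s τ0) := by
        intro hxS
        rw [Finset.insert_eq_of_mem hxS] at hc2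
        omega
      rw [Finset.card_insert_of_notMem hxS] at hc2
      exact ⟨x, hτx, by omega, hxS, hc3⟩
    rcases Finset.eq_empty_or_nonempty
      ((FB1_P G k ρ s T).filter fun τ => τ.filter (fun p => p.1 ≠ j) = τ0) with he | ⟨τ1, hτ1⟩
    · rw [he]; simp
    · obtain ⟨-, -, hS, -, -⟩ := key τ1 hτ1
      refine le_trans ?_ (hD _ hS)
      refine le_trans (Finset.card_le_card (t := (univ.filter fun x : V =>
        x ∉ vals (ρ.filter (fun p => p.1 ∈ T) ∪ insert s τ0) ∧
          insert x (vals (ρ.filter (fun p => p.1 ∈ T) ∪ insert s τ0)) ∉ G).image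
            (fun x => insert (j, x) τ0)) ?_) Finset.card_image_le
      intro τ hτ
      obtain ⟨x, h1, -, h2, h3⟩ := key τ hτ
      exact Finset.mem_image.2 ⟨x, Finset.mem_filter.2 ⟨Finset.mem_univ _, h2, h3⟩, h1.symm⟩

private theorem FB1_sum_P {G : Finset (Finset V)} {k D : ℕ} (hk : 2 ≤ k)
    (hD : ∀ S : Finset V, S.card = k - 1 →
      (univ.filter fun x : V => x ∉ S ∧ insert x S ∉ G).card ≤ D)
    (hV : 0 < Fintype.card V) (ρ : Finset (ℕ × V)) (s : ℕ × V) (T : Finset ℕ) :
    ∑ τ ∈ FB1_P G k ρ s T, ((Fintype.card V : ℝ)⁻¹) ^ τ.card ≤ D * (Fintype.card V : ℝ)⁻¹ := by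
  have hV' : (0 : ℝ) < (Fintype.card V : ℝ) := by exact_mod_cast hV
  rcases Finset.eq_empty_or_nonempty (T \ slots ρ) with he | ⟨j, hj⟩
  · have : FB1_P G k ρ s T = ∅ := by
      rw [FB1_P, Finset.filter_eq_empty_iff]
      rintro τ hτ ⟨h1, ⟨p, hp⟩, -⟩
      have : p.1 ∈ slots τ := mem_slots.2 ⟨p.2, hp⟩
      rw [h1, he] at this
      exact absurd this (Finset.notMem_empty _)
    rw [this, Finset.sum_empty]
    positivity
  · have hcard : ∀ τ ∈ FB1_P G k ρ s T, τ.card = ((T \ slots ρ).erase j).card + 1 := by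
      intro τ hτ
      rw [FB1_P, Finset.mem_filter, mem_conf] at hτ
      rw [← card_slots hτ.1.1, hτ.2.1, Finset.card_erase_add_one hj]
    rw [Finset.sum_congr rfl (fun τ hτ => by rw [hcard τ hτ]), Finset.sum_const, nsmul_eq_mul]
    have h1 : ((FB1_P G k ρ s T).card : ℝ) ≤
        D * (Fintype.card V : ℝ) ^ ((T \ slots ρ).erase j).card := by
      exact_mod_cast FB1_card_P hk hD ρ s T hj
    calc ((FB1_P G k ρ s T).card : ℝ) * ((Fintype.card V : ℝ)⁻¹) ^ (((T \ slots ρ).erase j).card + 1)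
        ≤ (D * (Fintype.card V : ℝ) ^ ((T \ slots ρ).erase j).card) *
            ((Fintype.card V : ℝ)⁻¹) ^ (((T \ slots ρ).erase j).card + 1) :=
          mul_le_mul_of_nonneg_right h1 (by positivity)
      _ = D * (Fintype.card V : ℝ)⁻¹ := by
          rw [pow_succ, inv_pow]
          field_simp

private theorem FB1_sum_biUnion {α β : Type} [DecidableEq α] [DecidableEq β] (I : Finset α) (P : α → Finset β)
    (f : β → ℝ) (hf : ∀ b, 0 ≤ f b) : ∑ b ∈ I.biUnion P, f b ≤ ∑ a ∈ I, ∑ b ∈ P a, f b := by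
  induction I using Finset.induction_on with
  | empty => simp
  | insert a I ha ih =>
    rw [Finset.biUnion_insert, Finset.sum_insert ha]
    have h1 : ∑ b ∈ P a ∪ I.biUnion P, f b ≤ ∑ b ∈ P a, f b + ∑ b ∈ I.biUnion P, f b := by
      rw [← Finset.sum_union_inter]
      exact le_add_of_nonneg_right (Finset.sum_nonneg fun b _ => hf b)
    linarith

/-- `D` bounds the number of vertices that extend a `(k-1)`-set to a non-edge. Let `ρ`, `s` be as in
the definition of `Good` and `τ ∈ newpat`. If the pattern `ρ' ∪ insert s τ` is a pair with equal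
vertices then `τ = {(j, s.2)}`, `j ∈ A`: total weight at most `A.card / n`. Otherwise
`T = slots ρ' ∪ slots τ` is a `(k-1)`-subset of `A`; given `T`, `ρ'` is the part of `ρ` with slots in
`T`, `slots τ = T \ slots ρ` is nonempty, and the number of such `τ` is at most
`n ^ (τ.card - 1) * D` (fix `τ` outside one slot `j`: at most `D` vertices for `j`; `card_exact`).
Total weight at most `(A.card.choose (k - 1)) * D / n`. -/
theorem good_F0 {A : Finset ℕ} {G : Finset (Finset V)} {k D : ℕ} (hk : 2 ≤ k)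
    (hD : ∀ S : Finset V, S.card = k - 1 →
      (univ.filter fun x : V => x ∉ S ∧ insert x S ∉ G).card ≤ D)
    (hn : (A.card : ℝ) + (A.card.choose (k - 1) : ℝ) * D ≤ (Fintype.card V : ℝ) / 2) :
    Good A (F0 G k) := by
  intro ρ hρ hρA s hsA hsρ
  have hV : 0 < Fintype.card V := Fintype.card_pos_iff.2 ⟨s.2⟩
  have hV' : (0 : ℝ) < (Fintype.card V : ℝ) := by exact_mod_cast hV
  have hsub : newpat A (F0 G k) ρ s ⊆ A.image (fun j => ({(j, s.2)} : Finset (ℕ × V))) ∪
      (A.powersetCard (k - 1)).biUnion (FB1_P G k ρ s) := by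
    intro τ hτ
    rw [newpat, Finset.mem_filter, mem_conf] at hτ
    obtain ⟨⟨hI, hA⟩, hne, hp, ρ', hρ', hF⟩ := hτ
    have hsτ : s ∉ τ := fun h => (hp s h).2 rfl
    rw [Finset.mem_union]
    rcases hF with ⟨h1, h2⟩ | ⟨h1, h2, h3⟩
    · left
      obtain ⟨p, hpτ⟩ := hne
      have hsp : s ≠ p := fun h => hsτ (by rw [h]; exact hpτ)
      have hsubp : ({s, p} : Finset (ℕ × V)) ⊆ ρ' ∪ insert s τ := by
        intro q hq
        rw [Finset.mem_insert, Finset.mem_singleton] at hq
        rw [Finset.mem_union, Finset.mem_insert]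
        rcases hq with rfl | rfl
        · exact Or.inr (Or.inl rfl)
        · exact Or.inr (Or.inr hpτ)
      have heq : ({s, p} : Finset (ℕ × V)) = ρ' ∪ insert s τ :=
        Finset.eq_of_subset_of_card_le hsubp (by rw [h1, Finset.card_pair hsp])
      have hval : s.2 = p.2 := by
        obtain ⟨x, hx⟩ := Finset.card_eq_one.1 h2
        have ha : s.2 ∈ vals (ρ' ∪ insert s τ) :=
          Finset.mem_image_of_mem _ (hsubp (Finset.mem_insert_self _ _))
        have hb : p.2 ∈ vals (ρ' ∪ insert s τ) :=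
          Finset.mem_image_of_mem _ (hsubp (Finset.mem_insert_of_mem (Finset.mem_singleton_self _)))
        rw [hx, Finset.mem_singleton] at ha hb
        rw [ha, hb]
      refine Finset.mem_image.2 ⟨p.1, hA (mem_slots.2 ⟨p.2, hpτ⟩), ?_⟩
      have hτp : τ = {p} := by
        apply Finset.eq_singleton_iff_unique_mem.2
        refine ⟨hpτ, fun q hq => ?_⟩
        have hq' : q ∈ ({s, p} : Finset (ℕ × V)) := by
          rw [heq]
          exact Finset.mem_union_right _ (Finset.mem_insert_of_mem hq)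
        rw [Finset.mem_insert, Finset.mem_singleton] at hq'
        rcases hq' with rfl | h
        · exact absurd hq hsτ
        · exact h
      rw [hτp, hval]
    · right
      have hsρ' : s.1 ∉ slots ρ' := fun h => by
        obtain ⟨x, hx⟩ := mem_slots.1 h
        exact hsρ (mem_slots.2 ⟨x, hρ' hx⟩)
      have hsτ' : s.1 ∉ slots τ := fun h => by
        obtain ⟨x, hx⟩ := mem_slots.1 h
        exact (hp _ hx).2 rfl
      have hdis : Disjoint (slots ρ) (slots τ) := by
        rw [Finset.disjoint_left]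
        intro i h1 h2
        obtain ⟨x, hx⟩ := mem_slots.1 h2
        exact (hp _ hx).1 h1
      have hρ'sub : slots ρ' ⊆ slots ρ := Finset.image_subset_image hρ'
      have hdis' : Disjoint (slots ρ') (slots τ) := Finset.disjoint_of_subset_left hρ'sub hdis
      have hIU : Inj (ρ' ∪ τ) := (hρ.mono hρ').union hI hdis'
      have hUe : ρ' ∪ insert s τ = insert s (ρ' ∪ τ) := Finset.union_insert _ _ _
      have hsU : s ∉ ρ' ∪ τ := by
        rw [Finset.mem_union]
        rintro (h | h)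
        · exact hsρ' (mem_slots.2 ⟨s.2, h⟩)
        · exact hsτ h
      have hcardU : (ρ' ∪ τ).card = k - 1 := by
        rw [hUe, Finset.card_insert_of_notMem hsU] at h1
        omega
      have hfil : ρ.filter (fun p => p.1 ∈ slots (ρ' ∪ τ)) = ρ' := by
        ext p
        rw [Finset.mem_filter]
        constructor
        · rintro ⟨hpρ, hpT⟩
          rw [slots_union, Finset.mem_union] at hpT
          rcases hpT with h | h
          · obtain ⟨x, hx⟩ := mem_slots.1 h
            have := hρ p hpρ (p.1, x) (hρ' hx) rfl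
            rw [this]
            exact hx
          · exact absurd h (Finset.disjoint_left.1 hdis (mem_slots.2 ⟨p.2, hpρ⟩))
        · intro h
          exact ⟨hρ' h, mem_slots.2 ⟨p.2, Finset.mem_union_left _ h⟩⟩
      have hsd : slots (ρ' ∪ τ) \ slots ρ = slots τ := by
        ext i
        rw [slots_union, Finset.mem_sdiff, Finset.mem_union]
        constructor
        · rintro ⟨h | h, h'⟩
          · exact absurd (hρ'sub h) h'
          · exact h
        · intro h
          exact ⟨Or.inr h, fun h' => Finset.disjoint_left.1 hdis h' h⟩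
      refine Finset.mem_biUnion.2 ⟨slots (ρ' ∪ τ), ?_, ?_⟩
      · rw [Finset.mem_powersetCard, card_slots hIU, slots_union]
        exact ⟨Finset.union_subset (hρ'sub.trans hρA) hA, hcardU⟩
      · rw [FB1_P, Finset.mem_filter, mem_conf, hsd, hfil]
        refine ⟨⟨hI, Finset.Subset.refl _⟩, rfl, hne, ?_, h1, h2, h3⟩
        rw [slots_union, Finset.mem_union]
        rintro (h | h)
        · exact hsρ' h
        · exact hsτ' h
  have hnn : ∀ τ : Finset (ℕ × V), 0 ≤ ((Fintype.card V : ℝ)⁻¹) ^ τ.card := fun τ => by positivity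
  have h1 : ∑ τ ∈ newpat A (F0 G k) ρ s, ((Fintype.card V : ℝ)⁻¹) ^ τ.card ≤
      ∑ τ ∈ A.image (fun j => ({(j, s.2)} : Finset (ℕ × V))) ∪
        (A.powersetCard (k - 1)).biUnion (FB1_P G k ρ s), ((Fintype.card V : ℝ)⁻¹) ^ τ.card :=
    Finset.sum_le_sum_of_subset_of_nonneg hsub (fun τ _ _ => hnn τ)
  have h2 : ∑ τ ∈ A.image (fun j => ({(j, s.2)} : Finset (ℕ × V))) ∪
        (A.powersetCard (k - 1)).biUnion (FB1_P G k ρ s), ((Fintype.card V : ℝ)⁻¹) ^ τ.card ≤
      ∑ τ ∈ A.image (fun j => ({(j, s.2)} : Finset (ℕ × V))), ((Fintype.card V : ℝ)⁻¹) ^ τ.card +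
        ∑ τ ∈ (A.powersetCard (k - 1)).biUnion (FB1_P G k ρ s), ((Fintype.card V : ℝ)⁻¹) ^ τ.card := by
    rw [← Finset.sum_union_inter]
    exact le_add_of_nonneg_right (Finset.sum_nonneg fun τ _ => hnn τ)
  have h3 : ∑ τ ∈ A.image (fun j => ({(j, s.2)} : Finset (ℕ × V))), ((Fintype.card V : ℝ)⁻¹) ^ τ.card ≤
      A.card * (Fintype.card V : ℝ)⁻¹ := by
    calc ∑ τ ∈ A.image (fun j => ({(j, s.2)} : Finset (ℕ × V))), ((Fintype.card V : ℝ)⁻¹) ^ τ.card
        = ∑ τ ∈ A.image (fun j => ({(j, s.2)} : Finset (ℕ × V))), (Fintype.card V : ℝ)⁻¹ := by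
          refine Finset.sum_congr rfl fun τ hτ => ?_
          obtain ⟨j, -, rfl⟩ := Finset.mem_image.1 hτ
          rw [Finset.card_singleton, pow_one]
      _ = ((A.image (fun j => ({(j, s.2)} : Finset (ℕ × V)))).card : ℝ) * (Fintype.card V : ℝ)⁻¹ := by
          rw [Finset.sum_const, nsmul_eq_mul]
      _ ≤ A.card * (Fintype.card V : ℝ)⁻¹ :=
          mul_le_mul_of_nonneg_right (by exact_mod_cast Finset.card_image_le) (by positivity)
  have h4 : ∑ τ ∈ (A.powersetCard (k - 1)).biUnion (FB1_P G k ρ s), ((Fintype.card V : ℝ)⁻¹) ^ τ.card ≤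
      (A.card.choose (k - 1) : ℝ) * (D * (Fintype.card V : ℝ)⁻¹) := by
    calc ∑ τ ∈ (A.powersetCard (k - 1)).biUnion (FB1_P G k ρ s), ((Fintype.card V : ℝ)⁻¹) ^ τ.card
        ≤ ∑ T ∈ A.powersetCard (k - 1), ∑ τ ∈ FB1_P G k ρ s T, ((Fintype.card V : ℝ)⁻¹) ^ τ.card :=
          FB1_sum_biUnion _ _ _ hnn
      _ ≤ ∑ T ∈ A.powersetCard (k - 1), (D * (Fintype.card V : ℝ)⁻¹) :=
          Finset.sum_le_sum fun T _ => FB1_sum_P hk hD hV ρ s T
      _ = (A.card.choose (k - 1) : ℝ) * (D * (Fintype.card V : ℝ)⁻¹) := by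
          rw [Finset.sum_const, Finset.card_powersetCard, nsmul_eq_mul]
  have h5 : (A.card : ℝ) * (Fintype.card V : ℝ)⁻¹ +
      (A.card.choose (k - 1) : ℝ) * (D * (Fintype.card V : ℝ)⁻¹) ≤ 1 / 2 := by
    have : (A.card : ℝ) * (Fintype.card V : ℝ)⁻¹ +
      (A.card.choose (k - 1) : ℝ) * (D * (Fintype.card V : ℝ)⁻¹) =
        ((A.card : ℝ) + (A.card.choose (k - 1) : ℝ) * D) * (Fintype.card V : ℝ)⁻¹ := by ring
    rw [this, ← div_eq_mul_inv, div_le_iff₀ hV']
    linarith
  linarith

end Pool.Agent.Lib.MP_5c685b_co
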