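import Pool.Agent.Lib.MP_5c685b_co.FA1

/-!
Row FB2: the base system, free configurations.
-/

namespace Pool.Agent.Lib.MP_5c685b_co

open Finset Classical

set_option linter.unusedSectionVars false
set_option linter.unusedVariables false

variable {V : Type} [Fintype V]

theorem FB2_mem_vals {U : Finset (ℕ × V)} {x : V} : x ∈ vals U ↔ ∃ i, (i, x) ∈ U := by
  unfold vals
  rw [Finset.mem_image]
  constructor
  · rintro ⟨⟨i, y⟩, h, rfl⟩
    exact ⟨i, h⟩
  · rintro ⟨i, h⟩
    exact ⟨(i, x), h, rfl⟩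

theorem FB2_vals_mono {U U' : Finset (ℕ × V)} (h : U ⊆ U') : vals U ⊆ vals U' :=
  Finset.image_subset_image h

theorem FB2_injOn {σ : Finset (ℕ × V)} (h : (vals σ).card = σ.card) {p q : ℕ × V}
    (hp : p ∈ σ) (hq : q ∈ σ) (e : p.2 = q.2) : p = q := by
  have h1 : Set.InjOn (Prod.snd : ℕ × V → V) (σ : Set (ℕ × V)) := Finset.card_image_iff.1 h
  exact h1 (Finset.mem_coe.2 hp) (Finset.mem_coe.2 hq) e

theorem FB2_card_vals {σ : Finset (ℕ × V)} (h : (vals σ).card = σ.card) {τ : Finset (ℕ × V)}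
    (hτ : τ ⊆ σ) : (vals τ).card = τ.card := by
  refine Finset.card_image_of_injOn ?_
  intro p hp q hq e
  exact FB2_injOn h (hτ (Finset.mem_coe.1 hp)) (hτ (Finset.mem_coe.1 hq)) e

/-- the part of `σ` over `e` -/
noncomputable def FB2_over (σ : Finset (ℕ × V)) (e : Finset V) : Finset (ℕ × V) :=
  σ.filter (fun p => p.2 ∈ e)

theorem FB2_vals_over {σ : Finset (ℕ × V)} {e : Finset V} (he : e ⊆ vals σ) :
    vals (FB2_over σ e) = e := by
  ext x
  rw [FB2_mem_vals]
  unfold FB2_over
  constructor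
  · rintro ⟨i, hi⟩
    exact (Finset.mem_filter.1 hi).2
  · intro hx
    obtain ⟨i, hi⟩ := FB2_mem_vals.1 (he hx)
    exact ⟨i, Finset.mem_filter.2 ⟨hi, hx⟩⟩

theorem FB2_over_sub (σ : Finset (ℕ × V)) (e : Finset V) : FB2_over σ e ⊆ σ :=
  Finset.filter_subset _ _

/-- free configurations are cliques with distinct vertices (`2 ≤ k`) -/
theorem free_F0_iff {G : Finset (Finset V)} {k : ℕ} (hk : 2 ≤ k) {σ : Finset (ℕ × V)}
    (hσ : Inj σ) : Free (F0 G k) σ ↔
      (vals σ).card = σ.card ∧ ∀ e ⊆ vals σ, e.card = k → e ∈ G := by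
  constructor
  · intro h
    have hcard : (vals σ).card = σ.card := by
      refine Finset.card_image_of_injOn ?_
      intro p hp q hq e
      by_contra hpq
      have hp' := Finset.mem_coe.1 hp
      have hq' := Finset.mem_coe.1 hq
      refine h {p, q} ?_ (Or.inl ⟨Finset.card_pair hpq, ?_⟩)
      · intro x hx
        rcases Finset.mem_insert.1 hx with rfl | hx
        · exact hp'
        · rw [Finset.mem_singleton] at hx
          rw [hx]
          exact hq'
      · have h1 : vals {p, q} = {p.2} := by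
          unfold vals
          rw [Finset.image_insert, Finset.image_singleton]
          have e' : p.2 = q.2 := e
          rw [← e']
          simp
        rw [h1, Finset.card_singleton]
    refine ⟨hcard, fun e he hek => ?_⟩
    by_contra hG
    have hv := FB2_vals_over he
    refine h (FB2_over σ e) (FB2_over_sub σ e) (Or.inr ⟨?_, ?_, ?_⟩)
    · rw [← FB2_card_vals hcard (FB2_over_sub σ e), hv, hek]
    · rw [hv, hek]
    · rw [hv]
      exact hG
  · rintro ⟨hcard, hG⟩ τ hτ hF
    rcases hF with ⟨h1, h2⟩ | ⟨h1, h2, h3⟩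
    · rw [FB2_card_vals hcard hτ] at h2
      omega
    · exact h3 (hG _ (FB2_vals_mono hτ) h2)

/-- For a free `ρ` with `k` sites and a slot `i ∉ slots ρ` the bad vertices `x` are those in
`vals ρ` (at most `k`) and for each `(k-1)`-subset `S` of `vals ρ` at most `D` more. -/
theorem allowed_F0 {G : Finset (Finset V)} {k D : ℕ} (hk : 2 ≤ k)
    (hD : ∀ S : Finset V, S.card = k - 1 →
      (univ.filter fun x : V => x ∉ S ∧ insert x S ∉ G).card ≤ D)
    {ρ : Finset (ℕ × V)} (hρ : Inj ρ) (hc : ρ.card = k) (hF : Free (F0 G k) ρ)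
    (hn : ((k + k * D : ℕ) : ℝ) ≤ (Fintype.card V : ℝ) / 2) {i : ℕ} (hi : i ∉ slots ρ) :
    (Fintype.card V : ℝ) / 2 ≤
      ((univ.filter fun x : V => ¬ cond (F0 G k) ρ {(i, x)}).card : ℝ) := by
  have hnot : ∀ x : V, ∀ ρ' ⊆ ρ, (i, x) ∉ ρ' := fun x ρ' h hx => hi (mem_slots.2 ⟨x, h hx⟩)
  have hsub : (univ.filter fun x : V => cond (F0 G k) ρ {(i, x)}) ⊆
      vals ρ ∪ ((vals ρ).powersetCard (k - 1)).biUnion
        (fun S => univ.filter fun x : V => x ∉ S ∧ insert x S ∉ G) := by
    intro x hx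
    obtain ⟨_, ρ', hρ', hF'⟩ := (Finset.mem_filter.1 hx).2
    have hxn := hnot x ρ' hρ'
    have hcu : (ρ' ∪ {(i, x)}).card = ρ'.card + 1 := by
      rw [Finset.union_comm, ← Finset.insert_eq, Finset.card_insert_of_notMem hxn]
    have hvu : vals (ρ' ∪ {(i, x)}) = insert x (vals ρ') := by
      unfold vals
      rw [Finset.image_union, Finset.image_singleton, Finset.union_comm, ← Finset.insert_eq]
    rw [Finset.mem_union]
    rcases hF' with ⟨h1, h2⟩ | ⟨h1, h2, h3⟩
    · left
      rw [hcu] at h1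
      have h4 : ρ'.card = 1 := by omega
      obtain ⟨p, hp⟩ := Finset.card_eq_one.1 h4
      rw [hvu] at h2
      have hpm : p ∈ ρ' := by rw [hp]; exact Finset.mem_singleton_self p
      have hpv : p.2 ∈ insert x (vals ρ') :=
        Finset.mem_insert_of_mem (FB2_mem_vals.2 ⟨p.1, hpm⟩)
      obtain ⟨y, hy⟩ := Finset.card_eq_one.1 h2
      rw [hy, Finset.mem_singleton] at hpv
      have hxy : x ∈ insert x (vals ρ') := Finset.mem_insert_self x _
      rw [hy, Finset.mem_singleton] at hxy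
      rw [hxy, ← hpv]
      exact FB2_mem_vals.2 ⟨p.1, hρ' hpm⟩
    · right
      rw [hcu] at h1
      rw [hvu] at h2 h3
      have h5 : (vals ρ').card ≤ ρ'.card := Finset.card_image_le
      have h6 : x ∉ vals ρ' := by
        intro hx'
        rw [Finset.insert_eq_of_mem hx'] at h2
        omega
      rw [Finset.card_insert_of_notMem h6] at h2
      refine Finset.mem_biUnion.2 ⟨vals ρ', Finset.mem_powersetCard.2
        ⟨FB2_vals_mono hρ', by omega⟩, Finset.mem_filter.2 ⟨Finset.mem_univ x, h6, h3⟩⟩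
  have hv : (vals ρ).card = k := by rw [((free_F0_iff hk hρ).1 hF).1, hc]
  have hcard : (univ.filter fun x : V => cond (F0 G k) ρ {(i, x)}).card ≤ k + k * D := by
    refine (Finset.card_le_card hsub).trans ((Finset.card_union_le _ _).trans ?_)
    rw [hv]
    refine Nat.add_le_add_left ?_ k
    refine Finset.card_biUnion_le.trans ?_
    have h1 : ∑ S ∈ (vals ρ).powersetCard (k - 1),
        (univ.filter fun x : V => x ∉ S ∧ insert x S ∉ G).card ≤
        ∑ S ∈ (vals ρ).powersetCard (k - 1), D :=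
      Finset.sum_le_sum (fun S hS => hD S (Finset.mem_powersetCard.1 hS).2)
    refine h1.trans (le_of_eq ?_)
    rw [Finset.sum_const, Finset.card_powersetCard, hv, smul_eq_mul]
    have h2 : k.choose (k - 1) = k := by
      obtain ⟨m, rfl⟩ : ∃ m, k = m + 1 := ⟨k - 1, by omega⟩
      simp
    rw [h2]
  have htot : (univ.filter fun x : V => cond (F0 G k) ρ {(i, x)}).card +
      (univ.filter fun x : V => ¬ cond (F0 G k) ρ {(i, x)}).card = Fintype.card V := by
    rw [Finset.card_filter_add_card_filter_not]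
    exact Finset.card_univ
  have h1 : ((univ.filter fun x : V => cond (F0 G k) ρ {(i, x)}).card : ℝ) ≤
      ((k + k * D : ℕ) : ℝ) := by exact_mod_cast hcard
  have h2 : ((univ.filter fun x : V => cond (F0 G k) ρ {(i, x)}).card : ℝ) +
      ((univ.filter fun x : V => ¬ cond (F0 G k) ρ {(i, x)}).card : ℝ) =
      (Fintype.card V : ℝ) := by exact_mod_cast htot
  linarith

/-- the configuration of an embedding of `e` into the slots `A` -/
noncomputable def FB2_emb {A : Finset ℕ} {e : Finset V} (f : {x // x ∈ e} ↪ {a // a ∈ A}) :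
    Finset (ℕ × V) :=
  (univ : Finset {x // x ∈ e}).image (fun x => ((f x : ℕ), (x : V)))

theorem FB2_mem_emb {A : Finset ℕ} {e : Finset V} (f : {x // x ∈ e} ↪ {a // a ∈ A})
    (p : ℕ × V) : p ∈ FB2_emb f ↔ ∃ x : {x // x ∈ e}, ((f x : ℕ), (x : V)) = p := by
  unfold FB2_emb
  simp

theorem FB2_count {A : Finset ℕ} {k : ℕ} (e : Finset V) (he : e.card = k) :
    ((conf A).filter (fun ρ : Finset (ℕ × V) => ρ.card = k ∧ vals ρ = e)).card =
      A.card.descFactorial k := by
  have h1 : (conf A).filter (fun ρ : Finset (ℕ × V) => ρ.card = k ∧ vals ρ = e) =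
      (univ : Finset ({x // x ∈ e} ↪ {a // a ∈ A})).image FB2_emb := by
    ext ρ
    rw [Finset.mem_filter, Finset.mem_image]
    constructor
    · rintro ⟨hρ, hc, hv⟩
      obtain ⟨hI, hs⟩ := mem_conf.1 hρ
      have hcard : (vals ρ).card = ρ.card := by rw [hv, he, hc]
      have hex : ∀ x : {x // x ∈ e}, ∃ i : ℕ, (i, (x : V)) ∈ ρ := by
        intro x
        have hx : (x : V) ∈ vals ρ := by rw [hv]; exact x.2
        exact FB2_mem_vals.1 hx
      choose g hg using hex
      have hgA : ∀ x, g x ∈ A := fun x => hs (mem_slots.2 ⟨_, hg x⟩)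
      refine ⟨⟨fun x => ⟨g x, hgA x⟩, ?_⟩, Finset.mem_univ _, ?_⟩
      · intro x y hxy
        have h2 : g x = g y := congrArg Subtype.val hxy
        have h3 := hI _ (hg x) _ (hg y) h2
        exact Subtype.ext (congrArg Prod.snd h3)
      · ext p
        rw [FB2_mem_emb]
        constructor
        · rintro ⟨x, rfl⟩
          exact hg x
        · intro hp
          have hp2 : p.2 ∈ e := by rw [← hv]; exact FB2_mem_vals.2 ⟨p.1, hp⟩
          refine ⟨⟨p.2, hp2⟩, ?_⟩
          exact FB2_injOn hcard (hg ⟨p.2, hp2⟩) hp rfl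
    · rintro ⟨f, _, rfl⟩
      have hinj : Function.Injective (fun x : {x // x ∈ e} => ((f x : ℕ), (x : V))) := by
        intro x y hxy
        exact Subtype.ext (congrArg Prod.snd hxy)
      refine ⟨mem_conf.2 ⟨?_, ?_⟩, ?_, ?_⟩
      · intro p hp q hq hpq
        obtain ⟨x, rfl⟩ := (FB2_mem_emb f p).1 hp
        obtain ⟨y, rfl⟩ := (FB2_mem_emb f q).1 hq
        have h2 : f x = f y := Subtype.ext hpq
        rw [f.injective h2]
      · intro i hi
        obtain ⟨y, hy⟩ := mem_slots.1 hi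
        obtain ⟨x, hx⟩ := (FB2_mem_emb f _).1 hy
        have h7 : (f x : ℕ) = i := congrArg Prod.fst hx
        rw [← h7]
        exact (f x).2
      · unfold FB2_emb
        rw [Finset.card_image_of_injective _ hinj, Finset.card_univ, Fintype.card_coe, he]
      · ext x
        rw [FB2_mem_vals]
        constructor
        · rintro ⟨i, hi⟩
          obtain ⟨y, hy⟩ := (FB2_mem_emb f _).1 hi
          have h7 : (y : V) = x := congrArg Prod.snd hy
          rw [← h7]
          exact y.2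
        · intro hx
          exact ⟨(f ⟨x, hx⟩ : ℕ), (FB2_mem_emb f _).2 ⟨⟨x, hx⟩, rfl⟩⟩
  rw [h1, Finset.card_image_of_injective]
  · rw [Finset.card_univ, Fintype.card_embedding_eq, Fintype.card_coe, Fintype.card_coe, he]
  · intro f g hfg
    ext x
    have hx : ((f x : ℕ), (x : V)) ∈ FB2_emb g := by
      rw [← hfg]
      exact (FB2_mem_emb f _).2 ⟨x, rfl⟩
    obtain ⟨y, hy⟩ := (FB2_mem_emb g _).1 hx
    have h2 : y = x := Subtype.ext (congrArg Prod.snd hy)
    have h3 := congrArg Prod.fst hy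
    rw [h2] at h3
    exact h3.symm

/-- For a function `g` on the free configurations with `k` sites that depends only on the set of
vertices: every edge `e` of `G` is the vertex set of the same number `N > 0` of configurations
(`k ≤ A.card`; embeddings of `e` into `A`, or permute the vertices). -/
theorem sum_edges {A : Finset ℕ} {G : Finset (Finset V)} {k : ℕ} (hk : 2 ≤ k)
    (hG : ∀ e ∈ G, e.card = k) (hA : k ≤ A.card) : ∃ N : ℕ, 0 < N ∧ ∀ y : Finset V → ℝ,
      ∑ ρ ∈ (conf A).filter (fun ρ => ρ.card = k ∧ Free (F0 G k) ρ), y (vals ρ) =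
        N * ∑ e ∈ G, y e := by
  refine ⟨A.card.descFactorial k, Nat.descFactorial_pos.2 hA, fun y => ?_⟩
  have hmaps : ∀ ρ ∈ (conf A).filter (fun ρ : Finset (ℕ × V) => ρ.card = k ∧ Free (F0 G k) ρ),
      vals ρ ∈ G := by
    intro ρ hρ
    obtain ⟨h1, h2, h3⟩ := Finset.mem_filter.1 hρ
    obtain ⟨h4, h5⟩ := (free_F0_iff hk (mem_conf.1 h1).1).1 h3
    exact h5 _ (Finset.Subset.refl _) (by rw [h4, h2])
  rw [← Finset.sum_fiberwise_of_maps_to hmaps, Finset.mul_sum]
  refine Finset.sum_congr rfl (fun e he => ?_)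
  have hset : ((conf A).filter (fun ρ : Finset (ℕ × V) => ρ.card = k ∧ Free (F0 G k) ρ)).filter
      (fun ρ => vals ρ = e) =
      (conf A).filter (fun ρ : Finset (ℕ × V) => ρ.card = k ∧ vals ρ = e) := by
    ext ρ
    simp only [Finset.mem_filter]
    constructor
    · rintro ⟨⟨h1, h2, _⟩, h4⟩
      exact ⟨h1, h2, h4⟩
    · rintro ⟨h1, h2, h4⟩
      refine ⟨⟨h1, h2, (free_F0_iff hk (mem_conf.1 h1).1).2 ⟨?_, fun e' he' hc' => ?_⟩⟩, h4⟩
      · rw [h4, hG e he, h2]
      · rw [h4] at he'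
        have h5 : e' = e := Finset.eq_of_subset_of_card_le he' (by rw [hc', hG e he])
        rw [h5]
        exact he
  rw [hset]
  have hconst : ∀ ρ ∈ (conf A).filter (fun ρ : Finset (ℕ × V) => ρ.card = k ∧ vals ρ = e),
      y (vals ρ) = y e := fun ρ hρ => by rw [(Finset.mem_filter.1 hρ).2.2]
  rw [Finset.sum_congr rfl hconst, Finset.sum_const, FB2_count e (hG e he), nsmul_eq_mul]

/-- If `vals σ` has as many elements as `σ`, the `k`-subsets of `vals σ` are the vertex sets of the
`k`-subsets of `σ`. -/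
theorem ys_vals {σ : Finset (ℕ × V)} (hσ : (vals σ).card = σ.card) (k : ℕ)
    (y : Finset V → ℝ) : ys k y (vals σ) = ∑ ρ ∈ σ.powersetCard k, y (vals ρ) := by
  unfold ys
  symm
  refine Finset.sum_bij (fun ρ _ => vals ρ) ?_ ?_ ?_ (fun _ _ => rfl)
  · intro ρ hρ
    obtain ⟨h1, h2⟩ := Finset.mem_powersetCard.1 hρ
    exact Finset.mem_powersetCard.2 ⟨FB2_vals_mono h1, by rw [FB2_card_vals hσ h1, h2]⟩
  · intro ρ hρ ρ' hρ' h
    obtain ⟨h1, _⟩ := Finset.mem_powersetCard.1 hρ
    obtain ⟨h1', _⟩ := Finset.mem_powersetCard.1 hρ'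
    have key : ∀ {τ τ' : Finset (ℕ × V)}, τ ⊆ σ → τ' ⊆ σ → vals τ = vals τ' → τ ⊆ τ' := by
      intro τ τ' hτ hτ' hv p hp
      have h2 : p.2 ∈ vals τ' := by rw [← hv]; exact FB2_mem_vals.2 ⟨p.1, hp⟩
      obtain ⟨i, hi⟩ := FB2_mem_vals.1 h2
      have h3 := FB2_injOn hσ (hτ hp) (hτ' hi) rfl
      rw [h3]
      exact hi
    exact Finset.Subset.antisymm (key h1 h1' h) (key h1' h1 h.symm)
  · intro e he
    obtain ⟨h1, h2⟩ := Finset.mem_powersetCard.1 he
    refine ⟨FB2_over σ e, Finset.mem_powersetCard.2 ⟨FB2_over_sub σ e, ?_⟩, FB2_vals_over h1⟩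
    rw [← FB2_card_vals hσ (FB2_over_sub σ e), FB2_vals_over h1, h2]

end Pool.Agent.Lib.MP_5c685b_co
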