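import Pool.Agent.Lib.MP_5c685b_co.FDefs

/-!
Row FC1: the local bound (paper section 3), and averaging.
-/

namespace Pool.Agent.Lib.MP_5c685b_co

open Finset Classical

set_option linter.unusedSectionVars false

variable {V : Type} [Fintype V]

theorem FC1_Ck_pos (k : ℕ) : 0 < Ck k := by
  induction k with
  | zero => rw [Ck]; norm_num
  | succ k ih => rw [Ck]; positivity

theorem FC1_ys_insert (k : ℕ) (y : Finset V → ℝ) (K : Finset V) (a : V) (ha : a ∉ K) :
    ys (k + 1) y (insert a K) = ys (k + 1) y K + ys k (fun f => y (insert a f)) K := by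
  rw [ys, Finset.powersetCard_succ_insert ha, Finset.sum_union, Finset.sum_image]
  · rfl
  · intro x hx z hz hxz
    have hx' : a ∉ x := fun h => ha ((Finset.mem_powersetCard.1 hx).1 h)
    have hz' : a ∉ z := fun h => ha ((Finset.mem_powersetCard.1 hz).1 h)
    rw [← Finset.erase_insert hx', ← Finset.erase_insert hz', hxz]
  · rw [Finset.disjoint_left]
    intro x hx hx2
    obtain ⟨z, _, rfl⟩ := Finset.mem_image.1 hx2
    exact ha ((Finset.mem_powersetCard.1 hx).1 (Finset.mem_insert_self a z))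

/-- exchange of one element -/
theorem FC1_swap (k r : ℕ)
    (ih : ∀ (J : Finset V) (y : Finset V → ℝ) (B : ℝ),
      r + k ≤ J.card → (∀ K ⊆ J, K.card = r → |ys k y K| ≤ B) →
      ∀ e ⊆ J, e.card = k → |y e| ≤ Ck k * B)
    (J : Finset V) (y : Finset V → ℝ) (B : ℝ) (hJ : r + 1 + (k + 1) ≤ J.card)
    (h : ∀ K ⊆ J, K.card = r + 1 → |ys (k + 1) y K| ≤ B)
    {a b : V} (ha : a ∈ J) (hb : b ∈ J) (hab : a ≠ b) {f : Finset V} (hf : f ⊆ J)
    (haf : a ∉ f) (hbf : b ∉ f) (hc : f.card = k) :
    |y (insert a f) - y (insert b f)| ≤ Ck k * (2 * B) := by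
  have hJ' : ((J.erase a).erase b).card = J.card - 1 - 1 := by
    rw [Finset.card_erase_of_mem (Finset.mem_erase.2 ⟨hab.symm, hb⟩), Finset.card_erase_of_mem ha]
  refine ih ((J.erase a).erase b) (fun f => y (insert a f) - y (insert b f)) (2 * B) ?_ ?_ f ?_ hc
  · rw [hJ']; omega
  · intro K hK hKc
    have hKJ : K ⊆ J := hK.trans ((Finset.erase_subset _ _).trans (Finset.erase_subset _ _))
    have haK : a ∉ K := fun hh =>
      Finset.notMem_erase a J (Finset.mem_of_mem_erase (hK hh))
    have hbK : b ∉ K := fun hh => Finset.notMem_erase b _ (hK hh)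
    have h1 := h (insert a K) (Finset.insert_subset ha hKJ)
      (by rw [Finset.card_insert_of_notMem haK, hKc])
    have h2 := h (insert b K) (Finset.insert_subset hb hKJ)
      (by rw [Finset.card_insert_of_notMem hbK, hKc])
    have h3 : ys k (fun f => y (insert a f) - y (insert b f)) K =
        ys (k + 1) y (insert a K) - ys (k + 1) y (insert b K) := by
      rw [FC1_ys_insert k y K a haK, FC1_ys_insert k y K b hbK]
      have h4 : ys k (fun f => y (insert a f) - y (insert b f)) K =
          ys k (fun f => y (insert a f)) K - ys k (fun f => y (insert b f)) K :=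
        Finset.sum_sub_distrib _ _
      rw [h4]; ring
    rw [h3]
    rw [abs_le] at h1 h2 ⊢
    constructor <;> linarith [h1.1, h1.2, h2.1, h2.2]
  · intro v hv
    refine Finset.mem_erase.2 ⟨fun hh => hbf (hh ▸ hv), Finset.mem_erase.2 ⟨fun hh => haf (hh ▸ hv), hf hv⟩⟩

/-- exchanging one element at a time -/
theorem FC1_path (k : ℕ) (J : Finset V) (y : Finset V → ℝ) (C : ℝ)
    (hsw : ∀ a ∈ J, ∀ b ∈ J, a ≠ b → ∀ f ⊆ J, a ∉ f → b ∉ f → f.card = k →
      |y (insert a f) - y (insert b f)| ≤ C) :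
    ∀ (m : ℕ) (e e' : Finset V), e ⊆ J → e' ⊆ J → e.card = k + 1 → e'.card = k + 1 →
      (e \ e').card = m → |y e - y e'| ≤ (m : ℝ) * C := by
  intro m
  induction m with
  | zero =>
    intro e e' he he' hc hc' hm
    have h1 : e ⊆ e' := Finset.sdiff_eq_empty_iff_subset.1 (Finset.card_eq_zero.1 hm)
    have h2 : e = e' := Finset.eq_of_subset_of_card_le h1 (by omega)
    rw [h2]; simp
  | succ m ihm =>
    intro e e' he he' hc hc' hm
    obtain ⟨a, ha⟩ : (e \ e').Nonempty := Finset.card_pos.1 (by omega)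
    have hce : (e' \ e).card = (e \ e').card := by
      have h1 := Finset.card_sdiff_add_card_inter e e'
      have h2 := Finset.card_sdiff_add_card_inter e' e
      rw [Finset.inter_comm] at h2
      omega
    obtain ⟨b, hb⟩ : (e' \ e).Nonempty := Finset.card_pos.1 (by omega)
    rw [Finset.mem_sdiff] at ha hb
    have hab : a ≠ b := fun hh => ha.2 (hh ▸ hb.1)
    have hbf : b ∉ e.erase a := fun hh => hb.2 (Finset.mem_of_mem_erase hh)
    have hfc : (e.erase a).card = k := by
      rw [Finset.card_erase_of_mem ha.1, hc]; rfl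
    have h1 := hsw a (he ha.1) b (he' hb.1) hab (e.erase a) ((Finset.erase_subset _ _).trans he)
      (Finset.notMem_erase a e) hbf hfc
    rw [Finset.insert_erase ha.1] at h1
    have hsd : insert b (e.erase a) \ e' = (e \ e').erase a := by
      ext v
      simp only [Finset.mem_sdiff, Finset.mem_insert, Finset.mem_erase]
      constructor
      · rintro ⟨rfl | ⟨h2, h3⟩, h4⟩
        · exact absurd hb.1 h4
        · exact ⟨h2, h3, h4⟩
      · rintro ⟨h2, h3, h4⟩
        exact ⟨Or.inr ⟨h2, h3⟩, h4⟩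
    have h2 := ihm (insert b (e.erase a)) e'
      (Finset.insert_subset (he' hb.1) ((Finset.erase_subset _ _).trans he)) he'
      (by rw [Finset.card_insert_of_notMem hbf, hfc]) hc'
      (by rw [hsd, Finset.card_erase_of_mem (Finset.mem_sdiff.2 ha), hm]; rfl)
    have h3 : y e - y e' = (y e - y (insert b (e.erase a))) + (y (insert b (e.erase a)) - y e') := by
      ring
    rw [h3]
    refine (abs_add_le _ _).trans ?_
    push_cast
    linarith

/-- Local bound, induction on `k`. `k + 1`: for `a ≠ b` in `J` apply the induction hypothesis to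
`y' f = y (insert a f) - y (insert b f)` on `J \ {a, b}` with `r - 1`: for `K₀ ⊆ J \ {a, b}` with
`r - 1` elements `ys k y' K₀ = ys (k+1) y (insert a K₀) - ys (k+1) y (insert b K₀)`, so
`|y (insert a f) - y (insert b f)| ≤ Ck k * (2 * B)`. Exchanging one element at a time:
`|y e - y e'| ≤ (k + 1) * Ck k * 2 * B` for all `(k+1)`-subsets `e, e'` of `J` (induction on
`(e \ e').card`). Let `e ⊆ K ⊆ J` with `r` elements: `choose r (k+1) * y e = ys (k+1) y K +
∑ (y e - y e')`. -/
theorem local_bound (k : ℕ) : ∀ r, k ≤ r → ∀ (J : Finset V) (y : Finset V → ℝ) (B : ℝ),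
    r + k ≤ J.card → (∀ K ⊆ J, K.card = r → |ys k y K| ≤ B) →
    ∀ e ⊆ J, e.card = k → |y e| ≤ Ck k * B := by
  induction k with
  | zero =>
    intro r _ J y B hJ h e _ hc
    rw [Finset.card_eq_zero.1 hc]
    obtain ⟨K, hK, hKc⟩ := Finset.exists_subset_card_eq (s := J) (n := r) (by omega)
    have h1 := h K hK hKc
    rw [ys, Finset.powersetCard_zero, Finset.sum_singleton] at h1
    rw [Ck, one_mul]
    exact h1
  | succ k ih =>
    intro r hr J y B hJ h e he hc
    obtain ⟨r, rfl⟩ : ∃ r', r = r' + 1 := ⟨r - 1, by omega⟩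
    have hsw : ∀ a ∈ J, ∀ b ∈ J, a ≠ b → ∀ f ⊆ J, a ∉ f → b ∉ f → f.card = k →
        |y (insert a f) - y (insert b f)| ≤ Ck k * (2 * B) :=
      fun a ha b hb hab f hf haf hbf hfc =>
        FC1_swap k r (ih r (by omega)) J y B hJ h ha hb hab hf haf hbf hfc
    have hpath := FC1_path k J y (Ck k * (2 * B)) hsw
    obtain ⟨K, heK, hKJ, hKc⟩ := Finset.exists_subsuperset_card_eq (n := r + 1) he
      (by omega) (by omega)
    have hB := h K hKJ hKc
    have hB0 : 0 ≤ B := (abs_nonneg _).trans hB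
    have hCk := FC1_Ck_pos k
    have hN : (K.powersetCard (k + 1)).card = (r + 1).choose (k + 1) := by
      rw [Finset.card_powersetCard, hKc]
    have hNpos : 1 ≤ (r + 1).choose (k + 1) := Nat.choose_pos (by omega)
    have hNpos' : (1 : ℝ) ≤ ((r + 1).choose (k + 1) : ℝ) := by exact_mod_cast hNpos
    have heq : ((r + 1).choose (k + 1) : ℝ) * y e =
        ys (k + 1) y K + ∑ e' ∈ K.powersetCard (k + 1), (y e - y e') := by
      rw [Finset.sum_sub_distrib, Finset.sum_const, hN, ys, nsmul_eq_mul]; ring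
    have hsum : |∑ e' ∈ K.powersetCard (k + 1), (y e - y e')| ≤
        ((r + 1).choose (k + 1) : ℝ) * (((k : ℝ) + 1) * (Ck k * (2 * B))) := by
      refine (Finset.abs_sum_le_sum_abs _ _).trans ?_
      have h4 : ∀ e' ∈ K.powersetCard (k + 1), |y e - y e'| ≤ ((k : ℝ) + 1) * (Ck k * (2 * B)) := by
        intro e' he'
        rw [Finset.mem_powersetCard] at he'
        refine (hpath _ e e' he (he'.1.trans hKJ) hc he'.2 rfl).trans ?_
        refine mul_le_mul_of_nonneg_right ?_ (by positivity)
        have h5 : (e \ e').card ≤ k + 1 := hc ▸ Finset.card_le_card Finset.sdiff_subset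
        exact_mod_cast h5
      refine (Finset.sum_le_sum h4).trans ?_
      rw [Finset.sum_const, hN, nsmul_eq_mul]
    have h6 : |((r + 1).choose (k + 1) : ℝ) * y e| ≤
        B + ((r + 1).choose (k + 1) : ℝ) * (((k : ℝ) + 1) * (Ck k * (2 * B))) := by
      rw [heq]
      exact (abs_add_le _ _).trans (add_le_add hB hsum)
    rw [abs_mul, abs_of_pos (by linarith : (0 : ℝ) < ((r + 1).choose (k + 1) : ℝ))] at h6
    have h7 : B ≤ ((r + 1).choose (k + 1) : ℝ) * B := by nlinarith
    have h8 : ((r + 1).choose (k + 1) : ℝ) * |y e| ≤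
        ((r + 1).choose (k + 1) : ℝ) * (B + ((k : ℝ) + 1) * (Ck k * (2 * B))) := by
      rw [mul_add]; linarith
    have h9 := le_of_mul_le_mul_left h8 (by linarith)
    rw [Ck]
    refine h9.trans (le_of_eq ?_)
    ring

theorem local_bound' {k r : ℕ} (hk : k ≤ r) {J : Finset V} {y : Finset V → ℝ}
    (hJ : r + k ≤ J.card) (h : ∀ K ⊆ J, K.card = r → 0 ≤ ys k y K) {e : Finset V} (he : e ⊆ J)
    (hc : e.card = k) : |y e| ≤ Ck k * ∑ K ∈ J.powersetCard r, ys k y K := by
  refine local_bound k r hk J y _ hJ ?_ e he hc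
  intro K hK hKc
  rw [abs_of_nonneg (h K hK hKc)]
  refine Finset.single_le_sum (f := fun K => ys k y K) (fun K' hK' => ?_)
    (Finset.mem_powersetCard.2 ⟨hK, hKc⟩)
  rw [Finset.mem_powersetCard] at hK'
  exact h K' hK'.1 hK'.2

/-- the number of `r`-sets between `e` and `J` -/
theorem FC1_count {k r : ℕ} (hk : k ≤ r) {J e : Finset V} (he : e ⊆ J) (hc : e.card = k) :
    ((J.powersetCard r).filter (fun K => e ⊆ K)).card = (J.card - k).choose (r - k) := by
  have h1 : (J \ e).card = J.card - k := by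
    rw [Finset.card_sdiff_of_subset he, hc]
  rw [← h1, ← Finset.card_powersetCard]
  refine Finset.card_nbij' (fun K => K \ e) (fun K => K ∪ e) ?_ ?_ ?_ ?_
  · intro K hK
    rw [Finset.mem_coe, Finset.mem_filter, Finset.mem_powersetCard] at hK
    rw [Finset.mem_coe, Finset.mem_powersetCard]
    refine ⟨Finset.sdiff_subset_sdiff hK.1.1 (Finset.Subset.refl _), ?_⟩
    rw [Finset.card_sdiff_of_subset hK.2, hK.1.2, hc]
  · intro K hK
    rw [Finset.mem_coe, Finset.mem_powersetCard] at hK
    rw [Finset.mem_coe, Finset.mem_filter, Finset.mem_powersetCard]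
    refine ⟨⟨Finset.union_subset (hK.1.trans Finset.sdiff_subset) he, ?_⟩,
      Finset.subset_union_right⟩
    rw [Finset.card_union_of_disjoint, hK.2, hc]
    · omega
    · exact Finset.disjoint_of_subset_left hK.1 Finset.sdiff_disjoint
  · intro K hK
    rw [Finset.mem_coe, Finset.mem_filter, Finset.mem_powersetCard] at hK
    exact Finset.sdiff_union_of_subset hK.2
  · intro K hK
    rw [Finset.mem_coe, Finset.mem_powersetCard] at hK
    have hd : Disjoint K e := Finset.disjoint_of_subset_left hK.1 Finset.sdiff_disjoint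
    change (K ∪ e) \ e = K
    rw [Finset.union_sdiff_right, Finset.sdiff_eq_self_of_disjoint hd]

/-- Double counting: every `k`-subset of `J` lies in `choose (J.card - k) (r - k)` `r`-subsets. -/
theorem ys_avg {k r : ℕ} (hk : k ≤ r) (J : Finset V) (y : Finset V → ℝ) :
    ∑ K ∈ J.powersetCard r, ys k y K = ((J.card - k).choose (r - k) : ℝ) * ys k y J := by
  have h1 : ∑ K ∈ J.powersetCard r, ys k y K =
      ∑ e ∈ J.powersetCard k, ∑ K ∈ (J.powersetCard r).filter (fun K => e ⊆ K), y e := by
    simp only [ys]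
    refine Finset.sum_comm' ?_
    intro K e
    simp only [Finset.mem_powersetCard, Finset.mem_filter]
    constructor
    · rintro ⟨⟨h1, h2⟩, h3, h4⟩
      exact ⟨⟨⟨h1, h2⟩, h3⟩, h3.trans h1, h4⟩
    · rintro ⟨⟨⟨h1, h2⟩, h3⟩, _, h5⟩
      exact ⟨⟨h1, h2⟩, h3, h5⟩
  rw [h1, ys, Finset.mul_sum]
  refine Finset.sum_congr rfl (fun e he => ?_)
  rw [Finset.mem_powersetCard] at he
  rw [Finset.sum_const, FC1_count hk he.1 he.2, nsmul_eq_mul]

end Pool.Agent.Lib.MP_5c685b_co
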