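import Pool.Agent.Lib.MP_5c685b_co.FA4
import Pool.Agent.Lib.MP_5c685b_co.FA5
import Pool.Agent.Lib.MP_5c685b_co.FB1
import Pool.Agent.Lib.MP_5c685b_co.FB2

/-!
Row FD1: tails (paper section 2, (*)).
-/

namespace Pool.Agent.Lib.MP_5c685b_co

open Finset Classical

variable {V : Type} [Fintype V]

/-- the weights are nonnegative (`Z_nonneg`, `Good.cond`) -/
theorem wt_nonneg {A : Finset ℕ} {F : Finset (ℕ × V) → Prop} (hF : Good A F) {z : ℝ} (hz : 0 ≤ z)
    (hz' : 4 * z * Fintype.card V ≤ 1) {σ : Finset (ℕ × V)} (hσ : σ ∈ conf A) :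
    0 ≤ wt F z A σ := by
  obtain ⟨h1, h2⟩ := mem_conf.mp hσ
  unfold wt
  exact mul_nonneg (pow_nonneg hz _) (Z_nonneg hz hz' Finset.sdiff_subset (hF.cond h1 h2))

/-- Tail bound: `moment` with `t = 1/2`, `(1/2)^(σ.card - k) ≥ 2^k / 2^m ≥ 1 / 2^m` for
`σ.card < m`, and `Z_decay` for `cond F0 ρ` (activity `z / 2 = 1 / (8 n)`,
`1 - (z / 2) * n / 4 = 31 / 32`), `allowed_F0`. -/
theorem tail {A : Finset ℕ} {G : Finset (Finset V)} {k D : ℕ} (hk : 2 ≤ k)
    (hD : ∀ S : Finset V, S.card = k - 1 →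
      (univ.filter fun x : V => x ∉ S ∧ insert x S ∉ G).card ≤ D)
    (hn : (A.card : ℝ) + (A.card.choose (k - 1) : ℝ) * D ≤ (Fintype.card V : ℝ) / 2)
    (hn' : ((k + k * D : ℕ) : ℝ) ≤ (Fintype.card V : ℝ) / 2) (hV : 0 < Fintype.card V)
    {z : ℝ} (hz : z = 1 / (4 * Fintype.card V)) {ρ : Finset (ℕ × V)} (hρ : ρ ∈ conf A)
    (hc : ρ.card = k) (hF : Free (F0 G k) ρ) (m : ℕ) :
    ∑ σ ∈ (conf A).filter (fun σ => ρ ⊆ σ ∧ Free (F0 G k) σ ∧ σ.card < m), wt (F0 G k) z A σ ≤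
      2 ^ m * (31 / 32 : ℝ) ^ (A.card - k) * z ^ k := by
  have hn0 : (0 : ℝ) < Fintype.card V := by exact_mod_cast hV
  have hgood : Good A (F0 G k) := good_F0 hk hD hn
  obtain ⟨hinj, hsl⟩ := mem_conf.mp hρ
  have hz0 : 0 ≤ z := by rw [hz]; positivity
  have hz1 : 4 * z * Fintype.card V ≤ 1 := by
    rw [hz]
    apply le_of_eq
    field_simp
  have hmom := moment (F := F0 G k) (z := z) (t := 1 / 2) hinj hsl
  -- the partition function of the conditioned system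
  have hzh0 : 0 ≤ (1 - 1 / 2) * z := by linarith
  have hzh1 : 4 * ((1 - 1 / 2) * z) * Fintype.card V ≤ 1 := by
    have : 4 * ((1 - 1 / 2) * z) * Fintype.card V = (4 * z * Fintype.card V) / 2 := by ring
    rw [this]
    linarith
  have hdec := Z_decay (A := A) (C := A \ slots ρ) hzh0 hzh1 Finset.sdiff_subset
    (hgood.cond hinj hsl) (fun i hi => allowed_F0 hk hD hinj hc hF hn' (Finset.mem_sdiff.mp hi).2)
  have hcard : (A \ slots ρ).card = A.card - k := by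
    rw [Finset.card_sdiff_of_subset hsl, card_slots hinj, hc]
  have h31 : 1 - (1 - 1 / 2) * z * Fintype.card V / 4 = 31 / 32 := by
    rw [hz]
    field_simp
    norm_num
  rw [hcard, h31] at hdec
  have hwt : ∀ σ ∈ conf A, 0 ≤ wt (F0 G k) z A σ := fun σ hσ => wt_nonneg hgood hz0 hz1 hσ
  calc ∑ σ ∈ (conf A).filter (fun σ => ρ ⊆ σ ∧ Free (F0 G k) σ ∧ σ.card < m), wt (F0 G k) z A σ
      ≤ ∑ σ ∈ (conf A).filter (fun σ => ρ ⊆ σ ∧ Free (F0 G k) σ ∧ σ.card < m),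
          2 ^ m * (wt (F0 G k) z A σ * (1 / 2) ^ (σ.card - ρ.card)) := by
        refine Finset.sum_le_sum fun σ hσ => ?_
        obtain ⟨hσA, -, -, hσm⟩ := Finset.mem_filter.mp hσ
        have h1 : (1 : ℝ) ≤ 2 ^ m * (1 / 2) ^ (σ.card - ρ.card) := by
          have h2 : ((1 : ℝ) / 2) ^ m ≤ (1 / 2) ^ (σ.card - ρ.card) :=
            pow_le_pow_of_le_one (by norm_num) (by norm_num) (by omega)
          calc (1 : ℝ) = 2 ^ m * (1 / 2) ^ m := by
                rw [← mul_pow]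
                norm_num
            _ ≤ 2 ^ m * (1 / 2) ^ (σ.card - ρ.card) :=
                mul_le_mul_of_nonneg_left h2 (by positivity)
        calc wt (F0 G k) z A σ = wt (F0 G k) z A σ * 1 := (mul_one _).symm
          _ ≤ wt (F0 G k) z A σ * (2 ^ m * (1 / 2) ^ (σ.card - ρ.card)) :=
              mul_le_mul_of_nonneg_left h1 (hwt σ hσA)
          _ = 2 ^ m * (wt (F0 G k) z A σ * (1 / 2) ^ (σ.card - ρ.card)) := by ring
    _ = 2 ^ m * ∑ σ ∈ (conf A).filter (fun σ => ρ ⊆ σ ∧ Free (F0 G k) σ ∧ σ.card < m),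
          wt (F0 G k) z A σ * (1 / 2) ^ (σ.card - ρ.card) := by rw [Finset.mul_sum]
    _ ≤ 2 ^ m * ∑ σ ∈ (conf A).filter (fun σ => ρ ⊆ σ ∧ Free (F0 G k) σ),
          wt (F0 G k) z A σ * (1 / 2) ^ (σ.card - ρ.card) := by
        refine mul_le_mul_of_nonneg_left ?_ (by positivity)
        refine Finset.sum_le_sum_of_subset_of_nonneg ?_ ?_
        · intro σ hσ
          obtain ⟨h1, h2, h3, -⟩ := Finset.mem_filter.mp hσ
          exact Finset.mem_filter.mpr ⟨h1, h2, h3⟩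
        · intro σ hσ _
          exact mul_nonneg (hwt σ (Finset.mem_filter.mp hσ).1) (by positivity)
    _ = 2 ^ m * (z ^ k * Z (cond (F0 G k) ρ) ((1 - 1 / 2) * z) (A \ slots ρ)) := by
        rw [hmom, hc]
    _ ≤ 2 ^ m * (z ^ k * (31 / 32 : ℝ) ^ (A.card - k)) := by
        refine mul_le_mul_of_nonneg_left ?_ (by positivity)
        exact mul_le_mul_of_nonneg_left hdec (pow_nonneg hz0 _)
    _ = 2 ^ m * (31 / 32 : ℝ) ^ (A.card - k) * z ^ k := by ring

end Pool.Agent.Lib.MP_5c685b_co
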