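import Pool.Agent.Lib.MP_5c685b_co.FD1
import Pool.Agent.Lib.MP_5c685b_co.FC1

/-!
Row FD2: the main inequality (paper section 4), abstract form.
-/

namespace Pool.Agent.Lib.MP_5c685b_co

open Finset Classical

variable {V : Type} [Fintype V]

private theorem FD2_count {S : Type} (σ ρ : Finset S) (k r : ℕ) (hρ : ρ ⊆ σ) (hc : ρ.card = k)
    (hkr : k ≤ r) :
    ((σ.powersetCard r).filter (fun κ => ρ ⊆ κ)).card = (σ.card - k).choose (r - k) := by
  have h1 : ((σ \ ρ).powersetCard (r - k)).card = (σ.card - k).choose (r - k) := by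
    rw [Finset.card_powersetCard, Finset.card_sdiff_of_subset hρ, hc]
  rw [← h1]
  refine Finset.card_bij (fun κ _ => κ \ ρ) ?_ ?_ ?_
  · intro κ hκ
    rw [Finset.mem_filter, Finset.mem_powersetCard] at hκ
    rw [Finset.mem_powersetCard]
    refine ⟨Finset.sdiff_subset_sdiff hκ.1.1 (le_refl _), ?_⟩
    rw [Finset.card_sdiff_of_subset hκ.2, hκ.1.2, hc]
  · intro κ hκ κ' hκ' h
    rw [Finset.mem_filter] at hκ hκ'
    rw [← Finset.sdiff_union_of_subset hκ.2, ← Finset.sdiff_union_of_subset hκ'.2, h]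
  · intro τ hτ
    rw [Finset.mem_powersetCard] at hτ
    have hd : Disjoint τ ρ := by
      rw [Finset.disjoint_left]
      intro x hx hx'
      exact (Finset.mem_sdiff.1 (hτ.1 hx)).2 hx'
    refine ⟨τ ∪ ρ, ?_, ?_⟩
    · rw [Finset.mem_filter, Finset.mem_powersetCard]
      refine ⟨⟨Finset.union_subset (hτ.1.trans Finset.sdiff_subset) hρ, ?_⟩,
        Finset.subset_union_right⟩
      rw [Finset.card_union_of_disjoint hd, hτ.2, hc]
      omega
    · exact Finset.union_sdiff_cancel_right hd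

private theorem FD2_avg {S : Type} (σ : Finset S) (a : Finset S → ℝ) (k r : ℕ) (hkr : k ≤ r) :
    ∑ κ ∈ σ.powersetCard r, ∑ ρ ∈ κ.powersetCard k, a ρ
      = ((σ.card - k).choose (r - k) : ℝ) * ∑ ρ ∈ σ.powersetCard k, a ρ := by
  have h1 : ∀ κ ∈ σ.powersetCard r, ∑ ρ ∈ κ.powersetCard k, a ρ
      = ∑ ρ ∈ σ.powersetCard k, if ρ ⊆ κ then a ρ else 0 := by
    intro κ hκ
    rw [← Finset.sum_filter]
    refine Finset.sum_congr ?_ (fun _ _ => rfl)
    ext ρ
    rw [Finset.mem_powersetCard, Finset.mem_filter, Finset.mem_powersetCard]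
    rw [Finset.mem_powersetCard] at hκ
    exact ⟨fun h => ⟨⟨h.1.trans hκ.1, h.2⟩, h.1⟩, fun h => ⟨h.2, h.1.2⟩⟩
  rw [Finset.sum_congr rfl h1, Finset.sum_comm, Finset.mul_sum]
  refine Finset.sum_congr rfl (fun ρ hρ => ?_)
  rw [Finset.mem_powersetCard] at hρ
  rw [← Finset.sum_filter, Finset.sum_const, FD2_count σ ρ k r hρ.1 hρ.2 hkr, nsmul_eq_mul]

/-- exchange of sums with a predicate -/
private theorem FD2_exch {S : Type} (P : Finset (Finset S)) (w : Finset S → ℝ) (f : Finset S → ℝ)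
    (hP : ∀ σ ∈ P, ∀ τ ⊆ σ, τ ∈ P) (m : ℕ) (Q : Finset S → Prop) [DecidablePred Q] :
    ∑ σ ∈ P.filter Q, w σ * ∑ ρ ∈ σ.powersetCard m, f ρ
      = ∑ ρ ∈ P.filter (fun ρ => ρ.card = m), f ρ * ∑ σ ∈ P.filter (fun σ => ρ ⊆ σ ∧ Q σ), w σ := by
  have h1 : ∀ σ ∈ P.filter Q, w σ * ∑ ρ ∈ σ.powersetCard m, f ρ
      = ∑ ρ ∈ P.filter (fun ρ => ρ.card = m), if ρ ⊆ σ then f ρ * w σ else 0 := by
    intro σ hσ
    rw [Finset.mem_filter] at hσ
    rw [← Finset.sum_filter, Finset.mul_sum]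
    refine Finset.sum_congr ?_ (fun _ _ => mul_comm _ _)
    ext ρ
    simp only [Finset.mem_powersetCard, Finset.mem_filter]
    exact ⟨fun h => ⟨⟨hP σ hσ.1 ρ h.1, h.2⟩, h.1⟩, fun h => ⟨h.2, h.1.2⟩⟩
  rw [Finset.sum_congr rfl h1, Finset.sum_comm]
  refine Finset.sum_congr rfl (fun ρ _ => ?_)
  rw [← Finset.sum_filter, Finset.filter_filter, Finset.mul_sum]
  refine Finset.sum_congr ?_ (fun _ _ => rfl)
  ext σ
  simp only [Finset.mem_filter]
  tauto

/-- Abstract main inequality. `P` = the free configurations (closed under subsets, at most `M` sites),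
`w` = the weights. `hmar`: the marginals of the sets with `k` and with `r` sites. `htail`: tails. All sums
over `P`. With `a ρ = y (vals ρ)` for `ρ.card = k`, `Y σ = ∑ ρ ∈ σ.powersetCard k, a ρ`:
`z^k * ∑_{ρ, card k} a ρ = ∑ σ, w σ * Y σ` (exchange of sums). Let
`Arr = z^r * ∑_{κ, card r} Y κ ≥ 0`; it is `∑ σ, w σ * ∑ κ ∈ σ.powersetCard r, Y κ`.
(1) `r ≤ σ.card`: `∑ κ ∈ σ.powersetCard r, Y κ = choose (σ.card - k) (r - k) * Y σ`
`≤ choose (M - k) (r - k) * Y σ` (`ys_avg`-like statement `hav`).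
(2) `σ.card < r`: `|Y σ| ≤ ∑ |a ρ|`, total at most `η * z^k * ∑ |a ρ|` by `htail`.
(3) for `r + k ≤ σ.card`, `ρ ⊆ σ`: `|a ρ| ≤ c * ∑ κ ∈ σ.powersetCard r, Y κ` (`hloc`), so
`(1 - η₂) * z^k * ∑ |a ρ| ≤ c * choose M k * Arr`.
Hence `z^k * ∑ a ρ ≥ Arr * (1 / choose (M-k) (r-k) - 2 * η * c * choose M k) ≥ 0`. -/
theorem abstract_ineq {S : Type} (P : Finset (Finset S)) (w : Finset S → ℝ) (a : Finset S → ℝ)
    {k r M : ℕ} {z c η : ℝ} (hkr : k < r) (hz : 0 < z) (hc : 0 ≤ c) (hη : 0 ≤ η)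
    (hP : ∀ σ ∈ P, ∀ τ ⊆ σ, τ ∈ P) (hM : ∀ σ ∈ P, σ.card ≤ M) (hw : ∀ σ ∈ P, 0 ≤ w σ)
    (hmar : ∀ ρ ∈ P, ρ.card = k ∨ ρ.card = r → ∑ σ ∈ P.filter (fun σ => ρ ⊆ σ), w σ = z ^ ρ.card)
    (htail : ∀ ρ ∈ P, ρ.card = k → ∑ σ ∈ P.filter (fun σ => ρ ⊆ σ ∧ σ.card < r), w σ ≤ η * z ^ k)
    (htail' : ∀ ρ ∈ P, ρ.card = k →
      ∑ σ ∈ P.filter (fun σ => ρ ⊆ σ ∧ σ.card < r + k), w σ ≤ 1 / 2 * z ^ k)
    (hr : ∀ κ ∈ P, κ.card = r → 0 ≤ ∑ ρ ∈ κ.powersetCard k, a ρ)
    (hloc : ∀ σ ∈ P, r + k ≤ σ.card → ∀ ρ ⊆ σ, ρ.card = k →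
      |a ρ| ≤ c * ∑ κ ∈ σ.powersetCard r, ∑ ρ' ∈ κ.powersetCard k, a ρ')
    (hsmall : 2 * c * (M.choose k) * ((M - k).choose (r - k)) * η ≤ 1) :
    0 ≤ ∑ ρ ∈ P.filter (fun ρ => ρ.card = k), a ρ := by
  have hzk : 0 < z ^ k := pow_pos hz k
  by_cases hMr : M < r
  · -- no configuration is large: there is no configuration with `k` sites
    have hemp : P.filter (fun ρ => ρ.card = k) = ∅ := by
      rw [Finset.filter_eq_empty_iff]
      intro ρ hρ hck
      have h1 := hmar ρ hρ (Or.inl hck)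
      have h2 := htail' ρ hρ hck
      have h3 : P.filter (fun σ => ρ ⊆ σ ∧ σ.card < r + k) = P.filter (fun σ => ρ ⊆ σ) := by
        refine Finset.filter_congr (fun σ hσ => ?_)
        have := hM σ hσ
        constructor
        · exact fun h => h.1
        · exact fun h => ⟨h, by omega⟩
      rw [h3, h1, hck] at h2
      linarith
    rw [hemp, Finset.sum_empty]
  push Not at hMr
  set N : ℝ := ((M - k).choose (r - k) : ℝ) with hN
  have hNpos : 0 < N := by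
    rw [hN]
    exact_mod_cast Nat.choose_pos (by omega)
  set Y : Finset S → ℝ := fun σ => ∑ ρ ∈ σ.powersetCard k, a ρ with hY
  set T : Finset S → ℝ := fun σ => ∑ κ ∈ σ.powersetCard r, Y κ with hT
  have hTnn : ∀ σ ∈ P, 0 ≤ T σ := by
    intro σ hσ
    refine Finset.sum_nonneg (fun κ hκ => ?_)
    rw [Finset.mem_powersetCard] at hκ
    exact hr κ (hP σ hσ κ hκ.1) hκ.2
  set Arr : ℝ := ∑ σ ∈ P, w σ * T σ with hArr
  have hArrnn : 0 ≤ Arr := Finset.sum_nonneg (fun σ hσ => mul_nonneg (hw σ hσ) (hTnn σ hσ))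
  set AA : ℝ := ∑ ρ ∈ P.filter (fun ρ => ρ.card = k), |a ρ| with hAA
  have hAAnn : 0 ≤ AA := Finset.sum_nonneg (fun _ _ => abs_nonneg _)
  -- fact 1
  have hF1 : ∑ σ ∈ P, w σ * Y σ = z ^ k * ∑ ρ ∈ P.filter (fun ρ => ρ.card = k), a ρ := by
    have h := FD2_exch P w a hP k (fun _ => True)
    have h0 : P.filter (fun _ => True) = P := Finset.filter_true_of_mem (fun _ _ => trivial)
    rw [h0] at h
    rw [hY]
    rw [h, Finset.mul_sum]
    refine Finset.sum_congr rfl (fun ρ hρ => ?_)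
    rw [Finset.mem_filter] at hρ
    have h2 := hmar ρ hρ.1 (Or.inl hρ.2)
    have h3 : P.filter (fun σ => ρ ⊆ σ ∧ True) = P.filter (fun σ => ρ ⊆ σ) := by
      simp
    rw [h3, h2, hρ.2]
    ring
  -- fact 2: small configurations
  have hF2 : |∑ σ ∈ P.filter (fun σ => σ.card < r), w σ * Y σ| ≤ η * z ^ k * AA := by
    calc |∑ σ ∈ P.filter (fun σ => σ.card < r), w σ * Y σ|
        ≤ ∑ σ ∈ P.filter (fun σ => σ.card < r), |w σ * Y σ| := Finset.abs_sum_le_sum_abs _ _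
      _ ≤ ∑ σ ∈ P.filter (fun σ => σ.card < r), w σ * ∑ ρ ∈ σ.powersetCard k, |a ρ| := by
          refine Finset.sum_le_sum (fun σ hσ => ?_)
          rw [Finset.mem_filter] at hσ
          rw [abs_mul, abs_of_nonneg (hw σ hσ.1)]
          exact mul_le_mul_of_nonneg_left (Finset.abs_sum_le_sum_abs _ _) (hw σ hσ.1)
      _ = ∑ ρ ∈ P.filter (fun ρ => ρ.card = k), |a ρ| *
            ∑ σ ∈ P.filter (fun σ => ρ ⊆ σ ∧ σ.card < r), w σ :=
          FD2_exch P w (fun ρ => |a ρ|) hP k (fun σ => σ.card < r)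
      _ ≤ ∑ ρ ∈ P.filter (fun ρ => ρ.card = k), |a ρ| * (η * z ^ k) := by
          refine Finset.sum_le_sum (fun ρ hρ => ?_)
          rw [Finset.mem_filter] at hρ
          exact mul_le_mul_of_nonneg_left (htail ρ hρ.1 hρ.2) (abs_nonneg _)
      _ = η * z ^ k * AA := by rw [← Finset.sum_mul, hAA]; ring
  -- fact 3
  have hF3 : z ^ k * AA ≤ 2 * c * (M.choose k : ℝ) * Arr := by
    have h1 : ∑ σ ∈ P.filter (fun σ => r + k ≤ σ.card), w σ * ∑ ρ ∈ σ.powersetCard k, |a ρ|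
        ≤ c * (M.choose k : ℝ) * Arr := by
      calc ∑ σ ∈ P.filter (fun σ => r + k ≤ σ.card), w σ * ∑ ρ ∈ σ.powersetCard k, |a ρ|
          ≤ ∑ σ ∈ P.filter (fun σ => r + k ≤ σ.card), c * (M.choose k : ℝ) * (w σ * T σ) := by
            refine Finset.sum_le_sum (fun σ hσ => ?_)
            rw [Finset.mem_filter] at hσ
            have h2 : ∑ ρ ∈ σ.powersetCard k, |a ρ| ≤ ∑ ρ ∈ σ.powersetCard k, c * T σ := by
              refine Finset.sum_le_sum (fun ρ hρ => ?_)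
              rw [Finset.mem_powersetCard] at hρ
              exact hloc σ hσ.1 hσ.2 ρ hρ.1 hρ.2
            rw [Finset.sum_const, Finset.card_powersetCard, nsmul_eq_mul] at h2
            have h3 : ((σ.card.choose k : ℕ) : ℝ) ≤ (M.choose k : ℝ) := by
              exact_mod_cast Nat.choose_le_choose k (hM σ hσ.1)
            have h4 : ((σ.card.choose k : ℕ) : ℝ) * (c * T σ) ≤ (M.choose k : ℝ) * (c * T σ) :=
              mul_le_mul_of_nonneg_right h3 (mul_nonneg hc (hTnn σ hσ.1))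
            calc w σ * ∑ ρ ∈ σ.powersetCard k, |a ρ|
                ≤ w σ * ((M.choose k : ℝ) * (c * T σ)) :=
                  mul_le_mul_of_nonneg_left (h2.trans h4) (hw σ hσ.1)
              _ = c * (M.choose k : ℝ) * (w σ * T σ) := by ring
        _ ≤ ∑ σ ∈ P, c * (M.choose k : ℝ) * (w σ * T σ) := by
            refine Finset.sum_le_sum_of_subset_of_nonneg (Finset.filter_subset _ _) ?_
            intro σ hσ _
            exact mul_nonneg (mul_nonneg hc (Nat.cast_nonneg _))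
              (mul_nonneg (hw σ hσ) (hTnn σ hσ))
        _ = c * (M.choose k : ℝ) * Arr := by rw [← Finset.mul_sum]
    have h2 : ∑ σ ∈ P.filter (fun σ => r + k ≤ σ.card), w σ * ∑ ρ ∈ σ.powersetCard k, |a ρ|
        = ∑ ρ ∈ P.filter (fun ρ => ρ.card = k), |a ρ| *
            ∑ σ ∈ P.filter (fun σ => ρ ⊆ σ ∧ r + k ≤ σ.card), w σ :=
      FD2_exch P w (fun ρ => |a ρ|) hP k (fun σ => r + k ≤ σ.card)
    have h3 : ∑ ρ ∈ P.filter (fun ρ => ρ.card = k), |a ρ| * (1 / 2 * z ^ k)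
        ≤ ∑ ρ ∈ P.filter (fun ρ => ρ.card = k), |a ρ| *
            ∑ σ ∈ P.filter (fun σ => ρ ⊆ σ ∧ r + k ≤ σ.card), w σ := by
      refine Finset.sum_le_sum (fun ρ hρ => ?_)
      rw [Finset.mem_filter] at hρ
      refine mul_le_mul_of_nonneg_left ?_ (abs_nonneg _)
      have h4 := hmar ρ hρ.1 (Or.inl hρ.2)
      have h5 := htail' ρ hρ.1 hρ.2
      rw [hρ.2] at h4
      have h6 : ∑ σ ∈ P.filter (fun σ => ρ ⊆ σ), w σ
          = ∑ σ ∈ P.filter (fun σ => ρ ⊆ σ ∧ σ.card < r + k), w σ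
            + ∑ σ ∈ P.filter (fun σ => ρ ⊆ σ ∧ r + k ≤ σ.card), w σ := by
        rw [← Finset.sum_filter_add_sum_filter_not (P.filter (fun σ => ρ ⊆ σ))
          (fun σ => σ.card < r + k), Finset.filter_filter, Finset.filter_filter]
        simp only [not_lt]
      linarith
    have h4 : ∑ ρ ∈ P.filter (fun ρ => ρ.card = k), |a ρ| * (1 / 2 * z ^ k)
        = 1 / 2 * z ^ k * AA := by rw [← Finset.sum_mul, hAA]; ring
    rw [h4, ← h2] at h3
    linarith [h3.trans h1]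
  -- large configurations
  have hF4 : Arr ≤ N * ∑ σ ∈ P.filter (fun σ => ¬ σ.card < r), w σ * Y σ := by
    have h1 : Arr = ∑ σ ∈ P.filter (fun σ => ¬ σ.card < r), w σ * T σ := by
      rw [hArr]
      symm
      refine Finset.sum_filter_of_ne (fun σ _ hne => ?_)
      intro hlt
      apply hne
      have : σ.powersetCard r = ∅ := Finset.powersetCard_eq_empty.2 hlt
      simp only [hT, this, Finset.sum_empty, mul_zero]
    rw [h1, Finset.mul_sum]
    refine Finset.sum_le_sum (fun σ hσ => ?_)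
    rw [Finset.mem_filter] at hσ
    have hcr : r ≤ σ.card := not_lt.1 hσ.2
    have h2 : T σ = ((σ.card - k).choose (r - k) : ℝ) * Y σ := FD2_avg σ a k r hkr.le
    have h3 : (0 : ℝ) < ((σ.card - k).choose (r - k) : ℝ) := by
      exact_mod_cast Nat.choose_pos (by omega)
    have h4 : 0 ≤ Y σ := by
      by_contra hneg
      push Not at hneg
      have := mul_neg_of_pos_of_neg h3 hneg
      have h5 := hTnn σ hσ.1
      rw [h2] at h5
      linarith
    have h5 : ((σ.card - k).choose (r - k) : ℝ) ≤ N := by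
      rw [hN]
      exact_mod_cast Nat.choose_le_choose (r - k) (Nat.sub_le_sub_right (hM σ hσ.1) k)
    calc w σ * T σ ≤ w σ * (N * Y σ) := by
          rw [h2]
          exact mul_le_mul_of_nonneg_left (mul_le_mul_of_nonneg_right h5 h4) (hw σ hσ.1)
      _ = N * (w σ * Y σ) := by ring
  have hsplit : ∑ σ ∈ P, w σ * Y σ = ∑ σ ∈ P.filter (fun σ => σ.card < r), w σ * Y σ
      + ∑ σ ∈ P.filter (fun σ => ¬ σ.card < r), w σ * Y σ :=
    (Finset.sum_filter_add_sum_filter_not P _ _).symm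
  -- conclusion
  have hb := (abs_le.1 hF2).1
  have hkey : 0 ≤ N * (z ^ k * ∑ ρ ∈ P.filter (fun ρ => ρ.card = k), a ρ) := by
    rw [← hF1, hsplit, mul_add]
    have h1 : N * (η * z ^ k * AA) ≤ Arr := by
      calc N * (η * z ^ k * AA) = (N * η) * (z ^ k * AA) := by ring
        _ ≤ (N * η) * (2 * c * (M.choose k : ℝ) * Arr) :=
          mul_le_mul_of_nonneg_left hF3 (mul_nonneg hNpos.le hη)
        _ = (2 * c * (M.choose k : ℝ) * N * η) * Arr := by ring
        _ ≤ 1 * Arr := mul_le_mul_of_nonneg_right hsmall hArrnn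
        _ = Arr := one_mul _
    have h2 : N * (-(η * z ^ k * AA)) ≤ N * ∑ σ ∈ P.filter (fun σ => σ.card < r), w σ * Y σ :=
      mul_le_mul_of_nonneg_left hb hNpos.le
    linarith
  have h6 : 0 ≤ z ^ k * ∑ ρ ∈ P.filter (fun ρ => ρ.card = k), a ρ := by
    by_contra hneg
    push Not at hneg
    linarith [mul_neg_of_pos_of_neg hNpos hneg]
  by_contra hneg
  push Not at hneg
  linarith [mul_neg_of_pos_of_neg hzk hneg]

end Pool.Agent.Lib.MP_5c685b_co
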