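import Mathlib

/-!
# MP_5c685b_co: fractional decomposition threshold of hypergraph cliques. Definitions.

A *site* is a pair `(i, x)` of a slot `i : ℕ` and a vertex `x : V`. A *configuration* is a finite set
of sites with distinct slots (`Inj`). A *system* is a set of forbidden patterns.
-/

namespace Pool.Agent.Lib.MP_5c685b_co

open Finset Classical

variable {V : Type} [Fintype V]

/-- distinct slots -/
def Inj (U : Finset (ℕ × V)) : Prop := ∀ p ∈ U, ∀ q ∈ U, p.1 = q.1 → p = q

/-- the slots of a set of sites -/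
noncomputable def slots (U : Finset (ℕ × V)) : Finset ℕ := U.image Prod.fst

/-- the vertices of a set of sites -/
noncomputable def vals (U : Finset (ℕ × V)) : Finset V := U.image Prod.snd

/-- the configurations with slots in `B` -/
noncomputable def conf (B : Finset ℕ) : Finset (Finset (ℕ × V)) :=
  (B ×ˢ (univ : Finset V)).powerset.filter Inj

/-- no forbidden pattern inside `U` -/
def Free (F : Finset (ℕ × V) → Prop) (U : Finset (ℕ × V)) : Prop := ∀ τ ⊆ U, ¬ F τ

/-- the partition function with negative activity `-z` -/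
noncomputable def Z (F : Finset (ℕ × V) → Prop) (z : ℝ) (B : Finset ℕ) : ℝ :=
  ∑ U ∈ (conf B).filter (Free F), (-z) ^ U.card

/-- the system conditioned on `ρ` -/
def cond (F : Finset (ℕ × V) → Prop) (ρ : Finset (ℕ × V)) : Finset (ℕ × V) → Prop :=
  fun τ => (∀ p ∈ τ, p.1 ∉ slots ρ) ∧ ∃ ρ' ⊆ ρ, F (ρ' ∪ τ)

/-- the patterns created by the site `s` on top of `ρ` -/
noncomputable def newpat (A : Finset ℕ) (F : Finset (ℕ × V) → Prop) (ρ : Finset (ℕ × V))
    (s : ℕ × V) : Finset (Finset (ℕ × V)) :=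
  (conf A).filter fun τ => τ.Nonempty ∧ (∀ p ∈ τ, p.1 ∉ slots ρ ∧ p.1 ≠ s.1) ∧
    ∃ ρ' ⊆ ρ, F (ρ' ∪ insert s τ)

/-- the smallness condition for a system -/
def Good (A : Finset ℕ) (F : Finset (ℕ × V) → Prop) : Prop :=
  ∀ ρ : Finset (ℕ × V), Inj ρ → slots ρ ⊆ A → ∀ s : ℕ × V, s.1 ∈ A → s.1 ∉ slots ρ →
    ∑ τ ∈ newpat A F ρ s, ((Fintype.card V : ℝ)⁻¹) ^ τ.card ≤ 1 / 2

/-- the weight of the configuration `σ` -/
noncomputable def wt (F : Finset (ℕ × V) → Prop) (z : ℝ) (A : Finset ℕ) (σ : Finset (ℕ × V)) : ℝ :=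
  z ^ σ.card * Z (cond F σ) z (A \ slots σ)

/-- the base system: two sites with the same vertex; `k` sites with `k` distinct vertices which do
not form an edge of `G` -/
def F0 (G : Finset (Finset V)) (k : ℕ) : Finset (ℕ × V) → Prop :=
  fun U => (U.card = 2 ∧ (vals U).card = 1) ∨
    (U.card = k ∧ (vals U).card = k ∧ vals U ∉ G)

/-- constants of the local bound -/
noncomputable def Ck : ℕ → ℝ
  | 0 => 1
  | k + 1 => 1 + 2 * (k + 1) * Ck k

/-- the sum of `y` over the `k`-subsets of `J` -/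
noncomputable def ys (k : ℕ) (y : Finset V → ℝ) (J : Finset V) : ℝ := ∑ e ∈ J.powersetCard k, y e

end Pool.Agent.Lib.MP_5c685b_co
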