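import Pool.Agent.Lib.MP_5c685b_co.FE1

/-!
Row FE2: the theorem.
-/

namespace Pool.Agent.Lib.MP_5c685b_co

open Finset Classical

theorem FE2_Ck_nonneg (k : ℕ) : 0 ≤ Ck k := by
  induction k with
  | zero => exact zero_le_one
  | succ k ih =>
    change 0 ≤ 1 + 2 * ((k : ℝ) + 1) * Ck k
    positivity

theorem FE2_deg {n k : ℕ} (hk : 2 ≤ k) {G : Finset (Finset (Fin n))} (hG : ∀ e ∈ G, e.card = k)
    (S : Finset (Fin n)) (hS : S.card = k - 1) :
    (G.filter (fun e => S ⊆ e)).card + (univ.filter fun x : Fin n => x ∉ S ∧ insert x S ∉ G).card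
      ≤ n := by
  have h1 : (G.filter (fun e => S ⊆ e)) ⊆
      (univ.filter fun x : Fin n => x ∉ S ∧ insert x S ∈ G).image (fun x => insert x S) := by
    intro e he
    rw [mem_filter] at he
    have hlt : S.card < e.card := by rw [hS, hG e he.1]; omega
    obtain ⟨x, hxe, hxS⟩ := exists_mem_notMem_of_card_lt_card hlt
    have hins : insert x S = e := by
      apply eq_of_subset_of_card_le
      · exact insert_subset hxe he.2
      · rw [card_insert_of_notMem hxS, hS, hG e he.1]; omega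
    rw [mem_image]
    refine ⟨x, ?_, hins⟩
    rw [mem_filter]
    exact ⟨mem_univ _, hxS, by rw [hins]; exact he.1⟩
  have h2 : (G.filter (fun e => S ⊆ e)).card ≤
      (univ.filter fun x : Fin n => x ∉ S ∧ insert x S ∈ G).card :=
    (card_le_card h1).trans card_image_le
  have h3 : Disjoint (univ.filter fun x : Fin n => x ∉ S ∧ insert x S ∈ G)
      (univ.filter fun x : Fin n => x ∉ S ∧ insert x S ∉ G) := by
    rw [disjoint_filter]
    intro x _ h h'
    exact h'.2 h.2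
  have h4 := card_union_of_disjoint h3
  have h5 : ((univ.filter fun x : Fin n => x ∉ S ∧ insert x S ∈ G) ∪
      (univ.filter fun x : Fin n => x ∉ S ∧ insert x S ∉ G)).card ≤ n := by
    refine (card_le_univ _).trans ?_
    rw [Fintype.card_fin]
  omega

/-- Take `L` from `exists_L k (Ck k)`, `c = 1 / (8 * L ^ (k - 1) * k)` or similar: with
`D = ⌊c n / r^(k-1)⌋ + k` (the codegree condition gives
`(univ.filter fun x => x ∉ S ∧ insert x S ∉ G).card = n - (k-1) - d(S) ≤ c n / r^(k-1)`),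
`choose (L r) (k-1) ≤ (L r)^(k-1)`, and `n₀` large. -/
theorem frac_main (k : ℕ) (hk : 2 ≤ k) : ∃ c : ℝ, 0 < c ∧ c ≤ 1 ∧ ∀ r : ℕ, k < r → ∃ n₀ : ℕ, ∀ n : ℕ, n₀ ≤ n →
    ∀ G : Finset (Finset (Fin n)), (∀ e ∈ G, e.card = k) →
      (∀ A : Finset (Fin n), A.card = k - 1 →
        (1 - c / (r : ℝ) ^ (k - 1)) * (n : ℝ) ≤ ((G.filter (fun e => A ⊆ e)).card : ℝ)) →
      HasFrac k r G := by
  obtain ⟨L, hL1, hL⟩ := exists_L k (Ck k) (FE2_Ck_nonneg k)
  have hk0 : (2 : ℝ) ≤ k := by exact_mod_cast hk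
  have hL1' : (1 : ℝ) ≤ L := by exact_mod_cast hL1
  have hLpow : (1 : ℝ) ≤ (L : ℝ) ^ (k - 1) := one_le_pow₀ hL1'
  have hden : (1 : ℝ) ≤ 8 * (L : ℝ) ^ (k - 1) * k := by nlinarith
  have hden0 : (0 : ℝ) < 8 * (L : ℝ) ^ (k - 1) * k := lt_of_lt_of_le one_pos hden
  refine ⟨1 / (8 * (L : ℝ) ^ (k - 1) * k), by positivity, ?_, ?_⟩
  · rw [div_le_one hden0]; exact hden
  intro r hkr
  refine ⟨4 * (L * r) + 4 * k, ?_⟩
  intro n hn G hG hdeg
  have hr1 : (1 : ℝ) ≤ r := by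
    have : 1 ≤ r := by omega
    exact_mod_cast this
  have hrpow : (1 : ℝ) ≤ (r : ℝ) ^ (k - 1) := one_le_pow₀ hr1
  have hrpow0 : (0 : ℝ) < (r : ℝ) ^ (k - 1) := lt_of_lt_of_le one_pos hrpow
  have hnR : (4 : ℝ) * (L * r) + 4 * k ≤ n := by exact_mod_cast hn
  have hLr0 : (0 : ℝ) ≤ (L : ℝ) * r := by positivity
  have hn0 : (0 : ℝ) ≤ (n : ℝ) := Nat.cast_nonneg _
  set q : ℝ := 1 / (8 * (L : ℝ) ^ (k - 1) * k) / (r : ℝ) ^ (k - 1) * n with hq
  have hq0 : 0 ≤ q := by positivity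
  have hfl : ((⌊q⌋₊ : ℕ) : ℝ) ≤ q := Nat.floor_le hq0
  have e1 : ((L : ℝ) * r) ^ (k - 1) * q = n / (8 * k) := by
    rw [hq, mul_pow]
    have hne : ((L : ℝ) ^ (k - 1)) ≠ 0 := by positivity
    have hne2 : ((r : ℝ) ^ (k - 1)) ≠ 0 := by positivity
    have hne3 : (k : ℝ) ≠ 0 := by positivity
    field_simp
  have e2 : (k : ℝ) * q ≤ n / 8 := by
    have h1 : 1 / (8 * (L : ℝ) ^ (k - 1) * k) / (r : ℝ) ^ (k - 1) ≤ 1 / (8 * k) := by
      rw [div_div]
      apply one_div_le_one_div_of_le (by positivity)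
      have hprod : (1 : ℝ) ≤ (L : ℝ) ^ (k - 1) * (r : ℝ) ^ (k - 1) :=
        one_le_mul_of_one_le_of_one_le hLpow hrpow
      have h8k : (0 : ℝ) ≤ 8 * (k : ℝ) := by positivity
      have h9 := mul_le_mul_of_nonneg_left hprod h8k
      calc 8 * (k : ℝ) = 8 * (k : ℝ) * 1 := (mul_one _).symm
        _ ≤ 8 * (k : ℝ) * ((L : ℝ) ^ (k - 1) * (r : ℝ) ^ (k - 1)) := h9
        _ = 8 * (L : ℝ) ^ (k - 1) * k * (r : ℝ) ^ (k - 1) := by ring
    have h2 : q ≤ 1 / (8 * k) * n := by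
      rw [hq]
      exact mul_le_mul_of_nonneg_right h1 hn0
    have h3 : (k : ℝ) * (1 / (8 * k) * n) = n / 8 := by
      have hne3 : (k : ℝ) ≠ 0 := by positivity
      field_simp
    calc (k : ℝ) * q ≤ k * (1 / (8 * k) * n) := mul_le_mul_of_nonneg_left h2 (by positivity)
      _ = n / 8 := h3
  refine frac_of_L (k := k) (r := r) (L := L) (D := ⌊q⌋₊) hk hkr (hL r hkr) hG ?_ ?_ ?_ ?_
  · intro S hS
    have h1 := FE2_deg hk hG S hS
    have h2 := hdeg S hS
    apply Nat.le_floor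
    have h1' : ((G.filter (fun e => S ⊆ e)).card : ℝ) +
        ((univ.filter fun x : Fin n => x ∉ S ∧ insert x S ∉ G).card : ℝ) ≤ n := by
      exact_mod_cast h1
    have h3 : (1 - 1 / (8 * (L : ℝ) ^ (k - 1) * k) / (r : ℝ) ^ (k - 1)) * (n : ℝ) = n - q := by
      rw [hq]; ring
    rw [h3] at h2
    have h4 : ((univ.filter fun x : Fin n => x ∉ S ∧ insert x S ∉ G).card : ℝ) ≤ q := by linarith
    refine le_trans (le_of_eq ?_) h4
    refine congrArg Nat.cast (congrArg Finset.card ?_)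
    ext x
    have hins : ∀ (i1 i2 : DecidableEq (Fin n)),
        @insert (Fin n) (Finset (Fin n)) (@Finset.instInsert _ i1) x S =
          @insert (Fin n) (Finset (Fin n)) (@Finset.instInsert _ i2) x S := by
      intro i1 i2
      rw [Subsingleton.elim i1 i2]
    simp only [mem_filter]
    constructor
    · rintro ⟨_, h5, h6⟩
      refine ⟨mem_univ _, h5, fun h7 => h6 ?_⟩
      rw [hins]
      exact h7
    · rintro ⟨_, h5, h6⟩
      refine ⟨mem_univ _, h5, fun h7 => h6 ?_⟩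
      rw [hins]
      exact h7
  · rw [Fintype.card_fin]
    have hch : (((L * r).choose (k - 1) : ℕ) : ℝ) ≤ ((L : ℝ) * r) ^ (k - 1) := by
      have := Nat.choose_le_pow (L * r) (k - 1)
      exact_mod_cast this
    have h1 : (((L * r).choose (k - 1) : ℕ) : ℝ) * ((⌊q⌋₊ : ℕ) : ℝ) ≤
        ((L : ℝ) * r) ^ (k - 1) * q :=
      mul_le_mul hch hfl (Nat.cast_nonneg _) (by positivity)
    rw [e1] at h1
    have h2 : (n : ℝ) / (8 * k) ≤ n / 8 := by
      apply div_le_div_of_nonneg_left hn0 (by norm_num)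
      linarith
    push_cast
    linarith
  · rw [Fintype.card_fin]
    have h1 : (k : ℝ) * ((⌊q⌋₊ : ℕ) : ℝ) ≤ k * q :=
      mul_le_mul_of_nonneg_left hfl (by positivity)
    push_cast
    linarith
  · rw [Fintype.card_fin]
    omega

end Pool.Agent.Lib.MP_5c685b_co
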