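import Pool.Agent.Lib.MP_5c685b_co.Params

set_option autoImplicit false

/-!
# MP_5c685b_co: lower bound for the fractional threshold

The construction of `LogLowerBound` without the divisibility corrections: a `k`-graph of codegree at
least `(1 - C log r / r^(k-1)) n` in which some `(k-1)`-set lies in too few cliques, also
fractionally.
-/

namespace Pool.Agent.Lib.MP_5c685b_co

open Finset

/-- A fractional decomposition into complete `k`-graphs on `r` vertices. -/
def HasFracD (k r : ℕ) {V : Type} [Fintype V] [DecidableEq V] (G : Finset (Finset V)) : Prop :=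
  ∃ w : Finset V → ℝ, (∀ S, 0 ≤ w S) ∧
    (∀ S, w S ≠ 0 → S.card = r ∧ ∀ e : Finset V, e ⊆ S → e.card = k → e ∈ G) ∧
    ∀ e ∈ G, ∑ S ∈ Finset.univ.filter (fun S => e ⊆ S), w S = 1

variable {N m k : ℕ}

/-- There is no fractional decomposition. -/
theorem no_frac (x r E : ℕ) (hk : 2 ≤ k) (hx : x ≤ m) (hxk : k - 1 ≤ x)
    (H₀ : Finset (Finset (Fin N)))
    (hH : ∀ h ∈ H₀, h.card = k) (hE0 : 1 ≤ E) (hEN : E < N)
    (hE : ∀ B : Finset (Fin N), B.card = k - 1 →
      ((Finset.univ \ B).filter (fun j => insert j B ∈ H₀)).card < E)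
    (hind : ∀ B : Finset (Fin N), r ≤ (k - 1) * B.card → ∃ h ∈ H₀, h ⊆ B)
    (hbig : r * (N * (m - x) + (k - 1)) < m) :
    ¬ HasFracD k r (Gr m k x H₀) := by
  rintro ⟨w, hw0, hw1, hw2⟩
  -- a (k-1)-set in the first part
  have hN : 0 < N := by omega
  obtain ⟨A, hAX, hA⟩ := Finset.exists_subset_card_eq (s := X m k x (⟨0, hN⟩ : Fin N)) (n := k - 1)
    (by rw [card_X x hx]; exact hxk)
  have hdeg := codeg_Gr (m := m) x E hk H₀ hH hE0 hE A hA
  set W : Finset (Vtx N m k) :=
    Finset.univ \ (Finset.univ.biUnion (fun j : Fin N => X m k x j)) with hW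
  have hWc : W.card = N * (m - x) + (k - 1) := card_outside x hx
  have hAW : ∀ u ∈ W, u ∉ A := by
    intro u hu huA
    rw [hW, Finset.mem_sdiff] at hu
    exact hu.2 (Finset.mem_biUnion.2 ⟨_, Finset.mem_univ _, hAX huA⟩)
  -- the cliques through A
  set SA : Finset (Finset (Vtx N m k)) := Finset.univ.filter (fun S => A ⊆ S) with hSA
  have h1 : ∑ S ∈ SA, w S ≤ W.card := by
    have hpt : ∀ S ∈ SA, w S ≤ ∑ u ∈ W, if insert u A ⊆ S then w S else 0 := by
      intro S hS
      by_cases hwS : w S = 0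
      · rw [hwS]
        exact Finset.sum_nonneg fun u _ => by split_ifs <;> exact le_refl _
      · obtain ⟨u, hu, hu'⟩ := clique_meets x r hk H₀ hH hind S (hw1 S hwS).1 (hw1 S hwS).2
        have huW : u ∈ W := by rw [hW, Finset.mem_sdiff]; exact ⟨Finset.mem_univ _, hu'⟩
        have hle := Finset.single_le_sum (f := fun u => if insert u A ⊆ S then w S else 0)
          (fun v _ => by
            change 0 ≤ if insert v A ⊆ S then w S else 0
            split_ifs
            · exact hw0 S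
            · exact le_refl _) huW
        have hins : insert u A ⊆ S :=
          Finset.insert_subset hu ((Finset.mem_filter.1 hS).2)
        simp only [hins, if_true] at hle
        exact hle
    have hv : ∀ u ∈ W, ∑ S ∈ SA, (if insert u A ⊆ S then w S else 0) ≤ 1 := by
      intro u hu
      have hcard : (insert u A).card = k := by
        rw [Finset.card_insert_of_notMem (hAW u hu)]
        omega
      have hle : ∑ S ∈ SA, (if insert u A ⊆ S then w S else 0)
          ≤ ∑ S ∈ Finset.univ.filter (fun S => insert u A ⊆ S), w S := by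
        rw [← Finset.sum_filter]
        refine Finset.sum_le_sum_of_subset_of_nonneg ?_ fun S _ _ => hw0 S
        intro S hS
        rw [Finset.mem_filter] at hS ⊢
        exact ⟨Finset.mem_univ _, hS.2⟩
      refine hle.trans ?_
      by_cases hG : insert u A ∈ Gr m k x H₀
      · exact (hw2 _ hG).le
      · refine (Finset.sum_nonpos fun S hS => ?_).trans zero_le_one
        by_contra hcon
        push Not at hcon
        exact hG ((hw1 S hcon.ne').2 _ (Finset.mem_filter.1 hS).2 hcard)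
    calc ∑ S ∈ SA, w S ≤ ∑ S ∈ SA, ∑ u ∈ W, (if insert u A ⊆ S then w S else 0) :=
          Finset.sum_le_sum hpt
      _ = ∑ u ∈ W, ∑ S ∈ SA, (if insert u A ⊆ S then w S else 0) := Finset.sum_comm
      _ ≤ ∑ u ∈ W, (1 : ℝ) := Finset.sum_le_sum hv
      _ = W.card := by simp
  -- the edges through A
  have h2 : (((Gr m k x H₀).filter (fun e => A ⊆ e)).card : ℝ) ≤ r * ∑ S ∈ SA, w S := by
    have e1 : (((Gr m k x H₀).filter (fun e => A ⊆ e)).card : ℝ)
        = ∑ e ∈ (Gr m k x H₀).filter (fun e => A ⊆ e),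
          ∑ S ∈ Finset.univ.filter (fun S => e ⊆ S), w S := by
      rw [Finset.sum_congr rfl fun e he => hw2 e (Finset.mem_filter.1 he).1]
      simp
    have e2 : ∑ e ∈ (Gr m k x H₀).filter (fun e => A ⊆ e),
          ∑ S ∈ Finset.univ.filter (fun S => e ⊆ S), w S
        = ∑ e ∈ (Gr m k x H₀).filter (fun e => A ⊆ e),
          ∑ S ∈ SA, if e ⊆ S then w S else 0 := by
      refine Finset.sum_congr rfl fun e he => ?_
      rw [← Finset.sum_filter]
      refine Finset.sum_congr ?_ fun _ _ => rfl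
      ext S
      simp only [hSA, Finset.mem_filter, Finset.mem_univ, true_and]
      exact ⟨fun h => ⟨(Finset.mem_filter.1 he).2.trans h, h⟩, fun h => h.2⟩
    rw [e1, e2, Finset.sum_comm, Finset.mul_sum]
    refine Finset.sum_le_sum fun S hS => ?_
    by_cases hwS : w S = 0
    · rw [hwS]
      simp
    · have hSr := (hw1 S hwS).1
      have hAS : A ⊆ S := (Finset.mem_filter.1 hS).2
      rw [← Finset.sum_filter, Finset.sum_const, nsmul_eq_mul]
      refine mul_le_mul_of_nonneg_right ?_ (hw0 S)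
      have hc : (((Gr m k x H₀).filter (fun e => A ⊆ e)).filter (fun e => e ⊆ S)).card ≤ S.card := by
        apply Finset.card_le_card_of_surjOn (fun v => insert v A)
        intro e he
        rw [Finset.mem_coe, Finset.mem_filter, Finset.mem_filter] at he
        obtain ⟨⟨heG, hAe⟩, heS⟩ := he
        have hec : e.card = k := ((mem_Gr x H₀ e).1 heG).1
        have h3 : (e \ A).card = 1 := by
          rw [Finset.card_sdiff_of_subset hAe]
          omega
        obtain ⟨v, hv⟩ := Finset.card_eq_one.1 h3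
        have hve : v ∈ e \ A := by rw [hv]; exact Finset.mem_singleton_self v
        rw [Finset.mem_sdiff] at hve
        refine ⟨v, Finset.mem_coe.2 (heS hve.1), ?_⟩
        have : insert v A = e := by
          rw [Finset.insert_eq, ← hv, Finset.sdiff_union_of_subset hAe]
        exact this
      rw [← hSr]
      exact_mod_cast hc
  -- contradiction
  have h3 : (((Gr m k x H₀).filter (fun e => A ⊆ e)).card : ℝ)
      ≤ ((r * (N * (m - x) + (k - 1)) : ℕ) : ℝ) := by
    refine h2.trans ?_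
    rw [Nat.cast_mul, ← hWc]
    exact mul_le_mul_of_nonneg_left h1 (Nat.cast_nonneg _)
  have h5 : ((Gr m k x H₀).filter (fun e => A ⊆ e)).card ≤ r * (N * (m - x) + (k - 1)) := by
    exact_mod_cast h3
  have h6 : (E + 1) * m ≤ N * m := Nat.mul_le_mul_right _ hEN
  rw [add_mul, one_mul] at h6
  omega

/-- Transfer along an equivalence. -/
theorem transferF {V W : Type} [Fintype V] [Fintype W] [DecidableEq V] [DecidableEq W] (φ : V ≃ W)
    (k r D : ℕ)
    (G : Finset (Finset V)) (hG : ∀ e ∈ G, e.card = k)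
    (hdeg : ∀ A : Finset V, A.card = k - 1 → D ≤ (G.filter (fun e => A ⊆ e)).card)
    (hno : ¬ HasFracD k r G) :
    ∃ G' : Finset (Finset W), (∀ e ∈ G', e.card = k) ∧
      (∀ A : Finset W, A.card = k - 1 → D ≤ (G'.filter (fun e => A ⊆ e)).card) ∧
      ¬ HasFracD k r G' := by
  classical
  let ψ : Finset V ≃ Finset W := Equiv.finsetCongr φ
  have hcard : ∀ A : Finset V, (ψ A).card = A.card := by
    intro A
    simp [ψ]
  have hcard' : ∀ A : Finset W, (ψ.symm A).card = A.card := by
    intro A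
    have := hcard (ψ.symm A)
    rw [Equiv.apply_symm_apply] at this
    exact this.symm
  have hsub : ∀ A B : Finset V, ψ A ⊆ ψ B ↔ A ⊆ B := by
    intro A B
    simp [ψ]
  have hsub' : ∀ (A : Finset W) (B : Finset V), A ⊆ ψ B ↔ ψ.symm A ⊆ B := by
    intro A B
    rw [← hsub, Equiv.apply_symm_apply]
  have hfilt : ∀ A : Finset W, ((G.map ψ.toEmbedding).filter (fun e => A ⊆ e)).card =
      (G.filter (fun e => ψ.symm A ⊆ e)).card := by
    intro A
    rw [Finset.filter_map, Finset.card_map]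
    congr 1
    ext e
    simp only [Finset.mem_filter, Function.comp_apply, Equiv.coe_toEmbedding]
    rw [hsub']
  refine ⟨G.map ψ.toEmbedding, ?_, ?_, ?_⟩
  · intro e he
    rw [Finset.mem_map] at he
    obtain ⟨f, hf, rfl⟩ := he
    rw [Equiv.coe_toEmbedding, hcard]
    exact hG f hf
  · intro A hA
    rw [hfilt]
    exact hdeg _ (by rw [hcard']; exact hA)
  · rintro ⟨w, h0, h1, h2⟩
    apply hno
    refine ⟨fun S => w (ψ S), fun S => h0 _, fun S hS => ?_, fun e he => ?_⟩
    · obtain ⟨h3, h4⟩ := h1 _ hS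
      refine ⟨by rw [← hcard]; exact h3, fun e he hec => ?_⟩
      have h6 := h4 (ψ e) ((hsub e S).2 he) (by rw [hcard]; exact hec)
      rw [Finset.mem_map] at h6
      obtain ⟨f, hf, hfe⟩ := h6
      rw [Equiv.coe_toEmbedding] at hfe
      rw [← ψ.injective hfe]
      exact hf
    · rw [← h2 (ψ e) (Finset.mem_map_of_mem _ he)]
      refine Finset.sum_bij' (fun S _ => ψ S) (fun S _ => ψ.symm S) ?_ ?_ ?_ ?_ ?_
      · intro S hS
        rw [Finset.mem_filter] at hS ⊢
        exact ⟨Finset.mem_univ _, (hsub e S).2 hS.2⟩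
      · intro S hS
        rw [Finset.mem_filter] at hS ⊢
        refine ⟨Finset.mem_univ _, ?_⟩
        rw [← hsub, Equiv.apply_symm_apply]
        exact hS.2
      · intro S _
        exact Equiv.symm_apply_apply _ _
      · intro S _
        exact Equiv.apply_symm_apply _ _
      · intro S _
        rfl

/-- The set of `δ` admissible for fractional decompositions. -/
def AdmF (k r : ℕ) : Set ℝ :=
  {δ : ℝ | 0 ≤ δ ∧ δ ≤ 1 ∧ ∃ n0 : ℕ, ∀ n : ℕ, n0 ≤ n →
      ∀ G : Finset (Finset (Fin n)),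
        (∀ e ∈ G, e.card = k) →
        (∀ A : Finset (Fin n), A.card = k - 1 →
          δ * (n : ℝ) ≤ ((G.filter (fun e => A ⊆ e)).card : ℝ)) →
        ∃ w : Finset (Fin n) → ℝ, (∀ S, 0 ≤ w S) ∧
          (∀ S, w S ≠ 0 → S.card = r ∧ ∀ e : Finset (Fin n), e ⊆ S → e.card = k → e ∈ G) ∧
          ∀ e ∈ G, ∑ S ∈ Finset.univ.filter (fun S => e ⊆ S), w S = 1}

/-- The lower bound on fractionally admissible `δ` from a good system of parts. -/
theorem lowerF_of_system (k r N E : ℕ) (hk : 2 ≤ k) (hkr : k < r)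
    (H₀ : Finset (Finset (Fin N)))
    (hH : ∀ h ∈ H₀, h.card = k) (hE0 : 1 ≤ E) (hEN : E < N)
    (hE : ∀ B : Finset (Fin N), B.card = k - 1 →
      ((Finset.univ \ B).filter (fun j => insert j B ∈ H₀)).card < E)
    (hind : ∀ B : Finset (Fin N), r ≤ (k - 1) * B.card → ∃ h ∈ H₀, h ⊆ B)
    (δ : ℝ) (hδ : δ ∈ AdmF k r) : 1 - (E : ℝ) / N ≤ δ := by
  by_contra hcon
  push Not at hcon
  obtain ⟨h0, h1, n0, hn0⟩ := hδ
  have hNpos : (0 : ℝ) < N := by exact_mod_cast (by omega : 0 < N)
  -- slack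
  have hslack : 0 < (N : ℝ) - E - δ * N := by
    have h2 : δ * N < (1 - (E : ℝ) / N) * N := mul_lt_mul_of_pos_right hcon hNpos
    have h3 : (1 - (E : ℝ) / N) * N = N - E := by
      field_simp
    rw [h3] at h2
    linarith
  -- choose m large
  obtain ⟨t1, ht1⟩ := exists_nat_gt (δ * ((k - 1 : ℕ) : ℝ) / ((N : ℝ) - E - δ * N))
  set m : ℕ := n0 + t1 + r * (k - 1) + k with hm
  have hkr1 : k - 1 ≤ m := by omega
  have hbig : r * (N * (m - m) + (k - 1)) < m := by
    rw [Nat.sub_self, Nat.mul_zero, Nat.zero_add]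
    omega
  have hno := no_frac (m := m) m r E hk (le_refl m) hkr1 H₀ hH hE0 hEN hE hind hbig
  have hEm : E * m ≤ N * m := Nat.mul_le_mul_right _ (by omega)
  have hn : Fintype.card (Vtx N m k) = N * m + (k - 1) := by simp
  obtain ⟨G', hG1, hG3, hG4⟩ := transferF (Fintype.equivFinOfCardEq hn) k r (N * m - E * m)
    (Gr m k m H₀) (fun e he => ((mem_Gr m H₀ e).1 he).1)
    (fun A hA => by
      have := codeg_Gr (m := m) m E hk H₀ hH hE0 hE A hA
      omega) hno
  apply hG4
  apply hn0 (N * m + (k - 1)) _ G' hG1 _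
  · have : m ≤ N * m := Nat.le_mul_of_pos_left _ (by omega)
    omega
  · intro A hA
    have h3 : ((N * m - E * m : ℕ) : ℝ) ≤ ((G'.filter (fun e => A ⊆ e)).card : ℝ) := by
      exact_mod_cast hG3 A hA
    refine le_trans ?_ h3
    rw [Nat.cast_sub hEm]
    push_cast
    have h4 : δ * ((k - 1 : ℕ) : ℝ) < t1 * ((N : ℝ) - E - δ * N) := by
      rwa [div_lt_iff₀ hslack] at ht1
    have h5 : (t1 : ℝ) ≤ m := by
      exact_mod_cast (by omega : t1 ≤ m)
    have h6 : (t1 : ℝ) * ((N : ℝ) - E - δ * N) ≤ m * ((N : ℝ) - E - δ * N) :=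
      mul_le_mul_of_nonneg_right h5 hslack.le
    nlinarith

theorem AdmF_bddBelow (k r : ℕ) : BddBelow (AdmF k r) := ⟨0, fun _ hδ => hδ.1⟩

theorem one_mem_AdmF (k r : ℕ) (hk : 2 ≤ k) : (1 : ℝ) ∈ AdmF k r := by
  refine ⟨zero_le_one, le_refl _, k, ?_⟩
  intro n hn G hG hdeg
  exfalso
  obtain ⟨A, _, hA⟩ := Finset.exists_subset_card_eq (s := (Finset.univ : Finset (Fin n)))
    (n := k - 1) (by simp; omega)
  have h1 := hdeg A hA
  rw [one_mul] at h1
  have h2 : n ≤ (G.filter (fun e => A ⊆ e)).card := by exact_mod_cast h1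
  have h3 : (G.filter (fun e => A ⊆ e)).card ≤ (Finset.univ \ A : Finset (Fin n)).card := by
    apply Finset.card_le_card_of_surjOn (fun v => insert v A)
    intro e he
    rw [Finset.mem_coe, Finset.mem_filter] at he
    obtain ⟨heG, hAe⟩ := he
    have hec : e.card = k := hG e heG
    have h2 : (e \ A).card = 1 := by
      rw [Finset.card_sdiff_of_subset hAe]
      omega
    obtain ⟨v, hv⟩ := Finset.card_eq_one.1 h2
    have hve : v ∈ e \ A := by rw [hv]; exact Finset.mem_singleton_self v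
    rw [Finset.mem_sdiff] at hve
    refine ⟨v, ?_, ?_⟩
    · rw [Finset.mem_coe, Finset.mem_sdiff]
      exact ⟨Finset.mem_univ _, hve.2⟩
    · have : insert v A = e := by
        rw [Finset.insert_eq, ← hv, Finset.sdiff_union_of_subset hAe]
      exact this
  rw [Finset.card_sdiff_of_subset (Finset.subset_univ _), Finset.card_univ, Fintype.card_fin] at h3
  omega

/-- For every `k ≥ 2` there is `C > 0` such that for all `r > k` the fractional threshold is at least
`1 - C log r / r^(k-1)`. -/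
theorem main_boundF (k : ℕ) (hk : 2 ≤ k) : ∃ C : ℝ, 0 < C ∧ ∀ r : ℕ, k < r →
    1 - C * Real.log r / (r : ℝ) ^ (k - 1) ≤ sInf (AdmF k r) := by
  set K : ℝ := 2 * (k : ℝ) ^ k * (k.factorial : ℝ) with hK
  have hk0 : (0 : ℝ) < k := by exact_mod_cast (by omega : 0 < k)
  have hf0 : (1 : ℝ) ≤ (k.factorial : ℝ) := by exact_mod_cast Nat.factorial_pos k
  have hkk : (1 : ℝ) ≤ (k : ℝ) ^ k := by
    apply one_le_pow₀
    exact_mod_cast (by omega : 1 ≤ k)
  have hK0 : 0 < K := by rw [hK]; positivity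
  refine ⟨(6 * K + k + 2) * k * (k : ℝ) ^ k, by positivity, ?_⟩
  intro r hkr
  have hr0 : (0 : ℝ) < r := by exact_mod_cast (by omega : 0 < r)
  have hrp : (0 : ℝ) < (r : ℝ) ^ (k - 1) := by positivity
  have hnonneg : 0 ≤ sInf (AdmF k r) := Real.sInf_nonneg (fun _ hδ => hδ.1)
  set β : ℕ := (r + k - 2) / (k - 1) with hβ
  have hk1 : 0 < k - 1 := by omega
  have hβ1 : r ≤ (k - 1) * β := by
    have h1 : r + k - 2 < (k - 1) * (β + 1) := Nat.lt_mul_div_succ _ hk1
    rw [mul_add, mul_one] at h1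
    omega
  have hβ2 : ∀ b : ℕ, r ≤ (k - 1) * b → β ≤ b := by
    intro b hb
    rw [hβ]
    have h2 : r + k - 2 < (b + 1) * (k - 1) := by
      rw [add_mul, one_mul, mul_comm b]
      omega
    have := (Nat.div_lt_iff_lt_mul hk1).2 h2
    omega
  have hβr : β ≤ r := hβ2 r (Nat.le_mul_of_pos_left r hk1)
  have hβge : 2 ≤ β := by
    by_contra hcon
    have h1 : β ≤ 1 := by omega
    have h2 : (k - 1) * β ≤ (k - 1) * 1 := Nat.mul_le_mul_left _ h1
    omega
  set N : ℕ := β ^ (k - 1) with hN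
  have hN2 : 2 ≤ N := by
    rw [hN]
    calc 2 ≤ β := hβge
      _ = β ^ 1 := (pow_one β).symm
      _ ≤ β ^ (k-1) := Nat.pow_le_pow_right (by omega) (by omega)
  have hNpos : (0 : ℝ) < N := by exact_mod_cast (by omega : 0 < N)
  have hN2' : (2 : ℝ) ≤ N := by exact_mod_cast hN2
  set L : ℝ := Real.log N with hL
  have hβ0 : (0 : ℝ) < β := by exact_mod_cast (by omega : 0 < β)
  have hLhalf : 1 / 2 ≤ L := by
    have h1 : Real.log 2 ≤ L := Real.log_le_log (by norm_num) hN2'
    have h2 := Real.log_two_gt_d9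
    linarith
  have hlogr : 0 ≤ Real.log r := Real.log_nonneg (by exact_mod_cast (by omega : 1 ≤ r))
  have hLr : L ≤ k * Real.log r := by
    rw [hL, hN]
    push_cast
    rw [Real.log_pow]
    have h1 : Real.log β ≤ Real.log r := Real.log_le_log hβ0 (by exact_mod_cast hβr)
    have h2 : ((k - 1 : ℕ) : ℝ) ≤ k := by exact_mod_cast (by omega : k - 1 ≤ k)
    have h3 : 0 ≤ Real.log β := Real.log_nonneg (by exact_mod_cast (by omega : 1 ≤ β))
    exact mul_le_mul h2 h1 h3 hk0.le
  have hrN : (r : ℝ) ^ (k - 1) ≤ (k : ℝ) ^ k * N := by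
    have h1 : r ^ (k-1) ≤ k ^ k * N := by
      calc r ^ (k-1) ≤ ((k - 1) * β) ^ (k-1) := Nat.pow_le_pow_left hβ1 _
        _ = (k-1) ^ (k-1) * N := by rw [mul_pow]
        _ ≤ k ^ k * N := by
          apply Nat.mul_le_mul_right
          calc (k-1)^(k-1) ≤ k ^ (k-1) := Nat.pow_le_pow_left (by omega) _
            _ ≤ k ^ k := Nat.pow_le_pow_right (by omega) (by omega)
    exact_mod_cast h1
  -- the key comparison
  have hcomp : (6 * K + k + 2) * L / N ≤
      (6 * K + k + 2) * k * (k : ℝ) ^ k * Real.log r / (r : ℝ) ^ (k - 1) := by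
    rw [div_le_div_iff₀ hNpos hrp]
    have h1 : (6 * K + k + 2) * L ≤ (6 * K + k + 2) * (k * Real.log r) :=
      mul_le_mul_of_nonneg_left hLr (by positivity)
    calc (6 * K + k + 2) * L * (r : ℝ) ^ (k - 1)
        ≤ (6 * K + k + 2) * (k * Real.log r) * ((k : ℝ) ^ k * N) :=
          mul_le_mul h1 hrN hrp.le (by positivity)
      _ = (6 * K + k + 2) * k * (k : ℝ) ^ k * Real.log r * N := by ring
  by_cases hcase : (N : ℝ) < K * L
  · -- trivial case
    have h1 : 1 ≤ (6 * K + k + 2) * L / N := by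
      rw [le_div_iff₀ hNpos, one_mul]
      nlinarith
    linarith
  · push Not at hcase
    have hkβ : k ≤ β := by
      by_contra hcon
      push Not at hcon
      have h2 : (k : ℝ) ^ k ≤ N := by
        refine le_trans ?_ hcase
        rw [hK]
        have h3 : (1 : ℝ) ≤ (k.factorial : ℝ) * (2 * L) := by nlinarith
        nlinarith
      have h3 : N < k ^ k := by
        rw [hN]
        calc β ^ (k-1) < k ^ (k-1) := Nat.pow_lt_pow_left hcon (by omega)
          _ ≤ k ^ k := Nat.pow_le_pow_right (by omega) (by omega)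
      have h3' : (N : ℝ) < (k : ℝ) ^ k := by exact_mod_cast h3
      linarith
    set q : ℕ := ⌊(N : ℝ) / (K * L)⌋₊ with hq
    have hKL : 0 < K * L := by positivity
    have hdiv1 : 1 ≤ (N : ℝ) / (K * L) := by
      rw [le_div_iff₀ hKL]
      linarith
    have hq1 : 1 ≤ q := by
      rw [hq]
      exact Nat.le_floor (by exact_mod_cast hdiv1)
    have hq2 : (q : ℝ) * (K * L) ≤ N := by
      have h1 : (q : ℝ) ≤ (N : ℝ) / (K * L) := Nat.floor_le (by positivity)
      rwa [le_div_iff₀ hKL] at h1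
    have hq3 : (N : ℝ) ≤ q * (2 * K * L) := by
      have h1 : (N : ℝ) / (K * L) < q + 1 := Nat.lt_floor_add_one _
      rw [div_lt_iff₀ hKL] at h1
      have h2 : (1 : ℝ) ≤ q := by exact_mod_cast hq1
      nlinarith
    set E : ℕ := ⌈(6 * K + k) * L⌉₊ with hE
    have hE1 : (6 * K + k) * L ≤ E := Nat.le_ceil _
    have hE2 : (E : ℝ) < (6 * K + k) * L + 1 := Nat.ceil_lt_add_one (by positivity)
    have hE3 : (E : ℝ) ≤ (6 * K + k + 2) * L := by
      nlinarith
    have hEpos : 1 ≤ E := by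
      rw [hE]
      exact Nat.ceil_pos.2 (by positivity)
    have hsum := union_bound k β N q E K hk hβge hN hK hkβ hq1 hq2 hq3 hE1
    obtain ⟨H₀, hH1, hH2, hH3⟩ := random_system k N q β E hq1 hsum
    have hEN : (E : ℝ) / N ≤ (6 * K + k + 2) * L / N :=
      div_le_div_of_nonneg_right hE3 hNpos.le
    by_cases hEN' : E < N
    · have h1 : 1 - (E : ℝ) / N ≤ sInf (AdmF k r) := by
        apply le_csInf ⟨1, one_mem_AdmF k r hk⟩
        intro δ hδ
        exact lowerF_of_system k r N E hk hkr H₀ hH1 hEpos hEN' hH2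
          (fun B hB => hH3 B (hβ2 _ hB)) δ hδ
      linarith
    · push Not at hEN'
      have h1 : 1 ≤ (E : ℝ) / N := by
        rw [le_div_iff₀ hNpos, one_mul]
        exact_mod_cast hEN'
      linarith

end Pool.Agent.Lib.MP_5c685b_co
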