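import Pool.Agent.Lib.MP_5c685b_co.FracLower
import Pool.Agent.Lib.MP_5c685b_co.FE2
import Pool.Agent.Lib.MP_5c685b_co.Crit

set_option autoImplicit false

/-!
# MP_5c685b_co, row B7: from the core theorem to the statement about thresholds
-/

namespace Pool.Agent.Lib.MP_5c685b_co

open Finset

theorem hasFracD_of_hasFrac {k r : ℕ} {V : Type} [Fintype V] [DecidableEq V]
    {G : Finset (Finset V)} (h : HasFrac k r G) : HasFracD k r G := by
  obtain ⟨w, h0, h1, h2⟩ := h
  refine ⟨w, h0, fun S hS => ⟨(h1 S hS).1, fun e he hc => (h1 S hS).2 e he hc⟩, fun e he => ?_⟩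
  rw [← h2 e he]
  refine Finset.sum_congr ?_ fun _ _ => rfl
  ext S
  simp only [Finset.mem_filter, Finset.mem_univ, true_and]

/-- The core statement: the log version of the upper bound for large `r`. -/
def Core : Prop :=
  ∃ c : ℝ, 0 < c ∧ ∃ r₀ : ℕ, ∀ r : ℕ, r₀ ≤ r → ∃ n₀ : ℕ, ∀ n : ℕ, n₀ ≤ n →
    ∀ G : Finset (Finset (Fin n)), (∀ e ∈ G, e.card = 3) →
      (∀ A : Finset (Fin n), A.card = 2 →
        (1 - c * Real.log r / (r : ℝ) ^ 2) * (n : ℝ) ≤ ((G.filter (fun e => A ⊆ e)).card : ℝ)) →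
      ∀ y : Finset (Fin n) → ℝ,
        (∀ K : Finset (Fin n), K.card = r → MP5c68.Cl G K → 0 ≤ MP5c68.tot y K) →
        0 ≤ ∑ e ∈ G, y e

/-- Smaller codegree deficits are easier: `AdmF` contains `1 - d` if fractional decompositions exist
at deficit `d`. -/
theorem final_of_core (hcore : Core) :
    ∃ c C : ℝ, 0 < c ∧ 0 < C ∧ ∀ r : ℕ, 3 < r →
      1 - C * Real.log r / (r : ℝ) ^ 2 ≤ sInf (AdmF 3 r) ∧
      sInf (AdmF 3 r) ≤ 1 - c * Real.log r / (r : ℝ) ^ 2 := by
  obtain ⟨C, hC, hlow⟩ := main_boundF 3 (by norm_num)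
  obtain ⟨c1, hc1, r₀, hcore⟩ := hcore
  obtain ⟨c2, hc2, hc2', hsmall⟩ := frac_main 3 (by norm_num)
  set R : ℕ := max r₀ 4 with hR
  have hlogR : 0 < Real.log R := Real.log_pos (by
    have : 4 ≤ R := le_max_right _ _
    exact_mod_cast (by omega : 1 < R))
  set c : ℝ := min (min c1 (1 / 2)) (c2 / Real.log R) with hc
  have hc0 : 0 < c := lt_min (lt_min hc1 (by norm_num)) (by positivity)
  refine ⟨c, C, hc0, hC, fun r hr => ⟨hlow r hr, ?_⟩⟩
  have hr0 : (0 : ℝ) < r := by exact_mod_cast (by omega : 0 < r)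
  have hr2 : (0 : ℝ) < (r : ℝ) ^ 2 := by positivity
  have hlog0 : 0 ≤ Real.log r := Real.log_nonneg (by exact_mod_cast (by omega : 1 ≤ r))
  have hlogle : Real.log r ≤ r := (Real.log_le_sub_one_of_pos hr0).trans (by linarith)
  have hd0 : 0 ≤ c * Real.log r / (r : ℝ) ^ 2 := by positivity
  have hd1 : c * Real.log r / (r : ℝ) ^ 2 ≤ 1 := by
    rw [div_le_one hr2]
    have h1 : c ≤ 1 := ((min_le_left _ _).trans (min_le_right _ _)).trans (by norm_num)
    have h2 : (1 : ℝ) ≤ r := by exact_mod_cast (by omega : 1 ≤ r)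
    calc c * Real.log r ≤ 1 * r := by gcongr
      _ ≤ r ^ 2 := by nlinarith
  refine csInf_le (AdmF_bddBelow 3 r) ?_
  rcases le_or_gt r₀ r with hcase | hcase
  · -- the core theorem
    obtain ⟨n₀, hn₀⟩ := hcore r hcase
    refine ⟨by linarith, by linarith, n₀, fun n hn G hG hcod => ?_⟩
    have hdual : HasFrac 3 r G := by
      refine hasFrac_of_dual hr hG fun y hy => ?_
      refine hn₀ n hn G hG (fun A hA => ?_) y (fun K hK hcl => ?_)
      · refine le_trans ?_ (hcod A hA)
        have hle : c ≤ c1 := (min_le_left _ _).trans (min_le_left _ _)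
        gcongr
      · exact hy K hK hcl
    exact hasFracD_of_hasFrac hdual
  · -- small r
    obtain ⟨n₀, hn₀⟩ := hsmall r hr
    refine ⟨by linarith, by linarith, n₀, fun n hn G hG hcod => ?_⟩
    have hfr : HasFrac 3 r G := by
      refine hn₀ n hn G hG fun A hA => ?_
      have h1 : (1 - c2 / (r : ℝ) ^ (3 - 1)) * (n : ℝ)
          ≤ (1 - c * Real.log r / (r : ℝ) ^ 2) * (n : ℝ) := by
        have h2 : c * Real.log r ≤ c2 := by
          have h3 : Real.log r ≤ Real.log R := by
            apply Real.log_le_log hr0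
            have : r ≤ R := hcase.le.trans (le_max_left _ _)
            exact_mod_cast this
          calc c * Real.log r ≤ c2 / Real.log R * Real.log R := by
                have := min_le_right (min c1 (1 / 2)) (c2 / Real.log R)
                gcongr
            _ = c2 := by field_simp
        have h4 : (r : ℝ) ^ (3 - 1) = (r : ℝ) ^ 2 := by norm_num
        rw [h4]
        gcongr
      refine h1.trans ((hcod A hA).trans (le_of_eq (congrArg Nat.cast (congrArg Finset.card ?_))))
      ext x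
      simp only [Finset.mem_filter]
    exact hasFracD_of_hasFrac hfr

end Pool.Agent.Lib.MP_5c685b_co
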