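import Mathlib

set_option autoImplicit false

namespace Pool.Agent.Lib.MP_5c685b_co

open Finset

theorem card_cyl {ι : Type} [Fintype ι] [DecidableEq ι] (q : ℕ) (hq : 1 ≤ q)
    (T : Finset ι) (S : Finset (Fin q)) :
    ((Finset.univ.filter (fun ω : ι → Fin q => ∀ t ∈ T, ω t ∈ S)).card : ℝ) =
      ((S.card : ℝ) / q) ^ T.card * ((q : ℝ) ^ Fintype.card ι) := by
  classical
  have h1 : (Finset.univ.filter (fun ω : ι → Fin q => ∀ t ∈ T, ω t ∈ S)) =
      Fintype.piFinset (fun t => if t ∈ T then S else Finset.univ) := by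
    ext ω
    simp only [Finset.mem_filter, Finset.mem_univ, true_and, Fintype.mem_piFinset]
    constructor
    · intro h t
      by_cases ht : t ∈ T
      · rw [if_pos ht]; exact h t ht
      · rw [if_neg ht]; exact Finset.mem_univ _
    · intro h t ht
      have := h t
      rwa [if_pos ht] at this
  rw [h1, Fintype.card_piFinset]
  have h2 : ∏ t, (if t ∈ T then S else Finset.univ : Finset (Fin q)).card =
      S.card ^ T.card * q ^ (Fintype.card ι - T.card) := by
    have h3 : ∀ t : ι, (if t ∈ T then S else Finset.univ : Finset (Fin q)).card =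
        if t ∈ T then S.card else q := by
      intro t
      split_ifs <;> simp
    simp only [h3]
    rw [Finset.prod_ite, Finset.prod_const, Finset.prod_const]
    congr 2
    · simp
    · rw [Finset.filter_not, Finset.card_sdiff_of_subset (Finset.filter_subset _ _)]
      simp
  rw [h2]
  push_cast
  have hq' : (q : ℝ) ≠ 0 := by positivity
  have h4 : T.card ≤ Fintype.card ι := Finset.card_le_univ T
  rw [div_pow, div_mul_eq_mul_div, eq_div_iff (pow_ne_zero _ hq'), mul_assoc, ← pow_add,
    Nat.sub_add_cancel h4]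

theorem random_system (k N q β E : ℕ) (hq : 1 ≤ q)
    (hsum : (N : ℝ) ^ (k - 1) * (((N : ℝ) / q) ^ E / (E.factorial : ℝ)) +
      (N : ℝ) ^ β * (1 - 1 / (q : ℝ)) ^ (Nat.choose β k) < 1) :
    ∃ H₀ : Finset (Finset (Fin N)), (∀ h ∈ H₀, h.card = k) ∧
      (∀ B : Finset (Fin N), B.card = k - 1 →
        ((Finset.univ \ B).filter (fun j => insert j B ∈ H₀)).card < E) ∧
      (∀ B : Finset (Fin N), β ≤ B.card → ∃ h ∈ H₀, h ⊆ B) := by
  classical
  have hq0 : (0 : ℝ) < q := by exact_mod_cast hq
  let z : Fin q := ⟨0, hq⟩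
  let Ω := Finset (Fin N) → Fin q
  let c1 : Finset (Fin N) → Finset (Fin N) → Finset Ω := fun A J =>
    Finset.univ.filter (fun ω : Ω => ∀ t ∈ J.image (fun j => insert j A), ω t ∈ ({z} : Finset (Fin q)))
  let c2 : Finset (Fin N) → Finset Ω := fun B =>
    Finset.univ.filter (fun ω : Ω => ∀ t ∈ B.powersetCard k, ω t ∈ (Finset.univ \ {z} : Finset (Fin q)))
  let Bad1 : Finset Ω := ((Finset.univ : Finset (Fin N)).powersetCard (k-1)).biUnion (fun A =>
    ((Finset.univ \ A).powersetCard E).biUnion (fun J => c1 A J))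
  let Bad2 : Finset Ω := ((Finset.univ : Finset (Fin N)).powersetCard β).biUnion c2
  set Q : ℝ := (q : ℝ) ^ Fintype.card (Finset (Fin N)) with hQ
  have hQpos : 0 < Q := pow_pos hq0 _
  have hΩ : ((Finset.univ : Finset Ω).card : ℝ) = Q := by
    rw [hQ, Finset.card_univ]
    simp [Ω]
  have hc1 : ∀ A ∈ (Finset.univ : Finset (Fin N)).powersetCard (k-1),
      ∀ J ∈ (Finset.univ \ A).powersetCard E, ((c1 A J).card : ℝ) = (1 / q) ^ E * Q := by
    intro A _ J hJ
    rw [Finset.mem_powersetCard] at hJ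
    have h1 := card_cyl q hq (J.image (fun j => insert j A)) ({z} : Finset (Fin q))
    have h2 : (J.image (fun j => insert j A)).card = E := by
      rw [Finset.card_image_of_injOn, hJ.2]
      intro i hi j hj hij
      have hi' : i ∈ insert j A := by
        have : insert i A = insert j A := hij
        rw [← this]
        exact Finset.mem_insert_self i A
      rw [Finset.mem_insert] at hi'
      rcases hi' with h | h
      · exact h
      · exact absurd h (Finset.mem_sdiff.1 (hJ.1 hi)).2
    rw [h2, Finset.card_singleton, Nat.cast_one] at h1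
    exact h1
  have hc2 : ∀ B ∈ (Finset.univ : Finset (Fin N)).powersetCard β,
      ((c2 B).card : ℝ) = (1 - 1 / q) ^ (Nat.choose β k) * Q := by
    intro B hB
    rw [Finset.mem_powersetCard] at hB
    have h1 := card_cyl q hq (B.powersetCard k) (Finset.univ \ {z} : Finset (Fin q))
    rw [Finset.card_powersetCard, hB.2] at h1
    have h2 : (((Finset.univ \ {z} : Finset (Fin q)).card : ℝ)) / q = 1 - 1 / q := by
      rw [Finset.card_sdiff_of_subset (Finset.subset_univ _), Finset.card_univ, Fintype.card_fin,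
        Finset.card_singleton, Nat.cast_sub hq, Nat.cast_one]
      field_simp
    rw [h2] at h1
    exact h1
  have hB1 : (Bad1.card : ℝ) ≤ ((N : ℝ) ^ (k - 1) * (((N : ℝ) / q) ^ E / (E.factorial : ℝ))) * Q := by
    have h1 : (Bad1.card : ℝ) ≤ ∑ A ∈ (Finset.univ : Finset (Fin N)).powersetCard (k-1),
        ∑ J ∈ (Finset.univ \ A).powersetCard E, ((c1 A J).card : ℝ) := by
      have h2 : Bad1.card ≤ ∑ A ∈ (Finset.univ : Finset (Fin N)).powersetCard (k-1),
        ∑ J ∈ (Finset.univ \ A).powersetCard E, (c1 A J).card := by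
        refine Finset.card_biUnion_le.trans ?_
        apply Finset.sum_le_sum
        intro A _
        exact Finset.card_biUnion_le
      exact_mod_cast h2
    refine h1.trans ?_
    have h3 : ∀ A ∈ (Finset.univ : Finset (Fin N)).powersetCard (k-1),
        ∑ J ∈ (Finset.univ \ A).powersetCard E, ((c1 A J).card : ℝ) ≤
          (((N : ℝ) / q) ^ E / (E.factorial : ℝ)) * Q := by
      intro A hA
      rw [Finset.sum_congr rfl (hc1 A hA), Finset.sum_const, Finset.card_powersetCard,
        nsmul_eq_mul]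
      have h4 : (((Finset.univ \ A).card.choose E : ℕ) : ℝ) ≤ (N : ℝ) ^ E / (E.factorial : ℝ) := by
        have h5 : (Finset.univ \ A).card ≤ N := by
          refine (Finset.card_le_univ _).trans ?_
          simp
        have h6 : (Finset.univ \ A).card.choose E ≤ N.choose E := Nat.choose_le_choose E h5
        calc (((Finset.univ \ A).card.choose E : ℕ) : ℝ) ≤ ((N.choose E : ℕ) : ℝ) := by
              exact_mod_cast h6
          _ ≤ (N : ℝ) ^ E / (E.factorial : ℝ) := Nat.choose_le_pow_div E N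
      have h7 : (0 : ℝ) ≤ (1 / q) ^ E * Q := by positivity
      calc _ ≤ ((N : ℝ) ^ E / (E.factorial : ℝ)) * ((1 / q) ^ E * Q) :=
            mul_le_mul_of_nonneg_right h4 h7
        _ = (((N : ℝ) / q) ^ E / (E.factorial : ℝ)) * Q := by
            rw [div_pow, div_pow, one_pow]
            ring
    refine (Finset.sum_le_sum h3).trans ?_
    rw [Finset.sum_const, Finset.card_powersetCard, nsmul_eq_mul, Finset.card_univ,
      Fintype.card_fin, mul_assoc]
    apply mul_le_mul_of_nonneg_right _ (by positivity)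
    exact_mod_cast Nat.choose_le_pow N (k-1)
  have hB2 : (Bad2.card : ℝ) ≤ ((N : ℝ) ^ β * (1 - 1 / (q : ℝ)) ^ (Nat.choose β k)) * Q := by
    have h1 : (Bad2.card : ℝ) ≤ ∑ B ∈ (Finset.univ : Finset (Fin N)).powersetCard β,
        ((c2 B).card : ℝ) := by
      have h2 : Bad2.card ≤ ∑ B ∈ (Finset.univ : Finset (Fin N)).powersetCard β, (c2 B).card :=
        Finset.card_biUnion_le
      exact_mod_cast h2
    refine h1.trans ?_
    rw [Finset.sum_congr rfl hc2, Finset.sum_const, Finset.card_powersetCard, nsmul_eq_mul,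
      Finset.card_univ, Fintype.card_fin, mul_assoc]
    have h3 : (0 : ℝ) ≤ (1 - 1 / (q : ℝ)) ^ (Nat.choose β k) * Q := by
      have : 0 ≤ 1 - 1 / (q : ℝ) := by
        rw [sub_nonneg, div_le_one hq0]
        exact_mod_cast hq
      positivity
    apply mul_le_mul_of_nonneg_right _ h3
    exact_mod_cast Nat.choose_le_pow N β
  -- a good point exists
  have hex : ∃ ω : Ω, ω ∉ Bad1 ∪ Bad2 := by
    by_contra hcon
    push Not at hcon
    have h1 : (Finset.univ : Finset Ω) ⊆ Bad1 ∪ Bad2 := fun ω _ => hcon ω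
    have h2 : (Finset.univ : Finset Ω).card ≤ Bad1.card + Bad2.card :=
      (Finset.card_le_card h1).trans (Finset.card_union_le _ _)
    have h3 : Q ≤ (Bad1.card : ℝ) + Bad2.card := by
      rw [← hΩ]
      exact_mod_cast h2
    have h4 : Q ≤ ((N : ℝ) ^ (k - 1) * (((N : ℝ) / q) ^ E / (E.factorial : ℝ)) +
      (N : ℝ) ^ β * (1 - 1 / (q : ℝ)) ^ (Nat.choose β k)) * Q := by
      rw [add_mul]
      linarith
    have h5 : ((N : ℝ) ^ (k - 1) * (((N : ℝ) / q) ^ E / (E.factorial : ℝ)) +
      (N : ℝ) ^ β * (1 - 1 / (q : ℝ)) ^ (Nat.choose β k)) * Q < 1 * Q :=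
      mul_lt_mul_of_pos_right hsum hQpos
    linarith
  obtain ⟨ω, hω⟩ := hex
  rw [Finset.mem_union, not_or] at hω
  obtain ⟨hω1, hω2⟩ := hω
  refine ⟨((Finset.univ : Finset (Fin N)).powersetCard k).filter (fun e => ω e = z), ?_, ?_, ?_⟩
  · intro h hh
    exact (Finset.mem_powersetCard.1 (Finset.mem_filter.1 hh).1).2
  · intro A hA
    by_contra hbig
    push Not at hbig
    obtain ⟨J, hJ, hJc⟩ := Finset.exists_subset_card_eq hbig
    apply hω1
    rw [Finset.mem_biUnion]
    refine ⟨A, Finset.mem_powersetCard.2 ⟨Finset.subset_univ _, hA⟩, ?_⟩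
    rw [Finset.mem_biUnion]
    refine ⟨J, Finset.mem_powersetCard.2 ⟨hJ.trans (Finset.filter_subset _ _), hJc⟩, ?_⟩
    rw [Finset.mem_filter]
    refine ⟨Finset.mem_univ _, ?_⟩
    intro t ht
    rw [Finset.mem_image] at ht
    obtain ⟨j, hj, rfl⟩ := ht
    rw [Finset.mem_singleton]
    exact (Finset.mem_filter.1 (Finset.mem_filter.1 (hJ hj)).2).2
  · intro B hB
    by_contra hno
    push Not at hno
    obtain ⟨B', hB', hBc⟩ := Finset.exists_subset_card_eq hB
    apply hω2
    rw [Finset.mem_biUnion]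
    refine ⟨B', Finset.mem_powersetCard.2 ⟨Finset.subset_univ _, hBc⟩, ?_⟩
    rw [Finset.mem_filter]
    refine ⟨Finset.mem_univ _, ?_⟩
    intro t ht
    rw [Finset.mem_powersetCard] at ht
    rw [Finset.mem_sdiff, Finset.mem_singleton]
    refine ⟨Finset.mem_univ _, ?_⟩
    intro htz
    apply hno t _ (ht.1.trans hB')
    rw [Finset.mem_filter, Finset.mem_powersetCard]
    exact ⟨⟨Finset.subset_univ _, ht.2⟩, htz⟩

end Pool.Agent.Lib.MP_5c685b_co
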