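import Mathlib
import Pool.Agent.Lib.MP_5c685b_co.Construction
import Pool.Agent.Lib.MP_5c685b_co.Random

set_option autoImplicit false

namespace Pool.Agent.Lib.MP_5c685b_co

open Finset

/-- The union bound. -/
theorem union_bound (k β N q E : ℕ) (K : ℝ) (hk : 2 ≤ k) (hβ : 2 ≤ β) (hN : N = β ^ (k - 1))
    (hK : K = 2 * (k : ℝ) ^ k * (k.factorial : ℝ)) (hkβ : k ≤ β)
    (hq1 : 1 ≤ q) (hq2 : (q : ℝ) * (K * Real.log N) ≤ N)
    (hq3 : (N : ℝ) ≤ q * (2 * K * Real.log N))
    (hE : (6 * K + k) * Real.log N ≤ E) :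
    (N : ℝ) ^ (k - 1) * (((N : ℝ) / q) ^ E / (E.factorial : ℝ)) +
      (N : ℝ) ^ β * (1 - 1 / (q : ℝ)) ^ (Nat.choose β k) < 1 := by
  set L : ℝ := Real.log N with hL
  have hN2 : 2 ≤ N := by
    rw [hN]
    calc 2 ≤ β := hβ
      _ = β ^ 1 := (pow_one β).symm
      _ ≤ β ^ (k-1) := Nat.pow_le_pow_right (by omega) (by omega)
  have hNpos : (0 : ℝ) < N := by exact_mod_cast (by omega : 0 < N)
  have hN2' : (2 : ℝ) ≤ N := by exact_mod_cast hN2
  have hLpos : 0 < L := Real.log_pos (by linarith)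
  have hexpL : Real.exp L = N := Real.exp_log hNpos
  have hq0 : (0 : ℝ) < q := by exact_mod_cast hq1
  have hk0 : (0 : ℝ) < k := by exact_mod_cast (by omega : 0 < k)
  have hf0 : (0 : ℝ) < (k.factorial : ℝ) := by exact_mod_cast Nat.factorial_pos k
  have hK0 : 0 < K := by rw [hK]; positivity
  have hpowN : ∀ n : ℕ, (N : ℝ) ^ n = Real.exp (n * L) := by
    intro n
    rw [Real.exp_nat_mul, hexpL]
  -- first term
  have hT1 : (N : ℝ) ^ (k - 1) * (((N : ℝ) / q) ^ E / (E.factorial : ℝ)) ≤ 1 / N := by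
    have h1 : (N : ℝ) / q ≤ 2 * K * L := by
      rw [div_le_iff₀ hq0]
      linarith
    have h2 : ((N : ℝ) / q) ^ E / (E.factorial : ℝ) ≤ (2 * K * L) ^ E / (E.factorial : ℝ) := by
      apply div_le_div_of_nonneg_right _ (by positivity)
      exact pow_le_pow_left₀ (by positivity) h1 E
    have h3 : (2 * K * L) ^ E / (E.factorial : ℝ) =
        Real.exp (-(E : ℝ)) * ((Real.exp 1 * (2 * K * L)) ^ E / (E.factorial : ℝ)) := by
      rw [mul_pow (Real.exp 1), ← Real.exp_nat_mul, mul_one, mul_div_assoc, ← mul_assoc,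
        ← Real.exp_add, neg_add_cancel, Real.exp_zero, one_mul]
    have h4 : (Real.exp 1 * (2 * K * L)) ^ E / (E.factorial : ℝ) ≤
        Real.exp (Real.exp 1 * (2 * K * L)) :=
      Real.pow_div_factorial_le_exp _ (by positivity) E
    have h5 : ((N : ℝ) / q) ^ E / (E.factorial : ℝ) ≤
        Real.exp (-(E : ℝ) + Real.exp 1 * (2 * K * L)) := by
      rw [Real.exp_add]
      refine h2.trans ?_
      rw [h3]
      exact mul_le_mul_of_nonneg_left h4 (Real.exp_pos _).le
    rw [hpowN]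
    have h6 : Real.exp ((k - 1 : ℕ) * L) * (((N : ℝ) / q) ^ E / (E.factorial : ℝ)) ≤
        Real.exp ((k - 1 : ℕ) * L + (-(E : ℝ) + Real.exp 1 * (2 * K * L))) := by
      rw [Real.exp_add ((k - 1 : ℕ) * L)]
      exact mul_le_mul_of_nonneg_left h5 (Real.exp_pos _).le
    refine h6.trans ?_
    have h7 : (1 : ℝ) / N = Real.exp (-L) := by
      rw [Real.exp_neg, hexpL, one_div]
    rw [h7]
    apply Real.exp_le_exp.2
    have h8 : ((k - 1 : ℕ) : ℝ) = k - 1 := by
      rw [Nat.cast_sub (by omega)]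
      simp
    rw [h8]
    have h9 : Real.exp 1 < 3 := by
      have := Real.exp_one_lt_d9
      linarith
    have h10 : Real.exp 1 * (2 * K * L) ≤ 3 * (2 * K * L) :=
      mul_le_mul_of_nonneg_right h9.le (by positivity)
    nlinarith
  -- second term
  have hT2 : (N : ℝ) ^ β * (1 - 1 / (q : ℝ)) ^ (Nat.choose β k) ≤ 1 / N ^ 2 := by
    have h1 : (1 - 1 / (q : ℝ)) ≤ Real.exp (-(1 / (q : ℝ))) := by
      have := Real.add_one_le_exp (-(1 / (q : ℝ)))
      linarith
    have h0 : 0 ≤ 1 - 1 / (q : ℝ) := by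
      rw [sub_nonneg, div_le_one hq0]
      exact_mod_cast hq1
    have h2 : (1 - 1 / (q : ℝ)) ^ (Nat.choose β k) ≤
        Real.exp ((Nat.choose β k : ℕ) * (-(1 / (q : ℝ)))) := by
      rw [Real.exp_nat_mul]
      exact pow_le_pow_left₀ h0 h1 _
    have h3 : 2 * β * L ≤ (Nat.choose β k : ℕ) * (1 / (q : ℝ)) := by
      have h4 : ((β + 1 - k : ℕ) : ℝ) ^ k / (k.factorial : ℝ) ≤ (Nat.choose β k : ℕ) :=
        Nat.pow_le_choose k β
      have h5 : (β : ℝ) / k ≤ ((β + 1 - k : ℕ) : ℝ) := by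
        rw [div_le_iff₀ hk0]
        have h6 : β ≤ (β + 1 - k) * k := by
          obtain ⟨d, rfl⟩ := Nat.exists_eq_add_of_le hkβ
          have : k + d + 1 - k = d + 1 := by omega
          rw [this]
          nlinarith
        exact_mod_cast h6
      have h6 : ((β : ℝ) / k) ^ k / (k.factorial : ℝ) ≤ (Nat.choose β k : ℕ) := by
        refine le_trans ?_ h4
        apply div_le_div_of_nonneg_right _ hf0.le
        exact pow_le_pow_left₀ (by positivity) h5 k
      have h7 : K * L / N ≤ 1 / q := by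
        rw [div_le_div_iff₀ hNpos hq0]
        linarith
      have h8 : ((β : ℝ) / k) ^ k / (k.factorial : ℝ) * (K * L / N) = 2 * β * L := by
        have h9 : (β : ℝ) ^ k = β * N := by
          rw [hN]
          push_cast
          rw [← pow_succ', Nat.sub_add_cancel (by omega)]
        rw [div_pow, h9, hK]
        field_simp
      calc 2 * β * L = ((β : ℝ) / k) ^ k / (k.factorial : ℝ) * (K * L / N) := h8.symm
        _ ≤ (Nat.choose β k : ℕ) * (1 / (q : ℝ)) := by
          apply mul_le_mul h6 h7 (by positivity) (by positivity)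
    rw [hpowN]
    have h4 : Real.exp (β * L) * (1 - 1 / (q : ℝ)) ^ (Nat.choose β k) ≤
        Real.exp (β * L + (Nat.choose β k : ℕ) * (-(1 / (q : ℝ)))) := by
      rw [Real.exp_add]
      exact mul_le_mul_of_nonneg_left h2 (Real.exp_pos _).le
    refine h4.trans ?_
    have h7 : (1 : ℝ) / N ^ 2 = Real.exp (-(2 * L)) := by
      rw [Real.exp_neg, two_mul, Real.exp_add, hexpL, one_div, pow_two]
    rw [h7]
    apply Real.exp_le_exp.2
    have hβ' : (2 : ℝ) ≤ β := by exact_mod_cast hβ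
    nlinarith
  have h1 : (1 : ℝ) / N ≤ 1 / 2 := by
    apply one_div_le_one_div_of_le (by norm_num) hN2'
  have h2 : (1 : ℝ) / N ^ 2 ≤ 1 / 4 := by
    apply one_div_le_one_div_of_le (by norm_num)
    nlinarith
  linarith

theorem Adm_bddBelow (k r : ℕ) : BddBelow (Adm k r) := ⟨0, fun _ hδ => hδ.1⟩

theorem one_mem_Adm (k r : ℕ) (hk : 2 ≤ k) : (1 : ℝ) ∈ Adm k r := by
  refine ⟨zero_le_one, le_refl _, k, ?_⟩
  intro n hn G hG _ hdeg
  exfalso
  obtain ⟨A, _, hA⟩ := Finset.exists_subset_card_eq (s := (Finset.univ : Finset (Fin n)))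
    (n := k - 1) (by simp; omega)
  have h1 := hdeg A hA
  rw [one_mul] at h1
  have h2 : n ≤ (G.filter (fun e => A ⊆ e)).card := by exact_mod_cast h1
  have h3 : (G.filter (fun e => A ⊆ e)).card ≤ (Finset.univ \ A : Finset (Fin n)).card := by
    apply Finset.card_le_card_of_surjOn (fun v => insert v A)
    intro e he
    rw [Finset.mem_coe, Finset.mem_filter] at he
    obtain ⟨heG, hAe⟩ := he
    have hec : e.card = k := hG e heG
    have h2 : (e \ A).card = 1 := by
      rw [Finset.card_sdiff_of_subset hAe]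
      omega
    obtain ⟨v, hv⟩ := Finset.card_eq_one.1 h2
    have hve : v ∈ e \ A := by rw [hv]; exact Finset.mem_singleton_self v
    rw [Finset.mem_sdiff] at hve
    refine ⟨v, ?_, ?_⟩
    · rw [Finset.mem_coe, Finset.mem_sdiff]
      exact ⟨Finset.mem_univ _, hve.2⟩
    · have : insert v A = e := by
        rw [Finset.insert_eq, ← hv, Finset.sdiff_union_of_subset hAe]
      exact this
  rw [Finset.card_sdiff_of_subset (Finset.subset_univ _), Finset.card_univ, Fintype.card_fin] at h3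
  omega

theorem main_bound (k : ℕ) (hk : 2 ≤ k) : ∃ C : ℝ, 0 < C ∧ ∀ r : ℕ, k < r →
    1 - C * Real.log r / (r : ℝ) ^ (k - 1) ≤ sInf (Adm k r) := by
  set K : ℝ := 2 * (k : ℝ) ^ k * (k.factorial : ℝ) with hK
  have hk0 : (0 : ℝ) < k := by exact_mod_cast (by omega : 0 < k)
  have hf0 : (1 : ℝ) ≤ (k.factorial : ℝ) := by exact_mod_cast Nat.factorial_pos k
  have hkk : (1 : ℝ) ≤ (k : ℝ) ^ k := by
    apply one_le_pow₀
    exact_mod_cast (by omega : 1 ≤ k)
  have hK0 : 0 < K := by rw [hK]; positivity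
  refine ⟨(6 * K + k + 2) * k * (k : ℝ) ^ k, by positivity, ?_⟩
  intro r hkr
  have hr0 : (0 : ℝ) < r := by exact_mod_cast (by omega : 0 < r)
  have hrp : (0 : ℝ) < (r : ℝ) ^ (k - 1) := by positivity
  have hnonneg : 0 ≤ sInf (Adm k r) := Real.sInf_nonneg (fun _ hδ => hδ.1)
  set β : ℕ := (r + k - 2) / (k - 1) with hβ
  have hk1 : 0 < k - 1 := by omega
  have hβ1 : r ≤ (k - 1) * β := by
    have h1 : r + k - 2 < (k - 1) * (β + 1) := Nat.lt_mul_div_succ _ hk1
    rw [mul_add, mul_one] at h1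
    omega
  have hβ2 : ∀ b : ℕ, r ≤ (k - 1) * b → β ≤ b := by
    intro b hb
    rw [hβ]
    have h2 : r + k - 2 < (b + 1) * (k - 1) := by
      rw [add_mul, one_mul, mul_comm b]
      omega
    have := (Nat.div_lt_iff_lt_mul hk1).2 h2
    omega
  have hβr : β ≤ r := hβ2 r (Nat.le_mul_of_pos_left r hk1)
  have hβge : 2 ≤ β := by
    by_contra hcon
    have h1 : β ≤ 1 := by omega
    have h2 : (k - 1) * β ≤ (k - 1) * 1 := Nat.mul_le_mul_left _ h1
    omega
  set N : ℕ := β ^ (k - 1) with hN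
  have hN2 : 2 ≤ N := by
    rw [hN]
    calc 2 ≤ β := hβge
      _ = β ^ 1 := (pow_one β).symm
      _ ≤ β ^ (k-1) := Nat.pow_le_pow_right (by omega) (by omega)
  have hNpos : (0 : ℝ) < N := by exact_mod_cast (by omega : 0 < N)
  have hN2' : (2 : ℝ) ≤ N := by exact_mod_cast hN2
  set L : ℝ := Real.log N with hL
  have hβ0 : (0 : ℝ) < β := by exact_mod_cast (by omega : 0 < β)
  have hLhalf : 1 / 2 ≤ L := by
    have h1 : Real.log 2 ≤ L := Real.log_le_log (by norm_num) hN2'
    have h2 := Real.log_two_gt_d9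
    linarith
  have hlogr : 0 ≤ Real.log r := Real.log_nonneg (by exact_mod_cast (by omega : 1 ≤ r))
  have hLr : L ≤ k * Real.log r := by
    rw [hL, hN]
    push_cast
    rw [Real.log_pow]
    have h1 : Real.log β ≤ Real.log r := Real.log_le_log hβ0 (by exact_mod_cast hβr)
    have h2 : ((k - 1 : ℕ) : ℝ) ≤ k := by exact_mod_cast (by omega : k - 1 ≤ k)
    have h3 : 0 ≤ Real.log β := Real.log_nonneg (by exact_mod_cast (by omega : 1 ≤ β))
    exact mul_le_mul h2 h1 h3 hk0.le
  have hrN : (r : ℝ) ^ (k - 1) ≤ (k : ℝ) ^ k * N := by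
    have h1 : r ^ (k-1) ≤ k ^ k * N := by
      calc r ^ (k-1) ≤ ((k - 1) * β) ^ (k-1) := Nat.pow_le_pow_left hβ1 _
        _ = (k-1) ^ (k-1) * N := by rw [mul_pow]
        _ ≤ k ^ k * N := by
          apply Nat.mul_le_mul_right
          calc (k-1)^(k-1) ≤ k ^ (k-1) := Nat.pow_le_pow_left (by omega) _
            _ ≤ k ^ k := Nat.pow_le_pow_right (by omega) (by omega)
    exact_mod_cast h1
  -- the key comparison
  have hcomp : (6 * K + k + 2) * L / N ≤
      (6 * K + k + 2) * k * (k : ℝ) ^ k * Real.log r / (r : ℝ) ^ (k - 1) := by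
    rw [div_le_div_iff₀ hNpos hrp]
    have h1 : (6 * K + k + 2) * L ≤ (6 * K + k + 2) * (k * Real.log r) :=
      mul_le_mul_of_nonneg_left hLr (by positivity)
    calc (6 * K + k + 2) * L * (r : ℝ) ^ (k - 1)
        ≤ (6 * K + k + 2) * (k * Real.log r) * ((k : ℝ) ^ k * N) :=
          mul_le_mul h1 hrN hrp.le (by positivity)
      _ = (6 * K + k + 2) * k * (k : ℝ) ^ k * Real.log r * N := by ring
  by_cases hcase : (N : ℝ) < K * L
  · -- trivial case
    have h1 : 1 ≤ (6 * K + k + 2) * L / N := by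
      rw [le_div_iff₀ hNpos, one_mul]
      nlinarith
    linarith
  · push Not at hcase
    have hkβ : k ≤ β := by
      by_contra hcon
      push Not at hcon
      have h1 : N ≤ k ^ k := by
        rw [hN]
        calc β ^ (k-1) ≤ k ^ (k-1) := Nat.pow_le_pow_left hcon.le _
          _ ≤ k ^ k := Nat.pow_le_pow_right (by omega) (by omega)
      have h1' : (N : ℝ) ≤ (k : ℝ) ^ k := by exact_mod_cast h1
      have h2 : (k : ℝ) ^ k ≤ N := by
        refine le_trans ?_ hcase
        rw [hK]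
        have h3 : (1 : ℝ) ≤ (k.factorial : ℝ) * (2 * L) := by nlinarith
        nlinarith
      -- so N = k^k, impossible as N ≤ β^(k-1) < k^k
      have h3 : N < k ^ k := by
        rw [hN]
        calc β ^ (k-1) < k ^ (k-1) := Nat.pow_lt_pow_left hcon (by omega)
          _ ≤ k ^ k := Nat.pow_le_pow_right (by omega) (by omega)
      have h3' : (N : ℝ) < (k : ℝ) ^ k := by exact_mod_cast h3
      linarith
    set q : ℕ := ⌊(N : ℝ) / (K * L)⌋₊ with hq
    have hKL : 0 < K * L := by positivity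
    have hdiv1 : 1 ≤ (N : ℝ) / (K * L) := by
      rw [le_div_iff₀ hKL]
      linarith
    have hq1 : 1 ≤ q := by
      rw [hq]
      exact Nat.le_floor (by exact_mod_cast hdiv1)
    have hq2 : (q : ℝ) * (K * L) ≤ N := by
      have h1 : (q : ℝ) ≤ (N : ℝ) / (K * L) := Nat.floor_le (by positivity)
      rwa [le_div_iff₀ hKL] at h1
    have hq3 : (N : ℝ) ≤ q * (2 * K * L) := by
      have h1 : (N : ℝ) / (K * L) < q + 1 := Nat.lt_floor_add_one _
      rw [div_lt_iff₀ hKL] at h1
      have h2 : (1 : ℝ) ≤ q := by exact_mod_cast hq1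
      nlinarith
    set E : ℕ := ⌈(6 * K + k) * L⌉₊ with hE
    have hE1 : (6 * K + k) * L ≤ E := Nat.le_ceil _
    have hE2 : (E : ℝ) < (6 * K + k) * L + 1 := Nat.ceil_lt_add_one (by positivity)
    have hE3 : (E : ℝ) ≤ (6 * K + k + 2) * L := by
      nlinarith
    have hEpos : 1 ≤ E := by
      rw [hE]
      exact Nat.ceil_pos.2 (by positivity)
    have hsum := union_bound k β N q E K hk hβge hN hK hkβ hq1 hq2 hq3 hE1
    obtain ⟨H₀, hH1, hH2, hH3⟩ := random_system k N q β E hq1 hsum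
    have hEN : (E : ℝ) / N ≤ (6 * K + k + 2) * L / N :=
      div_le_div_of_nonneg_right hE3 hNpos.le
    by_cases hEN' : E < N
    · have h1 : 1 - (E : ℝ) / N ≤ sInf (Adm k r) := by
        apply le_csInf ⟨1, one_mem_Adm k r hk⟩
        intro δ hδ
        exact lower_of_system k r N E hk hkr H₀ hH1 hEpos hEN' hH2
          (fun B hB => hH3 B (hβ2 _ hB)) δ hδ
      linarith
    · push Not at hEN'
      have h1 : 1 ≤ (E : ℝ) / N := by
        rw [le_div_iff₀ hNpos, one_mul]
        exact_mod_cast hEN'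
      linarith

end Pool.Agent.Lib.MP_5c685b_co
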