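import Mathlib

/-!
# MP_5c685b_co: the slack lemma (part F of route B)

Self-contained.  For a finite set `s` with at least `4 r` elements (`r ≥ 18`) and a function `y` on
the triples of `s` with nonnegative sum over every `r`-subset, the total of `y` over `s` is at least
`1/54` times the Euclidean norm of the whole vector
`(y(s), (y_s(a))_a, (y_s(ab))_{ab}, (y(abc))_{abc})`.
-/

open Finset

set_option linter.unusedSectionVars false

namespace MP5c68

variable {V : Type*} [DecidableEq V]

/-! ## Functions on the subsets of a finite set -/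

/-- The sign of `a` in `ω`. -/
def sg (ω : Finset V) (a : V) : ℝ := if a ∈ ω then 1 else -1

/-- The character of `T`. -/
def chi (T ω : Finset V) : ℝ := ∏ a ∈ T, sg ω a

/-- The function on subsets with Fourier coefficients `c`. -/
def poly (u : Finset V) (c : Finset V → ℝ) (ω : Finset V) : ℝ :=
  ∑ T ∈ u.powerset, c T * chi T ω

/-- Mean over the subsets of `u`. -/
noncomputable def mean (u : Finset V) (F : Finset V → ℝ) : ℝ := (∑ ω ∈ u.powerset, F ω) / 2 ^ u.card

lemma mean_congr {u : Finset V} {F G : Finset V → ℝ} (h : ∀ ω ⊆ u, F ω = G ω) :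
    mean u F = mean u G := by
  unfold mean
  congr 1
  exact Finset.sum_congr rfl fun ω hω => h ω (Finset.mem_powerset.1 hω)

lemma mean_mono {u : Finset V} {F G : Finset V → ℝ} (h : ∀ ω ⊆ u, F ω ≤ G ω) :
    mean u F ≤ mean u G := by
  unfold mean
  gcongr with ω hω
  exact h ω (Finset.mem_powerset.1 hω)

lemma mean_nonneg {u : Finset V} {F : Finset V → ℝ} (h : ∀ ω ⊆ u, 0 ≤ F ω) :
    0 ≤ mean u F := by
  unfold mean
  exact div_nonneg (Finset.sum_nonneg fun ω hω => h ω (Finset.mem_powerset.1 hω)) (by positivity)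

lemma mean_add (u : Finset V) (F G : Finset V → ℝ) :
    mean u (fun ω => F ω + G ω) = mean u F + mean u G := by
  unfold mean
  rw [Finset.sum_add_distrib, add_div]

lemma mean_sub (u : Finset V) (F G : Finset V → ℝ) :
    mean u (fun ω => F ω - G ω) = mean u F - mean u G := by
  unfold mean
  rw [Finset.sum_sub_distrib, sub_div]

lemma mean_mul_left (u : Finset V) (k : ℝ) (F : Finset V → ℝ) :
    mean u (fun ω => k * F ω) = k * mean u F := by
  unfold mean
  rw [← Finset.mul_sum, mul_div_assoc]

lemma mean_insert {a : V} {u : Finset V} (ha : a ∉ u) (F : Finset V → ℝ) :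
    mean (insert a u) F = (mean u F + mean u (fun ω => F (insert a ω))) / 2 := by
  unfold mean
  rw [Finset.sum_powerset_insert ha, Finset.card_insert_of_notMem ha, pow_succ]
  field_simp

lemma mean_empty (F : Finset V → ℝ) : mean (∅ : Finset V) F = F ∅ := by
  simp [mean]

/-- Cauchy–Schwarz. -/
lemma mean_mul_sq_le (u : Finset V) (F G : Finset V → ℝ) :
    (mean u (fun ω => F ω * G ω)) ^ 2
      ≤ mean u (fun ω => F ω ^ 2) * mean u (fun ω => G ω ^ 2) := by
  unfold mean
  have h := Finset.sum_mul_sq_le_sq_mul_sq u.powerset F G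
  rw [div_pow, div_mul_div_comm, ← pow_two]
  gcongr

lemma chi_insert_of_subset {a : V} {u T ω : Finset V} (ha : a ∉ u) (hT : T ⊆ u) :
    chi T (insert a ω) = chi T ω := by
  unfold chi
  refine Finset.prod_congr rfl fun b hb => ?_
  have hba : b ≠ a := fun h => ha (h ▸ hT hb)
  unfold sg
  simp [hba]

lemma chi_insert_left {a : V} {T ω : Finset V} (ha : a ∉ T) :
    chi (insert a T) ω = sg ω a * chi T ω := by
  unfold chi
  rw [Finset.prod_insert ha]

lemma poly_insert {a : V} {u : Finset V} (ha : a ∉ u) (c : Finset V → ℝ) (ω : Finset V) :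
    poly (insert a u) c ω = poly u c ω + sg ω a * poly u (fun T => c (insert a T)) ω := by
  unfold poly
  rw [Finset.sum_powerset_insert ha, Finset.mul_sum]
  congr 1
  refine Finset.sum_congr rfl fun T hT => ?_
  rw [chi_insert_left fun h => ha (Finset.mem_powerset.1 hT h)]
  ring

lemma poly_insert_right {a : V} {u : Finset V} (ha : a ∉ u) (c : Finset V → ℝ) (ω : Finset V) :
    poly u c (insert a ω) = poly u c ω := by
  unfold poly
  refine Finset.sum_congr rfl fun T hT => ?_
  rw [chi_insert_of_subset ha (Finset.mem_powerset.1 hT)]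

lemma poly_insert_of_notMem {a : V} {u ω : Finset V} (ha : a ∉ u) (hω : ω ⊆ u)
    (c : Finset V → ℝ) :
    poly (insert a u) c ω = poly u c ω - poly u (fun T => c (insert a T)) ω := by
  rw [poly_insert ha]
  have : sg ω a = -1 := by
    unfold sg
    rw [if_neg fun h => ha (hω h)]
  rw [this]
  ring

lemma poly_insert_of_mem {a : V} {u : Finset V} (ha : a ∉ u) (ω : Finset V)
    (c : Finset V → ℝ) :
    poly (insert a u) c (insert a ω) = poly u c ω + poly u (fun T => c (insert a T)) ω := by
  rw [poly_insert ha, poly_insert_right ha, poly_insert_right ha]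
  have : sg (insert a ω) a = 1 := by
    unfold sg
    rw [if_pos (Finset.mem_insert_self a ω)]
  rw [this, one_mul]

/-- The mean is the constant coefficient. -/
lemma mean_poly (u : Finset V) (c : Finset V → ℝ) : mean u (poly u c) = c ∅ := by
  induction u using Finset.induction_on generalizing c with
  | empty => simp [mean_empty, poly, chi]
  | insert a u ha ih =>
    rw [mean_insert ha]
    have h1 : mean u (poly (insert a u) c)
        = mean u (poly u c) - mean u (poly u fun T => c (insert a T)) := by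
      rw [← mean_sub]
      exact mean_congr fun ω hω => poly_insert_of_notMem ha hω c
    have h2 : mean u (fun ω => poly (insert a u) c (insert a ω))
        = mean u (poly u c) + mean u (poly u fun T => c (insert a T)) := by
      rw [← mean_add]
      exact mean_congr fun ω _ => poly_insert_of_mem ha ω c
    rw [h1, h2, ih]
    ring

/-- Parseval. -/
lemma mean_poly_sq (u : Finset V) (c : Finset V → ℝ) :
    mean u (fun ω => poly u c ω ^ 2) = ∑ T ∈ u.powerset, c T ^ 2 := by
  induction u using Finset.induction_on generalizing c with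
  | empty => simp [mean_empty, poly, chi]
  | insert a u ha ih =>
    rw [mean_insert ha, Finset.sum_powerset_insert ha, ← ih, ← ih fun T => c (insert a T)]
    have h1 : mean u (fun ω => poly (insert a u) c ω ^ 2)
        = mean u (fun ω => (poly u c ω - poly u (fun T => c (insert a T)) ω) ^ 2) :=
      mean_congr fun ω hω => by rw [poly_insert_of_notMem ha hω c]
    have h2 : mean u (fun ω => poly (insert a u) c (insert a ω) ^ 2)
        = mean u (fun ω => (poly u c ω + poly u (fun T => c (insert a T)) ω) ^ 2) :=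
      mean_congr fun ω _ => by rw [poly_insert_of_mem ha ω c]
    rw [h1, h2, ← mean_add, ← mean_add]
    rw [div_eq_iff (by norm_num : (2 : ℝ) ≠ 0), mul_comm, ← mean_mul_left]
    exact mean_congr fun ω _ => by ring

/-- Bonami's inequality for the fourth moment. -/
theorem bonami (u : Finset V) (d : ℕ) (c : Finset V → ℝ) (hc : ∀ T ⊆ u, d < T.card → c T = 0) :
    mean u (fun ω => poly u c ω ^ 4) ≤ 9 ^ d * (mean u (fun ω => poly u c ω ^ 2)) ^ 2 := by
  induction u using Finset.induction_on generalizing c d with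
  | empty =>
    simp only [mean_empty]
    have h9 : (1 : ℝ) ≤ 9 ^ d := one_le_pow₀ (by norm_num)
    have h0 : 0 ≤ poly (∅ : Finset V) c ∅ ^ 4 := by positivity
    calc poly (∅ : Finset V) c ∅ ^ 4 = 1 * poly (∅ : Finset V) c ∅ ^ 4 := by ring
      _ ≤ 9 ^ d * poly (∅ : Finset V) c ∅ ^ 4 := by gcongr
      _ = 9 ^ d * (poly (∅ : Finset V) c ∅ ^ 2) ^ 2 := by ring
  | insert a u ha ih =>
    set c' : Finset V → ℝ := fun T => c (insert a T) with hc'
    have hg : ∀ T ⊆ u, d < T.card → c T = 0 := fun T hT =>
      hc T (hT.trans (Finset.subset_insert a u))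
    set A : ℝ := mean u (fun ω => poly u c ω ^ 2) with hA
    set B : ℝ := mean u (fun ω => poly u c' ω ^ 2) with hB
    have hA0 : 0 ≤ A := mean_nonneg fun ω _ => by positivity
    have hB0 : 0 ≤ B := mean_nonneg fun ω _ => by positivity
    have hG4 := ih d c hg
    rw [← hA] at hG4
    -- the square
    have hsq : mean (insert a u) (fun ω => poly (insert a u) c ω ^ 2) = A + B := by
      rw [mean_poly_sq, Finset.sum_powerset_insert ha, hA, hB, mean_poly_sq, mean_poly_sq]
    -- the fourth moment
    have h4 : mean (insert a u) (fun ω => poly (insert a u) c ω ^ 4)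
        = mean u (fun ω => poly u c ω ^ 4)
          + 6 * mean u (fun ω => poly u c ω ^ 2 * poly u c' ω ^ 2)
          + mean u (fun ω => poly u c' ω ^ 4) := by
      rw [mean_insert ha]
      have h1 : mean u (fun ω => poly (insert a u) c ω ^ 4)
          = mean u (fun ω => (poly u c ω - poly u c' ω) ^ 4) :=
        mean_congr fun ω hω => by rw [poly_insert_of_notMem ha hω c]
      have h2 : mean u (fun ω => poly (insert a u) c (insert a ω) ^ 4)
          = mean u (fun ω => (poly u c ω + poly u c' ω) ^ 4) :=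
        mean_congr fun ω _ => by rw [poly_insert_of_mem ha ω c]
      rw [h1, h2, ← mean_add, ← mean_mul_left, ← mean_add, ← mean_add]
      rw [div_eq_iff (by norm_num : (2 : ℝ) ≠ 0), mul_comm, ← mean_mul_left]
      exact mean_congr fun ω _ => by ring
    rcases Nat.eq_zero_or_pos d with hd | hd
    · -- degree zero
      have hz : ∀ ω, poly u c' ω = 0 := by
        intro ω
        unfold poly
        refine Finset.sum_eq_zero fun T hT => ?_
        have hT' := Finset.mem_powerset.1 hT
        have : c' T = 0 := by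
          rw [hc']
          refine hc _ (Finset.insert_subset_insert a hT') ?_
          rw [hd]
          exact Finset.card_pos.2 ⟨a, Finset.mem_insert_self a T⟩
        rw [this, zero_mul]
      have hB' : B = 0 := by
        rw [hB]
        simp [hz, mean]
      rw [h4, hsq, hB', add_zero]
      have e1 : mean u (fun ω => poly u c ω ^ 2 * poly u c' ω ^ 2) = 0 := by
        simp [hz, mean]
      have e2 : mean u (fun ω => poly u c' ω ^ 4) = 0 := by
        simp [hz, mean]
      rw [e1, e2]
      linarith
    · obtain ⟨e, rfl⟩ : ∃ e, d = e + 1 := ⟨d - 1, by omega⟩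
      have hh : ∀ T ⊆ u, e < T.card → c' T = 0 := by
        intro T hT hcard
        rw [hc']
        refine hc _ (Finset.insert_subset_insert a hT) ?_
        rw [Finset.card_insert_of_notMem fun h => ha (hT h)]
        omega
      have hH4 := ih e c' hh
      rw [← hB] at hH4
      have hcs := mean_mul_sq_le u (fun ω => poly u c ω ^ 2) (fun ω => poly u c' ω ^ 2)
      have e1 : mean u (fun ω => (poly u c ω ^ 2) ^ 2) = mean u (fun ω => poly u c ω ^ 4) :=
        mean_congr fun ω _ => by ring
      have e2 : mean u (fun ω => (poly u c' ω ^ 2) ^ 2) = mean u (fun ω => poly u c' ω ^ 4) :=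
        mean_congr fun ω _ => by ring
      rw [e1, e2] at hcs
      set X : ℝ := mean u (fun ω => poly u c ω ^ 2 * poly u c' ω ^ 2) with hX
      have hX0 : 0 ≤ X := mean_nonneg fun ω _ => by positivity
      have hX : X ≤ 3 * 9 ^ e * (A * B) := by
        refine abs_le_of_sq_le_sq' ?_ (by positivity) |>.2
        calc X ^ 2 ≤ mean u (fun ω => poly u c ω ^ 4) * mean u (fun ω => poly u c' ω ^ 4) := hcs
          _ ≤ (9 ^ (e + 1) * A ^ 2) * (9 ^ e * B ^ 2) := by
              gcongr
              exact mean_nonneg fun ω _ => by positivity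
          _ = (3 * 9 ^ e * (A * B)) ^ 2 := by ring
      rw [h4, hsq]
      calc mean u (fun ω => poly u c ω ^ 4) + 6 * X + mean u (fun ω => poly u c' ω ^ 4)
          ≤ 9 ^ (e + 1) * A ^ 2 + 6 * (3 * 9 ^ e * (A * B)) + 9 ^ e * B ^ 2 := by
            gcongr
        _ ≤ 9 ^ (e + 1) * (A + B) ^ 2 := by
            have : (0 : ℝ) ≤ 9 ^ e * (8 * B ^ 2) := by positivity
            nlinarith [this, pow_succ (9 : ℝ) e]

/-- First moment bound for functions of degree at most three. -/
theorem l1_l2 (u : Finset V) (c : Finset V → ℝ) (hc : ∀ T ⊆ u, 3 < T.card → c T = 0) :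
    Real.sqrt (∑ T ∈ u.powerset, c T ^ 2) ≤ 27 * mean u (fun ω => |poly u c ω|) := by
  rw [← mean_poly_sq]
  set M2 : ℝ := mean u (fun ω => poly u c ω ^ 2) with hM2
  have hM0 : 0 ≤ M2 := mean_nonneg fun ω _ => by positivity
  set M : ℝ := Real.sqrt M2 with hM
  have hMM : M ^ 2 = M2 := Real.sq_sqrt hM0
  have hb := bonami u 3 c hc
  rw [← hM2] at hb
  rcases eq_or_lt_of_le (Real.sqrt_nonneg M2) with h0 | h0
  · rw [hM, ← h0]
    have : 0 ≤ mean u (fun ω => |poly u c ω|) := mean_nonneg fun ω _ => abs_nonneg _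
    linarith
  · rw [← hM] at h0
    have hpt : ∀ ω ⊆ u, 3 / 2 * (27 * M) ^ 2 * poly u c ω ^ 2 - 1 / 2 * poly u c ω ^ 4
        ≤ (27 * M) ^ 3 * |poly u c ω| := by
      intro ω _
      set x := |poly u c ω| with hx
      have hx0 : 0 ≤ x := abs_nonneg _
      have e2 : poly u c ω ^ 2 = x ^ 2 := by rw [hx, sq_abs]
      have e4 : poly u c ω ^ 4 = x ^ 4 := by
        calc poly u c ω ^ 4 = (poly u c ω ^ 2) ^ 2 := by ring
          _ = (x ^ 2) ^ 2 := by rw [e2]
          _ = x ^ 4 := by ring
      rw [e2, e4]
      have hk : 0 ≤ 27 * M := by positivity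
      have : 0 ≤ x * (x - 27 * M) ^ 2 * (x + 2 * (27 * M)) := by positivity
      nlinarith [this]
    have hm := mean_mono hpt
    rw [mean_sub, mean_mul_left, mean_mul_left, mean_mul_left, ← hM2] at hm
    have h1 : 3 / 2 * (27 * M) ^ 2 * M2 - 1 / 2 * mean u (fun ω => poly u c ω ^ 4)
        ≥ 729 * M2 ^ 2 := by
      have : mean u (fun ω => poly u c ω ^ 4) ≤ 729 * M2 ^ 2 := by
        calc _ ≤ _ := hb
          _ = 729 * M2 ^ 2 := by norm_num
      have h2 : 3 / 2 * (27 * M) ^ 2 * M2 = 3 / 2 * 729 * M2 ^ 2 := by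
        rw [mul_pow, hMM]; ring
      rw [h2]
      linarith
    have h3 : 729 * M2 ^ 2 ≤ (27 * M) ^ 3 * mean u (fun ω => |poly u c ω|) := le_trans h1 hm
    have h4 : (729 * M ^ 3) * M ≤ (729 * M ^ 3) * (27 * mean u (fun ω => |poly u c ω|)) := by
      have e1 : 729 * M2 ^ 2 = (729 * M ^ 3) * M := by rw [← hMM]; ring
      have e2 : (27 * M) ^ 3 * mean u (fun ω => |poly u c ω|)
          = (729 * M ^ 3) * (27 * mean u (fun ω => |poly u c ω|)) := by ring
      rw [← e1, ← e2]
      exact h3
    exact le_of_mul_le_mul_left h4 (by positivity)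

/-! ## Triples -/

/-- Sum of `y` over the triples of `s` that contain `U`. -/
noncomputable def deg3 (y : Finset V → ℝ) (s U : Finset V) : ℝ :=
  ∑ T ∈ (s.powersetCard 3).filter (fun T => U ⊆ T), y T

/-- Total of `y` over the triples of `s`. -/
noncomputable def tot (y : Finset V → ℝ) (s : Finset V) : ℝ := ∑ T ∈ s.powersetCard 3, y T

lemma deg3_empty (y : Finset V → ℝ) (s : Finset V) : deg3 y s ∅ = tot y s := by
  unfold deg3 tot
  congr 1
  ext T
  simp

lemma ind_eq (T K : Finset V) :
    (if T ⊆ K then (1 : ℝ) else 0) = (1 / 2) ^ T.card * ∑ U ∈ T.powerset, chi U K := by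
  have h1 : (if T ⊆ K then (1 : ℝ) else 0) = ∏ a ∈ T, ((1 + sg K a) / 2) := by
    split_ifs with h
    · symm
      refine Finset.prod_eq_one fun a ha => ?_
      unfold sg
      rw [if_pos (h ha)]
      norm_num
    · symm
      obtain ⟨a, ha, haK⟩ := Finset.not_subset.1 h
      refine Finset.prod_eq_zero ha ?_
      unfold sg
      rw [if_neg haK]
      norm_num
  rw [h1]
  have h2 : ∏ a ∈ T, ((1 + sg K a) / 2) = (1 / 2) ^ T.card * ∏ a ∈ T, (1 + sg K a) := by
    rw [← Finset.prod_const, ← Finset.prod_mul_distrib]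
    exact Finset.prod_congr rfl fun a _ => by ring
  rw [h2, Finset.prod_one_add]
  rfl

/-- The total over a subset as a polynomial. -/
lemma tot_eq_poly (y : Finset V → ℝ) {s K : Finset V} (hK : K ⊆ s) :
    tot y K = poly s (fun U => 1 / 8 * deg3 y s U) K := by
  have h1 : tot y K = ∑ T ∈ s.powersetCard 3, y T * (if T ⊆ K then (1 : ℝ) else 0) := by
    unfold tot
    simp only [mul_ite, mul_one, mul_zero]
    rw [← Finset.sum_filter]
    congr 1
    ext T
    simp only [Finset.mem_powersetCard, Finset.mem_filter]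
    constructor
    · rintro ⟨h, h'⟩
      exact ⟨⟨h.trans hK, h'⟩, h⟩
    · rintro ⟨⟨_, h'⟩, h⟩
      exact ⟨h, h'⟩
  rw [h1]
  have h2 : ∀ T ∈ s.powersetCard 3, y T * (if T ⊆ K then (1 : ℝ) else 0)
      = ∑ U ∈ s.powerset, if U ⊆ T then 1 / 8 * y T * chi U K else 0 := by
    intro T hT
    rw [Finset.mem_powersetCard] at hT
    rw [ind_eq, hT.2, ← Finset.sum_filter]
    have : s.powerset.filter (fun U => U ⊆ T) = T.powerset := by
      ext U
      simp only [Finset.mem_filter, Finset.mem_powerset]
      exact ⟨fun h => h.2, fun h => ⟨h.trans hT.1, h⟩⟩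
    rw [this, Finset.mul_sum, Finset.mul_sum]
    refine Finset.sum_congr rfl fun U _ => ?_
    ring
  rw [Finset.sum_congr rfl h2, Finset.sum_comm]
  unfold poly deg3
  refine Finset.sum_congr rfl fun U _ => ?_
  simp only
  rw [← Finset.sum_filter, Finset.mul_sum, Finset.sum_mul]

lemma deg3_eq_zero (y : Finset V → ℝ) {s U : Finset V} (hU : 3 < U.card) : deg3 y s U = 0 := by
  unfold deg3
  rw [Finset.filter_eq_empty_iff.2, Finset.sum_empty]
  intro T hT hUT
  have := Finset.card_le_card hUT
  rw [(Finset.mem_powersetCard.1 hT).2] at this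
  omega

/-- Averaging: nonnegative totals over `r`-subsets give nonnegative totals over larger sets. -/
lemma tot_nonneg_of_card (y : Finset V → ℝ) {s : Finset V} {r : ℕ} (hr : 3 ≤ r)
    (h : ∀ K ⊆ s, K.card = r → 0 ≤ tot y K) :
    ∀ K ⊆ s, r ≤ K.card → 0 ≤ tot y K := by
  intro K hK hcard
  obtain ⟨m, hm⟩ : ∃ m, K.card = r + m := ⟨K.card - r, by omega⟩
  clear hcard
  induction m generalizing K with
  | zero => exact h K hK (by omega)
  | succ m ih =>
    have key : ∑ a ∈ K, tot y (K.erase a) = ((K.card : ℝ) - 3) * tot y K := by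
      unfold tot
      have h1 : ∀ a ∈ K, ∑ T ∈ (K.erase a).powersetCard 3, y T
          = ∑ T ∈ K.powersetCard 3, if a ∈ K \ T then y T else 0 := by
        intro a ha
        rw [← Finset.sum_filter]
        congr 1
        ext T
        simp only [Finset.mem_powersetCard, Finset.mem_filter, Finset.mem_sdiff]
        constructor
        · rintro ⟨h, h'⟩
          exact ⟨⟨h.trans (Finset.erase_subset a K), h'⟩, ha,
            fun haT => Finset.notMem_erase a K (h haT)⟩
        · rintro ⟨⟨h, h'⟩, _, haT⟩
          exact ⟨Finset.subset_erase.2 ⟨h, haT⟩, h'⟩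
      rw [Finset.sum_congr rfl h1, Finset.sum_comm, Finset.mul_sum]
      refine Finset.sum_congr rfl fun T hT => ?_
      rw [Finset.mem_powersetCard] at hT
      rw [← Finset.sum_filter, Finset.sum_const]
      have : K.filter (fun a => a ∈ K \ T) = K \ T := by
        ext a
        simp
      rw [this, Finset.card_sdiff_of_subset hT.1, hT.2, nsmul_eq_mul,
        Nat.cast_sub (by omega)]
      norm_num
    have h2 : 0 ≤ ∑ a ∈ K, tot y (K.erase a) := by
      refine Finset.sum_nonneg fun a ha => ?_
      refine ih (K.erase a) ((Finset.erase_subset a K).trans hK) ?_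
      rw [Finset.card_erase_of_mem ha]
      omega
    rw [key] at h2
    have h3 : (0 : ℝ) < (K.card : ℝ) - 3 := by
      have : (3 : ℝ) < K.card := by
        have : 3 < K.card := by omega
        exact_mod_cast this
      linarith
    exact nonneg_of_mul_nonneg_right h2 h3

/-- Small subsets are rare. -/
lemma mean_small (s : Finset V) (r : ℕ) (hr : 18 ≤ r) (hs : 4 * r ≤ s.card) :
    mean s (fun K => if K.card < r then (1 : ℝ) else 0) ≤ 1 / 11664 := by
  have h1 : mean s (fun K => if K.card < r then (1 : ℝ) else 0)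
      ≤ mean s (fun K => 3 ^ r * (1 / 3) ^ K.card) := by
    refine mean_mono fun K _ => ?_
    split_ifs with h
    · have : (1 : ℝ) = 3 ^ r * (1 / 3) ^ r := by
        rw [← mul_pow]; norm_num
      calc (1 : ℝ) = 3 ^ r * (1 / 3) ^ r := this
        _ ≤ 3 ^ r * (1 / 3) ^ K.card := by
          gcongr ?_ * ?_
          exact pow_le_pow_of_le_one (by norm_num) (by norm_num) h.le
    · positivity
  have h2 : mean s (fun K => (3 : ℝ) ^ r * (1 / 3) ^ K.card) = 3 ^ r * (2 / 3) ^ s.card := by
    rw [mean_mul_left]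
    congr 1
    unfold mean
    have := Finset.sum_pow_mul_eq_add_pow (1 / 3 : ℝ) 1 s
    simp only [one_pow, mul_one] at this
    rw [this, ← div_pow]
    norm_num
  rw [h2] at h1
  refine h1.trans ?_
  calc (3 : ℝ) ^ r * (2 / 3) ^ s.card ≤ 3 ^ r * (2 / 3) ^ (4 * r) := by
        gcongr ?_ * ?_
        exact pow_le_pow_of_le_one (by norm_num) (by norm_num) hs
    _ = (16 / 27) ^ r := by
        rw [pow_mul, ← mul_pow]; norm_num
    _ ≤ (16 / 27) ^ 18 := pow_le_pow_of_le_one (by norm_num) (by norm_num) hr
    _ ≤ 1 / 11664 := by norm_num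

/-- **Slack lemma.** -/
theorem slack (y : Finset V → ℝ) (s : Finset V) (r : ℕ) (hr : 18 ≤ r) (hs : 4 * r ≤ s.card)
    (h : ∀ K ⊆ s, K.card = r → 0 ≤ tot y K) :
    Real.sqrt (∑ U ∈ s.powerset, deg3 y s U ^ 2) ≤ 54 * tot y s := by
  set c : Finset V → ℝ := fun U => 1 / 8 * deg3 y s U with hcdef
  have hc : ∀ T ⊆ s, 3 < T.card → c T = 0 := fun T _ hT => by
    rw [hcdef]
    simp only
    rw [deg3_eq_zero y hT, mul_zero]
  have hpos := tot_nonneg_of_card y (by omega : 3 ≤ r) h
  -- norm
  set M : ℝ := Real.sqrt (∑ T ∈ s.powerset, c T ^ 2) with hM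
  have hM' : Real.sqrt (∑ U ∈ s.powerset, deg3 y s U ^ 2) = 8 * M := by
    rw [hM]
    have : ∑ T ∈ s.powerset, c T ^ 2 = (1 / 8) ^ 2 * ∑ U ∈ s.powerset, deg3 y s U ^ 2 := by
      rw [Finset.mul_sum]
      exact Finset.sum_congr rfl fun U _ => by rw [hcdef]; ring
    rw [this, Real.sqrt_mul (by positivity), Real.sqrt_sq (by norm_num)]
    ring
  have hl := l1_l2 s c hc
  rw [← hM] at hl
  have hmean : mean s (poly s c) = 1 / 8 * tot y s := by
    rw [mean_poly, hcdef]
    simp only
    rw [deg3_empty]
  set bad : Finset V → ℝ := fun K => if K.card < r then (1 : ℝ) else 0 with hbad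
  have habs : mean s (fun ω => |poly s c ω|)
      ≤ mean s (poly s c) + 2 * mean s (fun ω => bad ω * |poly s c ω|) := by
    rw [← mean_mul_left, ← mean_add]
    refine mean_mono fun K hK => ?_
    by_cases hcard : K.card < r
    · have : bad K = 1 := by rw [hbad]; simp [hcard]
      rw [this]
      have := neg_abs_le (poly s c K)
      linarith
    · have : bad K = 0 := by rw [hbad]; simp [hcard]
      rw [this]
      have h0 : 0 ≤ poly s c K := by
        rw [← tot_eq_poly y hK]
        exact hpos K hK (by omega)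
      rw [abs_of_nonneg h0]
      linarith
  have hbadle : mean s (fun ω => bad ω * |poly s c ω|) ≤ 1 / 108 * M := by
    have hcs := mean_mul_sq_le s bad (fun ω => |poly s c ω|)
    have e1 : mean s (fun ω => bad ω ^ 2) = mean s bad :=
      mean_congr fun K _ => by rw [hbad]; simp only; split_ifs <;> norm_num
    have e2 : mean s (fun ω => |poly s c ω| ^ 2) = M ^ 2 := by
      rw [hM, Real.sq_sqrt (by positivity), ← mean_poly_sq]
      exact mean_congr fun K _ => sq_abs _
    rw [e1, e2] at hcs
    have hb : mean s bad ≤ 1 / 11664 := mean_small s r hr hs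
    refine abs_le_of_sq_le_sq' ?_ (by positivity) |>.2
    calc _ ≤ mean s bad * M ^ 2 := hcs
      _ ≤ 1 / 11664 * M ^ 2 := by gcongr
      _ = (1 / 108 * M) ^ 2 := by ring
  rw [hM']
  rw [hmean] at habs
  linarith

end MP5c68
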